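import Pool.Agent.Helper92.CS.Defs

/-!
CS-BfE (project CS, MP_fb29e9_nt; README: /team-store/h92_CS_README.md). About ~80 lines.

PROOF. Bf smooth, constant (1, 0) outside [1/4, 1/2]: derivatives continuous and zero outside a compact set for i >= 1, |Bf| <= 1. e: iteratedDeriv i e = (2 pi i)^i e, norm (2 pi)^i <= (2 pi)^N.
-/

open MeasureTheory Set Filter Topology

noncomputable section

namespace Pool.Agent.Helper92.CS

private theorem h2_combine {F : Type*} (N : ℕ) (f : ℕ → F → ℝ)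
    (h : ∀ i, ∃ C : ℝ, ∀ t, f i t ≤ C) : ∃ C : ℝ, 1 ≤ C ∧ ∀ t, ∀ i ≤ N, f i t ≤ C := by
  choose C hC using h
  refine ⟨1 + ∑ i ∈ Finset.range (N + 1), |C i|, ?_, fun t i hi => ?_⟩
  · have : 0 ≤ ∑ i ∈ Finset.range (N + 1), |C i| := Finset.sum_nonneg fun i _ => abs_nonneg _
    linarith
  · have h1 : |C i| ≤ ∑ i ∈ Finset.range (N + 1), |C i| :=
      Finset.single_le_sum (f := fun i => |C i|) (fun i _ => abs_nonneg _)
        (Finset.mem_range.2 (Nat.lt_succ_of_le hi))
    have h2 := hC i t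
    have h3 := le_abs_self (C i)
    linarith

theorem Bf_deriv (N : ℕ) : ContDiff ℝ (⊤ : ℕ∞) Bf ∧
    ∃ C : ℝ, 1 ≤ C ∧ ∀ t : ℝ, ∀ i ≤ N, |iteratedDeriv i Bf t| ≤ C := by
  have hsm : ContDiff ℝ (⊤ : ℕ∞) Bf := by
    have h1 : ContDiff ℝ (⊤ : ℕ∞) (fun t : ℝ => 2 - 4 * t) :=
      contDiff_const.sub (contDiff_const.mul contDiff_id)
    exact Real.smoothTransition.contDiff.comp h1
  refine ⟨hsm, h2_combine N (fun i t => |iteratedDeriv i Bf t|) fun i => ?_⟩
  have hcont : Continuous (iteratedDeriv i Bf) :=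
    hsm.continuous_iteratedDeriv i (by exact_mod_cast le_top)
  obtain ⟨C, hC⟩ := (isCompact_Icc (a := (0 : ℝ)) (b := 1)).exists_bound_of_continuousOn
    hcont.continuousOn
  have hconst : ∀ (c t : ℝ), Bf =ᶠ[𝓝 t] (fun _ => c) → |c| ≤ 1 → |iteratedDeriv i Bf t| ≤ 1 := by
    intro c t h hc
    rw [h.iteratedDeriv_eq, iteratedDeriv_const]
    split_ifs
    · exact hc
    · simp
  refine ⟨max C 1, fun t => ?_⟩
  rcases lt_or_ge t (1 / 4) with h | h
  · refine (hconst 1 t ?_ (by simp)).trans (le_max_right _ _)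
    filter_upwards [Iio_mem_nhds h] with x hx
    unfold Bf
    apply Real.smoothTransition.one_of_one_le
    have : x < 1 / 4 := hx
    linarith
  · rcases lt_or_ge (1 / 2) t with h' | h'
    · refine (hconst 0 t ?_ (by simp)).trans (le_max_right _ _)
      filter_upwards [Ioi_mem_nhds h'] with x hx
      unfold Bf
      apply Real.smoothTransition.zero_of_nonpos
      have : 1 / 2 < x := hx
      linarith
    · have := hC t ⟨by linarith, by linarith⟩
      rw [Real.norm_eq_abs] at this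
      exact this.trans (le_max_left _ _)

private theorem h2_e_hasDeriv (t : ℝ) : HasDerivAt e ((2 * Real.pi : ℝ) * Complex.I * e t) t := by
  have h1 : HasDerivAt (fun t : ℝ => ((2 * Real.pi * t : ℝ) : ℂ)) ((2 * Real.pi : ℝ) : ℂ) t := by
    have h0 : HasDerivAt (fun t : ℝ => 2 * Real.pi * t) (2 * Real.pi) t := by
      simpa using (hasDerivAt_id t).const_mul (2 * Real.pi)
    exact h0.ofReal_comp
  have h2 := (h1.mul_const Complex.I).cexp
  unfold e
  convert h2 using 1
  ring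

private theorem h2_e_iter (i : ℕ) :
    iteratedDeriv i e = fun t => ((2 * Real.pi : ℝ) * Complex.I) ^ i * e t := by
  induction i with
  | zero => rw [iteratedDeriv_zero]; funext t; simp
  | succ i ih =>
    rw [iteratedDeriv_succ, ih]
    funext t
    rw [((h2_e_hasDeriv t).const_mul (((2 * Real.pi : ℝ) * Complex.I) ^ i)).deriv]
    ring

theorem e_deriv (N : ℕ) : ContDiff ℝ (⊤ : ℕ∞) e ∧
    ∃ C : ℝ, 1 ≤ C ∧ ∀ t : ℝ, ∀ i ≤ N, ‖iteratedDeriv i e t‖ ≤ C := by
  constructor
  · unfold e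
    have h1 : ContDiff ℝ (⊤ : ℕ∞) (fun t : ℝ => (2 * Real.pi * t : ℝ)) :=
      contDiff_const.mul contDiff_id
    have h2 : ContDiff ℝ (⊤ : ℕ∞) (fun t : ℝ => ((2 * Real.pi * t : ℝ) : ℂ)) :=
      Complex.ofRealCLM.contDiff.comp h1
    exact (h2.mul contDiff_const).cexp
  · refine h2_combine N (fun i t => ‖iteratedDeriv i e t‖) fun i => ?_
    refine ⟨(2 * Real.pi) ^ i, fun t => ?_⟩
    rw [h2_e_iter]
    have h3 : ‖e t‖ = 1 := by
      unfold e
      rw [Complex.norm_exp_ofReal_mul_I]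
    rw [norm_mul, h3, mul_one, norm_pow, norm_mul, Complex.norm_I, mul_one, Complex.norm_real,
      Real.norm_of_nonneg (by positivity)]

end Pool.Agent.Helper92.CS
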