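import Pool.Agent.Helper92.CS.Defs

/-!
CS-ClsMul (project CS, MP_fb29e9_nt; README: /team-store/h92_CS_README.md). About ~60 lines.

PROOF. Leibniz: iteratedDeriv_mul-type bound (norm_iteratedFDeriv_mul_le needs global ContDiff; for ContDiffAt use norm_iteratedFDerivWithin_mul_le on an open neighbourhood, or a
Leibniz formula for iteratedDeriv at a point, e.g. iteratedDeriv_fun_mul / iteratedDeriv_mul if it exists in Mathlib). sum_j C(i,j) M1 D^j M2 D^(i-j) = 2^i M1 M2 D^i.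
-/

open MeasureTheory Set Filter Topology

noncomputable section

namespace Pool.Agent.Helper92.CS

theorem Cls.mul {N : ℕ} {D M₁ M₂ : ℝ} {f g : ℝ → ℂ} {t : ℝ} (hD : 0 ≤ D) (hM₁ : 0 ≤ M₁)
    (hM₂ : 0 ≤ M₂) (hf : Cls N D M₁ f t) (hg : Cls N D M₂ g t) :
    Cls N D (2 ^ N * M₁ * M₂) (fun t => f t * g t) t := by
  refine ⟨hf.1.mul hg.1, fun i hi => ?_⟩
  have hfi : ContDiffAt ℝ i f t := hf.1.of_le (by exact_mod_cast hi)
  have hgi : ContDiffAt ℝ i g t := hg.1.of_le (by exact_mod_cast hi)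
  rw [iteratedDeriv_fun_mul hfi hgi]
  have h1 : ∀ j ∈ Finset.range (i + 1),
      ‖((i.choose j : ℕ) : ℂ) * iteratedDeriv j f t * iteratedDeriv (i - j) g t‖ ≤
        (i.choose j : ℝ) * (M₁ * M₂ * D ^ i) := by
    intro j hj
    have hji : j ≤ i := Nat.lt_succ_iff.1 (Finset.mem_range.1 hj)
    have a1 := hf.2 j (hji.trans hi)
    have a2 := hg.2 (i - j) ((Nat.sub_le i j).trans hi)
    rw [norm_mul, norm_mul, Complex.norm_natCast, mul_assoc]
    refine mul_le_mul_of_nonneg_left ?_ (Nat.cast_nonneg _)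
    refine (mul_le_mul a1 a2 (norm_nonneg _) (by positivity)).trans (le_of_eq ?_)
    have e1 : D ^ i = D ^ j * D ^ (i - j) := by
      rw [← pow_add, Nat.add_sub_cancel' hji]
    rw [e1]
    ring
  refine (norm_sum_le _ _).trans ((Finset.sum_le_sum h1).trans ?_)
  rw [← Finset.sum_mul]
  have h2 : ∑ j ∈ Finset.range (i + 1), (i.choose j : ℝ) = 2 ^ i := by
    have := Nat.sum_range_choose i
    exact_mod_cast this
  rw [h2]
  have h3 : (2 : ℝ) ^ i ≤ 2 ^ N := pow_le_pow_right₀ (by norm_num) hi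
  calc (2 : ℝ) ^ i * (M₁ * M₂ * D ^ i) ≤ 2 ^ N * (M₁ * M₂ * D ^ i) :=
        mul_le_mul_of_nonneg_right h3 (by positivity)
    _ = 2 ^ N * M₁ * M₂ * D ^ i := by ring

theorem Cls.sub {N : ℕ} {D M₁ M₂ : ℝ} {f g : ℝ → ℂ} {t : ℝ}
    (hf : Cls N D M₁ f t) (hg : Cls N D M₂ g t) :
    Cls N D (M₁ + M₂) (fun t => f t - g t) t := by
  refine ⟨hf.1.sub hg.1, fun i hi => ?_⟩
  have hfi : ContDiffAt ℝ i f t := hf.1.of_le (by exact_mod_cast hi)
  have hgi : ContDiffAt ℝ i g t := hg.1.of_le (by exact_mod_cast hi)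
  rw [iteratedDeriv_fun_sub hfi hgi, add_mul]
  exact (norm_sub_le _ _).trans (add_le_add (hf.2 i hi) (hg.2 i hi))

end Pool.Agent.Helper92.CS
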