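import Pool.Agent.Helper92.CS.Defs

/-!
CS-Comp (project CS, MP_fb29e9_nt; README: /team-store/h92_CS_README.md). About ~120 lines.

PROOF. Mathlib: norm_iteratedFDerivWithin_comp_le (Analysis/Calculus/ContDiff/Bounds.lean) on open sets: t' = open neighbourhood of f t where G is C^N, s = open neighbourhood of t where f is
C^N and which f maps into t'. It gives |D^n (G o f)| <= n! C D^n at the point. norm_iteratedFDeriv_eq_norm_iteratedDeriv, iteratedFDerivWithin_of_isOpen.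
For Inn.comp: i! M D^i <= N! M D^i <= (N! M D)^i for 1 <= i <= N because N! M >= 1.
-/

open MeasureTheory Set Filter Topology

noncomputable section

namespace Pool.Agent.Helper92.CS

private theorem h11_comp_bound {E : Type*} [NormedAddCommGroup E] [NormedSpace ℝ E] {N : ℕ}
    {D C : ℝ} {G : ℝ → E} {f : ℝ → ℝ} {t : ℝ} (hG : ContDiffAt ℝ N G (f t))
    (hf : ContDiffAt ℝ N f t) (hC : ∀ i ≤ N, ‖iteratedDeriv i G (f t)‖ ≤ C)
    (hD : ∀ i, 1 ≤ i → i ≤ N → ‖iteratedDeriv i f t‖ ≤ D ^ i) (n : ℕ) (hn : n ≤ N) :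
    ‖iteratedDeriv n (fun t => G (f t)) t‖ ≤ (Nat.factorial n) * C * D ^ n := by
  obtain ⟨u, hu, hGu⟩ := hG.contDiffOn le_rfl (by simp)
  obtain ⟨v, hv, hfv⟩ := hf.contDiffOn le_rfl (by simp)
  set U := interior u with hU
  have hUo : IsOpen U := isOpen_interior
  have hUt : f t ∈ U := mem_interior_iff_mem_nhds.2 hu
  have hGU : ContDiffOn ℝ N G U := hGu.mono interior_subset
  have hfV : ContDiffOn ℝ N f (interior v) := hfv.mono interior_subset
  set V := interior v ∩ f ⁻¹' U with hV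
  have hVo : IsOpen V := hfV.continuousOn.isOpen_inter_preimage isOpen_interior hUo
  have hVt : t ∈ V := ⟨mem_interior_iff_mem_nhds.2 hv, hUt⟩
  have key := norm_iteratedFDerivWithin_comp_le (𝕜 := ℝ) (g := G) (f := f) (n := n) (s := V)
    (t := U) (x := t) (N := (N : ℕ∞)) hGU (hfV.mono inter_subset_left) (by exact_mod_cast hn)
    hUo.uniqueDiffOn hVo.uniqueDiffOn (fun x hx => hx.2) hVt (C := C) (D := D)
    (fun i hi => by
      rw [iteratedFDerivWithin_of_isOpen i hUo hUt, norm_iteratedFDeriv_eq_norm_iteratedDeriv]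
      exact hC i (hi.trans hn))
    (fun i hi1 hi => by
      rw [iteratedFDerivWithin_of_isOpen i hVo hVt, norm_iteratedFDeriv_eq_norm_iteratedDeriv]
      exact hD i hi1 (hi.trans hn))
  rw [iteratedFDerivWithin_of_isOpen n hVo hVt, norm_iteratedFDeriv_eq_norm_iteratedDeriv] at key
  exact key

theorem Cls.comp {N : ℕ} {D M : ℝ} {G : ℝ → ℂ} {f : ℝ → ℝ} {t : ℝ} (hD : 0 ≤ D)
    (hG : ContDiffAt ℝ N G (f t)) (hM : ∀ i ≤ N, ‖iteratedDeriv i G (f t)‖ ≤ M)
    (hf : Inn N D f t) : Cls N D ((Nat.factorial N) * M) (fun t => G (f t)) t := by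
  have hM0 : 0 ≤ M := (norm_nonneg _).trans (hM 0 (Nat.zero_le _))
  refine ⟨hG.comp t hf.1, fun i hi => ?_⟩
  refine (h11_comp_bound hG hf.1 hM (fun j h1 h2 => by
    rw [Real.norm_eq_abs]; exact hf.2 j h1 h2) i hi).trans ?_
  have h1 : ((Nat.factorial i : ℕ) : ℝ) ≤ (Nat.factorial N : ℕ) := by
    exact_mod_cast Nat.factorial_le hi
  exact mul_le_mul_of_nonneg_right (mul_le_mul_of_nonneg_right h1 hM0) (pow_nonneg hD i)

theorem Inn.comp {N : ℕ} {D M : ℝ} {G : ℝ → ℝ} {f : ℝ → ℝ} {t : ℝ} (hD : 0 ≤ D) (hM1 : 1 ≤ M)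
    (hG : ContDiffAt ℝ N G (f t)) (hM : ∀ i ≤ N, |iteratedDeriv i G (f t)| ≤ M)
    (hf : Inn N D f t) : Inn N ((Nat.factorial N) * M * D) (fun t => G (f t)) t := by
  have hM0 : 0 ≤ M := zero_le_one.trans hM1
  refine ⟨hG.comp t hf.1, fun i hi1 hi => ?_⟩
  have h0 := h11_comp_bound hG hf.1 (C := M) (fun j h => by
    rw [Real.norm_eq_abs]; exact hM j h) (fun j h1 h2 => by
    rw [Real.norm_eq_abs]; exact hf.2 j h1 h2) i hi
  rw [Real.norm_eq_abs] at h0
  refine h0.trans ?_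
  have h1 : ((Nat.factorial i : ℕ) : ℝ) ≤ (Nat.factorial N : ℕ) := by
    exact_mod_cast Nat.factorial_le hi
  have h2 : (1 : ℝ) ≤ (Nat.factorial N : ℕ) := by
    exact_mod_cast Nat.one_le_iff_ne_zero.2 (Nat.factorial_ne_zero N)
  have h3 : (1 : ℝ) ≤ (Nat.factorial N : ℕ) * M := by nlinarith
  have h4 : ((Nat.factorial N : ℕ) : ℝ) * M ≤ (((Nat.factorial N : ℕ) : ℝ) * M) ^ i :=
    le_self_pow₀ h3 (by omega)
  rw [mul_pow]
  refine mul_le_mul_of_nonneg_right ?_ (pow_nonneg hD i)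
  exact (mul_le_mul_of_nonneg_right h1 hM0).trans h4

end Pool.Agent.Helper92.CS
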