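import Pool.Agent.Helper92.CS.Defs

/-!
CS-InnAlg (project CS, MP_fb29e9_nt; README: /team-store/h92_CS_README.md). About ~100 lines.

PROOF. add: D1^i + D2^i <= (D1+D2)^i for i >= 1. mul: Leibniz with |f^(j)| <= A D^j for all j <= N (j = 0 from hfA): total <= 2^i A^2 D^i <= (2 A^2 D)^i.
iteratedDeriv_add, iteratedDeriv_const_mul etc. at a point (versions with ContDiffAt), for the product see the header of ClsMul.lean.
-/

open MeasureTheory Set Filter Topology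

noncomputable section

namespace Pool.Agent.Helper92.CS

private theorem h44_pow_add {D₁ D₂ : ℝ} (hD₁ : 0 ≤ D₁) (hD₂ : 0 ≤ D₂) {i : ℕ} (hi : 1 ≤ i) :
    D₁ ^ i + D₂ ^ i ≤ (D₁ + D₂) ^ i :=
  pow_add_pow_le hD₁ hD₂ (by omega)

theorem Inn.add {N : ℕ} {D₁ D₂ : ℝ} {f g : ℝ → ℝ} {t : ℝ} (hD₁ : 0 ≤ D₁) (hD₂ : 0 ≤ D₂)
    (hf : Inn N D₁ f t) (hg : Inn N D₂ g t) : Inn N (D₁ + D₂) (fun t => f t + g t) t := by
  refine ⟨hf.1.add hg.1, fun i hi1 hi => ?_⟩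
  have hfi : ContDiffAt ℝ i f t := hf.1.of_le (by exact_mod_cast hi)
  have hgi : ContDiffAt ℝ i g t := hg.1.of_le (by exact_mod_cast hi)
  rw [iteratedDeriv_fun_add hfi hgi]
  exact (abs_add_le _ _).trans
    ((add_le_add (hf.2 i hi1 hi) (hg.2 i hi1 hi)).trans (h44_pow_add hD₁ hD₂ hi1))

theorem Inn.sub {N : ℕ} {D₁ D₂ : ℝ} {f g : ℝ → ℝ} {t : ℝ} (hD₁ : 0 ≤ D₁) (hD₂ : 0 ≤ D₂)
    (hf : Inn N D₁ f t) (hg : Inn N D₂ g t) : Inn N (D₁ + D₂) (fun t => f t - g t) t := by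
  refine ⟨hf.1.sub hg.1, fun i hi1 hi => ?_⟩
  have hfi : ContDiffAt ℝ i f t := hf.1.of_le (by exact_mod_cast hi)
  have hgi : ContDiffAt ℝ i g t := hg.1.of_le (by exact_mod_cast hi)
  rw [iteratedDeriv_fun_sub hfi hgi]
  exact (abs_sub _ _).trans
    ((add_le_add (hf.2 i hi1 hi) (hg.2 i hi1 hi)).trans (h44_pow_add hD₁ hD₂ hi1))

theorem Inn.const_mul {N : ℕ} {D c : ℝ} {f : ℝ → ℝ} {t : ℝ} (hc : |c| ≤ 1)
    (hD : 0 ≤ D) (hf : Inn N D f t) : Inn N D (fun t => c * f t) t := by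
  refine ⟨contDiffAt_const.mul hf.1, fun i hi1 hi => ?_⟩
  have hfi : ContDiffAt ℝ i f t := hf.1.of_le (by exact_mod_cast hi)
  rw [iteratedDeriv_const_mul c hfi, abs_mul]
  calc |c| * |iteratedDeriv i f t| ≤ 1 * D ^ i :=
        mul_le_mul hc (hf.2 i hi1 hi) (abs_nonneg _) zero_le_one
    _ = D ^ i := one_mul _

theorem Inn.mono {N : ℕ} {D D' : ℝ} {f : ℝ → ℝ} {t : ℝ} (hD : 0 ≤ D) (h : D ≤ D')
    (hf : Inn N D f t) : Inn N D' f t :=
  ⟨hf.1, fun i hi1 hi => (hf.2 i hi1 hi).trans (pow_le_pow_left₀ hD h i)⟩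

theorem Inn.mul {N : ℕ} {D A : ℝ} {f g : ℝ → ℝ} {t : ℝ} (hD : 0 ≤ D) (hA : 1 ≤ A)
    (hfA : |f t| ≤ A) (hgA : |g t| ≤ A) (hf : Inn N D f t) (hg : Inn N D g t) :
    Inn N (2 * A ^ 2 * D) (fun t => f t * g t) t := by
  have hA0 : (0 : ℝ) ≤ A := zero_le_one.trans hA
  have key : ∀ {u : ℝ → ℝ}, |u t| ≤ A → Inn N D u t → ∀ j ≤ N,
      |iteratedDeriv j u t| ≤ A * D ^ j := by
    intro u hu hI j hj
    rcases Nat.eq_zero_or_pos j with rfl | hj0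
    · simpa using hu
    · refine (hI.2 j hj0 hj).trans ?_
      have : 0 ≤ D ^ j := pow_nonneg hD j
      calc D ^ j = 1 * D ^ j := (one_mul _).symm
        _ ≤ A * D ^ j := mul_le_mul_of_nonneg_right hA this
  refine ⟨hf.1.mul hg.1, fun i hi1 hi => ?_⟩
  have hfi : ContDiffAt ℝ i f t := hf.1.of_le (by exact_mod_cast hi)
  have hgi : ContDiffAt ℝ i g t := hg.1.of_le (by exact_mod_cast hi)
  rw [iteratedDeriv_fun_mul hfi hgi]
  have h1 : ∀ j ∈ Finset.range (i + 1),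
      |((i.choose j : ℕ) : ℝ) * iteratedDeriv j f t * iteratedDeriv (i - j) g t| ≤
        (i.choose j : ℝ) * (A ^ 2 * D ^ i) := by
    intro j hj
    have hji : j ≤ i := Nat.lt_succ_iff.1 (Finset.mem_range.1 hj)
    have a1 := key hfA hf j (hji.trans hi)
    have a2 := key hgA hg (i - j) ((Nat.sub_le i j).trans hi)
    rw [abs_mul, abs_mul, Nat.abs_cast, mul_assoc]
    refine mul_le_mul_of_nonneg_left ?_ (Nat.cast_nonneg _)
    refine (mul_le_mul a1 a2 (abs_nonneg _) (by positivity)).trans (le_of_eq ?_)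
    have e1 : D ^ i = D ^ j * D ^ (i - j) := by
      rw [← pow_add, Nat.add_sub_cancel' hji]
    rw [e1]
    ring
  refine (Finset.abs_sum_le_sum_abs _ _).trans ((Finset.sum_le_sum h1).trans ?_)
  rw [← Finset.sum_mul]
  have h2 : ∑ j ∈ Finset.range (i + 1), (i.choose j : ℝ) = 2 ^ i := by
    have := Nat.sum_range_choose i
    exact_mod_cast this
  rw [h2]
  have h3 : A ^ 2 ≤ (A ^ 2) ^ i := by
    have hA2 : (1 : ℝ) ≤ A ^ 2 := one_le_pow₀ hA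
    exact le_self_pow₀ hA2 (by omega)
  calc (2 : ℝ) ^ i * (A ^ 2 * D ^ i) ≤ 2 ^ i * ((A ^ 2) ^ i * D ^ i) :=
        mul_le_mul_of_nonneg_left (mul_le_mul_of_nonneg_right h3 (pow_nonneg hD i))
          (by positivity)
    _ = (2 * A ^ 2 * D) ^ i := by rw [mul_pow, mul_pow]; ring

end Pool.Agent.Helper92.CS
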