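import Pool.Agent.Helper92.CS.Defs
import Pool.Agent.Helper92.CS.Comp
import Pool.Agent.Helper92.CS.InnAlg
import Pool.Agent.Helper92.CS.ClsMul
import Pool.Agent.Helper92.CS.BfE

/-!
CS-AmpDeriv (project CS, MP_fb29e9_nt; README: /team-store/h92_CS_README.md). About ~180 lines.

PROOF. alpha = 1/(8XL) <= 1/32, R <= X + 1 <= 5X/4. amp = 0 for |z| > w (z^2/(2w^2) > 1/2, Bf = 0), w <= 1/2. For |z| < 1 all is smooth (1 - z^2/4 > 0, 1 - alpha Bf >= 1/2), for |z| > w it is 0: ContDiff.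
Second derivative at |z| <= w: inner function z^2/(2w^2) is Inn 2 (1/w); b = Bf(...) Inn 2 (C/w); gz = alpha * (b/(1 - alpha b)); R^2 alpha <= C X/L and L R alpha <= 5/32; so amp = (R^2 alpha) * (smooth function of b, t, z with bounded derivatives) * e(phase),
phase = t (L R alpha) (b/(1 - alpha b)) (1 - z^2/2) is Inn 2 (C/w) (w <= 1). Cls.mul, Cls.comp: norm of the second derivative <= C (X/L) (1/w)^2. (1/sqrt(1-z^2/4) on |z| <= 1/2: smooth, derivatives bounded.)
-/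

open MeasureTheory Set Filter Topology

noncomputable section

namespace Pool.Agent.Helper92.CS

private theorem iter12_h77 {E : Type*} [NormedAddCommGroup E] [NormedSpace ℝ E] {f f' : ℝ → E}
    {f'' : E} {t : ℝ} (h1 : ∀ᶠ s in 𝓝 t, HasDerivAt f (f' s) s) (h2 : HasDerivAt f' f'' t) :
    iteratedDeriv 1 f t = f' t ∧ iteratedDeriv 2 f t = f'' := by
  have e1 : deriv f =ᶠ[𝓝 t] f' := h1.mono fun s hs => hs.deriv
  refine ⟨?_, ?_⟩
  · rw [iteratedDeriv_one]; exact e1.self_of_nhds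
  · rw [iteratedDeriv_succ, iteratedDeriv_one, e1.deriv_eq]
    exact h2.deriv

private theorem le2_cases_h77 {P : ℕ → Prop} (h0 : P 0) (h1 : P 1) (h2 : P 2) :
    ∀ i ≤ 2, P i := by
  intro i hi
  interval_cases i
  · exact h0
  · exact h1
  · exact h2

private theorem inn2_h77 {f f' : ℝ → ℝ} {f'' : ℝ} {t D : ℝ} (hc : ContDiffAt ℝ 2 f t)
    (h1 : ∀ᶠ s in 𝓝 t, HasDerivAt f (f' s) s) (h2 : HasDerivAt f' f'' t)
    (b1 : |f' t| ≤ D) (b2 : |f''| ≤ D ^ 2) : Inn 2 D f t := by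
  obtain ⟨e1, e2⟩ := iter12_h77 h1 h2
  refine ⟨by exact_mod_cast hc, ?_⟩
  intro i hi1 hi2
  interval_cases i
  · rw [e1]; simpa using b1
  · rw [e2]; exact b2

private theorem bnd2_h77 {E : Type*} [NormedAddCommGroup E] [NormedSpace ℝ E] {f f' : ℝ → E}
    {f'' : E} {t M : ℝ}
    (h1 : ∀ᶠ s in 𝓝 t, HasDerivAt f (f' s) s) (h2 : HasDerivAt f' f'' t)
    (b0 : ‖f t‖ ≤ M) (b1 : ‖f' t‖ ≤ M) (b2 : ‖f''‖ ≤ M) :
    ∀ i ≤ 2, ‖iteratedDeriv i f t‖ ≤ M := by
  obtain ⟨e1, e2⟩ := iter12_h77 h1 h2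
  refine le2_cases_h77 ?_ ?_ ?_
  · rw [iteratedDeriv_zero]; exact b0
  · rw [e1]; exact b1
  · rw [e2]; exact b2

private theorem Cls.const_h77 {N : ℕ} {D t : ℝ} (c : ℂ) (hD : 0 ≤ D) :
    Cls N D ‖c‖ (fun _ => c) t := by
  refine ⟨contDiffAt_const, ?_⟩
  intro i _
  rcases Nat.eq_zero_or_pos i with h | h
  · subst h; simp
  · rw [iteratedDeriv_const]
    simp only [h.ne', if_false, norm_zero]
    positivity

/-- `S(y) = (1 - y/4)^(-1/2)`. -/
private def S_h77 (y : ℝ) : ℝ := (Real.sqrt (1 - y / 4))⁻¹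

private theorem S_der_h77 {y : ℝ} (hy : y < 4) : HasDerivAt S_h77 (S_h77 y ^ 3 / 8) y := by
  have hp : 0 < 1 - y / 4 := by linarith
  have h0 : HasDerivAt (fun y : ℝ => 1 - y / 4) (-(1 / 4)) y := by
    simpa using ((hasDerivAt_id y).div_const 4).const_sub 1
  have h1 := (h0.sqrt hp.ne').inv (Real.sqrt_pos.2 hp).ne'
  have h2 : HasDerivAt S_h77 (-(-(1 / 4) / (2 * Real.sqrt (1 - y / 4))) /
      (Real.sqrt (1 - y / 4)) ^ 2) y := h1
  convert h2 using 1
  have hs := Real.sqrt_pos.2 hp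
  unfold S_h77
  field_simp
  norm_num

private theorem S_smooth_h77 {y : ℝ} (hy : y < 4) : ContDiffAt ℝ 2 S_h77 y := by
  have hp : 0 < 1 - y / 4 := by linarith
  unfold S_h77
  refine ContDiffAt.inv ?_ (Real.sqrt_pos.2 hp).ne'
  exact ContDiffAt.sqrt (by fun_prop) hp.ne'

private theorem S_le_h77 {y : ℝ} (hy : y ≤ 1 / 4) : 0 ≤ S_h77 y ∧ S_h77 y ≤ 2 := by
  unfold S_h77
  refine ⟨by positivity, ?_⟩
  have h : (1 / 2 : ℝ) ≤ Real.sqrt (1 - y / 4) := by
    apply Real.le_sqrt_of_sq_le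
    nlinarith
  rw [inv_le_comm₀ (by linarith) (by norm_num)]
  linarith

/-- inner function `z ^ 2 * c`. -/
private theorem inn_sq_h77 {z w c D : ℝ} (hz : |z| ≤ w) (hc : 0 ≤ c) (hD1 : 2 * w * c ≤ D)
    (hD2 : 2 * c ≤ D ^ 2) : Inn 2 D (fun z => z ^ 2 * c) z := by
  refine inn2_h77 (f' := fun z => 2 * z * c) (f'' := 2 * c) ?_ ?_ ?_ ?_ ?_
  · fun_prop
  · refine Filter.Eventually.of_forall fun s => ?_
    simpa using (hasDerivAt_pow 2 s).mul_const c
  · simpa using ((hasDerivAt_id z).const_mul 2).mul_const c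
  · rw [abs_mul, abs_mul, abs_of_nonneg hc]
    norm_num
    have := mul_le_mul_of_nonneg_right (mul_le_mul_of_nonneg_left hz (by norm_num : (0:ℝ) ≤ 2)) hc
    linarith
  · rw [abs_of_nonneg (by positivity)]; exact hD2

/-- `G(y) = y/(1 - a y)` composed with an inner function with values in `[0,1]`. -/
private theorem inn_G_h77 {a z D : ℝ} {b : ℝ → ℝ} (ha0 : 0 ≤ a) (ha : a ≤ 1 / 32) (hD : 0 ≤ D)
    (hb0 : 0 ≤ b z) (hb1 : b z ≤ 1) (hb : Inn 2 D b z) :
    Inn 2 (4 * D) (fun z => b z / (1 - a * b z)) z := by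
  have hpos : ∀ y : ℝ, y < 2 → 0 < 1 - a * y := by
    intro y hy
    nlinarith
  have hne : ∀ᶠ s in 𝓝 (b z), s < 2 :=
    (isOpen_Iio (a := (2 : ℝ))).mem_nhds (by show b z < 2; linarith)
  have hd1 : ∀ s : ℝ, s < 2 → HasDerivAt (fun y : ℝ => y / (1 - a * y)) ((1 / (1 - a * s)) ^ 2) s := by
    intro s hs
    have h0 : HasDerivAt (fun y : ℝ => 1 - a * y) (-a) s := by
      simpa using ((hasDerivAt_id s).const_mul a).const_sub 1
    have h1 : HasDerivAt (fun y : ℝ => y / (1 - a * y)) _ s :=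
      (hasDerivAt_id' s).fun_div h0 (hpos s hs).ne'
    have := (hpos s hs).ne'
    refine h1.congr_deriv ?_
    field_simp
    ring
  have hd2 : HasDerivAt (fun s : ℝ => (1 / (1 - a * s)) ^ 2) (2 * a / (1 - a * b z) ^ 3) (b z) := by
    have hz2 : b z < 2 := by linarith
    have h0 : HasDerivAt (fun y : ℝ => 1 - a * y) (-a) (b z) := by
      simpa using ((hasDerivAt_id (b z)).const_mul a).const_sub 1
    have h1 := (h0.fun_inv (hpos _ hz2).ne').fun_pow 2
    have := (hpos _ hz2).ne'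
    simp only [one_div]
    refine h1.congr_deriv ?_
    norm_num
    field_simp
  have hlow : 31 / 32 ≤ 1 - a * b z := by nlinarith
  have hinv : 1 / (1 - a * b z) ≤ 32 / 31 := by
    rw [div_le_iff₀ (by linarith)]; linarith
  have hinv0 : 0 ≤ 1 / (1 - a * b z) := by
    have := hpos (b z) (by linarith)
    positivity
  have hcd : ContDiffAt ℝ (2 : ℕ) (fun y : ℝ => y / (1 - a * y)) (b z) := by
    refine ContDiffAt.div (by fun_prop) (by fun_prop) (hpos _ (by linarith)).ne'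
  have hM := bnd2_h77 (M := 2) (f := fun y : ℝ => y / (1 - a * y))
    (f' := fun s => (1 / (1 - a * s)) ^ 2) (f'' := 2 * a / (1 - a * b z) ^ 3) (t := b z)
    (hne.mono fun s hs => hd1 s hs) hd2 ?_ ?_ ?_
  · have := Inn.comp (N := 2) (D := D) (M := 2) hD (by norm_num) hcd
      (fun i hi => by simpa using hM i hi) hb
    refine Inn.mono (by positivity) ?_ this
    norm_num [Nat.factorial]
  · rw [Real.norm_eq_abs, abs_of_nonneg (by positivity [hpos (b z) (by linarith)])]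
    rw [div_eq_mul_one_div]
    nlinarith
  · rw [Real.norm_eq_abs, abs_of_nonneg (by positivity)]
    nlinarith
  · rw [Real.norm_eq_abs, abs_of_nonneg (by have := hpos (b z) (by linarith); positivity)]
    have e3 : 2 * a / (1 - a * b z) ^ 3 = 2 * a * (1 / (1 - a * b z)) ^ 3 := by
      rw [one_div, inv_pow]; ring
    rw [e3]
    have h3 : (1 / (1 - a * b z)) ^ 3 ≤ (32 / 31) ^ 3 := by gcongr
    have h3' : 0 ≤ (1 / (1 - a * b z)) ^ 3 := by positivity
    nlinarith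

/-- `G(y) = y (1 + c y)` composed with an inner function with values in `[0,2]`. -/
private theorem inn_K_h77 {c z D : ℝ} {h : ℝ → ℝ} (hc0 : 0 ≤ c) (hc : c ≤ 1) (hD : 0 ≤ D)
    (hb0 : 0 ≤ h z) (hb1 : h z ≤ 2) (hb : Inn 2 D h z) :
    Inn 2 (12 * D) (fun z => h z * (1 + c * h z)) z := by
  have hcd : ContDiffAt ℝ (2 : ℕ) (fun y : ℝ => y * (1 + c * y)) (h z) := by fun_prop
  have hd1 : ∀ s : ℝ, HasDerivAt (fun y : ℝ => y * (1 + c * y)) (1 + 2 * c * s) s := by
    intro s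
    have h0 : HasDerivAt (fun y : ℝ => 1 + c * y) c s := by
      simpa using ((hasDerivAt_id s).const_mul c).const_add 1
    refine ((hasDerivAt_id' s).fun_mul h0).congr_deriv ?_
    ring
  have hd2 : HasDerivAt (fun s : ℝ => 1 + 2 * c * s) (2 * c) (h z) := by
    simpa using ((hasDerivAt_id (h z)).const_mul (2 * c)).const_add 1
  have hM := bnd2_h77 (M := 6) (f := fun y : ℝ => y * (1 + c * y))
    (f' := fun s => 1 + 2 * c * s) (f'' := 2 * c) (t := h z)
    (Filter.Eventually.of_forall hd1) hd2 ?_ ?_ ?_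
  · have := Inn.comp (N := 2) (D := D) (M := 6) hD (by norm_num) hcd
      (fun i hi => by simpa using hM i hi) hb
    refine Inn.mono (by positivity) ?_ this
    norm_num [Nat.factorial]
  · rw [Real.norm_eq_abs, abs_of_nonneg (by positivity)]
    have : c * h z ≤ 2 := by nlinarith
    nlinarith
  · rw [Real.norm_eq_abs, abs_of_nonneg (by positivity)]
    have : c * h z ≤ 2 := by nlinarith
    nlinarith
  · rw [Real.norm_eq_abs, abs_of_nonneg (by positivity)]
    linarith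

private theorem Bf_zero_h77 {t : ℝ} (h : 1 / 2 ≤ t) : Bf t = 0 := by
  unfold Bf
  exact Real.smoothTransition.zero_of_nonpos (by linarith)

private theorem cls_amp_h77 : ∃ K M : ℝ, 0 ≤ K ∧ 0 ≤ M ∧ ∀ X L w R t z : ℝ, Par X L w → X ≤ R →
    R ≤ X + 1 → 0 ≤ t → t ≤ 1 → |z| ≤ w →
      Cls 2 (K / w) (M * (X / L)) (amp (1 / (8 * X * L)) w L R t) z := by
  obtain ⟨hBs, CB, hCB1, hCB⟩ := Bf_deriv 2
  obtain ⟨hes, Ce, hCe1, hCe⟩ := e_deriv 2
  refine ⟨6912 * CB, 768 * Ce, by positivity, by positivity, ?_⟩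
  intro X L w R t z hP hR1 hR2 ht0 ht1 hz
  have hX4 := hP.X4
  have hL1 := hP.L1
  have hLX := hP.LX
  have hw0 := hP.w0
  have hw1 := hP.w1
  set a : ℝ := 1 / (8 * X * L) with ha
  have hXL : 4 ≤ X * L := by nlinarith
  have ha0 : 0 ≤ a := by positivity
  have ha32 : a ≤ 1 / 32 := by
    rw [ha, div_le_div_iff₀ (by positivity) (by norm_num)]
    nlinarith
  -- the bump
  have hw' : (1 : ℝ) ≤ 1 / w := by
    rw [le_div_iff₀ hw0]; linarith
  have hin1 : Inn 2 (1 / w) (fun z => z ^ 2 * (1 / (2 * w ^ 2))) z := by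
    refine inn_sq_h77 hz (by positivity) ?_ ?_
    · apply le_of_eq; field_simp
    · apply le_of_eq; field_simp
  have hbump : Inn 2 (2 * CB / w) (fun z => Bf (z ^ 2 * (1 / (2 * w ^ 2)))) z := by
    have := Inn.comp (N := 2) (D := 1 / w) (M := CB) (G := Bf) (by positivity) hCB1
      ((contDiff_infty.1 hBs 2).contDiffAt) (fun i hi => hCB _ i hi) hin1
    refine Inn.mono (by positivity) (le_of_eq ?_) this
    norm_num [Nat.factorial]
    ring
  have hb0 : 0 ≤ Bf (z ^ 2 * (1 / (2 * w ^ 2))) := Real.smoothTransition.nonneg _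
  have hb1 : Bf (z ^ 2 * (1 / (2 * w ^ 2))) ≤ 1 := Real.smoothTransition.le_one _
  set b : ℝ → ℝ := fun z => Bf (z ^ 2 * (1 / (2 * w ^ 2))) with hb
  have hh := inn_G_h77 (z := z) ha0 ha32 (by positivity) hb0 hb1 hbump
  set h : ℝ → ℝ := fun z => b z / (1 - a * b z) with hhdef
  have hden : 31 / 32 ≤ 1 - a * b z := by
    have : a * b z ≤ 1 / 32 * 1 := mul_le_mul ha32 hb1 hb0 (by norm_num)
    linarith
  have hh0 : 0 ≤ h z := div_nonneg hb0 (by linarith)
  have hh2 : h z ≤ 2 := by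
    show b z / (1 - a * b z) ≤ 2
    rw [div_le_iff₀ (by linarith)]
    have : b z ≤ 1 := hb1
    linarith
  have hta0 : 0 ≤ t * a := by positivity
  have hta1 : t * a ≤ 1 := by
    have : t * a ≤ 1 * (1 / 32) := mul_le_mul ht1 ha32 ha0 (by norm_num)
    linarith
  have hk := inn_K_h77 (z := z) (c := t * a) hta0 hta1 (by positivity) hh0 hh2 hh
  -- the square root factor
  have hz2 : z ^ 2 ≤ 1 / 4 := by
    have := abs_le.1 hz
    nlinarith
  have hinS : Inn 2 (2 / w) (fun z => z ^ 2 * 1) z := by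
    refine inn_sq_h77 hz (by positivity) ?_ ?_
    · have h2 : w ≤ 1 / w := by linarith
      calc 2 * w * 1 = 2 * w := by ring
        _ ≤ 2 * (1 / w) := by linarith
        _ = 2 / w := by ring
    · have h2 : (1 : ℝ) ≤ (1 / w) ^ 2 := one_le_pow₀ hw'
      calc (2 * 1 : ℝ) ≤ 4 * (1 / w) ^ 2 := by linarith
        _ = (2 / w) ^ 2 := by ring
  have hS : Inn 2 (8 / w) (fun z => S_h77 (z ^ 2 * 1)) z := by
    have hlt : z ^ 2 * 1 < 4 := by linarith
    have hSb := S_le_h77 (y := z ^ 2 * 1) (by linarith)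
    have hd2 : HasDerivAt (fun y => S_h77 y ^ 3 / 8)
        (3 * S_h77 (z ^ 2 * 1) ^ 2 * (S_h77 (z ^ 2 * 1) ^ 3 / 8) / 8) (z ^ 2 * 1) := by
      simpa using ((S_der_h77 hlt).fun_pow 3).div_const 8
    have hM := bnd2_h77 (M := 2) (f := S_h77) (f' := fun y => S_h77 y ^ 3 / 8)
      (f'' := 3 * S_h77 (z ^ 2 * 1) ^ 2 * (S_h77 (z ^ 2 * 1) ^ 3 / 8) / 8) (t := z ^ 2 * 1)
      ((IsOpen.eventually_mem isOpen_Iio (show z ^ 2 * 1 ∈ Iio (4 : ℝ) from hlt)).mono
        fun s hs => S_der_h77 hs) hd2 ?_ ?_ ?_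
    · have := Inn.comp (N := 2) (D := 2 / w) (M := 2) (by positivity) (by norm_num)
        (by exact_mod_cast S_smooth_h77 hlt) (fun i hi => by simpa using hM i hi) hinS
      refine Inn.mono (by positivity) (le_of_eq ?_) this
      norm_num [Nat.factorial]
      ring
    · rw [Real.norm_eq_abs, abs_of_nonneg hSb.1]; exact hSb.2
    · have h3 : S_h77 (z ^ 2 * 1) ^ 3 ≤ 2 ^ 3 := pow_le_pow_left₀ hSb.1 hSb.2 3
      have h30 : 0 ≤ S_h77 (z ^ 2 * 1) ^ 3 := pow_nonneg hSb.1 3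
      rw [Real.norm_eq_abs, abs_of_nonneg (by positivity)]
      linarith
    · have h5 : S_h77 (z ^ 2 * 1) ^ 5 ≤ 2 ^ 5 := pow_le_pow_left₀ hSb.1 hSb.2 5
      have h50 : 0 ≤ S_h77 (z ^ 2 * 1) ^ 5 := pow_nonneg hSb.1 5
      have e5 : 3 * S_h77 (z ^ 2 * 1) ^ 2 * (S_h77 (z ^ 2 * 1) ^ 3 / 8) / 8
          = 3 * S_h77 (z ^ 2 * 1) ^ 5 / 64 := by ring
      rw [e5, Real.norm_eq_abs, abs_of_nonneg (by positivity)]
      linarith
  -- the real amplitude
  set k : ℝ → ℝ := fun z => h z * (1 + t * a * h z) with hkdef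
  set Sz : ℝ → ℝ := fun z => S_h77 (z ^ 2 * 1) with hSz
  have hSz0 : 0 ≤ Sz z := (S_le_h77 (y := z ^ 2 * 1) (by linarith)).1
  have hSz2 : Sz z ≤ 2 := (S_le_h77 (y := z ^ 2 * 1) (by linarith)).2
  have htah0 : 0 ≤ t * a * h z := mul_nonneg hta0 hh0
  have htah : t * a * h z ≤ 1 * 2 := mul_le_mul hta1 hh2 hh0 (by norm_num)
  have hk0 : 0 ≤ k z := mul_nonneg hh0 (by linarith)
  have hk6 : k z ≤ 6 := by
    have : h z * (1 + t * a * h z) ≤ 2 * 3 := mul_le_mul hh2 (by linarith) (by linarith)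
      (by norm_num)
    show h z * (1 + t * a * h z) ≤ 6
    linarith
  have hCBw : 0 < CB / w := by positivity
  have hD1 : 8 / w ≤ 96 * CB / w := by
    rw [div_le_div_iff_of_pos_right hw0]; linarith
  have hprod : Inn 2 (6912 * CB / w) (fun z => k z * Sz z) z := by
    have h1 : Inn 2 (96 * CB / w) k z := Inn.mono (by positivity) (le_of_eq (by ring)) hk
    have h2 : Inn 2 (96 * CB / w) Sz z := Inn.mono (by positivity) hD1 hS
    have h3 := Inn.mul (N := 2) (D := 96 * CB / w) (A := 6) (by positivity) (by norm_num)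
      (by rw [abs_of_nonneg hk0]; exact hk6) (by rw [abs_of_nonneg hSz0]; linarith) h1 h2
    exact Inn.mono (by positivity) (le_of_eq (by ring)) h3
  have hcoe : ∀ s : ℝ, HasDerivAt (fun y : ℝ => (y : ℂ)) 1 s := fun s => by
    simpa using (hasDerivAt_id s).ofReal_comp
  have hP0 : 0 ≤ k z * Sz z := mul_nonneg hk0 hSz0
  have hP12 : k z * Sz z ≤ 6 * 2 := mul_le_mul hk6 hSz2 hSz0 (by norm_num)
  have hA : Cls 2 (6912 * CB / w) 24 (fun z => ((k z * Sz z : ℝ) : ℂ)) z := by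
    have hM := bnd2_h77 (M := 12) (f := fun y : ℝ => (y : ℂ))
      (f' := fun _ => (1 : ℂ)) (f'' := 0) (t := k z * Sz z)
      (Filter.Eventually.of_forall hcoe) (hasDerivAt_const _ _)
      (by rw [Complex.norm_real, Real.norm_eq_abs, abs_of_nonneg hP0]; linarith)
      (by norm_num) (by norm_num)
    have := Cls.comp (N := 2) (D := 6912 * CB / w) (M := 12) (G := fun y : ℝ => (y : ℂ))
      (f := fun z => k z * Sz z) (t := z) (by positivity)
      (Complex.ofRealCLM.contDiff.contDiffAt) (fun i hi => hM i hi) hprod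
    have e24 : ((Nat.factorial 2 : ℕ) : ℝ) * 12 = 24 := by norm_num [Nat.factorial]
    rw [e24] at this
    exact this
  -- the phase
  have hcos : Inn 2 (1 / w) (fun z => 1 - z ^ 2 / 2) z := by
    refine inn2_h77 (f' := fun z => -z) (f'' := -1) (by fun_prop) ?_ ?_ ?_ ?_
    · refine Filter.Eventually.of_forall fun s => ?_
      have := ((hasDerivAt_pow 2 s).div_const 2).const_sub 1
      refine this.congr_deriv ?_
      norm_num
    · exact (hasDerivAt_id' z).fun_neg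
    · rw [abs_neg]; linarith
    · rw [abs_neg, abs_one]
      exact one_le_pow₀ hw'
  have hph : Inn 2 (6912 * CB / w)
      (fun z => t * (L * R * a) * (h z * (1 - z ^ 2 / 2))) z := by
    have h1 : Inn 2 (8 * CB / w) h z := Inn.mono (by positivity) (le_of_eq (by ring)) hh
    have h2 : Inn 2 (8 * CB / w) (fun z => 1 - z ^ 2 / 2) z := by
      refine Inn.mono (by positivity) ?_ hcos
      rw [div_le_div_iff_of_pos_right hw0]; linarith
    have h3 := Inn.mul (N := 2) (D := 8 * CB / w) (A := 2) (by positivity) (by norm_num)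
      (by rw [abs_of_nonneg hh0]; exact hh2)
      (by rw [abs_of_nonneg (by nlinarith)]; nlinarith) h1 h2
    have hc : |t * (L * R * a)| ≤ 1 := by
      have e1 : L * R * a = R / (8 * X) := by
        rw [ha]; field_simp
      have h5 : R / (8 * X) ≤ 1 := by
        rw [div_le_one (by positivity)]; linarith
      have h50 : 0 ≤ R / (8 * X) := by
        have : 0 ≤ R := by linarith
        positivity
      rw [e1, abs_of_nonneg (mul_nonneg ht0 h50)]
      calc t * (R / (8 * X)) ≤ 1 * 1 := mul_le_mul ht1 h5 h50 (by norm_num)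
        _ = 1 := by norm_num
    have h4 := Inn.const_mul (c := t * (L * R * a)) hc (by positivity) h3
    refine Inn.mono (by positivity) ?_ h4
    have : 2 * 2 ^ 2 * (8 * CB / w) = 64 * (CB / w) := by ring
    rw [this]
    have : 6912 * CB / w = 6912 * (CB / w) := by ring
    rw [this]
    linarith
  have hE : Cls 2 (6912 * CB / w) (2 * Ce)
      (fun z => e (t * (L * R * a) * (h z * (1 - z ^ 2 / 2)))) z := by
    have := Cls.comp (N := 2) (D := 6912 * CB / w) (M := Ce) (G := e) (t := z)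
      (f := fun z => t * (L * R * a) * (h z * (1 - z ^ 2 / 2))) (by positivity)
      ((contDiff_infty.1 hes 2).contDiffAt) (fun i hi => hCe _ i hi) hph
    have e2 : ((Nat.factorial 2 : ℕ) : ℝ) * Ce = 2 * Ce := by norm_num [Nat.factorial]
    rw [e2] at this
    exact this
  have hAE := Cls.mul (N := 2) (by positivity) (by norm_num) (by positivity) hA hE
  have hR0 : 0 ≤ R := by linarith
  have hall := Cls.mul (N := 2) (by positivity) (norm_nonneg _) (by positivity)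
    (Cls.const_h77 (N := 2) (t := z) ((R ^ 2 * a : ℝ) : ℂ)
      (by positivity : 0 ≤ 6912 * CB / w)) hAE
  have hfun : amp a w L R t = fun z => ((R ^ 2 * a : ℝ) : ℂ) *
      (((k z * Sz z : ℝ) : ℂ) * e (t * (L * R * a) * (h z * (1 - z ^ 2 / 2)))) := by
    funext z
    have hgz : gz a w z = a * h z := by
      show gz a w z = a * (b z / (1 - a * b z))
      have e0 : z ^ 2 * (1 / (2 * w ^ 2)) = z ^ 2 / (2 * w ^ 2) := by ring
      show a * Bf (z ^ 2 / (2 * w ^ 2)) / (1 - a * Bf (z ^ 2 / (2 * w ^ 2)))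
        = a * (Bf (z ^ 2 * (1 / (2 * w ^ 2))) / (1 - a * Bf (z ^ 2 * (1 / (2 * w ^ 2)))))
      rw [e0]; ring
    unfold amp
    rw [hgz, ← mul_assoc (((R ^ 2 * a : ℝ)) : ℂ), ← Complex.ofReal_mul]
    congr 2
    · show R ^ 2 * (a * h z) * (1 + t * (a * h z)) / Real.sqrt (1 - z ^ 2 / 4)
        = R ^ 2 * a * (h z * (1 + t * a * h z) * (Real.sqrt (1 - z ^ 2 * 1 / 4))⁻¹)
      rw [mul_one, div_eq_mul_inv]
      ring
    · ring
  rw [hfun]
  refine ⟨hall.1, fun i hi => (hall.2 i hi).trans ?_⟩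
  refine mul_le_mul_of_nonneg_right ?_ (by positivity)
  rw [Complex.norm_real, Real.norm_eq_abs, abs_of_nonneg (by positivity)]
  have hRa : R ^ 2 * a ≤ X / L := by
    have hR3 : R ≤ 5 / 4 * X := by linarith
    have hRR : R ^ 2 ≤ (5 / 4 * X) ^ 2 := pow_le_pow_left₀ hR0 hR3 2
    have e1 : (5 / 4 * X) ^ 2 * a = 25 / 128 * (X / L) := by
      rw [ha]; field_simp; ring
    have h6 : R ^ 2 * a ≤ (5 / 4 * X) ^ 2 * a := mul_le_mul_of_nonneg_right hRR ha0
    rw [e1] at h6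
    have : 0 ≤ X / L := by positivity
    linarith
  have hfin : 2 ^ 2 * (R ^ 2 * a) * (2 ^ 2 * 24 * (2 * Ce)) = 768 * Ce * (R ^ 2 * a) := by ring
  rw [hfin]
  exact mul_le_mul_of_nonneg_left hRa (by positivity)

theorem amp_deriv : ∃ C : ℝ, 0 ≤ C ∧ ∀ X L w R t : ℝ, Par X L w → X ≤ R → R ≤ X + 1 →
    0 ≤ t → t ≤ 1 →
      ContDiff ℝ 2 (amp (1 / (8 * X * L)) w L R t) ∧
      (∀ z, z ∉ Icc (-w) w → amp (1 / (8 * X * L)) w L R t z = 0) ∧
      (∀ z, ‖iteratedDeriv 2 (amp (1 / (8 * X * L)) w L R t) z‖ ≤ C * (X / L) / w ^ 2) := by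
  obtain ⟨K, M, hK, hM, hKM⟩ := cls_amp_h77
  refine ⟨M * K ^ 2, by positivity, ?_⟩
  intro X L w R t hP hR1 hR2 ht0 ht1
  have hw0 := hP.w0
  have hX0 : 0 < X := by linarith [hP.X4]
  have hL0 : 0 < L := by linarith [hP.L1]
  have hzero : ∀ z, z ∉ Icc (-w) w → amp (1 / (8 * X * L)) w L R t z = 0 := by
    intro z hz
    have hz' : w < |z| := by
      by_contra hcon
      exact hz (abs_le.1 (not_lt.1 hcon))
    have hB : Bf (z ^ 2 / (2 * w ^ 2)) = 0 := by
      apply Bf_zero_h77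
      rw [div_le_div_iff₀ (by norm_num) (by positivity)]
      have : w ^ 2 ≤ z ^ 2 := by
        rw [← sq_abs z]
        exact pow_le_pow_left₀ hw0.le hz'.le 2
      linarith
    simp [amp, gz, hB]
  have hev : ∀ z, z ∉ Icc (-w) w → amp (1 / (8 * X * L)) w L R t =ᶠ[𝓝 z] fun _ => 0 := by
    intro z hz
    exact (isClosed_Icc.isOpen_compl.eventually_mem hz).mono fun s hs => hzero s hs
  refine ⟨?_, hzero, ?_⟩
  · rw [contDiff_iff_contDiffAt]
    intro z
    by_cases hz : z ∈ Icc (-w) w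
    · exact_mod_cast (hKM X L w R t z hP hR1 hR2 ht0 ht1 (abs_le.2 hz)).1
    · exact contDiffAt_const.congr_of_eventuallyEq (hev z hz)
  · intro z
    by_cases hz : z ∈ Icc (-w) w
    · refine ((hKM X L w R t z hP hR1 hR2 ht0 ht1 (abs_le.2 hz)).2 2 le_rfl).trans (le_of_eq ?_)
      ring
    · rw [(hev z hz).iteratedDeriv_eq]
      simp
      positivity

end Pool.Agent.Helper92.CS
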