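import Pool.Agent.Helper92.CS.Defs

/-!
CS-AmpZero (project CS, MP_fb29e9_nt; README: /team-store/h92_CS_README.md). About ~60 lines.

PROOF. Bf 0 = 1, gz(0) = alpha/(1-alpha), alpha = 1/(8XL) <= 1/32. amp = R^2 g (1 + t g) e(L R t g), L R t g <= ((X+1)/(8X))/(1 - 1/32) <= (5/32)(32/31) = 5/31 < 1/6, so the real part of e(.) = cos(2 pi .) >= 1/2
(cos(pi/3)), R^2 g (1+tg) >= X^2/(8XL). Norm: <= (25/16) X^2/(8XL) (32/31)^2 <= X/L.
-/

open MeasureTheory Set Filter Topology

noncomputable section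

namespace Pool.Agent.Helper92.CS

theorem amp_zero (X L w R t : ℝ) (h : Par X L w) (h1 : X ≤ R) (h2 : R ≤ X + 1)
    (ht : 0 ≤ t) (ht1 : t ≤ 1) :
    X / (16 * L) ≤ (amp (1 / (8 * X * L)) w L R t 0).re ∧
      ‖amp (1 / (8 * X * L)) w L R t 0‖ ≤ X / L := by
  have hX : (0 : ℝ) < X := by linarith [h.X4]
  have hL : (0 : ℝ) < L := by linarith [h.L1]
  have hX4 := h.X4
  have hL1 := h.L1
  have hXL : (0 : ℝ) < 8 * X * L := by positivity
  have hXL32 : (32 : ℝ) ≤ 8 * X * L := by nlinarith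
  set α : ℝ := 1 / (8 * X * L) with hα
  have hα0 : 0 < α := by rw [hα]; positivity
  have hα32 : α ≤ 1 / 32 := by
    rw [hα]
    exact one_div_le_one_div_of_le (by norm_num) hXL32
  have hBf : Bf 0 = 1 := by
    unfold Bf
    exact Real.smoothTransition.one_of_one_le (by norm_num)
  set G : ℝ := α / (1 - α) with hG
  have h1α : 0 < 1 - α := by linarith
  have hgz : gz α w 0 = G := by
    unfold gz
    have h0 : ((0 : ℝ) ^ 2 / (2 * w ^ 2)) = 0 := by simp
    rw [h0, hBf, mul_one]
  have hG0 : 0 < G := div_pos hα0 h1α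
  have hGα : α ≤ G := by
    rw [hG, le_div_iff₀ h1α]
    nlinarith
  have hGle : G ≤ 32 / 31 * α := by
    rw [hG, div_le_iff₀ h1α]
    nlinarith
  have hXLα : X * L * α = 1 / 8 := by
    rw [hα]; field_simp
  have hR0 : 0 < R := by linarith
  have hamp : amp α w L R t 0 = ((R ^ 2 * G * (1 + t * G) : ℝ) : ℂ) * e (L * R * t * G) := by
    unfold amp
    rw [hgz]
    have h3 : Real.sqrt (1 - (0 : ℝ) ^ 2 / 4) = 1 := by
      norm_num
    rw [h3]
    norm_num
  have hA0 : 0 ≤ R ^ 2 * G * (1 + t * G) := by positivity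
  have hLRG : L * R * G ≤ 5 / 31 := by
    have h4 : L * R * G ≤ L * (X + 1) * (32 / 31 * α) := by
      apply mul_le_mul (mul_le_mul_of_nonneg_left h2 hL.le) hGle hG0.le
      positivity
    have h5 : L * (X + 1) * (32 / 31 * α) ≤ L * (5 / 4 * X) * (32 / 31 * α) := by
      apply mul_le_mul_of_nonneg_right _ (by positivity)
      apply mul_le_mul_of_nonneg_left _ hL.le
      linarith
    have h6 : L * (5 / 4 * X) * (32 / 31 * α) = 5 / 31 := by
      have : L * (5 / 4 * X) * (32 / 31 * α) = 5 / 4 * (32 / 31) * (X * L * α) := by ring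
      rw [this, hXLα]; norm_num
    linarith
  have hθ0 : 0 ≤ L * R * t * G := by positivity
  have hθ : L * R * t * G ≤ 1 / 6 := by
    have h7 : L * R * t * G = t * (L * R * G) := by ring
    rw [h7]
    have h8 : t * (L * R * G) ≤ 1 * (L * R * G) :=
      mul_le_mul_of_nonneg_right ht1 (by positivity)
    linarith
  have hre : (e (L * R * t * G)).re = Real.cos (2 * Real.pi * (L * R * t * G)) := by
    unfold e
    rw [Complex.exp_ofReal_mul_I_re]
  have hcos : 1 / 2 ≤ (e (L * R * t * G)).re := by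
    rw [hre, ← Real.cos_pi_div_three]
    apply Real.cos_le_cos_of_nonneg_of_le_pi
    · have := Real.pi_pos
      positivity
    · linarith [Real.pi_pos]
    · have := Real.pi_pos
      nlinarith
  constructor
  · rw [hamp, Complex.re_ofReal_mul]
    have h9 : X / (8 * L) ≤ R ^ 2 * G * (1 + t * G) := by
      have h10 : X / (8 * L) = X ^ 2 * α := by
        rw [hα]; field_simp
      rw [h10]
      have h11 : X ^ 2 ≤ R ^ 2 := by nlinarith
      have h12 : X ^ 2 * α ≤ R ^ 2 * G := mul_le_mul h11 hGα hα0.le (by positivity)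
      have h13 : R ^ 2 * G ≤ R ^ 2 * G * (1 + t * G) := by
        have : 0 ≤ R ^ 2 * G * (t * G) := by positivity
        nlinarith
      linarith
    have h14 : X / (16 * L) = X / (8 * L) * (1 / 2) := by
      field_simp; norm_num
    rw [h14]
    exact mul_le_mul h9 hcos (by norm_num) hA0
  · rw [hamp, norm_mul, Complex.norm_real, Real.norm_eq_abs, abs_of_nonneg hA0]
    have hn : ‖e (L * R * t * G)‖ = 1 := by
      unfold e
      exact Complex.norm_exp_ofReal_mul_I _
    rw [hn, mul_one]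
    have h15 : R ^ 2 ≤ 25 / 16 * X ^ 2 := by nlinarith
    have h16 : G ≤ 1 / 31 := by linarith
    have h17 : 1 + t * G ≤ 32 / 31 := by nlinarith
    have h18 : X / L = 8 * (X ^ 2 * α) := by
      rw [hα]; field_simp
    rw [h18]
    have h19 : R ^ 2 * G ≤ 25 / 16 * X ^ 2 * (32 / 31 * α) :=
      mul_le_mul h15 hGle hG0.le (by positivity)
    have h20 : R ^ 2 * G * (1 + t * G) ≤ 25 / 16 * X ^ 2 * (32 / 31 * α) * (32 / 31) :=
      mul_le_mul h19 h17 (by positivity) (by positivity)
    have h21 : 0 ≤ X ^ 2 * α := by positivity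
    have h22 : 25 / 16 * X ^ 2 * (32 / 31 * α) * (32 / 31)
        = (25 / 16 * (32 / 31) * (32 / 31)) * (X ^ 2 * α) := by ring
    rw [h22] at h20
    refine h20.trans (mul_le_mul_of_nonneg_right (by norm_num) h21)

end Pool.Agent.Helper92.CS
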