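import Pool.Agent.Helper92.CS.Defs

/-!
CS-AngSep (project CS, MP_fb29e9_nt; README: /team-store/h92_CS_README.md). About ~60 lines.

PROOF. t = ang p q - ang p' q'. sin t = (q p' - p q')/(len len') (sin/cos of arctan: cos (arctan (q/p)) = p/len, sin = q/len for p > 0). The integer q p' - p q' is not 0: otherwise q/p = q'/p' with both fractions reduced and
positive, so p = p', q = q'. Hence 1/(len len') <= |sin t| <= |t|.
-/

open MeasureTheory Set Filter Topology

noncomputable section

namespace Pool.Agent.Helper92.CS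

private theorem len_pos4 (p q : ℤ) (hp : 0 < p) : 0 < len p q := by
  unfold len
  apply Real.sqrt_pos.2
  have : (0 : ℝ) < p := by exact_mod_cast hp
  positivity

private theorem sqrt_len4 (p q : ℤ) (hp : 0 < p) :
    Real.sqrt (1 + ((q : ℝ) / p) ^ 2) = len p q / p := by
  have hp' : (0 : ℝ) < p := by exact_mod_cast hp
  unfold len
  rw [Real.sqrt_eq_iff_mul_self_eq (by positivity) (by positivity)]
  rw [div_mul_div_comm, Real.mul_self_sqrt (by positivity)]
  field_simp

private theorem cos_ang4 (p q : ℤ) (hp : 0 < p) : Real.cos (ang p q) = p / len p q := by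
  have hp' : (0 : ℝ) < p := by exact_mod_cast hp
  rw [ang, Real.cos_arctan, sqrt_len4 p q hp, one_div_div]

private theorem sin_ang4 (p q : ℤ) (hp : 0 < p) : Real.sin (ang p q) = q / len p q := by
  have hp' : (0 : ℝ) < p := by exact_mod_cast hp
  have hl := len_pos4 p q hp
  rw [ang, Real.sin_arctan, sqrt_len4 p q hp]
  field_simp

theorem ang_sep (p q p' q' : ℤ) (hp : 0 < p) (hq : 0 < q) (hp' : 0 < p') (hq' : 0 < q')
    (h : IsCoprime p q) (h' : IsCoprime p' q') (hne : (p, q) ≠ (p', q')) :
    1 / (len p q * len p' q') ≤ |ang p q - ang p' q'| := by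
  have hl := len_pos4 p q hp
  have hl' := len_pos4 p' q' hp'
  have hint : q * p' - p * q' ≠ 0 := by
    intro h0
    apply hne
    have h1 : q * p' = p * q' := by linarith
    have hd1 : p ∣ p' := h.dvd_of_dvd_mul_left (Dvd.intro _ h1.symm)
    have hd2 : p' ∣ p := h'.dvd_of_dvd_mul_right ⟨q, by linarith⟩
    have hpp : p = p' := Int.dvd_antisymm hp.le hp'.le hd1 hd2
    have hqq : q = q' := by
      rw [← hpp] at h1
      have := hp.ne'
      apply mul_left_cancel₀ this
      linarith
    rw [hpp, hqq]
  have hsin : Real.sin (ang p q - ang p' q')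
      = ((q * p' - p * q' : ℤ) : ℝ) / (len p q * len p' q') := by
    rw [Real.sin_sub, sin_ang4 p q hp, cos_ang4 p q hp, sin_ang4 p' q' hp', cos_ang4 p' q' hp']
    push_cast
    field_simp
  calc 1 / (len p q * len p' q') ≤ |((q * p' - p * q' : ℤ) : ℝ)| / (len p q * len p' q') := by
        gcongr
        have : (1 : ℤ) ≤ |q * p' - p * q'| := Int.one_le_abs hint
        exact_mod_cast this
    _ = |Real.sin (ang p q - ang p' q')| := by
        rw [hsin, abs_div, abs_of_pos (mul_pos hl hl')]
    _ ≤ _ := Real.abs_sin_le_abs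

end Pool.Agent.Helper92.CS
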