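import Pool.Agent.Helper92.CS.Defs

/-!
CS-AngleClose (project CS, MP_fb29e9_nt; README: /team-store/h92_CS_README.md). About ~40 lines.

PROOF. t = phi - phi0 lies in (-pi-1, pi). If t <= -pi then cos t = cos (t + 2 pi) with t + 2pi in (pi-1, pi], so cos t < 0 and 1 - cos t > 1 > w^2/2, contradiction.
Otherwise |t| <= pi, 1 - cos t = 2 sin^2 (t/2) >= 2 (t/pi)^2 (Jordan: Real.mul_le_sin or similar), so t^2 < pi^2 w^2 / 4 < 4 w^2.
-/

open MeasureTheory Set Filter Topology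

noncomputable section

namespace Pool.Agent.Helper92.CS

theorem angle_close (w φ₀ φ : ℝ) (hw : 0 < w) (hw1 : w ≤ 1) (h0 : 0 < φ₀) (h1 : φ₀ < 1)
    (hφ : φ ∈ Ioc (-Real.pi) Real.pi) (h : 1 - Real.cos (φ - φ₀) < w ^ 2 / 2) :
    |φ - φ₀| < 2 * w := by
  have hpi := Real.pi_gt_three
  have hpi2 := Real.pi_lt_d2
  have hw2 : w ^ 2 ≤ 1 := by nlinarith
  obtain ⟨hl, hr⟩ := hφ
  have ht2 : -Real.pi < φ - φ₀ := by
    by_contra hcon
    push Not at hcon
    have h2 : Real.cos (φ - φ₀) ≤ 0 := by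
      have : Real.cos (φ - φ₀) = Real.cos (φ - φ₀ + 2 * Real.pi) := by
        rw [Real.cos_add_two_pi]
      rw [this]
      apply Real.cos_nonpos_of_pi_div_two_le_of_le
      · linarith
      · linarith
    nlinarith
  have habs : |φ - φ₀| ≤ Real.pi := by
    rw [abs_le]; constructor <;> linarith
  have hJ : 2 / Real.pi * (|φ - φ₀| / 2) ≤ Real.sin (|φ - φ₀| / 2) := by
    apply Real.mul_le_sin
    · positivity
    · linarith
  have hcos : Real.cos (φ - φ₀) = 1 - 2 * Real.sin (|φ - φ₀| / 2) ^ 2 := by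
    rw [← Real.cos_abs (φ - φ₀)]
    have h3 := Real.cos_sq' (|φ - φ₀| / 2)
    have h4 := Real.cos_two_mul (|φ - φ₀| / 2)
    rw [show 2 * (|φ - φ₀| / 2) = |φ - φ₀| by ring] at h4
    rw [h4, h3]; ring
  have hJ' : |φ - φ₀| / Real.pi ≤ Real.sin (|φ - φ₀| / 2) := by
    have : 2 / Real.pi * (|φ - φ₀| / 2) = |φ - φ₀| / Real.pi := by
      field_simp
    linarith
  have h5 : (|φ - φ₀| / Real.pi) ^ 2 ≤ Real.sin (|φ - φ₀| / 2) ^ 2 :=
    pow_le_pow_left₀ (by positivity) hJ' 2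
  have h6 : (|φ - φ₀| / Real.pi) ^ 2 < (w / 2) ^ 2 := by
    nlinarith
  have h7 : |φ - φ₀| / Real.pi < w / 2 := lt_of_pow_lt_pow_left₀ 2 (by positivity) h6
  rw [div_lt_iff₀ Real.pi_pos] at h7
  nlinarith

end Pool.Agent.Helper92.CS
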