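import Pool.Agent.Helper92.CS.Defs

/-!
CS-AreaB (project CS, MP_fb29e9_nt; README: /team-store/h92_CS_README.md). About ~30 lines.

PROOF. D_0 = closed unit disk subset D_g subset closed ball of radius 2; volume of balls in ℂ: Complex.volume_closedBall; 4 pi - pi = 3 pi < 10.
For the lower bound monotonicity of the measure.
-/

open MeasureTheory Set Filter Topology

noncomputable section

namespace Pool.Agent.Helper92.CS

theorem area_bound (g : ℝ → ℝ) (hg : Continuous g) (hg0 : ∀ φ, 0 ≤ g φ) (hg1 : ∀ φ, g φ ≤ 1) :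
    0 ≤ area g - area 0 ∧ area g - area 0 ≤ 10 := by
  have _ := hg
  have hball : ∀ r : ℝ, 0 ≤ r →
      (volume (Metric.closedBall (0 : ℂ) r)).toReal = r ^ 2 * Real.pi := by
    intro r hr
    rw [Complex.volume_closedBall, ENNReal.toReal_mul, ENNReal.toReal_pow,
      ENNReal.toReal_ofReal hr]
    rfl
  have hfin : ∀ r : ℝ, volume (Metric.closedBall (0 : ℂ) r) ≠ ⊤ := fun r =>
    (isCompact_closedBall (0 : ℂ) r).measure_lt_top.ne
  have h0 : area 0 = Real.pi := by
    have hset : {z : ℂ | ‖z‖ ≤ 1 + (0 : ℝ → ℝ) z.arg} = Metric.closedBall (0 : ℂ) 1 := by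
      ext z
      simp
    unfold area
    rw [hset, hball 1 (by norm_num)]
    ring
  have hsub : {z : ℂ | ‖z‖ ≤ 1 + g z.arg} ⊆ Metric.closedBall (0 : ℂ) 2 := by
    intro z hz
    have hz' : ‖z‖ ≤ 1 + g z.arg := hz
    have := hg1 z.arg
    simp only [Metric.mem_closedBall, dist_zero_right]
    linarith
  have hsup : Metric.closedBall (0 : ℂ) 1 ⊆ {z : ℂ | ‖z‖ ≤ 1 + g z.arg} := by
    intro z hz
    simp only [Metric.mem_closedBall, dist_zero_right] at hz
    have := hg0 z.arg
    show ‖z‖ ≤ 1 + g z.arg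
    linarith
  have hfg : volume {z : ℂ | ‖z‖ ≤ 1 + g z.arg} ≠ ⊤ :=
    ne_top_of_le_ne_top (hfin 2) (measure_mono hsub)
  have hlo : Real.pi ≤ area g := by
    have := ENNReal.toReal_mono hfg (measure_mono hsup)
    rw [hball 1 (by norm_num)] at this
    unfold area
    linarith
  have hhi : area g ≤ 4 * Real.pi := by
    have := ENNReal.toReal_mono (hfin 2) (measure_mono hsub)
    rw [hball 2 (by norm_num)] at this
    unfold area
    linarith
  have hpi := Real.pi_lt_d2
  rw [h0]
  constructor <;> linarith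

end Pool.Agent.Helper92.CS
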