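import Mathlib

/-!
Lattice points in perturbed disks (problem MP_fb29e9_nt): the definitions of the final statement.
-/

open MeasureTheory

noncomputable section

namespace Pool.Agent.Helper92.CS

/-- The lattice point `v` of `ℤ²` as a complex number. -/
def pt (v : ℤ × ℤ) : ℂ := (v.1 : ℂ) + (v.2 : ℂ) * Complex.I

/-- Number of lattice points in the `R`-fold dilate of the domain `r ≤ 1 + g φ`
(polar coordinates). For `g = 0` it is the number of lattice points in the closed disk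
of radius `R`. -/
def latticeCount (g : ℝ → ℝ) (R : ℝ) : ℕ :=
  Set.ncard {v : ℤ × ℤ | ‖pt v‖ ≤ R * (1 + g (pt v).arg)}

/-- Area of the domain `r ≤ 1 + g φ`. -/
def area (g : ℝ → ℝ) : ℝ := (volume {z : ℂ | ‖z‖ ≤ 1 + g z.arg}).toReal

/-- Lattice point error of the `R`-fold dilate of the domain `r ≤ 1 + g φ`. -/
def err (g : ℝ → ℝ) (R : ℝ) : ℝ := (latticeCount g R : ℝ) - area g * R ^ 2

/-- The gain in the exponent for smoothness `s`: `1/(4s-2)`, and `0` for `s = ∞`. -/
def gain (s : ℕ∞) : ℝ := if s = ⊤ then 0 else 1 / (4 * (s.toNat : ℝ) - 2)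

/-- Curvature of the curve `r = 1 + g φ` (polar coordinates). -/
def curv (g : ℝ → ℝ) (φ : ℝ) : ℝ :=
  ((1 + g φ) ^ 2 + 2 * (deriv g φ) ^ 2 - (1 + g φ) * deriv (deriv g) φ) /
    ((1 + g φ) ^ 2 + (deriv g φ) ^ 2) ^ (3 / 2 : ℝ)

end Pool.Agent.Helper92.CS
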