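import Pool.Agent.Helper92.CS.Defs

/-!
CS-QDeriv (project CS, MP_fb29e9_nt; README: /team-store/h92_CS_README.md). About ~150 lines.

PROOF. For chi continuous with compact support put Q_chi(u) = int_(0,oo) chi(u+r) e(-(L r)) dr. If chi is C^1 then (Q_chi)' = Q_{chi'} (differentiate under the integral:
hasDerivAt_integral_of_dominated_loc_of_deriv_le, or Q_chi(u) = e(L u) * int_(u,oo) chi(s) e(-(L s)) ds, derivative 2 pi i L Q_chi - chi, and integrate by parts), so the i-th derivative of Q psi L is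
Q_{psi^(i)} and |Q_chi(u)| <= int |chi|. The constant: 1 + max over i <= N of int |psi^(i)|. psi^(i) is continuous and vanishes outside [1/4, 3/4].
-/

open MeasureTheory Set Filter Topology

noncomputable section

namespace Pool.Agent.Helper92.CS

/-- smooth functions which vanish outside `[1/4, 3/4]` -/
private def T22 (χ : ℝ → ℝ) : Prop :=
  ContDiff ℝ (⊤ : ℕ∞) χ ∧ ∀ r, r ∉ Icc (1 / 4 : ℝ) (3 / 4) → χ r = 0

private theorem T22_deriv {χ : ℝ → ℝ} (h : T22 χ) : T22 (deriv χ) := by
  refine ⟨?_, fun x hx => ?_⟩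
  · have := h.1.iterate_deriv 1
    simpa using this
  · have h1 : χ =ᶠ[𝓝 x] fun _ => 0 := by
      have ho : IsOpen (Icc (1 / 4 : ℝ) (3 / 4))ᶜ := isClosed_Icc.isOpen_compl
      filter_upwards [ho.mem_nhds hx] with y hy
      exact h.2 y hy
    rw [h1.deriv_eq]
    simp

private theorem T22_iter {χ : ℝ → ℝ} (h : T22 χ) (i : ℕ) : T22 (iteratedDeriv i χ) := by
  induction i generalizing χ with
  | zero => simpa using h
  | succ i ih =>
    rw [iteratedDeriv_succ']
    exact ih (T22_deriv h)

private theorem T22_cs {χ : ℝ → ℝ} (h : T22 χ) : HasCompactSupport χ := by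
  refine HasCompactSupport.of_support_subset_isCompact (isCompact_Icc (a := (1 / 4 : ℝ)) (b := 3 / 4)) ?_
  intro y hy
  by_contra hcon
  exact hy (h.2 y hcon)

private theorem norm_e22 (t : ℝ) : ‖e t‖ = 1 := by
  unfold e
  exact Complex.norm_exp_ofReal_mul_I _

private theorem cont_e22 : Continuous e := by
  unfold e
  fun_prop

private theorem cont_F22 {χ : ℝ → ℝ} (h : T22 χ) (L u : ℝ) :
    Continuous fun r : ℝ => (χ (u + r) : ℂ) * e (-(L * r)) := by
  have h1 := h.1.continuous
  have h2 := cont_e22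
  fun_prop

private theorem int_F22 {χ : ℝ → ℝ} (h : T22 χ) (L u : ℝ) :
    Integrable fun r : ℝ => (χ (u + r) : ℂ) * e (-(L * r)) := by
  have h0 : Integrable fun r : ℝ => χ (u + r) :=
    (h.1.continuous.integrable_of_hasCompactSupport (T22_cs h)).comp_add_left u
  refine h0.norm.mono' (cont_F22 h L u).aestronglyMeasurable (Eventually.of_forall fun r => ?_)
  rw [norm_mul, norm_e22, mul_one, Complex.norm_real]

private theorem Q22_deriv {χ : ℝ → ℝ} (h : T22 χ) (L u : ℝ) :
    HasDerivAt (Q χ L) (Q (deriv χ) L u) u := by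
  have hd := T22_deriv h
  obtain ⟨C, hC⟩ : ∃ C, ∀ x, ‖deriv χ x‖ ≤ C :=
    hd.1.continuous.bounded_above_of_compact_support (T22_cs hd)
  have hC0 : 0 ≤ C := (norm_nonneg _).trans (hC 0)
  have key := hasDerivAt_integral_of_dominated_loc_of_deriv_le (μ := volume.restrict (Ioi (0 : ℝ))) (𝕜 := ℝ)
    (F := fun w : ℝ => fun r : ℝ => (χ (w + r) : ℂ) * e (-(L * r)))
    (F' := fun w : ℝ => fun r : ℝ => ((deriv χ (w + r) : ℝ) : ℂ) * e (-(L * r)))
    (bound := (Icc (-(|u| + 1)) (|u| + 2)).indicator fun _ => C)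
    (x₀ := u) (s := Metric.ball u 1) (Metric.ball_mem_nhds u one_pos)
    (Eventually.of_forall fun w => (cont_F22 h L w).aestronglyMeasurable)
    (int_F22 h L u).integrableOn
    (cont_F22 hd L u).aestronglyMeasurable
    (Eventually.of_forall fun r w hw => by
      rw [norm_mul, norm_e22, mul_one, Complex.norm_real]
      rw [Metric.mem_ball, Real.dist_eq] at hw
      by_cases hr : w + r ∈ Icc (1 / 4 : ℝ) (3 / 4)
      · have h1 := abs_lt.1 hw
        have h2 := neg_abs_le u
        have h3 := le_abs_self u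
        have hr' : r ∈ Icc (-(|u| + 1)) (|u| + 2) := by
          constructor
          · linarith [hr.1]
          · linarith [hr.2]
        rw [indicator_of_mem hr']
        exact hC _
      · rw [hd.2 _ hr, norm_zero]
        exact indicator_nonneg (fun _ _ => hC0) _)
    (by
      refine Integrable.integrableOn ?_
      rw [integrable_indicator_iff measurableSet_Icc]
      exact integrableOn_const (by simp))
    (Eventually.of_forall fun r w _ => by
      have h1 : HasDerivAt (fun w : ℝ => w + r) 1 w := by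
        simpa using (hasDerivAt_id w).add_const r
      have h2 : HasDerivAt χ (deriv χ (w + r)) (w + r) :=
        (h.1.differentiable (by simp) (w + r)).hasDerivAt
      have h3 : HasDerivAt (fun w : ℝ => χ (w + r)) (deriv χ (w + r) * 1) w := h2.comp w h1
      rw [mul_one] at h3
      exact h3.ofReal_comp.mul_const _)
  exact key.2

private theorem Q22_iter {χ : ℝ → ℝ} (h : T22 χ) (L : ℝ) (i : ℕ) :
    iteratedDeriv i (Q χ L) = Q (iteratedDeriv i χ) L := by
  induction i generalizing χ with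
  | zero => simp
  | succ i ih =>
    have h1 : deriv (Q χ L) = Q (deriv χ) L := funext fun u => (Q22_deriv h L u).deriv
    rw [iteratedDeriv_succ', iteratedDeriv_succ', h1]
    exact ih (T22_deriv h)

private theorem Q22_le {χ : ℝ → ℝ} (h : T22 χ) (L u : ℝ) : ‖Q χ L u‖ ≤ ∫ x, |χ x| := by
  unfold Q
  have h1 := int_F22 h L u
  calc ‖∫ r in Ioi (0 : ℝ), (χ (u + r) : ℂ) * e (-(L * r))‖
      ≤ ∫ r in Ioi (0 : ℝ), ‖(χ (u + r) : ℂ) * e (-(L * r))‖ := norm_integral_le_integral_norm _
    _ ≤ ∫ r, ‖(χ (u + r) : ℂ) * e (-(L * r))‖ :=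
        setIntegral_le_integral h1.norm (Eventually.of_forall fun r => norm_nonneg _)
    _ = ∫ r, |χ (u + r)| := by
        congr 1
        ext r
        rw [norm_mul, norm_e22, mul_one, Complex.norm_real, Real.norm_eq_abs]
    _ = ∫ x, |χ x| := integral_add_left_eq_self (fun x => |χ x|) u

theorem Q_deriv (ψ : ℝ → ℝ) (hψ : IsTest ψ) (N : ℕ) :
    (∀ L, ContDiff ℝ N (Q ψ L)) ∧
    ∃ C : ℝ, 1 ≤ C ∧ ∀ L u : ℝ, ∀ i ≤ N, ‖iteratedDeriv i (Q ψ L) u‖ ≤ C := by
  have h : T22 ψ := ⟨hψ.smooth, hψ.supp⟩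
  refine ⟨fun L => ?_, ?_⟩
  · refine contDiff_of_differentiable_iteratedDeriv fun m _ => ?_
    rw [Q22_iter h L m]
    exact fun u => (Q22_deriv (T22_iter h m) L u).differentiableAt
  · have hn : ∀ j : ℕ, 0 ≤ ∫ x : ℝ, |iteratedDeriv j ψ x| := fun j =>
      integral_nonneg fun x => abs_nonneg _
    refine ⟨1 + ∑ j ∈ Finset.range (N + 1), ∫ x : ℝ, |iteratedDeriv j ψ x|, ?_, fun L u i hi => ?_⟩
    · have := Finset.sum_nonneg fun j (_ : j ∈ Finset.range (N + 1)) => hn j
      linarith
    · rw [Q22_iter h L i]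
      refine (Q22_le (T22_iter h i) L u).trans ?_
      have := Finset.single_le_sum (f := fun j : ℕ => ∫ x : ℝ, |iteratedDeriv j ψ x|)
        (fun i _ => hn i) (Finset.mem_range.2 (Nat.lt_succ_of_le hi))
      linarith

end Pool.Agent.Helper92.CS
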