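import Pool.Agent.Helper92.CS.Defs
import Pool.Agent.Helper92.CS.ClsMul
import Pool.Agent.Helper92.CS.Comp
import Pool.Agent.Helper92.CS.InnAlg
import Pool.Agent.Helper92.CS.QDeriv
import Pool.Agent.Helper92.CS.BfE

/-!
CS-ClsHH (project CS, MP_fb29e9_nt; README: /team-store/h92_CS_README.md).  Proof by helper6.

The calculus applied to HH along a curve (r = rho, ph = L (rho - x), qu = (1 - x/rho)/w^2 as functions of t).
PROOF. All inner functions are Inn N (C' D) with C' depending on N, C0, psi only: b = Bf o qu (Inn.comp, |b| <= 1); r/(8X) (const_mul, |r/(8X)| <= 1), so L * r * (b/(8XL)) = (r/(8X)) * b is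
Inn (Inn.mul, A = 1); r (1 - b/(8XL)) - X = r - (1/L)(r/(8X)) b - X is Inn (sub; constants are Inn 0). Outer functions e, t -> e(-t), Q psi L: all derivatives <= C (e_deriv, Q_deriv).
Cls.comp gives Cls N (C' D) (N! C), Cls.mul, Cls.sub; finally M (C' D)^i <= M C'^N D^i (C' >= 1).
-/

open MeasureTheory Set Filter Topology

noncomputable section

namespace Pool.Agent.Helper92.CS

private theorem inn_const6 (N : ℕ) (c t : ℝ) : Inn N 0 (fun _ => c) t := by
  refine ⟨contDiffAt_const, fun i hi _ => ?_⟩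
  have h : iteratedDeriv i (fun _ : ℝ => c) t = 0 := by
    rw [iteratedDeriv_const]
    simp only [Nat.one_le_iff_ne_zero.mp hi, if_false]
  rw [h, abs_zero]
  positivity

private theorem abs_Bf_le6 (t : ℝ) : |Bf t| ≤ 1 := by
  unfold Bf
  rw [abs_of_nonneg (Real.smoothTransition.nonneg _)]
  exact Real.smoothTransition.le_one _

theorem Cls_HH (ψ : ℝ → ℝ) (hψ : IsTest ψ) (N : ℕ) (C₀ : ℝ) (hC₀ : 1 ≤ C₀) : ∃ C : ℝ, 0 ≤ C ∧
    ∀ (X L w D t : ℝ) (r ph qu : ℝ → ℝ), Par X L w → 0 ≤ D →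
      Inn N (C₀ * D) r t → Inn N (C₀ * D) ph t → Inn N (C₀ * D) qu t →
      |r t| ≤ 2 * X →
      Cls N D C (fun t => e (-(ph t)) *
        (e (L * r t * (1 / (8 * X * L) * Bf (qu t))) *
            Q ψ L (r t * (1 - 1 / (8 * X * L) * Bf (qu t)) - X)
          - Q ψ L (r t - X))) t := by
  obtain ⟨hBc, CB, hCB1, hCB⟩ := Bf_deriv N
  obtain ⟨hec, Ce, hCe1, hCe⟩ := e_deriv N
  obtain ⟨hQc, CQ, hCQ1, hCQ⟩ := Q_deriv ψ hψ N
  have hf1 : (1 : ℝ) ≤ (Nat.factorial N : ℝ) := by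
    exact_mod_cast Nat.one_le_iff_ne_zero.mpr (Nat.factorial_ne_zero N)
  obtain ⟨K, hK⟩ : ∃ K : ℝ, K = (Nat.factorial N : ℝ) * CB * C₀ := ⟨_, rfl⟩
  have hfB : 1 ≤ (Nat.factorial N : ℝ) * CB := by nlinarith
  have hKC : C₀ ≤ K := by rw [hK]; nlinarith
  obtain ⟨C', hC'⟩ : ∃ C' : ℝ, C' = C₀ + 2 * K := ⟨_, rfl⟩
  have hC'1 : 1 ≤ C' := by rw [hC']; linarith
  obtain ⟨Me, hMe⟩ : ∃ Me : ℝ, Me = (Nat.factorial N : ℝ) * Ce := ⟨_, rfl⟩
  obtain ⟨MQ, hMQ⟩ : ∃ MQ : ℝ, MQ = (Nat.factorial N : ℝ) * CQ := ⟨_, rfl⟩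
  have hMe0 : 0 ≤ Me := by rw [hMe]; positivity
  have hMQ0 : 0 ≤ MQ := by rw [hMQ]; positivity
  obtain ⟨M, hM⟩ : ∃ M : ℝ, M = 2 ^ N * Me * (2 ^ N * Me * MQ + MQ) := ⟨_, rfl⟩
  have hM0 : 0 ≤ M := by rw [hM]; positivity
  refine ⟨M * C' ^ N, by positivity, ?_⟩
  intro X L w D t r ph qu hpar hD hr hph hqu hrt
  have hX : 0 < X := by linarith [hpar.X4]
  have hL : 0 < L := by linarith [hpar.L1]
  have hCD : 0 ≤ C₀ * D := by positivity
  have hKD : C₀ * D ≤ K * D := mul_le_mul_of_nonneg_right hKC hD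
  have hKD0 : 0 ≤ K * D := hCD.trans hKD
  have hC'D : 0 ≤ C' * D := by positivity
  -- the bump
  have hb : Inn N (K * D) (fun t => Bf (qu t)) t := by
    have h1 := Inn.comp (G := Bf) (M := CB) hCD hCB1
      ((hBc.contDiffAt).of_le (by exact_mod_cast le_top)) (fun i hi => hCB _ i hi) hqu
    have h2 : (Nat.factorial N : ℝ) * CB * (C₀ * D) = K * D := by rw [hK]; ring
    rw [h2] at h1
    exact h1
  -- r / (8 X)
  have hc1 : |1 / (8 * X)| ≤ 1 := by
    rw [abs_of_pos (by positivity), div_le_one (by positivity)]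
    linarith [hpar.X4]
  have hrX : Inn N (K * D) (fun t => 1 / (8 * X) * r t) t :=
    Inn.mono hCD hKD (Inn.const_mul hc1 hCD hr)
  have hrX1 : |1 / (8 * X) * r t| ≤ 1 := by
    rw [abs_mul, abs_of_pos (by positivity : 0 < 1 / (8 * X)), one_div, inv_mul_le_iff₀ (by positivity)]
    linarith
  have hm : Inn N (2 * 1 ^ 2 * (K * D)) (fun t => 1 / (8 * X) * r t * Bf (qu t)) t :=
    Inn.mul hKD0 le_rfl hrX1 (abs_Bf_le6 _) hrX hb
  have hm0 : (0 : ℝ) ≤ 2 * 1 ^ 2 * (K * D) := by positivity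
  have hm' : Inn N (C' * D) (fun t => 1 / (8 * X) * r t * Bf (qu t)) t :=
    Inn.mono hm0 (by rw [hC']; nlinarith) hm
  -- the argument of the first Q
  have hL1 : |1 / L| ≤ 1 := by
    rw [abs_of_pos (by positivity), div_le_one hL]
    exact hpar.L1
  have hq1 : Inn N (C' * D) (fun t => r t - 1 / L * (1 / (8 * X) * r t * Bf (qu t)) - X) t := by
    have h1 := Inn.const_mul hL1 hm0 hm
    have h2 := Inn.sub hCD hm0 hr h1
    have h3 := Inn.sub (by positivity) le_rfl h2 (inn_const6 N X t)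
    have h4 : C₀ * D + 2 * 1 ^ 2 * (K * D) + 0 = C' * D := by rw [hC']; ring
    rw [h4] at h3
    exact h3
  have hq2 : Inn N (C' * D) (fun t => r t - X) t := by
    have h3 := Inn.sub hCD le_rfl hr (inn_const6 N X t)
    refine Inn.mono (by positivity) ?_ h3
    rw [hC']
    nlinarith
  have hph' : Inn N (C' * D) (fun t => -1 * ph t) t := by
    refine Inn.mono hCD ?_ (Inn.const_mul (by norm_num) hCD hph)
    rw [hC']
    nlinarith
  have heN : ∀ x : ℝ, ContDiffAt ℝ N e x := fun x =>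
    (hec.contDiffAt).of_le (by exact_mod_cast le_top)
  have c1 : Cls N (C' * D) Me (fun t => e (-1 * ph t)) t := by
    rw [hMe]
    exact Cls.comp hC'D (heN _) (fun i hi => hCe _ i hi) hph'
  have c2 : Cls N (C' * D) Me (fun t => e (1 / (8 * X) * r t * Bf (qu t))) t := by
    rw [hMe]
    exact Cls.comp hC'D (heN _) (fun i hi => hCe _ i hi) hm'
  have c3 : Cls N (C' * D) MQ
      (fun t => Q ψ L (r t - 1 / L * (1 / (8 * X) * r t * Bf (qu t)) - X)) t := by
    rw [hMQ]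
    exact Cls.comp hC'D (hQc L).contDiffAt (fun i hi => hCQ L _ i hi) hq1
  have c4 : Cls N (C' * D) MQ (fun t => Q ψ L (r t - X)) t := by
    rw [hMQ]
    exact Cls.comp hC'D (hQc L).contDiffAt (fun i hi => hCQ L _ i hi) hq2
  have c5 := Cls.mul hC'D hMe0 (by positivity) c1
    (Cls.sub (Cls.mul hC'D hMe0 hMQ0 c2 c3) c4)
  have hfun : (fun t => e (-(ph t)) *
        (e (L * r t * (1 / (8 * X * L) * Bf (qu t))) *
            Q ψ L (r t * (1 - 1 / (8 * X * L) * Bf (qu t)) - X)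
          - Q ψ L (r t - X))) = (fun t => e (-1 * ph t) *
        (e (1 / (8 * X) * r t * Bf (qu t)) *
            Q ψ L (r t - 1 / L * (1 / (8 * X) * r t * Bf (qu t)) - X)
          - Q ψ L (r t - X))) := by
    funext s
    have e1 : -(ph s) = -1 * ph s := by ring
    have e2 : L * r s * (1 / (8 * X * L) * Bf (qu s)) = 1 / (8 * X) * r s * Bf (qu s) := by
      field_simp
    have e3 : r s * (1 - 1 / (8 * X * L) * Bf (qu s)) - X =
        r s - 1 / L * (1 / (8 * X) * r s * Bf (qu s)) - X := by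
      field_simp
    rw [e1, e2, e3]
  rw [hfun]
  rw [← hM] at c5
  refine ⟨c5.1, fun i hi => (c5.2 i hi).trans ?_⟩
  rw [mul_pow, ← mul_assoc]
  refine mul_le_mul_of_nonneg_right ?_ (pow_nonneg hD i)
  exact mul_le_mul_of_nonneg_left (pow_le_pow_right₀ hC'1 hi) hM0

end Pool.Agent.Helper92.CS
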