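import Pool.Agent.Helper92.CS.Defs

/-!
CS-CountMono (project CS, MP_fb29e9_nt; README: /team-store/h92_CS_README.md). About ~80 lines.

PROOF. latticeCount_mono: for R < 0 the set is empty (R (1+g) < 0 <= norm); for 0 <= R <= R' inclusion of finite sets (g bounded on [-pi,pi]).
err_integrable: psi continuous with compact support; R -> latticeCount g R is monotone (so measurable) and bounded on bounded sets, R -> area * R^2 continuous;
product integrable: e.g. bound by C * psi r on Icc (1/4) (3/4), psi = 0 outside.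
-/

open MeasureTheory Set Filter Topology

noncomputable section

namespace Pool.Agent.Helper92.CS

private theorem lc94_finite_norm (B : ℝ) : {v : ℤ × ℤ | ‖pt v‖ ≤ B}.Finite := by
  have h1 : {v : ℤ × ℤ | ‖pt v‖ ≤ B} ⊆
      (Set.Icc (-⌈B⌉) ⌈B⌉) ×ˢ (Set.Icc (-⌈B⌉) ⌈B⌉) := by
    rintro ⟨a, b⟩ hv
    have hv' : ‖pt (a, b)‖ ≤ B := hv
    have hre : (pt (a, b)).re = a := by simp [pt]
    have him : (pt (a, b)).im = b := by simp [pt]
    have h2 : |(a : ℝ)| ≤ B := by
      rw [← hre]; exact (Complex.abs_re_le_norm _).trans hv'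
    have h3 : |(b : ℝ)| ≤ B := by
      rw [← him]; exact (Complex.abs_im_le_norm _).trans hv'
    have hB : B ≤ (⌈B⌉ : ℝ) := Int.le_ceil B
    rw [abs_le] at h2 h3
    refine ⟨⟨?_, ?_⟩, ⟨?_, ?_⟩⟩
    · have : ((-⌈B⌉ : ℤ) : ℝ) ≤ a := by push_cast; linarith
      exact_mod_cast this
    · have : (a : ℝ) ≤ (⌈B⌉ : ℤ) := by linarith
      exact_mod_cast this
    · have : ((-⌈B⌉ : ℤ) : ℝ) ≤ b := by push_cast; linarith
      exact_mod_cast this
    · have : (b : ℝ) ≤ (⌈B⌉ : ℤ) := by linarith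
      exact_mod_cast this
  exact ((Set.finite_Icc _ _).prod (Set.finite_Icc _ _)).subset h1

private theorem lc94_bound (g : ℝ → ℝ) (hg : Continuous g) :
    ∃ M : ℝ, 0 ≤ M ∧ ∀ z : ℂ, g z.arg ≤ M := by
  obtain ⟨M, hM⟩ := (isCompact_Icc (a := -Real.pi) (b := Real.pi)).exists_bound_of_continuousOn
    hg.continuousOn
  refine ⟨max M 0, le_max_right _ _, fun z => ?_⟩
  have h1 := hM z.arg ⟨(Complex.neg_pi_lt_arg z).le, Complex.arg_le_pi z⟩
  exact ((le_abs_self _).trans h1).trans (le_max_left _ _)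

private theorem lc94_finite (g : ℝ → ℝ) (hg : Continuous g) (hg0 : ∀ φ, 0 ≤ g φ) (R : ℝ) :
    {v : ℤ × ℤ | ‖pt v‖ ≤ R * (1 + g (pt v).arg)}.Finite := by
  obtain ⟨M, hM0, hM⟩ := lc94_bound g hg
  refine (lc94_finite_norm (|R| * (1 + M))).subset ?_
  intro v hv
  have hv' : ‖pt v‖ ≤ R * (1 + g (pt v).arg) := hv
  have h1 : R * (1 + g (pt v).arg) ≤ |R| * (1 + g (pt v).arg) :=
    mul_le_mul_of_nonneg_right (le_abs_self R) (by linarith [hg0 (pt v).arg])
  have h2 : |R| * (1 + g (pt v).arg) ≤ |R| * (1 + M) :=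
    mul_le_mul_of_nonneg_left (by linarith [hM (pt v)]) (abs_nonneg R)
  exact hv'.trans (h1.trans h2)

theorem latticeCount_mono (g : ℝ → ℝ) (hg : Continuous g) (hg0 : ∀ φ, 0 ≤ g φ) :
    Monotone (fun R => (latticeCount g R : ℝ)) := by
  intro R R' hRR
  have hsub : {v : ℤ × ℤ | ‖pt v‖ ≤ R * (1 + g (pt v).arg)} ⊆
      {v : ℤ × ℤ | ‖pt v‖ ≤ R' * (1 + g (pt v).arg)} := by
    intro v hv
    have hv' : ‖pt v‖ ≤ R * (1 + g (pt v).arg) := hv
    exact hv'.trans (mul_le_mul_of_nonneg_right hRR (by linarith [hg0 (pt v).arg]))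
  have h : latticeCount g R ≤ latticeCount g R' :=
    Set.ncard_le_ncard hsub (lc94_finite g hg hg0 R')
  exact Nat.cast_le.mpr h

theorem err_integrable (ψ : ℝ → ℝ) (hψ : IsTest ψ) (g : ℝ → ℝ) (hg : Continuous g)
    (hg0 : ∀ φ, 0 ≤ g φ) (X : ℝ) :
    Integrable (fun r => ψ r * |err g (X + r) - err 0 (X + r)|) := by
  have hmono := latticeCount_mono g hg hg0
  have hmono0 : Monotone (fun R => (latticeCount (0 : ℝ → ℝ) R : ℝ)) :=
    latticeCount_mono 0 continuous_const (fun _ => le_rfl)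
  set F : ℝ → ℝ := fun r => |err g (X + r) - err 0 (X + r)| with hF
  have hshift : Monotone (fun r : ℝ => X + r) := fun _ _ h => by
    change X + _ ≤ X + _
    linarith
  have hmF : Measurable F := by
    have h1 : Measurable (fun r : ℝ => (latticeCount g (X + r) : ℝ)) :=
      (hmono.comp hshift).measurable
    have h2 : Measurable (fun r : ℝ => (latticeCount (0 : ℝ → ℝ) (X + r) : ℝ)) :=
      (hmono0.comp hshift).measurable
    have h3 : Measurable (fun r : ℝ => area g * (X + r) ^ 2) := by fun_prop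
    have h4 : Measurable (fun r : ℝ => area 0 * (X + r) ^ 2) := by fun_prop
    have h5 : Measurable (fun r : ℝ => err g (X + r) - err 0 (X + r)) := (h1.sub h3).sub (h2.sub h4)
    exact measurable_norm.comp h5
  have hbF : ∃ C : ℝ, 0 ≤ C ∧ ∀ r ∈ Icc (1 / 4 : ℝ) (3 / 4), F r ≤ C := by
    set A : ℝ := |X| + 1 with hA
    refine ⟨(latticeCount g A : ℝ) + |area g| * A ^ 2 +
      ((latticeCount (0 : ℝ → ℝ) A : ℝ) + |area 0| * A ^ 2), by positivity, fun r hr => ?_⟩
    have hle : X + r ≤ A := by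
      have := le_abs_self X
      have := hr.2
      linarith
    have habs : |X + r| ≤ A := by
      rw [abs_le]
      have h1 := neg_abs_le X
      have h2 := hr.1
      exact ⟨by linarith, hle⟩
    have hsq : (X + r) ^ 2 ≤ A ^ 2 := by
      rw [← sq_abs (X + r)]
      exact pow_le_pow_left₀ (abs_nonneg _) habs 2
    have key : ∀ h : ℝ → ℝ, Monotone (fun R => (latticeCount h R : ℝ)) →
        |err h (X + r)| ≤ (latticeCount h A : ℝ) + |area h| * A ^ 2 := by
      intro h hm
      unfold err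
      have h1 : (latticeCount h (X + r) : ℝ) ≤ latticeCount h A := hm hle
      have h2 : |area h * (X + r) ^ 2| ≤ |area h| * A ^ 2 := by
        rw [abs_mul, abs_of_nonneg (sq_nonneg (X + r))]
        exact mul_le_mul_of_nonneg_left hsq (abs_nonneg _)
      calc |(latticeCount h (X + r) : ℝ) - area h * (X + r) ^ 2|
          ≤ |(latticeCount h (X + r) : ℝ)| + |area h * (X + r) ^ 2| := abs_sub _ _
        _ ≤ _ := by
          rw [abs_of_nonneg (Nat.cast_nonneg (latticeCount h (X + r)))]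
          linarith
    calc F r = |err g (X + r) - err 0 (X + r)| := rfl
      _ ≤ |err g (X + r)| + |err 0 (X + r)| := abs_sub _ _
      _ ≤ _ := add_le_add (key g hmono) (key 0 hmono0)
  obtain ⟨C, hC0, hC⟩ := hbF
  have hψc : Continuous ψ := hψ.smooth.continuous
  have hψint : Integrable ψ := by
    apply hψc.integrable_of_hasCompactSupport
    exact HasCompactSupport.intro (K := Icc (1 / 4 : ℝ) (3 / 4)) isCompact_Icc
      (fun x hx => hψ.supp x hx)
  have hmain : Integrable (fun r => C * ψ r) := hψint.const_mul C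
  refine hmain.mono' ?_ ?_
  · exact (hψc.measurable.mul hmF).aestronglyMeasurable
  · refine Filter.Eventually.of_forall fun r => ?_
    by_cases hr : r ∈ Icc (1 / 4 : ℝ) (3 / 4)
    · have h1 : 0 ≤ F r := abs_nonneg _
      have h2 : ‖ψ r * F r‖ = ψ r * F r := by
        rw [Real.norm_eq_abs, abs_of_nonneg (mul_nonneg (hψ.nonneg r) h1)]
      change ‖ψ r * F r‖ ≤ C * ψ r
      rw [h2, mul_comm C]
      exact mul_le_mul_of_nonneg_left (hC r hr) (hψ.nonneg r)
    · rw [hψ.supp r hr]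
      simp

end Pool.Agent.Helper92.CS
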