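import Pool.Agent.Helper92.CS.Defs

/-!
CS-HHzero (project CS, MP_fb29e9_nt; README: /team-store/h92_CS_README.md). About ~100 lines.

PROOF. alpha = 1/(8XL) <= 1/(8X) <= 1/32. If 1 - x/rho >= w^2/2 then bb = Bf(>= 1/2) = 0 and the bracket is Q - Q = 0 (e 0 = 1). If x <= 0 then x/rho <= 0 (in Lean also for rho = 0) so
1 - x/rho >= 1 >= w^2/2. If rho <= X: for u <= 0, psi = 0 on (-oo, 1/4) gives Q(u) = e(L u) * c with c = int psi(s) e(-(L s)) ds (substitute s = u + r; the part s in (u, 0] contributes 0); both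
arguments rho (1 - alpha bb) - X and rho - X are <= 0 and the two terms are equal. If rho >= X + 2: both arguments are >= 1 (the first is >= (X+2)(1 - 1/(8X)) - X = 2 - 1/8 - 1/(4X) >= 1) and Q(u) = 0 for u >= 1.
-/

open MeasureTheory Set Filter Topology

noncomputable section

namespace Pool.Agent.Helper92.CS

private theorem e_add67 (a b : ℝ) : e (a + b) = e a * e b := by
  unfold e
  rw [← Complex.exp_add]
  congr 1
  push_cast
  ring

private theorem e_zero67 : e 0 = 1 := by simp [e]

private theorem bb_zero67 (w x y : ℝ) (hw : 0 < w) (h : w ^ 2 / 2 ≤ 1 - x / rho x y) :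
    bb w x y = 0 := by
  unfold bb Bf
  apply Real.smoothTransition.zero_of_nonpos
  have h1 : 1 / 2 ≤ (1 - x / rho x y) / w ^ 2 := by
    rw [le_div_iff₀ (by positivity)]
    linarith
  linarith

private theorem bb_nonneg67 (w x y : ℝ) : 0 ≤ bb w x y := Real.smoothTransition.nonneg _

private theorem bb_le_one67 (w x y : ℝ) : bb w x y ≤ 1 := Real.smoothTransition.le_one _

private theorem rho_nonneg67 (x y : ℝ) : 0 ≤ rho x y := Real.sqrt_nonneg _

private theorem Q_neg67 (ψ : ℝ → ℝ) (hψ : IsTest ψ) (L u : ℝ) (hu : u ≤ 0) :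
    Q ψ L u = e (L * u) * ∫ s : ℝ, (ψ s : ℂ) * e (-(L * s)) := by
  have h1 : Q ψ L u = ∫ r : ℝ, (ψ (u + r) : ℂ) * e (-(L * r)) := by
    unfold Q
    apply setIntegral_eq_integral_of_forall_compl_eq_zero
    intro r hr
    rw [mem_Ioi, not_lt] at hr
    rw [hψ.supp (u + r) (by rw [mem_Icc, not_and_or]; left; linarith)]
    simp
  have h2 : (fun r : ℝ => (ψ (u + r) : ℂ) * e (-(L * r))) =
      fun r : ℝ => (fun s : ℝ => (ψ s : ℂ) * e (-(L * (s - u)))) (u + r) := by
    ext r
    simp only
    congr 3
    ring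
  rw [h1, h2, integral_add_left_eq_self (fun s : ℝ => (ψ s : ℂ) * e (-(L * (s - u)))) u,
    ← integral_const_mul]
  congr 1
  ext s
  have h3 : -(L * (s - u)) = L * u + -(L * s) := by ring
  rw [h3, e_add67]
  ring

private theorem Q_one67 (ψ : ℝ → ℝ) (hψ : IsTest ψ) (L u : ℝ) (hu : 1 ≤ u) : Q ψ L u = 0 := by
  unfold Q
  rw [setIntegral_congr_fun (g := fun _ => (0 : ℂ)) measurableSet_Ioi]
  · simp
  · intro r hr
    rw [mem_Ioi] at hr
    simp only
    rw [hψ.supp (u + r) (by rw [mem_Icc, not_and_or]; right; linarith)]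
    simp

theorem HH_zero (ψ : ℝ → ℝ) (hψ : IsTest ψ) (X L w x y : ℝ) (h : Par X L w)
    (hn : ¬ (0 < x ∧ X < rho x y ∧ rho x y < X + 2 ∧ 1 - x / rho x y < w ^ 2 / 2)) :
    HH ψ L X w (1 / (8 * X * L)) x y = 0 := by
  have hX := h.X4
  have hL := h.L1
  have hw0 := h.w0
  have hw1 := h.w1
  have hρ := rho_nonneg67 x y
  have hb0 := bb_nonneg67 w x y
  have hb1 := bb_le_one67 w x y
  have hbb : bb w x y = 0 → HH ψ L X w (1 / (8 * X * L)) x y = 0 := by
    intro hb
    unfold HH
    rw [hb]
    simp only [mul_zero, sub_zero, mul_one, e_zero67, one_mul, sub_self]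
  set α := 1 / (8 * X * L) with hα
  have hα0 : 0 ≤ α := by rw [hα]; positivity
  by_cases h1 : 0 < x
  · by_cases h2 : X < rho x y
    · by_cases h3 : rho x y < X + 2
      · have h4 : ¬ (1 - x / rho x y < w ^ 2 / 2) := fun h4 => hn ⟨h1, h2, h3, h4⟩
        exact hbb (bb_zero67 w x y hw0 (not_lt.1 h4))
      · rw [not_lt] at h3
        have h5 : α * bb w x y ≤ 1 / (8 * X) := by
          calc α * bb w x y ≤ α * 1 := by gcongr
            _ ≤ 1 / (8 * X) := by
              rw [mul_one, hα]
              apply one_div_le_one_div_of_le (by positivity)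
              nlinarith
        have h6 : 1 ≤ rho x y * (1 - α * bb w x y) - X := by
          have h7 : (X + 2) * (1 - 1 / (8 * X)) ≤ rho x y * (1 - α * bb w x y) := by
            apply mul_le_mul h3 (by linarith) _ hρ
            have : 1 / (8 * X) ≤ 1 := by
              rw [div_le_one (by positivity)]
              linarith
            linarith
          have h8 : (X + 2) * (1 - 1 / (8 * X)) = X + 2 - 1 / 8 - 1 / (4 * X) := by
            field_simp
            ring
          have h9 : 1 / (4 * X) ≤ 1 / 16 := by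
            apply one_div_le_one_div_of_le (by norm_num)
            linarith
          linarith
        unfold HH
        rw [Q_one67 ψ hψ L _ h6, Q_one67 ψ hψ L _ (by linarith)]
        simp
    · rw [not_lt] at h2
      have h5 : 0 ≤ rho x y * (α * bb w x y) := by positivity
      have h6 : rho x y * (1 - α * bb w x y) - X ≤ 0 := by nlinarith
      unfold HH
      rw [Q_neg67 ψ hψ L _ h6, Q_neg67 ψ hψ L _ (by linarith : rho x y - X ≤ 0), ← mul_assoc,
        ← e_add67]
      have h7 : L * rho x y * (α * bb w x y) + L * (rho x y * (1 - α * bb w x y) - X) =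
          L * (rho x y - X) := by ring
      rw [h7, sub_self, mul_zero]
  · rw [not_lt] at h1
    apply hbb
    apply bb_zero67 w x y hw0
    have h5 : x / rho x y ≤ 0 := div_nonpos_of_nonpos_of_nonneg h1 hρ
    nlinarith

end Pool.Agent.Helper92.CS
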