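import Pool.Agent.Helper92.CS.Defs

/-!
CS-GkBasic (project CS, MP_fb29e9_nt; README: /team-store/h92_CS_README.md). About ~60 lines.

PROOF. Bf = smoothTransition (2 - 4t): values in [0,1], smooth (Real.smoothTransition.contDiff), = 0 for t >= 1/2. 1 - alpha * bump >= 1/2. Periodic: cos.
-/

open MeasureTheory Set Filter Topology

noncomputable section

namespace Pool.Agent.Helper92.CS

theorem gk_basic (α w φ₀ : ℝ) (hα : 0 ≤ α) (hα1 : α ≤ 1 / 2) (hw : 0 < w) :
    ContDiff ℝ (⊤ : ℕ∞) (gk α w φ₀) ∧ Function.Periodic (gk α w φ₀) (2 * Real.pi) ∧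
      (∀ φ, 0 ≤ gk α w φ₀ φ ∧ gk α w φ₀ φ ≤ 2 * α) ∧
      (∀ φ, w ^ 2 / 2 ≤ 1 - Real.cos (φ - φ₀) → gk α w φ₀ φ = 0) := by
  have hb0 : ∀ φ, 0 ≤ bump w φ₀ φ := fun φ => Real.smoothTransition.nonneg _
  have hb1 : ∀ φ, bump w φ₀ φ ≤ 1 := fun φ => Real.smoothTransition.le_one _
  have hab : ∀ φ, α * bump w φ₀ φ ≤ 1 / 2 := fun φ =>
    (mul_le_of_le_one_right hα (hb1 φ)).trans hα1
  have hab0 : ∀ φ, 0 ≤ α * bump w φ₀ φ := fun φ => mul_nonneg hα (hb0 φ)
  have hden : ∀ φ, 1 / 2 ≤ 1 - α * bump w φ₀ φ := fun φ => by linarith [hab φ]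
  have hsm : ContDiff ℝ (⊤ : ℕ∞) (bump w φ₀) := by
    unfold bump Bf
    refine Real.smoothTransition.contDiff.comp ?_
    refine contDiff_const.sub (contDiff_const.mul ?_)
    refine ContDiff.div_const ?_ _
    exact contDiff_const.sub (Real.contDiff_cos.comp (contDiff_id.sub contDiff_const))
  refine ⟨?_, ?_, ?_, ?_⟩
  · unfold gk
    refine ContDiff.div (contDiff_const.mul hsm) (contDiff_const.sub (contDiff_const.mul hsm)) ?_
    intro φ
    have := hden φ
    linarith
  · intro φ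
    have : bump w φ₀ (φ + 2 * Real.pi) = bump w φ₀ φ := by
      unfold bump
      have h : φ + 2 * Real.pi - φ₀ = (φ - φ₀) + 2 * Real.pi := by ring
      rw [h, Real.cos_add_two_pi]
    unfold gk
    rw [this]
  · intro φ
    have h1 := hden φ
    have h2 := hab φ
    have h3 := hab0 φ
    constructor
    · exact div_nonneg h3 (by linarith)
    · unfold gk
      rw [div_le_iff₀ (by linarith)]
      have h4 : α * bump w φ₀ φ ≤ α := mul_le_of_le_one_right hα (hb1 φ)
      nlinarith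
  · intro φ h
    have hz : bump w φ₀ φ = 0 := by
      unfold bump Bf
      apply Real.smoothTransition.zero_of_nonpos
      have hw2 : 0 < w ^ 2 := by positivity
      have : 1 / 2 ≤ (1 - Real.cos (φ - φ₀)) / w ^ 2 := by
        rw [le_div_iff₀ hw2]; linarith
      linarith
    unfold gk
    rw [hz]; simp

end Pool.Agent.Helper92.CS
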