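import Pool.Agent.Helper92.CS.Defs
import Pool.Agent.Helper92.CS.GkBasic

/-!
CS-RingTest (project CS, MP_fb29e9_nt; README: /team-store/h92_CS_README.md). About ~150 lines.

PROOF. z = 0: left side 0 (Ring needs X + r < 0, psi = 0 there), right side: rho 0 0 = 0, bracket Q(-X) - Q(-X) = 0. z != 0: zeta = z exp(-i phi0) = x + i y, rho x y = |z|,
x = |z| cos (arg z - phi0), so bb w x y = bump w phi0 (arg z) =: b. 1 + gk = 1/(1 - alpha b), hence z in Ring iff X + r < rho and rho (1 - alpha b) <= X + r (r > -X; on the support of psi r >= 1/4), i.e.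
r in [rho (1 - alpha b) - X, rho - X). With F(u) = int_(u,oo) psi(r) e(-(L (X+r))) dr = e(-(L X)) e(-(L u)) Q psi L u the integral is F(rho (1 - alpha b) - X) - F(rho - X) (an interval integral; end points do not matter).
Multiply by e(L x) and collect: e(s) e(t) = e(s+t).
-/

open MeasureTheory Set Filter Topology

noncomputable section

namespace Pool.Agent.Helper92.CS

private theorem h75_e_add (s t : ℝ) : e (s + t) = e s * e t := by
  unfold e
  rw [← Complex.exp_add]
  congr 1
  push_cast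
  ring

private theorem h75_e_cont : Continuous e := by
  unfold e
  fun_prop

private theorem h75_supp (ψ : ℝ → ℝ) (hψ : IsTest ψ) (f : ℝ → ℂ) :
    HasCompactSupport (fun r => (ψ r : ℂ) * f r) :=
  HasCompactSupport.intro (isCompact_Icc (a := (1 / 4 : ℝ)) (b := 3 / 4)) (fun r hr => by
    simp [hψ.supp r hr])

theorem psi_e_integrable (ψ : ℝ → ℝ) (hψ : IsTest ψ) (L X : ℝ) :
    Integrable (fun r : ℝ => (ψ r : ℂ) * e (-(L * (X + r)))) := by
  refine Continuous.integrable_of_hasCompactSupport ?_ (h75_supp ψ hψ _)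
  have h1 : Continuous ψ := hψ.smooth.continuous
  have h2 : Continuous fun r : ℝ => e (-(L * (X + r))) := h75_e_cont.comp (by fun_prop)
  exact (Complex.continuous_ofReal.comp h1).mul h2

private theorem h75_F (ψ : ℝ → ℝ) (L X u : ℝ) :
    ∫ r in Ioi u, (ψ r : ℂ) * e (-(L * (X + r))) = e (-(L * (X + u))) * Q ψ L u := by
  have h1 : ∫ r in Ioi u, (ψ r : ℂ) * e (-(L * (X + r))) =
      ∫ s in Ioi (0 : ℝ), (ψ (u + s) : ℂ) * e (-(L * (X + (u + s)))) := by
    rw [← integral_indicator measurableSet_Ioi, ← integral_indicator measurableSet_Ioi,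
      ← integral_add_left_eq_self _ u]
    congr 1
    funext s
    by_cases hs : 0 < s
    · rw [indicator_of_mem (show u + s ∈ Ioi u by simpa using hs),
        indicator_of_mem (show s ∈ Ioi (0 : ℝ) from hs)]
    · rw [indicator_of_notMem (show u + s ∉ Ioi u by simpa using hs),
        indicator_of_notMem (show s ∉ Ioi (0 : ℝ) from hs)]
  rw [h1, Q, ← integral_const_mul]
  congr 1
  funext s
  have h2 : -(L * (X + (u + s))) = -(L * (X + u)) + -(L * s) := by ring
  rw [h2, h75_e_add]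
  ring

private theorem h75_rho (z : ℂ) (φ₀ : ℝ) :
    rho (z * Complex.exp (-(φ₀ * Complex.I))).re (z * Complex.exp (-(φ₀ * Complex.I))).im = ‖z‖ := by
  have h1 : ‖z * Complex.exp (-(φ₀ * Complex.I))‖ = ‖z‖ := by
    rw [norm_mul]
    have : -((φ₀ : ℂ) * Complex.I) = ((-φ₀ : ℝ) : ℂ) * Complex.I := by push_cast; ring
    rw [this, Complex.norm_exp_ofReal_mul_I, mul_one]
  rw [← h1, rho, Complex.norm_eq_sqrt_sq_add_sq]

private theorem h75_x (z : ℂ) (φ₀ : ℝ) :
    (z * Complex.exp (-(φ₀ * Complex.I))).re = ‖z‖ * Real.cos (z.arg - φ₀) := by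
  conv_lhs => rw [← Complex.norm_mul_exp_arg_mul_I z]
  rw [mul_assoc, ← Complex.exp_add]
  have : (z.arg : ℂ) * Complex.I + -((φ₀ : ℂ) * Complex.I) = ((z.arg - φ₀ : ℝ) : ℂ) * Complex.I := by
    push_cast
    ring
  rw [this, Complex.re_ofReal_mul, Complex.exp_ofReal_mul_I_re]

theorem ring_test (ψ : ℝ → ℝ) (hψ : IsTest ψ) (L X w α φ₀ : ℝ) (hX : 1 ≤ X) (hw : 0 < w)
    (hw1 : w ≤ 1) (hα : 0 ≤ α) (hα1 : α ≤ 1 / 2) (z : ℂ) :
    (∫ r : ℝ, (ψ r : ℂ) * e (-(L * (X + r))) *
        (Ring (gk α w φ₀) (X + r)).indicator (fun _ => (1 : ℂ)) z) *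
        e (L * (z * Complex.exp (-(φ₀ * Complex.I))).re)
      = HH ψ L X w α (z * Complex.exp (-(φ₀ * Complex.I))).re
          (z * Complex.exp (-(φ₀ * Complex.I))).im := by
  rcases eq_or_ne z 0 with rfl | hz
  · have h1 : ∀ r : ℝ, (ψ r : ℂ) * e (-(L * (X + r))) *
        (Ring (gk α w φ₀) (X + r)).indicator (fun _ => (1 : ℂ)) 0 = 0 := by
      intro r
      by_cases hr : (0 : ℂ) ∈ Ring (gk α w φ₀) (X + r)
      · have h2 : X + r < 0 := by
          have := hr.1
          simpa using this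
        have h3 : ψ r = 0 := hψ.supp r (fun h => by linarith [h.1])
        simp [h3]
      · rw [indicator_of_notMem hr, mul_zero]
    simp only [h1, integral_zero, zero_mul, Complex.zero_re, Complex.zero_im]
    have h4 : rho 0 0 = 0 := by simp [rho]
    have h5 : e 0 = 1 := by simp [e]
    simp only [HH, h4]
    simp [h5]
  · set x := (z * Complex.exp (-(φ₀ * Complex.I))).re with hx
    set y := (z * Complex.exp (-(φ₀ * Complex.I))).im with hy
    have hρ : rho x y = ‖z‖ := h75_rho z φ₀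
    have hz0 : 0 < ‖z‖ := norm_pos_iff.2 hz
    have hb : bb w x y = bump w φ₀ z.arg := by
      rw [bb, hρ, bump, hx, h75_x, mul_div_cancel_left₀ _ hz0.ne']
    set b := bb w x y with hbdef
    have hb0 : 0 ≤ b := by
      rw [hbdef, bb, Bf]
      exact Real.smoothTransition.nonneg _
    have hb1 : b ≤ 1 := by
      rw [hbdef, bb, Bf]
      exact Real.smoothTransition.le_one _
    have hαb : 0 ≤ α * b := mul_nonneg hα hb0
    have hαb1 : α * b ≤ 1 / 2 := by nlinarith
    have hpos : 0 < 1 - α * b := by linarith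
    have hgk : 1 + gk α w φ₀ z.arg = 1 / (1 - α * b) := by
      rw [gk, ← hb]
      field_simp
      ring
    set u1 := ‖z‖ * (1 - α * b) - X with hu1
    set u2 := ‖z‖ - X with hu2
    have hu12 : u1 ≤ u2 := by
      rw [hu1, hu2]
      nlinarith
    have hring : ∀ r : ℝ, z ∈ Ring (gk α w φ₀) (X + r) ↔ r ∈ Ico u1 u2 := by
      intro r
      rw [Ring, mem_setOf_eq, hgk, mul_one_div, le_div_iff₀ hpos, mem_Ico, hu1, hu2]
      constructor
      · rintro ⟨h1, h2⟩
        exact ⟨by linarith, by linarith⟩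
      · rintro ⟨h1, h2⟩
        exact ⟨by linarith, by linarith⟩
    have hint := psi_e_integrable ψ hψ L X
    have h1 : ∫ r : ℝ, (ψ r : ℂ) * e (-(L * (X + r))) *
        (Ring (gk α w φ₀) (X + r)).indicator (fun _ => (1 : ℂ)) z =
        ∫ r in Ico u1 u2, (ψ r : ℂ) * e (-(L * (X + r))) := by
      rw [← integral_indicator measurableSet_Ico]
      congr 1
      funext r
      by_cases hr : r ∈ Ico u1 u2
      · rw [indicator_of_mem ((hring r).2 hr), indicator_of_mem hr, mul_one]
      · rw [indicator_of_notMem (fun h => hr ((hring r).1 h)), indicator_of_notMem hr, mul_zero]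
    have h2 : ∫ r in Ico u1 u2, (ψ r : ℂ) * e (-(L * (X + r))) =
        (∫ r in Ioi u1, (ψ r : ℂ) * e (-(L * (X + r)))) -
          ∫ r in Ioi u2, (ψ r : ℂ) * e (-(L * (X + r))) := by
      rw [integral_Ico_eq_integral_Ioc, eq_sub_iff_add_eq, ← Ioc_union_Ioi_eq_Ioi hu12,
        setIntegral_union (Set.Ioc_disjoint_Ioi le_rfl) measurableSet_Ioi hint.integrableOn
          hint.integrableOn]
    rw [h1, h2, h75_F, h75_F, HH, hρ, ← hbdef]
    have e1 : X + u1 = ‖z‖ * (1 - α * b) := by rw [hu1]; ring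
    have e2 : X + u2 = ‖z‖ := by rw [hu2]; ring
    rw [e1, e2]
    have e3 : e (-(L * (‖z‖ * (1 - α * b)))) * e (L * x) =
        e (-(L * (‖z‖ - x))) * e (L * ‖z‖ * (α * b)) := by
      rw [← h75_e_add, ← h75_e_add]
      congr 1
      ring
    have e4 : e (-(L * ‖z‖)) * e (L * x) = e (-(L * (‖z‖ - x))) := by
      rw [← h75_e_add]
      congr 1
      ring
    calc (e (-(L * (‖z‖ * (1 - α * b)))) * Q ψ L u1 - e (-(L * ‖z‖)) * Q ψ L u2) * e (L * x)
        = (e (-(L * (‖z‖ * (1 - α * b)))) * e (L * x)) * Q ψ L u1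
          - (e (-(L * ‖z‖)) * e (L * x)) * Q ψ L u2 := by ring
      _ = e (-(L * (‖z‖ - x))) * (e (L * ‖z‖ * (α * b)) * Q ψ L u1 - Q ψ L u2) := by
          rw [e3, e4]
          ring

end Pool.Agent.Helper92.CS
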