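import Pool.Agent.Helper92.CS.Defs
import Pool.Agent.Helper92.CS.RingTest
import Pool.Agent.Helper92.CS.HHzero

/-!
CS-CountTest (project CS, MP_fb29e9_nt; README: /team-store/h92_CS_README.md). About ~150 lines.

PROOF. len > 0, exp(-i ang) = (p - q i)/len (arctan, p > 0), so pt v * exp(-i ang) has real part (p v1 + q v2)/len and imaginary part (p v2 - q v1)/len, and e(L x) = e(p v1 + q v2) = 1.
Finite support: HH != 0 implies rho < X + 2 (HH_zero) and rho = |pt v|. For r in the support of psi the ring lies in |v| <= 2X+4, so the ncard is a finite sum over the fixed box B = {v : |v1|, |v2| <= ceil(2X+4)} of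
indicators; exchange the finite sum and the integral (integrable: bounded measurable in r, r -> indicator of an interval, psi continuous with compact support); apply ring_test for each v in B; tsum = sum over B.
Par gives X >= 4, 0 < w <= 1/2, alpha = 1/(8 X len) <= 1/32.
-/

open MeasureTheory Set Filter Topology

noncomputable section

namespace Pool.Agent.Helper92.CS

private theorem h75_len_pos (p q : ℤ) (hp : 0 < p) : 0 < len p q := by
  unfold len
  have : (0 : ℝ) < p := by exact_mod_cast hp
  positivity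

private theorem h75_exp_ang (p q : ℤ) (hp : 0 < p) :
    Complex.exp (-((ang p q : ℂ) * Complex.I)) =
      ((p / len p q : ℝ) : ℂ) - ((q / len p q : ℝ) : ℂ) * Complex.I := by
  have hp' : (0 : ℝ) < p := by exact_mod_cast hp
  have hl := h75_len_pos p q hp
  have hs : Real.sqrt (1 + ((q : ℝ) / p) ^ 2) = len p q / p := by
    unfold len
    have h1 : 1 + ((q : ℝ) / p) ^ 2 = (Real.sqrt ((p : ℝ) ^ 2 + (q : ℝ) ^ 2) / p) ^ 2 := by
      rw [div_pow (Real.sqrt _), Real.sq_sqrt (by positivity)]
      field_simp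
    rw [h1, Real.sqrt_sq (by positivity)]
  have hc : Real.cos (ang p q) = p / len p q := by
    rw [ang, Real.cos_arctan, hs]
    field_simp
  have hsn : Real.sin (ang p q) = q / len p q := by
    rw [ang, Real.sin_arctan, hs]
    field_simp
  have h1 : -((ang p q : ℂ) * Complex.I) = ((-ang p q : ℝ) : ℂ) * Complex.I := by
    push_cast
    ring
  rw [h1, Complex.exp_mul_I, ← Complex.ofReal_cos, ← Complex.ofReal_sin, Real.cos_neg,
    Real.sin_neg, hc, hsn]
  push_cast
  ring

private theorem h75_re (p q : ℤ) (hp : 0 < p) (v : ℤ × ℤ) :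
    (pt v * Complex.exp (-((ang p q : ℂ) * Complex.I))).re = (p * v.1 + q * v.2) / len p q := by
  rw [h75_exp_ang p q hp, pt]
  simp
  ring

private theorem h75_im (p q : ℤ) (hp : 0 < p) (v : ℤ × ℤ) :
    (pt v * Complex.exp (-((ang p q : ℂ) * Complex.I))).im = (p * v.2 - q * v.1) / len p q := by
  rw [h75_exp_ang p q hp, pt]
  simp
  ring

private theorem h75_rho' (p q : ℤ) (hp : 0 < p) (v : ℤ × ℤ) :
    rho ((p * v.1 + q * v.2) / len p q) ((p * v.2 - q * v.1) / len p q) = ‖pt v‖ := by
  rw [← h75_re p q hp, ← h75_im p q hp, rho, ← Complex.norm_eq_sqrt_sq_add_sq, norm_mul]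
  have : -((ang p q : ℂ) * Complex.I) = ((-ang p q : ℝ) : ℂ) * Complex.I := by push_cast; ring
  rw [this, Complex.norm_exp_ofReal_mul_I, mul_one]

private theorem h75_e_int (n : ℤ) : e (n : ℝ) = 1 := by
  unfold e
  have : (((2 * Real.pi * (n : ℝ) : ℝ) : ℂ)) * Complex.I = (n : ℂ) * (2 * Real.pi * Complex.I) := by
    push_cast
    ring
  rw [this, Complex.exp_int_mul_two_pi_mul_I]

theorem count_test (ψ : ℝ → ℝ) (hψ : IsTest ψ) (p q : ℤ) (hp : 0 < p) (X w : ℝ)
    (h : Par X (len p q) w) :
    {v : ℤ × ℤ | HH ψ (len p q) X w (1 / (8 * X * len p q)) ((p * v.1 + q * v.2) / len p q)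
      ((p * v.2 - q * v.1) / len p q) ≠ 0}.Finite ∧
    ∫ r : ℝ, (ψ r : ℂ) * e (-(len p q * (X + r))) *
        (Set.ncard {v : ℤ × ℤ | pt v ∈ Ring (gk (1 / (8 * X * len p q)) w (ang p q)) (X + r)} : ℂ)
      = ∑' v : ℤ × ℤ, HH ψ (len p q) X w (1 / (8 * X * len p q))
          ((p * v.1 + q * v.2) / len p q) ((p * v.2 - q * v.1) / len p q) := by
  classical
  have hl := h75_len_pos p q hp
  have hX := h.X4
  have hw := h.w0
  have hw1 := h.w1
  have hL1 := h.L1
  set α : ℝ := 1 / (8 * X * len p q) with hα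
  have hα0 : 0 ≤ α := by rw [hα]; positivity
  have hα1 : α ≤ 1 / 32 := by
    rw [hα]
    apply one_div_le_one_div_of_le (by norm_num)
    nlinarith
  have hgk := gk_basic α w (ang p q) hα0 (by linarith) hw
  -- the box
  set N : ℤ := ⌈2 * X + 4⌉ with hN
  set B : Finset (ℤ × ℤ) := Finset.Icc (-N) N ×ˢ Finset.Icc (-N) N with hB
  have hbox : ∀ v : ℤ × ℤ, ‖pt v‖ ≤ 2 * X + 4 → v ∈ B := by
    intro v hv
    have h1 : |(v.1 : ℝ)| ≤ ‖pt v‖ := by
      have := Complex.abs_re_le_norm (pt v)
      simpa [pt] using this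
    have h2 : |(v.2 : ℝ)| ≤ ‖pt v‖ := by
      have := Complex.abs_im_le_norm (pt v)
      simpa [pt] using this
    have h3 : 2 * X + 4 ≤ (N : ℝ) := Int.le_ceil _
    rw [hB, Finset.mem_product, Finset.mem_Icc, Finset.mem_Icc]
    have h4 : |v.1| ≤ N := by
      have : |(v.1 : ℝ)| ≤ N := by linarith
      exact_mod_cast this
    have h5 : |v.2| ≤ N := by
      have : |(v.2 : ℝ)| ≤ N := by linarith
      exact_mod_cast this
    exact ⟨abs_le.1 h4, abs_le.1 h5⟩
  have hzero : ∀ v : ℤ × ℤ, v ∉ B → HH ψ (len p q) X w α ((p * v.1 + q * v.2) / len p q)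
      ((p * v.2 - q * v.1) / len p q) = 0 := by
    intro v hv
    refine HH_zero ψ hψ X (len p q) w _ _ h ?_
    rintro ⟨-, -, h3, -⟩
    rw [h75_rho' p q hp] at h3
    exact hv (hbox v (by linarith))
  refine ⟨(Finset.finite_toSet B).subset ?_, ?_⟩
  · intro v hv
    by_contra hvB
    exact hv (hzero v (by simpa using hvB))
  · rw [tsum_eq_sum hzero]
    have hone : ∀ v : ℤ × ℤ, ∫ r : ℝ, (ψ r : ℂ) * e (-(len p q * (X + r))) *
        (Ring (gk α w (ang p q)) (X + r)).indicator (fun _ => (1 : ℂ)) (pt v) =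
        HH ψ (len p q) X w α ((p * v.1 + q * v.2) / len p q) ((p * v.2 - q * v.1) / len p q) := by
      intro v
      have h1 := ring_test ψ hψ (len p q) X w α (ang p q) (by linarith) hw (by linarith) hα0
        (by linarith) (pt v)
      rw [h75_re p q hp, h75_im p q hp] at h1
      rw [← h1]
      have h2 : len p q * ((p * v.1 + q * v.2) / len p q) = ((p * v.1 + q * v.2 : ℤ) : ℝ) := by
        rw [mul_div_cancel₀ _ hl.ne']
        push_cast
        ring
      rw [h2, h75_e_int, mul_one]
    have hint : ∀ v : ℤ × ℤ, Integrable (fun r : ℝ => (ψ r : ℂ) * e (-(len p q * (X + r))) *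
        (Ring (gk α w (ang p q)) (X + r)).indicator (fun _ => (1 : ℂ)) (pt v)) := by
      intro v
      have hS : MeasurableSet {r : ℝ | pt v ∈ Ring (gk α w (ang p q)) (X + r)} := by
        have e1 : {r : ℝ | pt v ∈ Ring (gk α w (ang p q)) (X + r)} =
            {r : ℝ | X + r < ‖pt v‖} ∩ {r : ℝ | ‖pt v‖ ≤ (X + r) * (1 + gk α w (ang p q) (pt v).arg)} := by
          ext r
          rfl
        rw [e1]
        refine MeasurableSet.inter ?_ ?_
        · exact measurableSet_lt (by fun_prop) (by fun_prop)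
        · exact measurableSet_le (by fun_prop) (by fun_prop)
      refine ((psi_e_integrable ψ hψ (len p q) X).indicator hS).congr
        (Filter.Eventually.of_forall fun r => ?_)
      simp only
      by_cases hr : pt v ∈ Ring (gk α w (ang p q)) (X + r)
      · rw [indicator_of_mem hr, mul_one,
          indicator_of_mem (show r ∈ {r : ℝ | pt v ∈ Ring (gk α w (ang p q)) (X + r)} from hr)]
      · rw [indicator_of_notMem hr, mul_zero,
          indicator_of_notMem (show r ∉ {r : ℝ | pt v ∈ Ring (gk α w (ang p q)) (X + r)} from hr)]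
    rw [← Finset.sum_congr rfl fun v _ => hone v, ← integral_finset_sum _ fun v _ => hint v]
    congr 1
    funext r
    by_cases hr : r ∈ Icc (1 / 4 : ℝ) (3 / 4)
    · rw [← Finset.mul_sum]
      congr 1
      have hsub : ∀ v : ℤ × ℤ, pt v ∈ Ring (gk α w (ang p q)) (X + r) → v ∈ B := by
        intro v hv
        apply hbox
        have h1 := hv.2
        have h2 := (hgk.2.2.1 (pt v).arg).2
        have h3 := hr.2
        have h4 := hr.1
        nlinarith
      have hset : {v : ℤ × ℤ | pt v ∈ Ring (gk α w (ang p q)) (X + r)} =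
          ↑(B.filter fun v => pt v ∈ Ring (gk α w (ang p q)) (X + r)) := by
        ext v
        simp only [mem_ofPred_eq, Finset.coe_filter]
        exact ⟨fun hv => ⟨hsub v hv, hv⟩, fun hv => hv.2⟩
      rw [hset, Set.ncard_coe_finset, Finset.card_filter]
      push_cast
      refine Finset.sum_congr rfl fun v _ => ?_
      rw [indicator_apply]
    · simp [hψ.supp r hr]

end Pool.Agent.Helper92.CS
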