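import Mathlib
import Pool.Agent.Helper92.CS.Base

/-!
CS-Curv (project CS, MP_fb29e9_nt): the curvature of the curve `r = 1 + g φ`.
-/

noncomputable section

namespace Pool.Agent.Helper92.CS

theorem curv_bound (g : ℝ → ℝ) (φ ε : ℝ) (hε : ε ≤ 1 / 10) (h0 : |g φ| ≤ ε)
    (h1 : |deriv g φ| ≤ ε) (h2 : |deriv (deriv g) φ| ≤ ε) : |curv g φ - 1| ≤ 20 * ε := by
  unfold curv
  generalize g φ = a at *
  generalize deriv (deriv g) φ = c at *
  generalize deriv g φ = b at *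
  have hε0 : 0 ≤ ε := (abs_nonneg _).trans h0
  rw [abs_le] at h0 h1 h2
  obtain ⟨a1, a2⟩ := h0
  obtain ⟨b1, b2⟩ := h1
  obtain ⟨c1, c2⟩ := h2
  set D : ℝ := (1 + a) ^ 2 + b ^ 2 with hD
  have hb : b ^ 2 ≤ ε / 10 := by nlinarith
  have hb0 : 0 ≤ b ^ 2 := sq_nonneg b
  have ha : a ^ 2 ≤ ε / 10 := by nlinarith
  have ha0 : 0 ≤ a ^ 2 := sq_nonneg a
  have hD1 : |D - 1| ≤ 22 / 10 * ε := by
    rw [abs_le, hD]
    have hsq : (1 + a) ^ 2 = 1 + 2 * a + a ^ 2 := by ring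
    constructor <;> linarith
  have hD2 : 1 - 22 / 10 * ε ≤ D := by rw [abs_le] at hD1; linarith
  have hD3 : D ≤ 1 + 22 / 10 * ε := by rw [abs_le] at hD1; linarith
  have hDpos : 0 < D := by linarith
  have hpow : D ^ (3 / 2 : ℝ) = D * Real.sqrt D := by
    rw [Real.sqrt_eq_rpow]
    nth_rewrite 2 [← Real.rpow_one D]
    rw [← Real.rpow_add hDpos]
    norm_num
  rw [hpow]
  set S := Real.sqrt D with hS
  have hS0 : 0 ≤ S := Real.sqrt_nonneg _
  have hSS : S * S = D := Real.mul_self_sqrt hDpos.le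
  have hS1 : |S - 1| ≤ 22 / 10 * ε := by
    have : (S - 1) * (S + 1) = D - 1 := by ring_nf; nlinarith
    have h3 : |S - 1| * (S + 1) = |D - 1| := by
      rw [← this, abs_mul, abs_of_nonneg (by linarith : 0 ≤ S + 1)]
    nlinarith [abs_nonneg (S - 1)]
  rw [abs_le] at hS1
  have hSu : S ≤ 122 / 100 := by linarith
  have hSl : 78 / 100 ≤ S := by linarith
  have hDS : |D * S - 1| ≤ 49 / 10 * ε := by
    have : D * S - 1 = (D - 1) * S + (S - 1) := by ring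
    rw [abs_le] at hD1 ⊢
    constructor <;> nlinarith
  have hDSl : 1 / 2 ≤ D * S := by
    rw [abs_le] at hDS; linarith
  have hac : |(1 + a) * c| ≤ 11 / 10 * ε := by
    rw [abs_mul]
    have h3 : |1 + a| ≤ 11 / 10 := by rw [abs_le]; constructor <;> linarith
    have h4 : |c| ≤ ε := by rw [abs_le]; constructor <;> linarith
    exact mul_le_mul h3 h4 (abs_nonneg _) (by norm_num)
  have hN : |((1 + a) ^ 2 + 2 * b ^ 2 - (1 + a) * c) - 1| ≤ 34 / 10 * ε := by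
    rw [abs_le] at hac ⊢
    have hsq : (1 + a) ^ 2 = 1 + 2 * a + a ^ 2 := by ring
    constructor <;> linarith [hac.1, hac.2]
  have hq : ((1 + a) ^ 2 + 2 * b ^ 2 - (1 + a) * c) / (D * S) - 1
      = ((((1 + a) ^ 2 + 2 * b ^ 2 - (1 + a) * c) - 1) - (D * S - 1)) / (D * S) := by
    field_simp
    ring
  have hDS0 : 0 < D * S := by linarith
  rw [hq, abs_div, abs_of_pos hDS0, div_le_iff₀ hDS0]
  have h5 := abs_sub (((1 + a) ^ 2 + 2 * b ^ 2 - (1 + a) * c) - 1) (D * S - 1)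
  calc _ ≤ 34 / 10 * ε + 49 / 10 * ε := h5.trans (add_le_add hN hDS)
    _ ≤ 20 * ε * (1 / 2) := by linarith
    _ ≤ 20 * ε * (D * S) := mul_le_mul_of_nonneg_left hDSl (by linarith)

end Pool.Agent.Helper92.CS
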