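import Mathlib
import Pool.Agent.Helper92.CS.Base

/-!
Lattice points in perturbed disks (project CS, problem MP_fb29e9_nt): definitions for the proof.
The definitions used in the final statement are in Base.lean.
-/

open MeasureTheory Set Filter Topology

noncomputable section

namespace Pool.Agent.Helper92.CS

/-- `e(t) = exp(2πit)`. -/
def e (t : ℝ) : ℂ := Complex.exp ((2 * Real.pi * t : ℝ) * Complex.I)

/-- The smooth cut-off: `1` on `(-∞, 1/4]`, `0` on `[1/2, ∞)`. -/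
def Bf (t : ℝ) : ℝ := Real.smoothTransition (2 - 4 * t)

/-- Smooth periodic bump of width about `w` at the angle `φ₀`. -/
def bump (w φ₀ φ : ℝ) : ℝ := Bf ((1 - Real.cos (φ - φ₀)) / w ^ 2)

/-- The perturbation made from one bump: `1 + gk = 1 / (1 - α * bump)`. -/
def gk (α w φ₀ φ : ℝ) : ℝ := α * bump w φ₀ φ / (1 - α * bump w φ₀ φ)

/-- The ring between the circle of radius `R` and the dilated perturbed circle. -/
def Ring (g : ℝ → ℝ) (R : ℝ) : Set ℂ := {z : ℂ | R < ‖z‖ ∧ ‖z‖ ≤ R * (1 + g z.arg)}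

/-- Distance to the origin. -/
def rho (x y : ℝ) : ℝ := Real.sqrt (x ^ 2 + y ^ 2)

/-- The bump as a function of the point (coordinates along and across the direction). -/
def bb (w x y : ℝ) : ℝ := Bf ((1 - x / rho x y) / w ^ 2)

/-- A test function. -/
structure IsTest (ψ : ℝ → ℝ) : Prop where
  smooth : ContDiff ℝ (⊤ : ℕ∞) ψ
  nonneg : ∀ r, 0 ≤ ψ r
  supp : ∀ r, r ∉ Icc (1 / 4 : ℝ) (3 / 4) → ψ r = 0
  int_one : ∫ r, ψ r = 1

/-- `Q(u) = ∫_0^∞ ψ(u+r) e(-Lr) dr`. -/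
def Q (ψ : ℝ → ℝ) (L u : ℝ) : ℂ := ∫ r in Ioi (0 : ℝ), (ψ (u + r) : ℂ) * e (-(L * r))

/-- The slowly varying function whose sum over the lattice is the tested ring count. -/
def HH (ψ : ℝ → ℝ) (L X w α x y : ℝ) : ℂ :=
  e (-(L * (rho x y - x))) *
    (e (L * rho x y * (α * bb w x y)) * Q ψ L (rho x y * (1 - α * bb w x y) - X)
      - Q ψ L (rho x y - X))

/-- `f` is `C^N` at `t` with the first `N` derivatives at `t` at most `M D^i`. -/
def Cls (N : ℕ) (D M : ℝ) (f : ℝ → ℂ) (t : ℝ) : Prop :=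
  ContDiffAt ℝ N f t ∧ ∀ i ≤ N, ‖iteratedDeriv i f t‖ ≤ M * D ^ i

/-- `f` is `C^N` at `t` with the derivatives of order `1 ≤ i ≤ N` at `t` at most `D^i`. -/
def Inn (N : ℕ) (D : ℝ) (f : ℝ → ℝ) (t : ℝ) : Prop :=
  ContDiffAt ℝ N f t ∧ ∀ i, 1 ≤ i → i ≤ N → |iteratedDeriv i f t| ≤ D ^ i

/-- Admissible perturbation on the sector `(a, b)`. -/
structure Adm (s : ℕ) (δ a b : ℝ) (g : ℝ → ℝ) : Prop where
  per : Function.Periodic g (2 * Real.pi)
  smooth : ContDiff ℝ (⊤ : ℕ∞) g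
  nonneg : ∀ φ, 0 ≤ g φ
  supp : ∀ φ ∈ Ioc (-Real.pi) Real.pi, φ ∉ Ioo a b → g φ = 0
  small : ∀ j ≤ s, ∀ φ, |iteratedDeriv j g φ| ≤ δ

/-- Length of the lattice vector `(p, q)`. -/
def len (p q : ℤ) : ℝ := Real.sqrt ((p : ℝ) ^ 2 + (q : ℝ) ^ 2)

/-- Angle of the lattice vector `(p, q)` (used for `p > 0`). -/
def ang (p q : ℤ) : ℝ := Real.arctan ((q : ℝ) / p)

/-- Conditions on the parameters. -/
structure Par (X L w : ℝ) : Prop where
  X4 : 4 ≤ X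
  L1 : 1 ≤ L
  LX : L ≤ X
  w0 : 0 < w
  w1 : w ≤ 1 / 2
  L2w : L ^ 2 * w ≤ 1
  Xw2 : 1 ≤ X * w ^ 2

/-- The (closed) region which contains the support of `HH`. -/
structure Reg (X w x y : ℝ) : Prop where
  x0 : 0 < x
  lo : X ≤ rho x y
  hi : rho x y ≤ X + 2
  ang : 1 - x / rho x y ≤ w ^ 2 / 2

/-- The perturbation in the variable `z = 2 sin (φ/2)`. -/
def gz (α w z : ℝ) : ℝ := α * Bf (z ^ 2 / (2 * w ^ 2)) / (1 - α * Bf (z ^ 2 / (2 * w ^ 2)))

/-- The amplitude in the Fresnel integral. -/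
def amp (α w L R t z : ℝ) : ℂ :=
  ((R ^ 2 * gz α w z * (1 + t * gz α w z) / Real.sqrt (1 - z ^ 2 / 4) : ℝ) : ℂ) *
    e (L * R * t * gz α w z * (1 - z ^ 2 / 2))

end Pool.Agent.Helper92.CS
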