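import Pool.Agent.Helper92.CS.Defs

/-!
CS-ErrAdd (project CS, MP_fb29e9_nt; README: /team-store/h92_CS_README.md). About ~100 lines.

Two nonnegative continuous perturbations with disjoint supports on (-pi, pi]: the errors add.
PROOF. Put S_h = {v : |pt v| <= R (1 + h (arg))} for h = 0, G, g, G+g. For every v either G or g vanishes at arg (pt v) (arg lies in (-pi, pi]), so
S_(G+g) = S_G union S_g and S_G inter S_g = S_0 (use G, g >= 0, R >= 0). All are finite (G, g bounded on [-pi, pi]; at most |v1|, |v2| <= R(1+C)), so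
ncard (S_G u S_g) + ncard (S_G n S_g) = ncard S_G + ncard S_g (Set.ncard_union_add_ncard_inter). In the same way for the areas of
D_h = {z : |z| <= 1 + h (arg z)}: measurable (Complex.measurable_arg, continuity), finite measure (inside a ball), measure_union_add_inter.
Then unfold err.
-/

open MeasureTheory Set Filter Topology

noncomputable section

namespace Pool.Agent.Helper92.CS

/-- The sector arguments: union of two inequalities. -/
private lemma h5_union {t r a b : ℝ} (hr : 0 ≤ r) (ha : 0 ≤ a) (hb : 0 ≤ b)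
    (hab : a = 0 ∨ b = 0) : t ≤ r * (1 + (a + b)) ↔ (t ≤ r * (1 + a) ∨ t ≤ r * (1 + b)) := by
  have h1 : 0 ≤ r * a := mul_nonneg hr ha
  have h2 : 0 ≤ r * b := mul_nonneg hr hb
  rcases hab with h | h
  · subst h
    constructor
    · intro h; right; nlinarith
    · rintro (h | h) <;> nlinarith
  · subst h
    constructor
    · intro h; left; nlinarith
    · rintro (h | h) <;> nlinarith

/-- The sector arguments: intersection of two inequalities. -/
private lemma h5_inter {t r a b : ℝ} (hr : 0 ≤ r) (ha : 0 ≤ a) (hb : 0 ≤ b)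
    (hab : a = 0 ∨ b = 0) : t ≤ r * (1 + 0) ↔ (t ≤ r * (1 + a) ∧ t ≤ r * (1 + b)) := by
  have h1 : 0 ≤ r * a := mul_nonneg hr ha
  have h2 : 0 ≤ r * b := mul_nonneg hr hb
  rcases hab with h | h
  · subst h
    constructor
    · intro h; constructor <;> nlinarith
    · rintro ⟨h, _⟩; nlinarith
  · subst h
    constructor
    · intro h; constructor <;> nlinarith
    · rintro ⟨_, h⟩; nlinarith

/-- A continuous function is bounded on the arguments. -/
private lemma h5_bdd (h : ℝ → ℝ) (hh : Continuous h) :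
    ∃ C : ℝ, ∀ z : ℂ, h z.arg ≤ C := by
  obtain ⟨C, hC⟩ := (isCompact_Icc (a := -Real.pi) (b := Real.pi)).bddAbove_image
    hh.continuousOn
  refine ⟨C, fun z => hC ⟨z.arg, ?_, rfl⟩⟩
  have := Complex.arg_mem_Ioc z
  exact ⟨this.1.le, this.2⟩

/-- The lattice points in a dilate are finitely many. -/
private lemma h5_fin (h : ℝ → ℝ) (hh : Continuous h) (R : ℝ) (hR : 0 ≤ R) :
    {v : ℤ × ℤ | ‖pt v‖ ≤ R * (1 + h (pt v).arg)}.Finite := by
  obtain ⟨C, hC⟩ := h5_bdd h hh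
  set B : ℤ := ⌈R * (1 + C)⌉ with hB
  refine ((Set.finite_Icc (-B) B).prod (Set.finite_Icc (-B) B)).subset ?_
  intro v hv
  have hv' : ‖pt v‖ ≤ R * (1 + h (pt v).arg) := hv
  have h1 : ‖pt v‖ ≤ (B : ℝ) := by
    have := Int.le_ceil (R * (1 + C))
    have h2 : R * (1 + h (pt v).arg) ≤ R * (1 + C) :=
      mul_le_mul_of_nonneg_left (by linarith [hC (pt v)]) hR
    linarith
  have hre : |(pt v).re| ≤ (B : ℝ) := (Complex.abs_re_le_norm _).trans h1
  have him : |(pt v).im| ≤ (B : ℝ) := (Complex.abs_im_le_norm _).trans h1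
  have e1 : (pt v).re = (v.1 : ℝ) := by simp [pt]
  have e2 : (pt v).im = (v.2 : ℝ) := by simp [pt]
  rw [e1] at hre
  rw [e2] at him
  rw [abs_le] at hre him
  refine Set.mem_prod.2 ⟨⟨?_, ?_⟩, ⟨?_, ?_⟩⟩
  · exact_mod_cast hre.1
  · exact_mod_cast hre.2
  · exact_mod_cast him.1
  · exact_mod_cast him.2

/-- The domain is measurable. -/
private lemma h5_meas (h : ℝ → ℝ) (hh : Continuous h) :
    MeasurableSet {z : ℂ | ‖z‖ ≤ 1 + h z.arg} :=
  measurableSet_le measurable_norm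
    (measurable_const.add (hh.measurable.comp Complex.measurable_arg))

/-- The domain has finite measure. -/
private lemma h5_vol (h : ℝ → ℝ) (hh : Continuous h) :
    volume {z : ℂ | ‖z‖ ≤ 1 + h z.arg} ≠ ⊤ := by
  obtain ⟨C, hC⟩ := h5_bdd h hh
  have hsub : {z : ℂ | ‖z‖ ≤ 1 + h z.arg} ⊆ Metric.closedBall (0 : ℂ) (1 + C) := by
    intro z hz
    have hz' : ‖z‖ ≤ 1 + h z.arg := hz
    rw [mem_closedBall_zero_iff]
    linarith [hC z]
  exact ((measure_mono hsub).trans_lt measure_closedBall_lt_top).ne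

theorem err_add (G g : ℝ → ℝ) (hG : Continuous G) (hg : Continuous g)
    (hG0 : ∀ φ, 0 ≤ G φ) (hg0 : ∀ φ, 0 ≤ g φ)
    (hd : ∀ φ ∈ Ioc (-Real.pi) Real.pi, G φ = 0 ∨ g φ = 0) (R : ℝ) (hR : 0 ≤ R) :
    err (fun φ => G φ + g φ) R = err G R + err g R - err 0 R := by
  have hcount : (latticeCount (fun φ => G φ + g φ) R : ℝ) + latticeCount 0 R
      = latticeCount G R + latticeCount g R := by
    have hU : {v : ℤ × ℤ | ‖pt v‖ ≤ R * (1 + (G (pt v).arg + g (pt v).arg))}
        = {v : ℤ × ℤ | ‖pt v‖ ≤ R * (1 + G (pt v).arg)} ∪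
          {v : ℤ × ℤ | ‖pt v‖ ≤ R * (1 + g (pt v).arg)} := by
      ext v
      exact h5_union hR (hG0 _) (hg0 _) (hd _ (Complex.arg_mem_Ioc _))
    have hI : {v : ℤ × ℤ | ‖pt v‖ ≤ R * (1 + (0 : ℝ → ℝ) (pt v).arg)}
        = {v : ℤ × ℤ | ‖pt v‖ ≤ R * (1 + G (pt v).arg)} ∩
          {v : ℤ × ℤ | ‖pt v‖ ≤ R * (1 + g (pt v).arg)} := by
      ext v
      exact h5_inter hR (hG0 _) (hg0 _) (hd _ (Complex.arg_mem_Ioc _))
    have := Set.ncard_union_add_ncard_inter
      {v : ℤ × ℤ | ‖pt v‖ ≤ R * (1 + G (pt v).arg)}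
      {v : ℤ × ℤ | ‖pt v‖ ≤ R * (1 + g (pt v).arg)} (h5_fin G hG R hR) (h5_fin g hg R hR)
    rw [← hU, ← hI] at this
    unfold latticeCount
    exact_mod_cast this
  have harea : area (fun φ => G φ + g φ) + area 0 = area G + area g := by
    have hU : {z : ℂ | ‖z‖ ≤ 1 + (G z.arg + g z.arg)}
        = {z : ℂ | ‖z‖ ≤ 1 + G z.arg} ∪ {z : ℂ | ‖z‖ ≤ 1 + g z.arg} := by
      ext z
      have := h5_union (t := ‖z‖) zero_le_one (hG0 z.arg) (hg0 z.arg)
        (hd _ (Complex.arg_mem_Ioc z))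
      rw [one_mul, one_mul, one_mul] at this
      exact this
    have hI : {z : ℂ | ‖z‖ ≤ 1 + (0 : ℝ → ℝ) z.arg}
        = {z : ℂ | ‖z‖ ≤ 1 + G z.arg} ∩ {z : ℂ | ‖z‖ ≤ 1 + g z.arg} := by
      ext z
      have := h5_inter (t := ‖z‖) zero_le_one (hG0 z.arg) (hg0 z.arg)
        (hd _ (Complex.arg_mem_Ioc z))
      rw [one_mul, one_mul, one_mul] at this
      exact this
    have := measure_union_add_inter (μ := (volume : Measure ℂ))
      {z : ℂ | ‖z‖ ≤ 1 + G z.arg} (h5_meas g hg)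
    rw [← hU, ← hI] at this
    unfold area
    have h0 : volume {z : ℂ | ‖z‖ ≤ 1 + (0 : ℝ → ℝ) z.arg} ≠ ⊤ :=
      h5_vol 0 continuous_const
    have h1 : volume {z : ℂ | ‖z‖ ≤ 1 + (G z.arg + g z.arg)} ≠ ⊤ :=
      h5_vol (fun φ => G φ + g φ) (hG.add hg)
    rw [← ENNReal.toReal_add h1 h0, this, ENNReal.toReal_add (h5_vol G hG) (h5_vol g hg)]
  unfold err
  linear_combination hcount - R ^ 2 * harea

end Pool.Agent.Helper92.CS
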