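import Pool.Agent.Helper92.CS.Defs

/-!
CS-ErrRing (project CS, MP_fb29e9_nt; README: /team-store/h92_CS_README.md). About ~60 lines.

The effect of the perturbation = points in the ring minus area. PROOF. err g R - err 0 R = (N_g - N_0) - (area g - area 0) R^2, and
{v : pt v in Ring g R} = S_g \ S_0 with S_0 subset S_g finite (g >= 0 continuous hence bounded on [-pi,pi], (pt v).arg in (-pi,pi]); Set.ncard_sdiff.
-/

open MeasureTheory Set Filter Topology

noncomputable section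

namespace Pool.Agent.Helper92.CS

private theorem h33_finite (g : ℝ → ℝ) (hg : Continuous g) (R : ℝ) (hR : 0 < R) :
    {v : ℤ × ℤ | ‖pt v‖ ≤ R * (1 + g (pt v).arg)}.Finite := by
  obtain ⟨M, hM⟩ := (isCompact_Icc (a := -Real.pi) (b := Real.pi)).exists_bound_of_continuousOn
    hg.continuousOn
  set B : ℤ := ⌈R * (1 + M)⌉ with hB
  refine (Set.finite_Icc ((-B, -B) : ℤ × ℤ) (B, B)).subset ?_
  intro v hv
  have hv' : ‖pt v‖ ≤ R * (1 + g (pt v).arg) := hv
  have harg : (pt v).arg ∈ Icc (-Real.pi) Real.pi :=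
    ⟨(Complex.neg_pi_lt_arg _).le, Complex.arg_le_pi _⟩
  have h1 := hM _ harg
  have h2 : g (pt v).arg ≤ M := (le_abs_self _).trans (by simpa using h1)
  have h3 : ‖pt v‖ ≤ (B : ℝ) := by
    refine le_trans (le_trans hv' ?_) (Int.le_ceil _)
    exact mul_le_mul_of_nonneg_left (by linarith) hR.le
  have hre : (pt v).re = (v.1 : ℝ) := by simp [pt]
  have him : (pt v).im = (v.2 : ℝ) := by simp [pt]
  have h4 : |(v.1 : ℝ)| ≤ (B : ℝ) := by
    rw [← hre]; exact (Complex.abs_re_le_norm _).trans h3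
  have h5 : |(v.2 : ℝ)| ≤ (B : ℝ) := by
    rw [← him]; exact (Complex.abs_im_le_norm _).trans h3
  rw [abs_le] at h4 h5
  refine ⟨⟨?_, ?_⟩, ⟨?_, ?_⟩⟩
  · have := h4.1; exact_mod_cast this
  · have := h5.1; exact_mod_cast this
  · have := h4.2; exact_mod_cast this
  · have := h5.2; exact_mod_cast this

theorem err_ring (g : ℝ → ℝ) (hg : Continuous g) (hg0 : ∀ φ, 0 ≤ g φ) (R : ℝ) (hR : 0 < R) :
    err g R - err 0 R = (Set.ncard {v : ℤ × ℤ | pt v ∈ Ring g R} : ℝ)
      - (area g - area 0) * R ^ 2 := by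
  have hfin := h33_finite g hg R hR
  have hsub : {v : ℤ × ℤ | ‖pt v‖ ≤ R * (1 + (0 : ℝ → ℝ) (pt v).arg)} ⊆
      {v : ℤ × ℤ | ‖pt v‖ ≤ R * (1 + g (pt v).arg)} := by
    intro v hv
    have hv' : ‖pt v‖ ≤ R * (1 + (0 : ℝ → ℝ) (pt v).arg) := hv
    have h0 := hg0 (pt v).arg
    show ‖pt v‖ ≤ R * (1 + g (pt v).arg)
    refine hv'.trans (mul_le_mul_of_nonneg_left ?_ hR.le)
    simp only [Pi.zero_apply]
    linarith
  have hfin0 := hfin.subset hsub
  have heq : {v : ℤ × ℤ | pt v ∈ Ring g R} =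
      {v : ℤ × ℤ | ‖pt v‖ ≤ R * (1 + g (pt v).arg)} \
        {v : ℤ × ℤ | ‖pt v‖ ≤ R * (1 + (0 : ℝ → ℝ) (pt v).arg)} := by
    ext v
    simp only [Ring, mem_setOf_eq, mem_diff, Pi.zero_apply, add_zero, mul_one, not_le]
    exact and_comm
  have hcard := Set.ncard_sdiff_add_ncard_of_subset hsub hfin
  rw [← heq] at hcard
  unfold err latticeCount
  rw [← hcard]
  push_cast
  ring

end Pool.Agent.Helper92.CS
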