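import Pool.Agent.Helper92.CS.Defs

/-!
CS-ErrStable (project CS, MP_fb29e9_nt; README: /team-store/h92_CS_README.md). About ~120 lines.

A very small further perturbation changes the error by at most eps.
PROOF. G <= C on [-pi, pi]. Count: F = {v : |pt v| <= R (1 + C + 1)} is finite; for v in F with |pt v| > R (1 + G (arg)) the gap |pt v| / R - 1 - G (arg) is > 0;
let mu <= 1 be smaller than all these finitely many gaps: the count does not change for any h with 0 <= h <= mu. Area: with G >= 0 we have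
1 + G + h <= (1 + mu)(1 + G), so D_G subset D_(G+h) subset (1+mu) • D_G, and volume ((1+mu) • D_G) = (1+mu)^2 volume D_G
(Measure.addHaar_smul, finrank ℝ ℂ = 2); no measurability of h is needed (measure is monotone on all sets). So the area changes by at most
((1+mu)^2 - 1) area G, times R^2 <= eps for mu small. Be careful with toReal (volume D_G < oo).
-/

open MeasureTheory Set Filter Topology Pointwise

noncomputable section

namespace Pool.Agent.Helper92.CS

private lemma h60_pt_re (v : ℤ × ℤ) : (pt v).re = v.1 := by simp [pt]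

private lemma h60_pt_im (v : ℤ × ℤ) : (pt v).im = v.2 := by simp [pt]

private lemma h60_fin (K : ℝ) : {v : ℤ × ℤ | ‖pt v‖ ≤ K}.Finite := by
  apply (Set.Finite.prod (Set.finite_Icc (-⌈K⌉) ⌈K⌉) (Set.finite_Icc (-⌈K⌉) ⌈K⌉)).subset
  intro v hv
  have hv' : ‖pt v‖ ≤ K := hv
  have h1 := (Complex.abs_re_le_norm (pt v)).trans hv'
  have h2 := (Complex.abs_im_le_norm (pt v)).trans hv'
  rw [h60_pt_re] at h1
  rw [h60_pt_im] at h2
  have h3 := (Int.le_ceil K)
  have key : ∀ a : ℤ, |(a : ℝ)| ≤ K → a ∈ Set.Icc (-⌈K⌉) ⌈K⌉ := by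
    intro a ha
    have h4 := abs_le.1 (ha.trans h3)
    constructor
    · have : ((-⌈K⌉ : ℤ) : ℝ) ≤ a := by push_cast; exact h4.1
      exact_mod_cast this
    · exact_mod_cast h4.2
  exact ⟨key _ h1, key _ h2⟩

private lemma h60_gap (G : ℝ → ℝ) (C R : ℝ) (hR : 0 < R) :
    ∃ μ : ℝ, 0 < μ ∧ ∀ v : ℤ × ℤ, ‖pt v‖ ≤ R * (1 + C + 1) →
      R * (1 + G (pt v).arg) < ‖pt v‖ → R * (1 + G (pt v).arg + μ) < ‖pt v‖ := by
  classical
  have hfin := h60_fin (R * (1 + C + 1))
  set F := hfin.toFinset with hF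
  set gap : ℤ × ℤ → ℝ := fun v => ‖pt v‖ / R - 1 - G (pt v).arg with hgap
  have hlt : ∀ v : ℤ × ℤ, R * (1 + G (pt v).arg) < ‖pt v‖ → 0 < gap v := by
    intro v hv
    have : 1 + G (pt v).arg < ‖pt v‖ / R := by
      rw [lt_div_iff₀ hR]; linarith
    simp only [hgap]; linarith
  have hfin2 : ∀ s : Finset (ℤ × ℤ), ∃ μ : ℝ, 0 < μ ∧ ∀ v ∈ s, 0 < gap v → μ < gap v := by
    intro s
    induction s using Finset.induction_on with
    | empty => exact ⟨1, one_pos, by simp⟩
    | insert a s ha ih =>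
      obtain ⟨μ, hμ, h⟩ := ih
      by_cases hg : 0 < gap a
      · refine ⟨min μ (gap a / 2), lt_min hμ (by linarith), fun v hv hv0 => ?_⟩
        rcases Finset.mem_insert.1 hv with rfl | hv
        · exact lt_of_le_of_lt (min_le_right _ _) (by linarith)
        · exact lt_of_le_of_lt (min_le_left _ _) (h v hv hv0)
      · refine ⟨μ, hμ, fun v hv hv0 => ?_⟩
        rcases Finset.mem_insert.1 hv with rfl | hv
        · exact absurd hv0 hg
        · exact h v hv hv0
  obtain ⟨μ, hμ, h⟩ := hfin2 F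
  refine ⟨μ, hμ, fun v hv1 hv2 => ?_⟩
  have h1 := h v (by rw [hF, Set.Finite.mem_toFinset]; exact hv1) (hlt v hv2)
  simp only [hgap] at h1
  have h2 : 1 + G (pt v).arg + μ < ‖pt v‖ / R := by linarith
  rw [lt_div_iff₀ hR] at h2
  linarith

theorem err_stable (G : ℝ → ℝ) (hG : Continuous G) (hG0 : ∀ φ, 0 ≤ G φ) (R : ℝ) (hR : 0 < R)
    (ε : ℝ) (hε : 0 < ε) :
    ∃ μ > 0, ∀ h : ℝ → ℝ, (∀ φ, 0 ≤ h φ ∧ h φ ≤ μ) →
      |err (fun φ => G φ + h φ) R - err G R| ≤ ε := by
  obtain ⟨C, hC⟩ : ∃ C : ℝ, ∀ φ ∈ Icc (-Real.pi) Real.pi, G φ ≤ C := by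
    obtain ⟨C, hC⟩ := (isCompact_Icc (a := -Real.pi) (b := Real.pi)).bddAbove_image
      hG.continuousOn
    exact ⟨C, fun φ hφ => hC ⟨φ, hφ, rfl⟩⟩
  have harg : ∀ z : ℂ, G z.arg ≤ C := fun z =>
    hC _ ⟨(Complex.neg_pi_lt_arg z).le, Complex.arg_le_pi z⟩
  obtain ⟨μ₁, hμ₁, hgap⟩ := h60_gap G C R hR
  set D : Set ℂ := {z : ℂ | ‖z‖ ≤ 1 + G z.arg} with hD
  have hDfin : volume D < ⊤ := by
    refine lt_of_le_of_lt (measure_mono (t := Metric.closedBall 0 (1 + C)) ?_)
      measure_closedBall_lt_top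
    intro z hz
    have hz' : ‖z‖ ≤ 1 + G z.arg := hz
    simp only [Metric.mem_closedBall, dist_zero_right]
    linarith [harg z]
  set A : ℝ := area G with hA
  have hA0 : 0 ≤ A := ENNReal.toReal_nonneg
  set μ : ℝ := min (min 1 μ₁) (ε / (3 * (A + 1) * R ^ 2)) with hμdef
  have hμ0 : 0 < μ := lt_min (lt_min one_pos hμ₁) (by positivity)
  have hμ1 : μ ≤ 1 := (min_le_left _ _).trans (min_le_left _ _)
  have hμ2 : μ ≤ μ₁ := (min_le_left _ _).trans (min_le_right _ _)
  have hμ3 : μ ≤ ε / (3 * (A + 1) * R ^ 2) := min_le_right _ _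
  refine ⟨μ, hμ0, fun h hh => ?_⟩
  -- the count
  have hcount : latticeCount (fun φ => G φ + h φ) R = latticeCount G R := by
    unfold latticeCount
    congr 1
    ext v
    simp only [mem_setOf_eq]
    constructor
    · intro hv
      by_contra hcon
      push Not at hcon
      have h1 := (hh (pt v).arg).2
      have h2 : ‖pt v‖ ≤ R * (1 + C + 1) := by
        refine hv.trans (mul_le_mul_of_nonneg_left ?_ hR.le)
        have := harg (pt v)
        linarith
      have h3 := hgap v h2 hcon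
      have h4 : R * (1 + (G (pt v).arg + h (pt v).arg)) ≤ R * (1 + G (pt v).arg + μ₁) := by
        apply mul_le_mul_of_nonneg_left _ hR.le
        linarith
      linarith
    · intro hv
      refine hv.trans (mul_le_mul_of_nonneg_left ?_ hR.le)
      linarith [(hh (pt v).arg).1]
  -- the area
  set D' : Set ℂ := {z : ℂ | ‖z‖ ≤ 1 + (G z.arg + h z.arg)} with hD'
  have hsub1 : D ⊆ D' := by
    intro z hz
    have hz' : ‖z‖ ≤ 1 + G z.arg := hz
    change ‖z‖ ≤ 1 + (G z.arg + h z.arg)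
    linarith [(hh z.arg).1]
  have hsub2 : D' ⊆ (1 + μ) • D := by
    intro z hz
    have hz' : ‖z‖ ≤ 1 + (G z.arg + h z.arg) := hz
    have hpos : 0 < 1 + μ := by linarith
    rw [Set.mem_smul_set_iff_inv_smul_mem₀ hpos.ne']
    have h1 : ((1 + μ)⁻¹ • z).arg = z.arg := by
      rw [Complex.real_smul]
      exact Complex.arg_real_mul z (inv_pos.2 hpos)
    change ‖(1 + μ)⁻¹ • z‖ ≤ 1 + G ((1 + μ)⁻¹ • z).arg
    rw [h1, norm_smul, Real.norm_eq_abs, abs_of_pos (inv_pos.2 hpos), inv_mul_le_iff₀ hpos]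
    have h2 := (hh z.arg).2
    have h3 := hG0 z.arg
    nlinarith
  have hvol : volume ((1 + μ) • D) = ENNReal.ofReal ((1 + μ) ^ 2) * volume D := by
    rw [Measure.addHaar_smul, Complex.finrank_real_complex,
      abs_of_nonneg (by positivity : (0 : ℝ) ≤ (1 + μ) ^ 2)]
  have hfin2 : volume ((1 + μ) • D) < ⊤ := by
    rw [hvol]; exact ENNReal.mul_lt_top ENNReal.ofReal_lt_top hDfin
  have hfin3 : volume D' < ⊤ := lt_of_le_of_lt (measure_mono hsub2) hfin2
  have hlow : A ≤ area (fun φ => G φ + h φ) := by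
    change (volume D).toReal ≤ (volume D').toReal
    exact ENNReal.toReal_mono hfin3.ne (measure_mono hsub1)
  have hupp : area (fun φ => G φ + h φ) ≤ (1 + μ) ^ 2 * A := by
    change (volume D').toReal ≤ (1 + μ) ^ 2 * (volume D).toReal
    calc (volume D').toReal ≤ (volume ((1 + μ) • D)).toReal :=
          ENNReal.toReal_mono hfin2.ne (measure_mono hsub2)
      _ = _ := by
          rw [hvol, ENNReal.toReal_mul, ENNReal.toReal_ofReal (by positivity)]
  have hR2 : 0 < R ^ 2 := by positivity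
  have hdiff : err (fun φ => G φ + h φ) R - err G R
      = -((area (fun φ => G φ + h φ) - A) * R ^ 2) := by
    unfold err
    rw [hcount]; ring
  rw [hdiff, abs_neg, abs_of_nonneg (mul_nonneg (by linarith) hR2.le)]
  have h5 : area (fun φ => G φ + h φ) - A ≤ 3 * μ * A := by nlinarith
  calc (area (fun φ => G φ + h φ) - A) * R ^ 2 ≤ 3 * μ * A * R ^ 2 :=
        mul_le_mul_of_nonneg_right h5 hR2.le
    _ ≤ 3 * μ * (A + 1) * R ^ 2 := by
        apply mul_le_mul_of_nonneg_right _ hR2.le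
        nlinarith
    _ = μ * (3 * (A + 1) * R ^ 2) := by ring
    _ ≤ ε / (3 * (A + 1) * R ^ 2) * (3 * (A + 1) * R ^ 2) :=
        mul_le_mul_of_nonneg_right hμ3 (by positivity)
    _ = ε := by field_simp

end Pool.Agent.Helper92.CS
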