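import Pool.Agent.Helper92.CS.Defs
import Pool.Agent.Helper92.CS.ErrAdd

/-!
CS-ErrSum (project CS, MP_fb29e9_nt; README: /team-store/h92_CS_README.md). About ~50 lines.

Finite sums of perturbations with pairwise disjoint supports. PROOF. Induction on T (Finset.induction_on, classical) with err_add:
G = sum over T, g = g i. If g i phi != 0 then all g j phi = 0, j in T. (fun _ => 0) = 0 for the empty set.
-/

open MeasureTheory Set Filter Topology

noncomputable section

namespace Pool.Agent.Helper92.CS

theorem err_sum {ι : Type} (T : Finset ι) (g : ι → ℝ → ℝ)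
    (hc : ∀ i ∈ T, Continuous (g i)) (h0 : ∀ i ∈ T, ∀ φ, 0 ≤ g i φ)
    (hd : ∀ i ∈ T, ∀ j ∈ T, i ≠ j → ∀ φ ∈ Ioc (-Real.pi) Real.pi, g i φ = 0 ∨ g j φ = 0)
    (R : ℝ) (hR : 0 ≤ R) :
    err (fun φ => ∑ i ∈ T, g i φ) R - err 0 R = ∑ i ∈ T, (err (g i) R - err 0 R) := by
  classical
  induction T using Finset.induction_on with
  | empty =>
    have h : (fun φ : ℝ => ∑ i ∈ (∅ : Finset ι), g i φ) = 0 := by
      funext φ
      simp
    rw [h]
    simp
  | insert i T hi ih =>
    have hc' : ∀ j ∈ T, Continuous (g j) := fun j hj => hc j (Finset.mem_insert_of_mem hj)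
    have h0' : ∀ j ∈ T, ∀ φ, 0 ≤ g j φ := fun j hj => h0 j (Finset.mem_insert_of_mem hj)
    have hd' : ∀ j ∈ T, ∀ k ∈ T, j ≠ k → ∀ φ ∈ Ioc (-Real.pi) Real.pi, g j φ = 0 ∨ g k φ = 0 :=
      fun j hj k hk => hd j (Finset.mem_insert_of_mem hj) k (Finset.mem_insert_of_mem hk)
    have ih' := ih hc' h0' hd'
    have hfun : (fun φ : ℝ => ∑ j ∈ insert i T, g j φ)
        = (fun φ => (fun φ : ℝ => ∑ j ∈ T, g j φ) φ + g i φ) := by
      funext φ
      rw [Finset.sum_insert hi]
      ring
    have key := err_add (fun φ : ℝ => ∑ j ∈ T, g j φ) (g i)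
      (continuous_finsetSum T hc')
      (hc i (Finset.mem_insert_self i T))
      (fun φ => Finset.sum_nonneg (fun j hj => h0' j hj φ))
      (h0 i (Finset.mem_insert_self i T))
      (by
        intro φ hφ
        by_cases hz : g i φ = 0
        · exact Or.inr hz
        · left
          apply Finset.sum_eq_zero
          intro j hj
          rcases hd j (Finset.mem_insert_of_mem hj) i (Finset.mem_insert_self i T)
            (fun h => hi (h ▸ hj)) φ hφ with h | h
          · exact h
          · exact absurd h hz) R hR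
    rw [hfun, key, Finset.sum_insert hi, ← ih']
    ring

end Pool.Agent.Helper92.CS
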