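import Pool.Agent.Helper92.CS.Stage
import Pool.Agent.Helper92.CS.ErrAdd
import Pool.Agent.Helper92.CS.ErrStable
import Pool.Agent.Helper92.CS.Curv

/-!
CS-Final (project CS, MP_fb29e9_nt): the infinite construction.
-/

open MeasureTheory Set Filter Topology

noncomputable section

namespace Pool.Agent.Helper92.CS

theorem sum_smooth (gg : ℕ → ℝ → ℝ) (S : ℕ → ℕ) (ε : ℕ → ℝ) (hε : Summable ε)
    (hsm : ∀ j, ContDiff ℝ (⊤ : ℕ∞) (gg j))
    (hbd : ∀ j, ∀ i ≤ S j, ∀ φ, |iteratedDeriv i (gg j) φ| ≤ ε j)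
    (M : ℕ) (hM : ∀ j, M ≤ S j) (s : ℕ∞)
    (hs : ∀ m : ℕ, (m : ℕ∞) ≤ s → ∀ᶠ j in atTop, m ≤ S j) :
    ContDiff ℝ s (fun φ => ∑' j, gg j φ) ∧
      ∀ i ≤ M, ∀ φ, |iteratedDeriv i (fun φ => ∑' j, gg j φ) φ| ≤ ∑' j, ε j := by
  constructor
  · apply contDiff_tsum_of_eventually (v := fun _ j => ε j)
    · intro j
      exact (hsm j).of_le (by exact_mod_cast le_top)
    · intro k hk
      exact hε
    · intro k hk
      rw [Nat.cofinite_eq_atTop]
      have hk' : (k : ℕ∞) ≤ s := by exact_mod_cast hk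
      filter_upwards [hs k hk'] with j hj x
      rw [norm_iteratedFDeriv_eq_norm_iteratedDeriv, Real.norm_eq_abs]
      exact hbd j k hj x
  · intro i hi φ
    have hf : ∀ j, ContDiff ℝ (M : ℕ∞) (gg j) := fun j => (hsm j).of_le (by exact_mod_cast le_top)
    have h := iteratedFDeriv_tsum_apply (𝕜 := ℝ) (N := (M : ℕ∞)) (f := gg) (v := fun _ j => ε j) hf
      (fun k _ => hε)
      (fun k j x hk => by
        rw [norm_iteratedFDeriv_eq_norm_iteratedDeriv, Real.norm_eq_abs]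
        have hk' : k ≤ M := by exact_mod_cast hk
        exact hbd j k (hk'.trans (hM j)) x) (k := i) (by exact_mod_cast hi) φ
    rw [← Real.norm_eq_abs, ← norm_iteratedFDeriv_eq_norm_iteratedDeriv, h]
    refine tsum_of_norm_bounded hε.hasSum fun j => ?_
    rw [norm_iteratedFDeriv_eq_norm_iteratedDeriv, Real.norm_eq_abs]
    exact hbd j i (hi.trans (hM j)) φ

/-- One step of the construction. -/
theorem step (S : ℕ) (hS : 3 ≤ S) (u : ℝ) (hu : 0 < u) (hu1 : u < 1 / (4 * S - 2))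
    (a b : ℝ) (ha : 0 < a) (hab : a < b) (hb : b ≤ 1 / 2) (ε : ℝ) (hε : 0 < ε)
    (G : ℝ → ℝ) (hG : Continuous G) (hG0 : ∀ φ, 0 ≤ G φ) (hG1 : ∀ φ ∈ Ioo a b, G φ = 0)
    (R₀ : ℝ) : ∃ R ≥ R₀, 0 < R ∧ ∃ g : ℝ → ℝ, Adm S ε a b g ∧
      R ^ (1 / 2 + u) + 1 ≤ |err (fun φ => G φ + g φ) R| := by
  have hS' : (3:ℝ) ≤ S := by exact_mod_cast hS
  set v : ℝ := 1 / (4 * S - 2) with hv
  have hv0 : 0 < v := by rw [hv]; apply one_div_pos.2; linarith
  set u' : ℝ := (u + v) / 2 with hu'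
  set κ : ℝ := u' + v with hκ
  have hκ0 : 0 < κ := by rw [hκ, hu']; linarith
  have hκ1 : κ * (2 * S - 1) < 1 := by
    have h1 : κ < 2 * v := by rw [hκ, hu']; linarith
    have h2 : 2 * v * (2 * S - 1) = 1 := by
      rw [hv]
      have : (4 * (S:ℝ) - 2) ≠ 0 := by linarith
      field_simp
      ring
    calc κ * (2 * S - 1) < 2 * v * (2 * S - 1) := by
          apply mul_lt_mul_of_pos_right h1; linarith
      _ = 1 := h2
  have hη : 0 < κ / 2 - u' := by rw [hκ, hu']; linarith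
  have hst := stage S hS κ hκ0 hκ1 a b ha hab hb ε (κ / 2 - u') hε hη
  -- growth
  have hgrow : ∀ᶠ X : ℝ in atTop, (X + 1) ^ (1 / 2 + u) + 1 ≤ X ^ (1 / 2 + u') / 2 := by
    have h1 : Tendsto (fun X : ℝ => X ^ (u' - u)) atTop atTop :=
      tendsto_rpow_atTop (by rw [hu']; linarith)
    filter_upwards [h1.eventually (eventually_ge_atTop (2 * (2 ^ (1 / 2 + u) + 1))),
      eventually_ge_atTop 1] with X hX hX1
    have hX0 : 0 < X := by linarith
    have e1 : (X + 1) ^ (1 / 2 + u) ≤ 2 ^ (1 / 2 + u) * X ^ (1 / 2 + u) := by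
      rw [← Real.mul_rpow (by norm_num) hX0.le]
      apply Real.rpow_le_rpow (by linarith) (by linarith) (by linarith)
    have e2 : 1 ≤ X ^ (1 / 2 + u) := Real.one_le_rpow hX1 (by linarith)
    have e3 : X ^ (1 / 2 + u') = X ^ (1 / 2 + u) * X ^ (u' - u) := by
      rw [← Real.rpow_add hX0]; congr 1; ring
    rw [e3]
    have e4 : 0 < X ^ (1 / 2 + u) := by linarith
    calc (X + 1) ^ (1 / 2 + u) + 1 ≤ 2 ^ (1 / 2 + u) * X ^ (1 / 2 + u) + X ^ (1 / 2 + u) := by
          linarith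
      _ = X ^ (1 / 2 + u) * (2 * (2 ^ (1 / 2 + u) + 1)) / 2 := by ring
      _ ≤ X ^ (1 / 2 + u) * X ^ (u' - u) / 2 := by
          have := mul_le_mul_of_nonneg_left hX e4.le
          linarith
  obtain ⟨X, ⟨R, hR, g₁, g₂, hg₁, hg₂, hdiff⟩, hX2, hX3, hX4⟩ :=
    (hst.and (hgrow.and ((eventually_ge_atTop R₀).and (eventually_ge_atTop 1)))).exists
  have hR0 : 0 < R := by linarith [hR.1]
  have hexp : 1 / 2 + κ / 2 - (κ / 2 - u') = 1 / 2 + u' := by ring
  rw [hexp] at hdiff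
  have hlow : R ^ (1 / 2 + u) + 1 ≤ X ^ (1 / 2 + u') / 2 := by
    refine le_trans ?_ hX2
    gcongr
    exact hR.2
  have hadd : ∀ g : ℝ → ℝ, Adm S ε a b g →
      err (fun φ => G φ + g φ) R = err G R + err g R - err 0 R := by
    intro g hg
    apply err_add G g hG hg.smooth.continuous hG0 hg.nonneg _ R hR0.le
    intro φ hφ
    by_cases h : φ ∈ Ioo a b
    · exact Or.inl (hG1 φ h)
    · exact Or.inr (hg.supp φ hφ h)
  have h1 := hadd g₁ hg₁
  have h2 := hadd g₂ hg₂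
  by_cases hbig : X ^ (1 / 2 + u') / 2 ≤ |err (fun φ => G φ + g₁ φ) R|
  · exact ⟨R, by linarith [hR.1], hR0, g₁, hg₁, hlow.trans hbig⟩
  · refine ⟨R, by linarith [hR.1], hR0, g₂, hg₂, hlow.trans ?_⟩
    push Not at hbig
    rw [abs_lt] at hbig
    have h3 : err (fun φ => G φ + g₂ φ) R ≤ -(X ^ (1 / 2 + u') / 2) := by linarith [hbig.2]
    have := neg_abs_le (err (fun φ => G φ + g₂ φ) R)
    have h4 := neg_le_abs (err (fun φ => G φ + g₂ φ) R)
    linarith

theorem final (s : ℕ∞) (hs : 3 ≤ s) (N : ℕ) (hN : (N : ℕ∞) ≤ s) (δ : ℝ) (hδ : 0 < δ)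
    (f : ℝ → ℝ) (hf : Tendsto f atTop (𝓝 0)) :
    ∃ g : ℝ → ℝ, ContDiff ℝ s g ∧ Function.Periodic g (2 * Real.pi) ∧ (∀ φ, 0 ≤ g φ) ∧
      (∀ φ ∈ Ioc (-Real.pi) Real.pi, φ ∉ Ioo 0 δ → g φ = 0) ∧
      (∀ j ≤ N, ∀ φ, |iteratedDeriv j g φ| ≤ δ) ∧ (∀ φ, |curv g φ - 1| ≤ δ) ∧
      ∀ η > 0, ∀ R₀ : ℝ, ∃ R ≥ R₀, R ^ (1 / 2 + max (gain s - η) (f R)) ≤ |err g R| := by
  -- parameters
  obtain ⟨S, hS3, hSN, hSev, hgain⟩ : ∃ S : ℕ → ℕ, (∀ j, 3 ≤ S j) ∧ (∀ j, N ≤ S j) ∧
      (∀ m : ℕ, (m : ℕ∞) ≤ s → ∀ᶠ j in atTop, m ≤ S j) ∧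
      (∀ η > 0, ∀ᶠ j : ℕ in atTop,
        gain s - η ≤ (1 - 1 / ((j : ℝ) + 2)) * (1 / (4 * (S j : ℝ) - 2))) := by
    induction s using ENat.recTopCoe with
    | top =>
      refine ⟨fun j => max N 3 + j, fun j => (le_max_right N 3).trans (Nat.le_add_right _ _),
        fun j => (le_max_left N 3).trans (Nat.le_add_right _ _), ?_, ?_⟩
      · intro m _
        filter_upwards [eventually_ge_atTop m] with j hj
        exact hj.trans (Nat.le_add_left _ _)
      · intro η hη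
        refine Eventually.of_forall fun j => ?_
        have h1 : gain ⊤ = 0 := by simp [gain]
        rw [h1]
        have h2 : (3:ℝ) ≤ ((max N 3 + j : ℕ) : ℝ) := by
          have : 3 ≤ max N 3 + j := by omega
          exact_mod_cast this
        have h3 : 0 ≤ 1 - 1 / ((j:ℝ) + 2) := by
          rw [sub_nonneg, div_le_one (by positivity)]
          have : (0:ℝ) ≤ j := Nat.cast_nonneg j
          linarith
        have h4 : 0 ≤ 1 / (4 * ((max N 3 + j : ℕ) : ℝ) - 2) := by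
          apply one_div_nonneg.2; linarith
        have := mul_nonneg h3 h4
        linarith
    | coe s =>
      have hs' : 3 ≤ s := by exact_mod_cast hs
      have hN' : N ≤ s := by exact_mod_cast hN
      refine ⟨fun _ => s, fun _ => hs', fun _ => hN', ?_, ?_⟩
      · intro m hm
        have : m ≤ s := by exact_mod_cast hm
        exact Eventually.of_forall fun _ => this
      · intro η hη
        have h1 : gain (s : ℕ∞) = 1 / (4 * (s:ℝ) - 2) := by simp [gain]
        rw [h1]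
        have h2 : Tendsto (fun j : ℕ => (1 - 1 / ((j : ℝ) + 2)) * (1 / (4 * (s : ℝ) - 2))) atTop
            (𝓝 ((1 - 0) * (1 / (4 * (s : ℝ) - 2)))) := by
          apply Tendsto.mul_const
          apply Tendsto.const_sub
          apply Tendsto.const_div_atTop
          exact tendsto_atTop_add_const_right _ _ tendsto_natCast_atTop_atTop
        rw [sub_zero, one_mul] at h2
        filter_upwards [h2.eventually (lt_mem_nhds (show 1 / (4 * (s : ℝ) - 2) - η
          < 1 / (4 * (s : ℝ) - 2) by linarith))] with j hj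
        exact hj.le
  -- smallness
  obtain ⟨δ', hδ'0, hδ'1, hδ'2, hδ'3⟩ : ∃ δ' : ℝ, 0 < δ' ∧ δ' ≤ δ ∧ δ' ≤ 1 / 10 ∧ 20 * δ' ≤ δ := by
    refine ⟨min (δ / 20) (1 / 10), lt_min (by positivity) (by norm_num), ?_, min_le_right _ _, ?_⟩
    · exact (min_le_left _ _).trans (by linarith)
    · have := min_le_left (δ / 20) (1 / 10)
      linarith
  set u : ℕ → ℝ := fun j => (1 - 1 / ((j : ℝ) + 2)) * (1 / (4 * (S j : ℝ) - 2)) with hu
  set b : ℕ → ℝ := fun j => δ' / 2 ^ (j + 1) with hbdef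
  have hb0 : ∀ j, 0 < b j := fun j => by simp only [hbdef]; positivity
  have hbs : ∀ j, b (j + 1) < b j := fun j => by
    simp only [hbdef]
    apply div_lt_div_of_pos_left hδ'0 (by positivity)
    exact pow_lt_pow_right₀ (by norm_num) (by omega)
  have hbhalf : ∀ j, b j ≤ 1 / 2 := fun j => by
    simp only [hbdef]
    rw [div_le_iff₀ (by positivity)]
    have : (1:ℝ) ≤ 2 ^ (j + 1) := one_le_pow₀ (by norm_num)
    linarith
  have hbδ : ∀ j, b j < δ := fun j => by
    simp only [hbdef]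
    rw [div_lt_iff₀ (by positivity)]
    have : (2:ℝ) ≤ 2 ^ (j + 1) := by
      rw [pow_succ]
      have : (1:ℝ) ≤ 2 ^ j := one_le_pow₀ (by norm_num)
      linarith
    nlinarith
  have hbanti : ∀ i j, i ≤ j → b j ≤ b i := by
    intro i j hij
    simp only [hbdef]
    apply div_le_div_of_nonneg_left hδ'0.le (by positivity)
    exact pow_le_pow_right₀ (by norm_num) (by omega)
  have hfev : ∀ j, ∃ F : ℝ, ∀ R ≥ F, f R ≤ u j := by
    intro j
    have hu0 : 0 < u j := by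
      simp only [hu]
      have h3 : (3:ℝ) ≤ S j := by exact_mod_cast hS3 j
      apply mul_pos
      · rw [sub_pos, div_lt_one (by positivity)]
        have : (0:ℝ) ≤ j := Nat.cast_nonneg j
        linarith
      · apply one_div_pos.2; linarith
    have := hf.eventually (Iic_mem_nhds hu0)
    exact eventually_atTop.1 this
  choose F hF using hfev
  let Inv : ℕ → (ℝ → ℝ) × ℝ → Prop := fun j p =>
    Continuous p.1 ∧ (∀ φ, 0 ≤ p.1 φ) ∧ (∀ φ ∈ Ioo 0 (b j), p.1 φ = 0) ∧ 0 < p.2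
  have hstep : ∀ (j : ℕ) (p : (ℝ → ℝ) × ℝ), ∃ q : (ℝ → ℝ) × ℝ, ∃ g : ℝ → ℝ, ∃ R : ℝ, Inv j p →
      Inv (j + 1) q ∧ q.1 = (fun φ => p.1 φ + g φ) ∧ q.2 ≤ p.2 / 2 ∧
      Adm (S j) (min (δ' / 2 ^ (j + 1)) (p.2 / 2)) (b (j + 1)) (b j) g ∧
      max (max (F j) j) 1 ≤ R ∧
      ∀ h : ℝ → ℝ, (∀ φ, 0 ≤ h φ ∧ h φ ≤ q.2) →
        R ^ (1 / 2 + u j) ≤ |err (fun φ => q.1 φ + h φ) R| := by
    intro j p
    by_cases hInv : Inv j p
    · obtain ⟨h1, h2, h3, h4⟩ := hInv
      have h3' : (3:ℝ) ≤ S j := by exact_mod_cast hS3 j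
      have hv0 : 0 < 1 / (4 * (S j : ℝ) - 2) := by apply one_div_pos.2; linarith
      have hj0 : (0:ℝ) ≤ j := Nat.cast_nonneg j
      have hu0 : 0 < u j := by
        simp only [hu]
        apply mul_pos _ hv0
        rw [sub_pos, div_lt_one (by positivity)]
        linarith
      have hu1 : u j < 1 / (4 * (S j : ℝ) - 2) := by
        simp only [hu]
        have : 0 < 1 / ((j:ℝ) + 2) := by positivity
        nlinarith
      obtain ⟨R, hR, hR0, g, hg, hlow⟩ := step (S j) (hS3 j) (u j) hu0 hu1 (b (j + 1)) (b j)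
        (hb0 _) (hbs j) (hbhalf j) (min (δ' / 2 ^ (j + 1)) (p.2 / 2))
        (lt_min (by positivity) (by linarith)) p.1 h1 h2
        (fun φ hφ => h3 φ ⟨(hb0 _).trans hφ.1, hφ.2⟩) (max (max (F j) j) 1)
      have hcg : Continuous (fun φ => p.1 φ + g φ) := h1.add hg.smooth.continuous
      have hcg0 : ∀ φ, 0 ≤ p.1 φ + g φ := fun φ => add_nonneg (h2 φ) (hg.nonneg φ)
      obtain ⟨μ, hμ, hst⟩ := err_stable (fun φ => p.1 φ + g φ) hcg hcg0 R hR0 1 one_pos
      refine ⟨(fun φ => p.1 φ + g φ, min μ (p.2 / 2)), g, R, fun _ =>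
        ⟨⟨hcg, hcg0, ?_, lt_min hμ (by linarith)⟩, rfl, min_le_right _ _, hg, hR, ?_⟩⟩
      · intro φ hφ
        have hz : g φ = 0 := by
          apply hg.supp φ
          · have hb2 := hbhalf (j + 1)
            constructor
            · linarith [hφ.1, Real.pi_pos]
            · linarith [hφ.2, Real.pi_gt_three]
          · intro hc
            linarith [hc.1, hφ.2]
        show p.1 φ + g φ = 0
        rw [hz, h3 φ ⟨hφ.1, hφ.2.trans (hbs j)⟩, add_zero]
      · intro h hh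
        have h5 := hst h (fun φ => ⟨(hh φ).1, (hh φ).2.trans (min_le_left _ _)⟩)
        have h6 : |err (fun φ => p.1 φ + g φ) R| ≤
            |err (fun φ => (p.1 φ + g φ) + h φ) R| + 1 := by
          have h7 := abs_sub_abs_le_abs_sub (err (fun φ => p.1 φ + g φ) R)
            (err (fun φ => (p.1 φ + g φ) + h φ) R)
          rw [abs_sub_comm] at h7
          linarith
        show _ ≤ |err (fun φ => (p.1 φ + g φ) + h φ) R|
        linarith
    · exact ⟨p, 0, 0, fun h => absurd h hInv⟩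
  choose nx gf Rf hnx using hstep
  obtain ⟨P, hP0, hPs⟩ : ∃ P : ℕ → (ℝ → ℝ) × ℝ, P 0 = ((fun _ => 0), 1) ∧
      ∀ j, P (j + 1) = nx j (P j) :=
    ⟨fun n => Nat.rec ((fun _ => 0), 1) (fun j p => nx j p) n, rfl, fun _ => rfl⟩
  have hInv : ∀ j, Inv j (P j) := by
    intro j
    induction j with
    | zero =>
      rw [hP0]
      exact ⟨continuous_const, fun _ => le_rfl, fun _ _ => rfl, one_pos⟩
    | succ j ih =>
      rw [hPs]
      exact (hnx j (P j) ih).1
  set gg : ℕ → ℝ → ℝ := fun j => gf j (P j) with hgg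
  set RR : ℕ → ℝ := fun j => Rf j (P j) with hRR
  have hPP : ∀ j, (P (j + 1)).1 = fun φ => (P j).1 φ + gg j φ := fun j =>
    (hPs j) ▸ (hnx j (P j) (hInv j)).2.1
  have hμ2 : ∀ j, (P (j + 1)).2 ≤ (P j).2 / 2 := fun j => by
    rw [hPs]; exact (hnx j (P j) (hInv j)).2.2.1
  have hadm : ∀ j, Adm (S j) (min (δ' / 2 ^ (j + 1)) ((P j).2 / 2)) (b (j + 1)) (b j) (gg j) :=
    fun j => (hnx j (P j) (hInv j)).2.2.2.1
  have hRR1 : ∀ j, max (max (F j) j) 1 ≤ RR j := fun j => (hnx j (P j) (hInv j)).2.2.2.2.1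
  have hbig : ∀ j, ∀ h : ℝ → ℝ, (∀ φ, 0 ≤ h φ ∧ h φ ≤ (P (j + 1)).2) →
        RR j ^ (1 / 2 + u j) ≤ |err (fun φ => (P (j + 1)).1 φ + h φ) (RR j)| := by
    intro j h hh
    rw [hPs] at hh ⊢
    exact (hnx j (P j) (hInv j)).2.2.2.2.2 h hh
  have hsum : ∀ n φ, (P n).1 φ = ∑ j ∈ Finset.range n, gg j φ := by
    intro n φ
    induction n with
    | zero => simp [hP0]
    | succ n ih =>
      rw [Finset.sum_range_succ, hPP]
      show (P n).1 φ + gg n φ = _
      rw [ih]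
  have hsup : ∀ j φ, gg j φ ≤ (P j).2 / 2 ∧ gg j φ ≤ δ' / 2 ^ (j + 1) := by
    intro j φ
    have h := (hadm j).small 0 (Nat.zero_le _) φ
    rw [iteratedDeriv_zero] at h
    have h2 := (le_abs_self _).trans h
    exact ⟨h2.trans (min_le_right _ _), h2.trans (min_le_left _ _)⟩
  have hε : Summable (fun j : ℕ => δ' / 2 ^ (j + 1)) := by
    have := (summable_geometric_two).mul_left (δ' / 2)
    refine this.congr fun j => ?_
    rw [pow_succ, one_div, inv_pow]
    field_simp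
  have hεsum : ∑' j : ℕ, δ' / 2 ^ (j + 1) = δ' := by
    have : ∀ j : ℕ, δ' / 2 ^ (j + 1) = δ' / 2 * (1 / 2) ^ j := fun j => by
      rw [pow_succ, one_div, inv_pow]
      field_simp
    simp_rw [this]
    rw [tsum_mul_left, tsum_geometric_two]
    ring
  have hsm := sum_smooth gg S (fun j => δ' / 2 ^ (j + 1)) hε (fun j => (hadm j).smooth)
    (fun j i hi φ => ((hadm j).small i hi φ).trans (min_le_left _ _)) (max N 2)
    (fun j => by have := hS3 j; have := hSN j; omega) s hSev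
  rw [hεsum] at hsm
  obtain ⟨hcd, hbd⟩ := hsm
  have hsummable : ∀ φ, Summable (fun j => gg j φ) := by
    intro φ
    refine Summable.of_nonneg_of_le (fun j => (hadm j).nonneg φ) (fun j => (hsup j φ).2) hε
  refine ⟨fun φ => ∑' j, gg j φ, hcd, ?_, ?_, ?_, ?_, ?_, ?_⟩
  · intro φ
    exact tsum_congr fun j => (hadm j).per φ
  · intro φ
    exact tsum_nonneg fun j => (hadm j).nonneg φ
  · intro φ hφ hn
    have : ∀ j, gg j φ = 0 := by
      intro j
      apply (hadm j).supp φ hφ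
      intro hc
      apply hn
      exact ⟨(hb0 _).trans hc.1, hc.2.trans (hbδ j)⟩
    simp [this]
  · intro j hj φ
    exact (hbd j (hj.trans (le_max_left _ _)) φ).trans hδ'1
  · intro φ
    refine (curv_bound _ φ δ' hδ'2 ?_ ?_ ?_).trans hδ'3
    · have := hbd 0 (Nat.zero_le _) φ
      rwa [iteratedDeriv_zero] at this
    · have := hbd 1 (by omega) φ
      rwa [iteratedDeriv_one] at this
    · have := hbd 2 (by omega) φ
      rwa [iteratedDeriv_succ, iteratedDeriv_one] at this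
  · intro η hη R₀
    obtain ⟨j, hj1, hj2⟩ := ((hgain η hη).and (tendsto_natCast_atTop_atTop (R := ℝ)
      |>.eventually (eventually_ge_atTop R₀))).exists
    have hR1 := hRR1 j
    have hR2 : (j:ℝ) ≤ RR j := ((le_max_right _ _).trans (le_max_left _ _)).trans hR1
    have hR3 : F j ≤ RR j := ((le_max_left _ _).trans (le_max_left _ _)).trans hR1
    have hR4 : 1 ≤ RR j := (le_max_right _ _).trans hR1
    refine ⟨RR j, hj2.trans hR2, ?_⟩
    have hexp : 1 / 2 + max (gain s - η) (f (RR j)) ≤ 1 / 2 + u j := by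
      have h1 : max (gain s - η) (f (RR j)) ≤ u j := max_le hj1 (hF j _ hR3)
      linarith
    refine (Real.rpow_le_rpow_of_exponent_le hR4 hexp).trans ?_
    -- the tail
    have htail : ∀ φ, 0 ≤ (∑' i, gg i φ) - (P (j + 1)).1 φ ∧
        (∑' i, gg i φ) - (P (j + 1)).1 φ ≤ (P (j + 1)).2 := by
      intro φ
      have h1 := (hsummable φ).sum_add_tsum_nat_add (j + 1)
      have h2 : (∑' i, gg i φ) - (P (j + 1)).1 φ = ∑' i, gg (i + (j + 1)) φ := by
        rw [hsum, ← h1]; ring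
      rw [h2]
      refine ⟨tsum_nonneg fun i => (hadm _).nonneg φ, ?_⟩
      have hμpow : ∀ i, (P (i + (j + 1))).2 ≤ (P (j + 1)).2 * (1 / 2) ^ i := by
        intro i
        induction i with
        | zero => simp
        | succ i ih =>
          have := hμ2 (i + (j + 1))
          have h3 : i + 1 + (j + 1) = i + (j + 1) + 1 := by ring
          rw [h3, pow_succ]
          linarith
      have hle : ∀ i, gg (i + (j + 1)) φ ≤ (P (j + 1)).2 / 2 * (1 / 2) ^ i := by
        intro i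
        have h4 := (hsup (i + (j + 1)) φ).1
        have h5 := hμpow i
        linarith
      have hsg := (summable_geometric_two).mul_left ((P (j + 1)).2 / 2)
      calc ∑' i, gg (i + (j + 1)) φ ≤ ∑' i : ℕ, (P (j + 1)).2 / 2 * (1 / 2) ^ i := by
            apply Summable.tsum_le_tsum hle _ hsg
            exact (summable_nat_add_iff (j + 1)).2 (hsummable φ)
        _ = (P (j + 1)).2 := by
            rw [tsum_mul_left, tsum_geometric_two]; ring
    have := hbig j (fun φ => (∑' i, gg i φ) - (P (j + 1)).1 φ) htail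
    have heq : (fun φ => (P (j + 1)).1 φ + ((∑' i, gg i φ) - (P (j + 1)).1 φ))
        = fun φ => ∑' i, gg i φ := by
      ext φ; ring
    rw [heq] at this
    exact this

end Pool.Agent.Helper92.CS
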