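import Pool.Agent.Helper92.CS.Defs

/-!
CS-Fres (project CS, MP_fb29e9_nt; README: /team-store/h92_CS_README.md). About ~150 lines.

PROOF. e(-(Lam z^2/2)) = exp(-i pi Lam z^2). By scaling z -> z/sqrt Lam it is enough to treat Lam = 1 (error C/T, T = c sqrt Lam). For eps > 0: int_R exp(-(eps + i pi) z^2) dz = (pi/(eps + i pi))^(1/2)
(integral_gaussian_complex), tends to exp(-i pi/4) = e(-1/8) as eps -> 0. Tail: |int_{|z|>T} exp(-(eps + i pi) z^2) dz| <= C/T uniformly in eps (integrate by parts: exp(-b z^2) = -(1/(2bz)) d/dz exp(-b z^2), |b| >= pi),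
and int_{-T}^T exp(-(eps+i pi) z^2) dz -> int_{-T}^T exp(-i pi z^2) dz as eps -> 0 (dominated convergence on a compact interval).
-/

open MeasureTheory Set Filter Topology

noncomputable section

namespace Pool.Agent.Helper92.CS

private theorem norm_exp38 {b : ℂ} (hb : 0 < b.re) (z : ℝ) :
    ‖Complex.exp (-b * (z : ℂ) ^ 2)‖ ≤ 1 := by
  rw [Complex.norm_exp]
  apply Real.exp_le_one_iff.2
  have : (-b * (z : ℂ) ^ 2).re = -(b.re * z ^ 2) := by
    rw [← Complex.ofReal_pow, Complex.re_mul_ofReal, Complex.neg_re]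
    ring
  rw [this]
  have := mul_nonneg hb.le (sq_nonneg z)
  linarith

private theorem tail38 {b : ℂ} (hb : 0 < b.re) {c : ℝ} (hc : 0 < c) :
    ‖∫ z in Ioi c, Complex.exp (-b * (z : ℂ) ^ 2)‖ ≤ 1 / (‖b‖ * c) := by
  have hb0 : b ≠ 0 := by rintro rfl; simp at hb
  have hbn : 0 < ‖b‖ := norm_pos_iff.2 hb0
  set f : ℝ → ℂ := fun z => -Complex.exp (-b * (z : ℂ) ^ 2) / (2 * b * z) with hf
  set g : ℝ → ℂ := fun z => Complex.exp (-b * (z : ℂ) ^ 2) / (2 * b * (z : ℂ) ^ 2) with hg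
  have hder : ∀ z ∈ Ici c, HasDerivAt f (Complex.exp (-b * (z : ℂ) ^ 2) + g z) z := by
    intro z hz
    have hz0 : (0 : ℝ) < z := lt_of_lt_of_le hc hz
    have hzc : (z : ℂ) ≠ 0 := by exact_mod_cast hz0.ne'
    have h0 : HasDerivAt (fun y : ℝ => (y : ℂ)) 1 z := Complex.ofRealCLM.hasDerivAt
    have h1 : HasDerivAt (fun y : ℝ => -b * (y : ℂ) ^ 2) (-b * (2 * (z : ℂ))) z := by
      have := (h0.pow 2).const_mul (-b)
      simpa using this
    have h2 : HasDerivAt (fun y : ℝ => -Complex.exp (-b * (y : ℂ) ^ 2))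
        (-(Complex.exp (-b * (z : ℂ) ^ 2) * (-b * (2 * (z : ℂ))))) z := h1.cexp.neg
    have h3 : HasDerivAt (fun y : ℝ => 2 * b * (y : ℂ)) (2 * b) z := by
      simpa using h0.const_mul (2 * b)
    have h4 := h2.div h3 (by simp [hb0, hzc])
    have h5 : Complex.exp (-b * (z : ℂ) ^ 2) + g z =
        (-(Complex.exp (-b * (z : ℂ) ^ 2) * (-b * (2 * (z : ℂ)))) * (2 * b * (z : ℂ)) -
          -Complex.exp (-b * (z : ℂ) ^ 2) * (2 * b)) / (2 * b * (z : ℂ)) ^ 2 := by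
      rw [hg]
      field_simp
      ring
    rw [h5]
    exact h4
  have hint1 : IntegrableOn (fun z : ℝ => Complex.exp (-b * (z : ℂ) ^ 2)) (Ioi c) :=
    (integrable_cexp_neg_mul_sq hb).integrableOn
  have hdom : IntegrableOn (fun z : ℝ => 1 / (2 * ‖b‖) * z ^ (-2 : ℝ)) (Ioi c) :=
    (integrableOn_Ioi_rpow_of_lt (by norm_num) hc).const_mul _
  have hgb : ∀ z ∈ Ioi c, ‖g z‖ ≤ 1 / (2 * ‖b‖) * z ^ (-2 : ℝ) := by
    intro z hz
    have hz0 : (0 : ℝ) < z := lt_trans hc hz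
    rw [hg]
    simp only
    rw [norm_div, norm_mul, norm_mul, norm_pow, Complex.norm_real, Real.norm_of_nonneg hz0.le,
      Real.rpow_neg hz0.le, Real.rpow_two]
    have : ‖(2 : ℂ)‖ = 2 := by simp
    rw [this]
    calc ‖Complex.exp (-b * (z : ℂ) ^ 2)‖ / (2 * ‖b‖ * z ^ 2) ≤ 1 / (2 * ‖b‖ * z ^ 2) := by
          gcongr; exact norm_exp38 hb z
      _ = 1 / (2 * ‖b‖) * (z ^ 2)⁻¹ := by field_simp
  have hgm : AEStronglyMeasurable g (volume.restrict (Ioi c)) := by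
    have : Measurable g := by
      rw [hg]
      fun_prop
    exact this.aestronglyMeasurable
  have hgint : IntegrableOn g (Ioi c) := by
    refine hdom.mono' hgm ?_
    exact (ae_restrict_iff' measurableSet_Ioi).2 (Eventually.of_forall hgb)
  have hlim : Tendsto f atTop (𝓝 0) := by
    have hb1 : ∀ᶠ z : ℝ in atTop, ‖f z‖ ≤ 1 / (2 * ‖b‖) * z⁻¹ := by
      filter_upwards [eventually_gt_atTop (0 : ℝ)] with z hz
      rw [hf]
      simp only
      rw [norm_div, norm_neg, norm_mul, norm_mul, Complex.norm_real, Real.norm_of_nonneg hz.le]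
      have : ‖(2 : ℂ)‖ = 2 := by simp
      rw [this]
      calc ‖Complex.exp (-b * (z : ℂ) ^ 2)‖ / (2 * ‖b‖ * z) ≤ 1 / (2 * ‖b‖ * z) := by
            gcongr; exact norm_exp38 hb z
        _ = 1 / (2 * ‖b‖) * z⁻¹ := by field_simp
    refine squeeze_zero_norm' hb1 ?_
    simpa using tendsto_inv_atTop_zero.const_mul (1 / (2 * ‖b‖))
  have h := integral_Ioi_of_hasDerivAt_of_tendsto' hder (hint1.add hgint) hlim
  rw [integral_add hint1 hgint] at h
  have h5 : ∫ z in Ioi c, Complex.exp (-b * (z : ℂ) ^ 2) = -f c - ∫ z in Ioi c, g z := by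
    linear_combination h
  have h6 : ‖f c‖ ≤ 1 / (2 * ‖b‖ * c) := by
    rw [hf]
    simp only
    rw [norm_div, norm_neg, norm_mul, norm_mul, Complex.norm_real, Real.norm_of_nonneg hc.le]
    have : ‖(2 : ℂ)‖ = 2 := by simp
    rw [this]
    gcongr; exact norm_exp38 hb c
  have h7 : ‖∫ z in Ioi c, g z‖ ≤ 1 / (2 * ‖b‖ * c) := by
    calc ‖∫ z in Ioi c, g z‖ ≤ ∫ z in Ioi c, 1 / (2 * ‖b‖) * z ^ (-2 : ℝ) :=
          norm_integral_le_of_norm_le hdom
            ((ae_restrict_iff' measurableSet_Ioi).2 (Eventually.of_forall hgb))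
      _ = 1 / (2 * ‖b‖ * c) := by
          rw [integral_const_mul, integral_Ioi_rpow_of_lt (by norm_num) hc]
          have : (-2 : ℝ) + 1 = -1 := by norm_num
          rw [this, Real.rpow_neg_one]
          field_simp
  rw [h5]
  calc ‖-f c - ∫ z in Ioi c, g z‖ ≤ ‖-f c‖ + ‖∫ z in Ioi c, g z‖ := norm_sub_le _ _
    _ = ‖f c‖ + ‖∫ z in Ioi c, g z‖ := by rw [norm_neg]
    _ ≤ 1 / (2 * ‖b‖ * c) + 1 / (2 * ‖b‖ * c) := add_le_add h6 h7
    _ = 1 / (‖b‖ * c) := by field_simp; norm_num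

private theorem full38 {b : ℂ} (hb : 0 < b.re) {c : ℝ} (hc : 0 < c) :
    ‖(∫ z in (-c)..c, Complex.exp (-b * (z : ℂ) ^ 2)) - (Real.pi / b) ^ (1 / 2 : ℂ)‖
      ≤ 2 / (‖b‖ * c) := by
  have hi := integrable_cexp_neg_mul_sq hb
  have h1 : (∫ z in (0 : ℝ)..c, Complex.exp (-b * (z : ℂ) ^ 2))
      = (Real.pi / b) ^ (1 / 2 : ℂ) / 2 - ∫ z in Ioi c, Complex.exp (-b * (z : ℂ) ^ 2) := by
    rw [← integral_gaussian_complex_Ioi hb]
    exact (intervalIntegral.integral_Ioi_sub_Ioi hi.integrableOn hc.le).symm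
  have h2 : (∫ z in (-c)..(0 : ℝ), Complex.exp (-b * (z : ℂ) ^ 2))
      = ∫ z in (0 : ℝ)..c, Complex.exp (-b * (z : ℂ) ^ 2) := by
    have := intervalIntegral.integral_comp_neg (a := (0 : ℝ)) (b := c)
      (fun z : ℝ => Complex.exp (-b * (z : ℂ) ^ 2))
    rw [neg_zero] at this
    rw [← this]
    congr 1
    ext z
    simp
  have h3 : (∫ z in (-c)..c, Complex.exp (-b * (z : ℂ) ^ 2))
      = (∫ z in (-c)..(0 : ℝ), Complex.exp (-b * (z : ℂ) ^ 2))
        + ∫ z in (0 : ℝ)..c, Complex.exp (-b * (z : ℂ) ^ 2) :=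
    (intervalIntegral.integral_add_adjacent_intervals hi.intervalIntegrable
      hi.intervalIntegrable).symm
  have h4 : (∫ z in (-c)..c, Complex.exp (-b * (z : ℂ) ^ 2)) - (Real.pi / b) ^ (1 / 2 : ℂ)
      = -(2 * ∫ z in Ioi c, Complex.exp (-b * (z : ℂ) ^ 2)) := by
    rw [h3, h2, h1]; ring
  rw [h4, norm_neg, norm_mul]
  have h5 := tail38 hb hc
  have : ‖(2 : ℂ)‖ = 2 := by simp
  rw [this]
  calc 2 * ‖∫ z in Ioi c, Complex.exp (-b * (z : ℂ) ^ 2)‖ ≤ 2 * (1 / (‖b‖ * c)) := by gcongr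
    _ = 2 / (‖b‖ * c) := by ring

private theorem root38 {Λ : ℝ} (hΛ : 0 < Λ) :
    ((Real.pi : ℂ) / ((0 : ℝ) + (Real.pi * Λ : ℝ) * Complex.I)) ^ (1 / 2 : ℂ)
      = e (-(1 / 8)) * ((1 / Real.sqrt Λ : ℝ) : ℂ) := by
  have hpi : (Real.pi : ℂ) ≠ 0 := by exact_mod_cast Real.pi_ne_zero
  have hΛc : (Λ : ℂ) ≠ 0 := by exact_mod_cast hΛ.ne'
  have h1 : (Real.pi : ℂ) / ((0 : ℝ) + (Real.pi * Λ : ℝ) * Complex.I)
      = ((1 / Λ : ℝ) : ℂ) * Complex.exp (((-(Real.pi / 2) : ℝ) : ℂ) * Complex.I) := by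
    have h2 : Complex.exp (((-(Real.pi / 2) : ℝ) : ℂ) * Complex.I) = -Complex.I := by
      rw [Complex.exp_mul_I]
      rw [← Complex.ofReal_cos, ← Complex.ofReal_sin, Real.cos_neg, Real.sin_neg, Real.cos_pi_div_two,
        Real.sin_pi_div_two]
      simp
    rw [h2]
    push_cast
    rw [zero_add]
    have hI : Complex.I ≠ 0 := Complex.I_ne_zero
    field_simp
    rw [Complex.I_sq]
    ring
  have hlog : Complex.log (((1 / Λ : ℝ) : ℂ) * Complex.exp (((-(Real.pi / 2) : ℝ) : ℂ) * Complex.I))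
      = (Real.log (1 / Λ) : ℂ) + ((-(Real.pi / 2) : ℝ) : ℂ) * Complex.I := by
    rw [Complex.log_ofReal_mul (by positivity) (Complex.exp_ne_zero _), Complex.log_exp]
    · simp
      linarith [Real.pi_pos]
    · simp
      linarith [Real.pi_pos]
  have hne : ((1 / Λ : ℝ) : ℂ) * Complex.exp (((-(Real.pi / 2) : ℝ) : ℂ) * Complex.I) ≠ 0 :=
    mul_ne_zero (by exact_mod_cast (by positivity : (1 / Λ : ℝ) ≠ 0)) (Complex.exp_ne_zero _)
  rw [h1, Complex.cpow_def_of_ne_zero hne, hlog, add_mul, Complex.exp_add]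
  have h3 : Complex.exp ((Real.log (1 / Λ) : ℂ) * (1 / 2)) = ((1 / Real.sqrt Λ : ℝ) : ℂ) := by
    have : (Real.log (1 / Λ) : ℂ) * (1 / 2) = ((Real.log (1 / Λ) * (1 / 2) : ℝ) : ℂ) := by
      push_cast; ring
    rw [this, ← Complex.ofReal_exp]
    congr 1
    have h5 : 1 / Real.sqrt Λ = Real.sqrt (1 / Λ) := by
      rw [Real.sqrt_div zero_le_one, Real.sqrt_one]
    rw [h5, Real.sqrt_eq_rpow, Real.rpow_def_of_pos (by positivity)]
  have h4 : Complex.exp (((-(Real.pi / 2) : ℝ) : ℂ) * Complex.I * (1 / 2)) = e (-(1 / 8)) := by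
    rw [e]
    congr 1
    push_cast
    ring
  rw [h3, h4, mul_comm]

theorem fresnel_trunc : ∃ C : ℝ, 0 ≤ C ∧ ∀ Λ c : ℝ, 0 < Λ → 0 < c →
    ‖(∫ z in (-c)..c, e (-(Λ * z ^ 2 / 2))) - e (-(1 / 8)) * ((1 / Real.sqrt Λ : ℝ) : ℂ)‖
      ≤ C / (Λ * c) := by
  refine ⟨1, by norm_num, fun Λ c hΛ hc => ?_⟩
  set bf : ℝ → ℂ := fun ε => (ε : ℂ) + (Real.pi * Λ : ℝ) * Complex.I with hbf
  have hbre : ∀ ε, (bf ε).re = ε := by intro ε; simp [hbf]
  have hbim : ∀ ε, (bf ε).im = Real.pi * Λ := by intro ε; simp [hbf]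
  have hpos : 0 < Real.pi * Λ := by positivity
  have hbn : ∀ ε, Real.pi * Λ ≤ ‖bf ε‖ := by
    intro ε
    have := Complex.abs_im_le_norm (bf ε)
    rw [hbim, abs_of_pos hpos] at this
    exact this
  have hbc : Continuous bf := by
    rw [hbf]; fun_prop
  -- limit of the integral
  have hlim1 : Tendsto (fun ε : ℝ => ∫ z in (-c)..c, Complex.exp (-(bf ε) * (z : ℂ) ^ 2)) (𝓝[>] 0)
      (𝓝 (∫ z in (-c)..c, Complex.exp (-(bf 0) * (z : ℂ) ^ 2))) := by
    have hcont : Continuous (fun ε : ℝ => ∫ z in (-c)..c, Complex.exp (-(bf ε) * (z : ℂ) ^ 2)) := by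
      apply intervalIntegral.continuous_parametric_intervalIntegral_of_continuous'
      have : Continuous (fun p : ℝ × ℝ => Complex.exp (-(bf p.1) * (p.2 : ℂ) ^ 2)) := by
        apply Complex.continuous_exp.comp
        exact (hbc.comp continuous_fst).neg.mul ((Complex.continuous_ofReal.comp continuous_snd).pow 2)
      exact this
    exact (hcont.tendsto 0).mono_left nhdsWithin_le_nhds
  have hb0 : bf 0 ≠ 0 := by
    intro h
    have := hbn 0
    rw [h, norm_zero] at this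
    linarith
  have hslit : (Real.pi : ℂ) / bf 0 ∈ Complex.slitPlane := by
    right
    have h1 : ((Real.pi : ℂ) / bf 0).im = -(Real.pi * (Real.pi * Λ)) / Complex.normSq (bf 0) := by
      rw [Complex.div_im, hbre, hbim]
      simp
      ring
    rw [h1]
    have := Complex.normSq_pos.2 hb0
    have h2 : 0 < Real.pi := Real.pi_pos
    have : -(Real.pi * (Real.pi * Λ)) / Complex.normSq (bf 0) < 0 := by
      apply div_neg_of_neg_of_pos _ this
      have : 0 < Real.pi * (Real.pi * Λ) := by positivity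
      linarith
    exact this.ne
  have hlim2 : Tendsto (fun ε : ℝ => ((Real.pi : ℂ) / bf ε) ^ (1 / 2 : ℂ)) (𝓝[>] 0)
      (𝓝 (((Real.pi : ℂ) / bf 0) ^ (1 / 2 : ℂ))) := by
    have h1 : ContinuousAt (fun ε : ℝ => (Real.pi : ℂ) / bf ε) 0 :=
      continuousAt_const.div hbc.continuousAt hb0
    have h2 : ContinuousAt (fun ε : ℝ => ((Real.pi : ℂ) / bf ε) ^ (1 / 2 : ℂ)) 0 :=
      h1.cpow continuousAt_const hslit
    exact h2.tendsto.mono_left nhdsWithin_le_nhds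
  have hlim := (hlim1.sub hlim2).norm
  have hle : ‖(∫ z in (-c)..c, Complex.exp (-(bf 0) * (z : ℂ) ^ 2)) - ((Real.pi : ℂ) / bf 0) ^ (1 / 2 : ℂ)‖
      ≤ 1 / (Λ * c) := by
    refine le_of_tendsto hlim ?_
    filter_upwards [self_mem_nhdsWithin] with ε hε
    have hε0 : 0 < (bf ε).re := by rw [hbre]; exact hε
    refine (full38 hε0 hc).trans ?_
    calc 2 / (‖bf ε‖ * c) ≤ 2 / (Real.pi * Λ * c) := by
          gcongr
          exact hbn ε
      _ ≤ 1 / (Λ * c) := by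
          rw [div_le_div_iff₀ (by positivity) (by positivity)]
          have := Real.pi_gt_three
          have h3 : 0 < Λ * c := by positivity
          nlinarith
  have hroot := root38 hΛ
  have hbf0 : bf 0 = ((0 : ℝ) : ℂ) + (Real.pi * Λ : ℝ) * Complex.I := rfl
  rw [← hroot, ← hbf0]
  convert hle using 5
  rw [e, hbf0]
  congr 1
  push_cast
  ring

end Pool.Agent.Helper92.CS
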