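import Pool.Agent.Helper92.CS.Defs
import Pool.Agent.Helper92.CS.Fres

/-!
CS-FresAmp (project CS, MP_fb29e9_nt; README: /team-store/h92_CS_README.md). About ~150 lines.

PROOF. int_{-c}^c e(-(Lam z^2/2)) a(z) dz = a(0) * fresnel_trunc + int_{-c}^c e(-(Lam z^2/2)) (a(z) - a(0)) dz. Put u(z) = (a(z)-a(0))/z, u(0) = a'(0) (dslope): u is continuous, differentiable away
from 0 with |u'| <= M (mean value inequality for z a'(z) - (a(z) - a(0)) with |a''| <= M), u(+-c) = -+ a(0)/c.
e(-(Lam z^2/2)) (a z - a 0) = z e(..) u(z), z e(-(Lam z^2/2)) = -(1/(2 pi i Lam)) d/dz e(-(Lam z^2/2)); integrate by parts on [-c, c] with the exceptional point 0: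
the remainder is <= (1/(2 pi Lam)) (2 |a(0)|/c + 2 c M).
-/

open MeasureTheory Set Filter Topology

noncomputable section

namespace Pool.Agent.Helper92.CS

private lemma norm_e (t : ℝ) : ‖e t‖ = 1 := by
  unfold e
  exact Complex.norm_exp_ofReal_mul_I _

private lemma hasDerivAt_E (Λ z : ℝ) : HasDerivAt (fun z : ℝ => e (-(Λ * z ^ 2 / 2)))
    (-((2 * Real.pi * Λ : ℝ) : ℂ) * Complex.I * (z : ℂ) * e (-(Λ * z ^ 2 / 2))) z := by
  unfold e
  have h1 : HasDerivAt (fun z : ℝ => 2 * Real.pi * -(Λ * z ^ 2 / 2))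
      (2 * Real.pi * -(Λ * (2 * z) / 2)) z := by
    have h0 : HasDerivAt (fun z : ℝ => z ^ 2) (2 * z) z := by
      simpa using hasDerivAt_pow 2 z
    exact ((h0.const_mul Λ).div_const 2).neg.const_mul (2 * Real.pi)
  have h2 := (h1.ofReal_comp.mul_const Complex.I).cexp
  refine h2.congr_deriv ?_
  push_cast
  ring

private lemma continuous_E (Λ : ℝ) : Continuous (fun z : ℝ => e (-(Λ * z ^ 2 / 2))) := by
  unfold e
  fun_prop

/-- The remainder estimate: integration by parts. -/
private lemma remainder (a : ℝ → ℂ) (Λ c M : ℝ) (hΛ : 0 < Λ) (hc : 0 < c)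
    (ha : ContDiff ℝ 2 a) (hac : a c = 0) (hac' : a (-c) = 0)
    (hM : ∀ z, ‖iteratedDeriv 2 a z‖ ≤ M) :
    ‖∫ z in (-c)..c, e (-(Λ * z ^ 2 / 2)) * (a z - a 0)‖
      ≤ 1 / Λ * (‖a 0‖ / c + c * M) := by
  have hM0 : 0 ≤ M := le_trans (norm_nonneg _) (hM 0)
  have hd1 : Differentiable ℝ a := ha.differentiable (by norm_num)
  have hda : ∀ z, HasDerivAt a (deriv a z) z := fun z => (hd1 z).hasDerivAt
  have hcd : ContDiff ℝ 1 (deriv a) := by
    have : ContDiff ℝ (1 + 1) a := by
      have e2 : (1 : WithTop ℕ∞) + 1 = 2 := by norm_num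
      rw [e2]; exact ha
    exact (contDiff_succ_iff_deriv.mp this).2.2
  have hd2 : Differentiable ℝ (deriv a) := hcd.differentiable (by norm_num)
  have hit : iteratedDeriv 2 a = deriv (deriv a) := by
    rw [iteratedDeriv_succ, iteratedDeriv_one]
  have hdda : ∀ z, HasDerivAt (deriv a) (iteratedDeriv 2 a z) z := by
    intro z
    rw [hit]
    exact (hd2 z).hasDerivAt
  -- k z = z a' z - (a z - a 0)
  set k : ℝ → ℂ := fun z => (z : ℂ) * deriv a z - (a z - a 0) with hk
  have hkd : ∀ z : ℝ, HasDerivAt k ((z : ℂ) * iteratedDeriv 2 a z) z := by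
    intro z
    have h1 : HasDerivAt (fun z : ℝ => (z : ℂ)) 1 z := by
      simpa using (hasDerivAt_id z).ofReal_comp
    have h2 := (h1.mul (hdda z)).sub ((hda z).sub_const (a 0))
    refine h2.congr_deriv ?_
    ring
  have hk0 : k 0 = 0 := by simp [hk]
  have hkb : ∀ z, ‖k z‖ ≤ M * z ^ 2 := by
    intro z
    have hconv : Convex ℝ (uIcc 0 z) := convex_uIcc 0 z
    have := hconv.norm_image_sub_le_of_norm_hasDerivWithin_le
      (f := k) (f' := fun z => (z : ℂ) * iteratedDeriv 2 a z) (C := |z| * M)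
      (fun x _ => (hkd x).hasDerivWithinAt)
      (fun x hx => by
        rw [norm_mul, Complex.norm_real, Real.norm_eq_abs]
        refine mul_le_mul ?_ (hM x) (norm_nonneg _) (abs_nonneg _)
        have h3 := abs_sub_left_of_mem_uIcc hx
        simpa using h3)
      (left_mem_uIcc) (right_mem_uIcc)
    rw [hk0, sub_zero, sub_zero, Real.norm_eq_abs] at this
    calc ‖k z‖ ≤ |z| * M * |z| := this
      _ = M * z ^ 2 := by rw [← sq_abs z]; ring
  -- u = dslope a 0
  set u : ℝ → ℂ := dslope a 0 with hu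
  have hucont : Continuous u := by
    rw [← continuousOn_univ]
    exact (continuousOn_dslope (univ_mem)).mpr ⟨ha.continuous.continuousOn, hd1 0⟩
  set v : ℝ → ℂ := fun z => k z / (z : ℂ) ^ 2 with hv
  have hvb : ∀ z, ‖v z‖ ≤ M := by
    intro z
    rcases eq_or_ne z 0 with h0 | h0
    · simp [hv, h0, hM0]
    · rw [hv]
      simp only [norm_div, norm_pow, Complex.norm_real, Real.norm_eq_abs, sq_abs]
      rw [div_le_iff₀ (by positivity)]
      exact hkb z
  have hueq : ∀ z : ℝ, z ≠ 0 → u z = (a z - a 0) / (z : ℂ) := by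
    intro z hz
    rw [hu, dslope_of_ne _ hz, slope_def_module, sub_zero, Complex.real_smul,
      Complex.ofReal_inv]
    field_simp
  have hud : ∀ z : ℝ, z ≠ 0 → HasDerivAt u (v z) z := by
    intro z hz
    have hzc : (z : ℂ) ≠ 0 := by exact_mod_cast hz
    have h1 : HasDerivAt (fun z : ℝ => (z : ℂ)) 1 z := by
      simpa using (hasDerivAt_id z).ofReal_comp
    have h2 := ((hda z).sub_const (a 0)).div h1 hzc
    have h3 : u =ᶠ[𝓝 z] (fun z : ℝ => (a z - a 0) / (z : ℂ)) := by
      filter_upwards [isOpen_ne.mem_nhds hz] with y hy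
      exact hueq y hy
    refine (h2.congr_of_eventuallyEq h3).congr_deriv ?_
    rw [hv, hk]
    simp only
    ring
  -- P = E u
  set E : ℝ → ℂ := fun z => e (-(Λ * z ^ 2 / 2)) with hE
  have hEcont : Continuous E := continuous_E Λ
  have hvmeas : Measurable v := by
    have h1 : Measurable k := by
      have := ha.continuous.measurable
      have := hcd.continuous.measurable
      rw [hk]
      fun_prop
    rw [hv]
    fun_prop
  have hint1 : IntervalIntegrable (fun z => E z * v z) volume (-c) c := by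
    rw [intervalIntegrable_iff]
    refine Measure.integrableOn_of_bounded (M := M) (by simp) ?_ ?_
    · exact (hEcont.measurable.mul hvmeas).aestronglyMeasurable
    · refine Filter.Eventually.of_forall (fun z => ?_)
      rw [norm_mul, hE]
      simp only
      rw [norm_e, one_mul]
      exact hvb z
  have hint2 : IntervalIntegrable (fun z => -((2 * Real.pi * Λ : ℝ) : ℂ) * Complex.I *
      (E z * (a z - a 0))) volume (-c) c := by
    apply Continuous.intervalIntegrable
    have := ha.continuous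
    fun_prop
  have key := MeasureTheory.integral_eq_of_hasDerivAt_off_countable
    (fun z => E z * u z)
    (fun z => -((2 * Real.pi * Λ : ℝ) : ℂ) * Complex.I * (E z * (a z - a 0)) + E z * v z)
    (a := -c) (b := c) (s := {0}) (countable_singleton 0)
    ((hEcont.mul hucont).continuousOn)
    (fun z hz => by
      have hz0 : z ≠ 0 := by
        intro h
        exact hz.2 (by simp [h])
      have hzc : (z : ℂ) ≠ 0 := by exact_mod_cast hz0
      have h := (hasDerivAt_E Λ z).mul (hud z hz0)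
      refine h.congr_deriv ?_
      rw [hueq z hz0, hE]
      simp only
      field_simp)
    (hint2.add hint1)
  rw [intervalIntegral.integral_add hint2 hint1, intervalIntegral.integral_const_mul] at key
  have hcc : (c : ℂ) ≠ 0 := by exact_mod_cast hc.ne'
  have hb : E c * u c - E (-c) * u (-c) = -(2 * a 0 / (c : ℂ)) * E c := by
    rw [hueq c hc.ne', hueq (-c) (by linarith : -c ≠ 0), hac, hac']
    have : E (-c) = E c := by rw [hE]; simp
    rw [this]
    push_cast
    field_simp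
    ring
  have hpi : (0 : ℝ) < 2 * Real.pi * Λ := by positivity
  set I1 := ∫ z in (-c)..c, E z * (a z - a 0) with hI1
  set I2 := ∫ z in (-c)..c, E z * v z with hI2
  have hI2b : ‖I2‖ ≤ M * (2 * c) := by
    have := intervalIntegral.norm_integral_le_of_norm_le_const (a := -c) (b := c)
      (f := fun z => E z * v z) (C := M) (fun z _ => by
        rw [norm_mul, hE]
        simp only
        rw [norm_e, one_mul]
        exact hvb z)
    have h2 : |c - -c| = 2 * c := by
      rw [abs_of_pos (by linarith)]; ring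
    rwa [h2] at this
  have h3 : ((2 * Real.pi * Λ : ℝ) : ℂ) * Complex.I * I1 = I2 + (2 * a 0 / (c : ℂ)) * E c := by
    have := key
    rw [hb] at this
    linear_combination -this
  have h4 : (2 * Real.pi * Λ) * ‖I1‖ ≤ M * (2 * c) + 2 * ‖a 0‖ / c := by
    have h5 : ‖((2 * Real.pi * Λ : ℝ) : ℂ) * Complex.I * I1‖ = (2 * Real.pi * Λ) * ‖I1‖ := by
      rw [norm_mul, norm_mul, Complex.norm_I, mul_one, Complex.norm_real, Real.norm_eq_abs,
        abs_of_pos hpi]
    rw [← h5, h3]
    refine (norm_add_le _ _).trans (add_le_add hI2b ?_)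
    rw [norm_mul, hE]
    simp only
    rw [norm_e, mul_one, norm_div, norm_mul, Complex.norm_real, Real.norm_eq_abs,
      abs_of_pos hc]
    simp
  have hpi3 : (3 : ℝ) < Real.pi := Real.pi_gt_three
  have h6 : (2 * Λ) * ‖I1‖ ≤ (2 * Real.pi * Λ) * ‖I1‖ := by
    apply mul_le_mul_of_nonneg_right _ (norm_nonneg _)
    nlinarith
  have h7 : (2 * Λ) * ‖I1‖ ≤ M * (2 * c) + 2 * ‖a 0‖ / c := h6.trans h4
  rw [div_mul_eq_mul_div, one_mul, le_div_iff₀ hΛ]
  have h8 : 2 * ‖a 0‖ / c = 2 * (‖a 0‖ / c) := by ring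
  rw [h8] at h7
  linarith

theorem fresnel_amp : ∃ C : ℝ, 0 ≤ C ∧ ∀ (a : ℝ → ℂ) (Λ c M : ℝ), 0 < Λ → 0 < c →
    ContDiff ℝ 2 a → (∀ z, z ∉ Icc (-c) c → a z = 0) → (∀ z, ‖iteratedDeriv 2 a z‖ ≤ M) →
    ‖(∫ z in (-c)..c, e (-(Λ * z ^ 2 / 2)) * a z)
        - e (-(1 / 8)) * ((1 / Real.sqrt Λ : ℝ) : ℂ) * a 0‖
      ≤ C / Λ * (‖a 0‖ / c + c * M) := by
  obtain ⟨C1, hC1, hF⟩ := fresnel_trunc
  refine ⟨C1 + 1, by linarith, ?_⟩
  intro a Λ c M hΛ hc ha hsupp hM
  have hM0 : 0 ≤ M := le_trans (norm_nonneg _) (hM 0)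
  have hcont := ha.continuous
  have hac : a c = 0 := by
    have h1 : Tendsto a (𝓝[>] c) (𝓝 (a c)) := hcont.continuousAt.continuousWithinAt
    have h2 : Tendsto a (𝓝[>] c) (𝓝 0) := by
      refine Tendsto.congr' ?_ tendsto_const_nhds
      filter_upwards [self_mem_nhdsWithin] with z hz
      exact (hsupp z (fun h => absurd h.2 (not_le.mpr hz))).symm
    exact tendsto_nhds_unique h1 h2
  have hac' : a (-c) = 0 := by
    have h1 : Tendsto a (𝓝[<] (-c)) (𝓝 (a (-c))) := hcont.continuousAt.continuousWithinAt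
    have h2 : Tendsto a (𝓝[<] (-c)) (𝓝 0) := by
      refine Tendsto.congr' ?_ tendsto_const_nhds
      filter_upwards [self_mem_nhdsWithin] with z hz
      exact (hsupp z (fun h => absurd h.1 (not_le.mpr hz))).symm
    exact tendsto_nhds_unique h1 h2
  have hr := remainder a Λ c M hΛ hc ha hac hac' hM
  have hf := hF Λ c hΛ hc
  have hEc := continuous_E Λ
  have hsplit : (∫ z in (-c)..c, e (-(Λ * z ^ 2 / 2)) * a z)
      = (∫ z in (-c)..c, e (-(Λ * z ^ 2 / 2))) * a 0
        + ∫ z in (-c)..c, e (-(Λ * z ^ 2 / 2)) * (a z - a 0) := by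
    rw [← intervalIntegral.integral_mul_const, ← intervalIntegral.integral_add]
    · congr 1
      ext z
      ring
    · exact (hEc.mul continuous_const).intervalIntegrable _ _
    · exact (hEc.mul (hcont.sub continuous_const)).intervalIntegrable _ _
  rw [hsplit]
  have h9 : (∫ z in (-c)..c, e (-(Λ * z ^ 2 / 2))) * a 0
        + (∫ z in (-c)..c, e (-(Λ * z ^ 2 / 2)) * (a z - a 0))
        - e (-(1 / 8)) * ((1 / Real.sqrt Λ : ℝ) : ℂ) * a 0
      = ((∫ z in (-c)..c, e (-(Λ * z ^ 2 / 2))) - e (-(1 / 8)) * ((1 / Real.sqrt Λ : ℝ) : ℂ))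
          * a 0 + ∫ z in (-c)..c, e (-(Λ * z ^ 2 / 2)) * (a z - a 0) := by ring
  rw [h9]
  refine (norm_add_le _ _).trans ?_
  rw [norm_mul]
  have h10 : C1 / (Λ * c) * ‖a 0‖ = C1 / Λ * (‖a 0‖ / c) := by
    field_simp
  have h11 : C1 / Λ * (‖a 0‖ / c) ≤ C1 / Λ * (‖a 0‖ / c + c * M) := by
    apply mul_le_mul_of_nonneg_left _ (by positivity)
    have : 0 ≤ c * M := by positivity
    linarith
  calc _ ≤ C1 / (Λ * c) * ‖a 0‖ + 1 / Λ * (‖a 0‖ / c + c * M) :=
        add_le_add (mul_le_mul_of_nonneg_right hf (norm_nonneg _)) hr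
    _ ≤ C1 / Λ * (‖a 0‖ / c + c * M) + 1 / Λ * (‖a 0‖ / c + c * M) := by
        rw [h10]; linarith
    _ = (C1 + 1) / Λ * (‖a 0‖ / c + c * M) := by ring

end Pool.Agent.Helper92.CS
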