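import Pool.Agent.Helper92.CS.Defs
import Pool.Agent.Helper92.CS.Comp
import Pool.Agent.Helper92.CS.InnAlg
import Pool.Agent.Helper92.CS.ClsMul
import Pool.Agent.Helper92.CS.BfE
import Pool.Agent.Helper92.CS.GkBasic

/-!
CS-GkDeriv (project CS, MP_fb29e9_nt; README: /team-store/h92_CS_README.md). About ~150 lines.

Derivative bounds of one bump, uniform in alpha, w, phi0.
PROOF. Fix phi. If 1 - cos (phi - phi0) > w^2/2 the function vanishes near phi: all derivatives 0. Otherwise sin^2 = (1-cos)(1+cos) <= w^2, so the inner function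
u = (1 - cos (. - phi0))/w^2 satisfies Inn s (1/w) u phi (first derivative sin/w^2 <= 1/w, the higher ones <= 1/w^2 <= (1/w)^i since w <= 1). Then Bf o u is
Inn s (C/w) (Inn.comp with Bf_deriv), and gk = alpha * G(Bf o u) with G(b) = b/(1 - alpha b) smooth near [0,1], derivatives of order <= s bounded on [0,1] uniformly in
alpha <= 1/2 (explicit: d^n/db^n of b/(1-ab) for n >= 1 is n! a^(n-1)/(1-ab)^(n+1), at most n! 2^(n+1); or write gk = alpha * b * (1/(1 - alpha b)) and use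
the composition rule with x -> 1/(1-x) on [0,1/2]). So |D^j gk| <= C alpha (1/w)^j <= C alpha (1/w)^s. (For j = 0: gk <= 2 alpha.)
-/

open MeasureTheory Set Filter Topology

noncomputable section

namespace Pool.Agent.Helper92.CS

/-- iterated derivatives of `b / (1 - a b)` (helper16). -/
private lemma G_iter (a : ℝ) (n : ℕ) : ∀ b : ℝ, 0 < 1 - a * b →
    iteratedDeriv (n + 1) (fun b : ℝ => b / (1 - a * b)) b =
      ((n + 1).factorial : ℝ) * a ^ n / (1 - a * b) ^ (n + 2) := by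
  induction n with
  | zero =>
    intro b hb
    have h1 : HasDerivAt (fun b : ℝ => 1 - a * b) (-a) b := by
      have := ((hasDerivAt_id b).const_mul a).const_sub 1
      simpa using this
    have h2 := (hasDerivAt_id b).div h1 (ne_of_gt hb)
    rw [zero_add, iteratedDeriv_one]
    have h3 : deriv (fun b : ℝ => b / (1 - a * b)) b =
        (1 * (1 - a * b) - id b * (-a)) / (1 - a * b) ^ 2 := h2.deriv
    rw [h3]
    have e0 : 1 * (1 - a * b) - id b * (-a) = 1 := by simp only [id]; ring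
    rw [e0]
    simp
  | succ n ih =>
    intro b hb
    rw [iteratedDeriv_succ]
    have hopen : IsOpen {b : ℝ | 0 < 1 - a * b} :=
      isOpen_lt continuous_const (by fun_prop)
    have hev : iteratedDeriv (n + 1) (fun b : ℝ => b / (1 - a * b)) =ᶠ[𝓝 b]
        fun b => ((n + 1).factorial : ℝ) * a ^ n / (1 - a * b) ^ (n + 2) := by
      filter_upwards [hopen.mem_nhds hb] with y hy
      exact ih y hy
    rw [hev.deriv_eq]
    have h1 : HasDerivAt (fun b : ℝ => 1 - a * b) (-a) b := by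
      have := ((hasDerivAt_id b).const_mul a).const_sub 1
      simpa using this
    have h2 : HasDerivAt (fun b : ℝ => (1 - a * b) ^ (n + 2))
        (((n + 2 : ℕ) : ℝ) * (1 - a * b) ^ (n + 2 - 1) * (-a)) b := h1.pow (n + 2)
    have h3 := (hasDerivAt_const b (((n + 1).factorial : ℝ) * a ^ n)).div h2
      (pow_ne_zero _ (ne_of_gt hb))
    have h4 : deriv (fun b => ((n + 1).factorial : ℝ) * a ^ n / (1 - a * b) ^ (n + 2)) b =
        (0 * (1 - a * b) ^ (n + 2) - (((n + 1).factorial : ℝ) * a ^ n) *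
          (((n + 2 : ℕ) : ℝ) * (1 - a * b) ^ (n + 2 - 1) * (-a))) /
          ((1 - a * b) ^ (n + 2)) ^ 2 := h3.deriv
    rw [h4]
    have hne : (1 - a * b) ≠ 0 := ne_of_gt hb
    have e1 : n + 2 - 1 = n + 1 := by omega
    rw [e1, Nat.factorial_succ (n + 1)]
    push_cast
    field_simp
    ring

private lemma G_bound (s : ℕ) (a b : ℝ) (ha : 0 ≤ a) (ha1 : a ≤ 1 / 2) (hb : 0 ≤ b)
    (hb1 : b ≤ 1) (i : ℕ) (hi : i ≤ s) :
    |iteratedDeriv i (fun b : ℝ => b / (1 - a * b)) b| ≤ (s.factorial : ℝ) * 2 ^ (s + 1) := by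
  have hab : a * b ≤ 1 / 2 := by nlinarith
  have hpos : 0 < 1 - a * b := by linarith
  have hhalf : (1 / 2 : ℝ) ≤ 1 - a * b := by linarith
  rcases i with _ | n
  · rw [iteratedDeriv_zero]
    have h1 : |b / (1 - a * b)| ≤ 2 := by
      rw [abs_of_nonneg (div_nonneg hb hpos.le), div_le_iff₀ hpos]
      linarith
    have h2 : (1 : ℝ) ≤ (s.factorial : ℝ) := by exact_mod_cast Nat.one_le_iff_ne_zero.mpr (Nat.factorial_ne_zero s)
    have h3 : (2 : ℝ) ≤ 2 ^ (s + 1) := by
      calc (2 : ℝ) = 2 ^ 1 := by norm_num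
        _ ≤ 2 ^ (s + 1) := pow_le_pow_right₀ (by norm_num) (by omega)
    calc |b / (1 - a * b)| ≤ 2 := h1
      _ ≤ 1 * 2 ^ (s + 1) := by linarith
      _ ≤ (s.factorial : ℝ) * 2 ^ (s + 1) := by
          exact mul_le_mul_of_nonneg_right h2 (by positivity)
  · rw [G_iter a n b hpos]
    have h0 : 0 ≤ ((n + 1).factorial : ℝ) * a ^ n / (1 - a * b) ^ (n + 2) := by positivity
    rw [abs_of_nonneg h0, div_le_iff₀ (by positivity)]
    have h1 : ((n + 1).factorial : ℝ) ≤ (s.factorial : ℝ) := by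
      exact_mod_cast Nat.factorial_le hi
    have h2 : a ^ n ≤ 1 := pow_le_one₀ ha (by linarith)
    have h3 : (1 / 2 : ℝ) ^ (n + 2) ≤ (1 - a * b) ^ (n + 2) :=
      pow_le_pow_left₀ (by norm_num) hhalf _
    have h4 : (2 : ℝ) ^ (n + 2) ≤ 2 ^ (s + 1) := pow_le_pow_right₀ (by norm_num) (by omega)
    have h5 : (1 : ℝ) ≤ 2 ^ (s + 1) * (1 - a * b) ^ (n + 2) := by
      calc (1 : ℝ) = 2 ^ (n + 2) * (1 / 2) ^ (n + 2) := by
            rw [← mul_pow]; norm_num
        _ ≤ 2 ^ (s + 1) * (1 - a * b) ^ (n + 2) := by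
            exact mul_le_mul h4 h3 (by positivity) (by positivity)
    calc ((n + 1).factorial : ℝ) * a ^ n ≤ (s.factorial : ℝ) * 1 := by
          exact mul_le_mul h1 h2 (by positivity) (by positivity)
      _ ≤ (s.factorial : ℝ) * (2 ^ (s + 1) * (1 - a * b) ^ (n + 2)) := by
          exact mul_le_mul_of_nonneg_left h5 (by positivity)
      _ = (s.factorial : ℝ) * 2 ^ (s + 1) * (1 - a * b) ^ (n + 2) := by ring

private lemma u_inn (s : ℕ) (w φ₀ φ : ℝ) (hw : 0 < w) (hw1 : w ≤ 1)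
    (h : 1 - Real.cos (φ - φ₀) ≤ w ^ 2 / 2) :
    Inn s (1 / w) (fun φ => (1 - Real.cos (φ - φ₀)) / w ^ 2) φ := by
  have hd : deriv (fun φ => (1 - Real.cos (φ - φ₀)) / w ^ 2) =
      fun φ => (1 / w ^ 2) * Real.sin (φ - φ₀) := by
    funext y
    have h1 : HasDerivAt (fun φ => Real.cos (φ - φ₀)) (-Real.sin (y - φ₀)) y := by
      have h0 : HasDerivAt (fun φ : ℝ => φ - φ₀) 1 y := (hasDerivAt_id y).sub_const φ₀
      have h5 := h0.cos
      simpa using h5
    have h2 := (h1.const_sub 1).div_const (w ^ 2)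
    rw [h2.deriv]
    ring
  refine ⟨?_, ?_⟩
  · have : ContDiff ℝ s (fun φ => (1 - Real.cos (φ - φ₀)) / w ^ 2) := by fun_prop
    exact this.contDiffAt
  · intro i hi1 _
    obtain ⟨k, rfl⟩ : ∃ k, i = k + 1 := ⟨i - 1, by omega⟩
    rw [iteratedDeriv_succ', hd, iteratedDeriv_const_mul_field, iteratedDeriv_comp_sub_const]
    have hw2 : 0 < w ^ 2 := by positivity
    have hinv : 1 ≤ 1 / w := by rw [le_div_iff₀ hw]; linarith
    rcases k with _ | k
    · simp only [zero_add, pow_one, iteratedDeriv_zero]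
      have hs : |Real.sin (φ - φ₀)| ≤ w := by
        apply abs_le_of_sq_le_sq _ hw.le
        have h1 := Real.sin_sq_add_cos_sq (φ - φ₀)
        have h2 := Real.cos_le_one (φ - φ₀)
        have h3 := Real.neg_one_le_cos (φ - φ₀)
        nlinarith
      rw [abs_mul, abs_of_pos (by positivity : (0 : ℝ) < 1 / w ^ 2)]
      calc 1 / w ^ 2 * |Real.sin (φ - φ₀)| ≤ 1 / w ^ 2 * w := by
            exact mul_le_mul_of_nonneg_left hs (by positivity)
        _ = 1 / w := by field_simp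
    · have hs := Real.abs_iteratedDeriv_sin_le_one (k + 1) (φ - φ₀)
      rw [abs_mul, abs_of_pos (by positivity : (0 : ℝ) < 1 / w ^ 2)]
      calc 1 / w ^ 2 * |iteratedDeriv (k + 1) Real.sin (φ - φ₀)| ≤ 1 / w ^ 2 * 1 := by
            exact mul_le_mul_of_nonneg_left hs (by positivity)
        _ = (1 / w) ^ 2 := by rw [div_pow]; ring
        _ ≤ (1 / w) ^ (k + 1 + 1) := pow_le_pow_right₀ hinv (by omega)

theorem gk_deriv (s : ℕ) : ∃ C : ℝ, 0 ≤ C ∧ ∀ α w φ₀ : ℝ, 0 ≤ α → α ≤ 1 / 2 → 0 < w → w ≤ 1 →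
    ∀ j ≤ s, ∀ φ, |iteratedDeriv j (gk α w φ₀) φ| ≤ C * α * (1 / w) ^ s := by
  obtain ⟨hBs, CB, hCB1, hCB⟩ := Bf_deriv s
  set M : ℝ := (s.factorial : ℝ) * 2 ^ (s + 1) with hM
  have hfac : (1 : ℝ) ≤ (s.factorial : ℝ) := by
    exact_mod_cast Nat.one_le_iff_ne_zero.mpr (Nat.factorial_ne_zero s)
  have hM1 : 1 ≤ M := by
    have : (1 : ℝ) ≤ 2 ^ (s + 1) := one_le_pow₀ (by norm_num)
    rw [hM]
    nlinarith
  set K : ℝ := (s.factorial : ℝ) * M * ((s.factorial : ℝ) * CB) with hK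
  have hK1 : 1 ≤ K := by
    have h1 : 1 ≤ (s.factorial : ℝ) * M := one_le_mul_of_one_le_of_one_le hfac hM1
    have h2 : 1 ≤ (s.factorial : ℝ) * CB := one_le_mul_of_one_le_of_one_le hfac hCB1
    exact one_le_mul_of_one_le_of_one_le h1 h2
  refine ⟨2 * K ^ s, by positivity, ?_⟩
  intro α w φ₀ hα hα1 hw hw1 j hj φ
  have hinv : 1 ≤ 1 / w := by rw [le_div_iff₀ hw]; linarith
  have hrhs : 0 ≤ 2 * K ^ s * α * (1 / w) ^ s := by positivity
  obtain ⟨-, -, hgb, hgz⟩ := gk_basic α w φ₀ hα hα1 hw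
  by_cases hcase : w ^ 2 / 2 < 1 - Real.cos (φ - φ₀)
  · have hopen : IsOpen {φ : ℝ | w ^ 2 / 2 < 1 - Real.cos (φ - φ₀)} :=
      isOpen_lt continuous_const (by fun_prop)
    have hev : gk α w φ₀ =ᶠ[𝓝 φ] fun _ => (0 : ℝ) := by
      filter_upwards [hopen.mem_nhds hcase] with y hy
      exact hgz y (le_of_lt hy)
    rw [hev.iteratedDeriv_eq j]
    have h0 : iteratedDeriv j (fun _ : ℝ => (0 : ℝ)) φ = 0 := by
      rcases j with _ | j
      · simp
      · rw [iteratedDeriv_succ']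
        simp
    rw [h0, abs_zero]
    exact hrhs
  · have hle : 1 - Real.cos (φ - φ₀) ≤ w ^ 2 / 2 := not_lt.mp hcase
    have hu := u_inn s w φ₀ φ hw hw1 hle
    have hinvnn : (0 : ℝ) ≤ 1 / w := by positivity
    have hb : Inn s ((s.factorial : ℝ) * CB * (1 / w)) (fun φ => bump w φ₀ φ) φ :=
      Inn.comp (G := Bf) (f := fun φ => (1 - Real.cos (φ - φ₀)) / w ^ 2) hinvnn hCB1
        ((contDiff_infty.mp hBs s).contDiffAt) (fun i hi => hCB _ i hi) hu
    have hb0 : 0 ≤ bump w φ₀ φ := Real.smoothTransition.nonneg _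
    have hb1 : bump w φ₀ φ ≤ 1 := Real.smoothTransition.le_one _
    have hpos : 0 < 1 - α * bump w φ₀ φ := by nlinarith
    have hGc : ContDiffAt ℝ s (fun b : ℝ => b / (1 - α * b)) (bump w φ₀ φ) := by
      have hden : ContDiffAt ℝ s (fun b : ℝ => 1 - α * b) (bump w φ₀ φ) := by fun_prop
      have hnum : ContDiffAt ℝ s (fun b : ℝ => b) (bump w φ₀ φ) := by fun_prop
      exact hnum.div hden (ne_of_gt hpos)
    have hG : Inn s ((s.factorial : ℝ) * M * ((s.factorial : ℝ) * CB * (1 / w)))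
        (fun φ => bump w φ₀ φ / (1 - α * bump w φ₀ φ)) φ :=
      Inn.comp (G := fun b : ℝ => b / (1 - α * b)) (by positivity) hM1 hGc
        (fun i hi => G_bound s α _ hα hα1 hb0 hb1 i hi) hb
    rcases j with _ | j
    · rw [iteratedDeriv_zero]
      have h1 := hgb φ
      rw [abs_of_nonneg h1.1]
      have h2 : 1 ≤ K ^ s := one_le_pow₀ hK1
      have h3 : 1 ≤ (1 / w) ^ s := one_le_pow₀ hinv
      have h4 : 1 ≤ K ^ s * (1 / w) ^ s := one_le_mul_of_one_le_of_one_le h2 h3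
      calc gk α w φ₀ φ ≤ 2 * α * 1 := by linarith [h1.2]
        _ ≤ 2 * α * (K ^ s * (1 / w) ^ s) := mul_le_mul_of_nonneg_left h4 (by positivity)
        _ = 2 * K ^ s * α * (1 / w) ^ s := by ring
    · have hfun : gk α w φ₀ = fun φ => α * (bump w φ₀ φ / (1 - α * bump w φ₀ φ)) := by
        funext y
        rw [gk, mul_div_assoc]
      rw [hfun, iteratedDeriv_const_mul_field, abs_mul, abs_of_nonneg hα]
      have h1 := hG.2 (j + 1) (by omega) hj
      have hD : (s.factorial : ℝ) * M * ((s.factorial : ℝ) * CB * (1 / w)) = K * (1 / w) := by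
        rw [hK]; ring
      rw [hD] at h1
      have h2 : 1 ≤ K * (1 / w) := one_le_mul_of_one_le_of_one_le hK1 hinv
      calc α * |iteratedDeriv (j + 1) (fun φ => bump w φ₀ φ / (1 - α * bump w φ₀ φ)) φ|
          ≤ α * (K * (1 / w)) ^ (j + 1) := mul_le_mul_of_nonneg_left h1 hα
        _ ≤ α * (K * (1 / w)) ^ s := by
            exact mul_le_mul_of_nonneg_left (pow_le_pow_right₀ h2 hj) hα
        _ ≤ 2 * (α * (K * (1 / w)) ^ s) := by
            have : 0 ≤ α * (K * (1 / w)) ^ s := by positivity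
            linarith
        _ = 2 * K ^ s * α * (1 / w) ^ s := by rw [mul_pow]; ring

end Pool.Agent.Helper92.CS
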