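import Pool.Agent.Helper92.CS.Defs
import Pool.Agent.Helper92.CS.QDeriv
import Pool.Agent.Helper92.CS.HHzero

/-!
CS-HHcont (project CS, MP_fb29e9_nt; README: /team-store/h92_CS_README.md). Proof by helper29.

PROOF. On {rho > 0} (open, = complement of the origin) everything is continuous (Q psi L is continuous by Q_deriv with N = 0 or 1; L is fixed); near the origin HH = 0 by HH_zero (rho < X).
continuous_iff_continuousAt.
-/

open MeasureTheory Set Filter Topology

noncomputable section

namespace Pool.Agent.Helper92.CS

theorem HH_cont (ψ : ℝ → ℝ) (hψ : IsTest ψ) (X L w : ℝ) (h : Par X L w) :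
    Continuous (Function.uncurry (HH ψ L X w (1 / (8 * X * L)))) := by
  have hQ : Continuous (Q ψ L) := ((Q_deriv ψ hψ 0).1 L).continuous
  have hBf : Continuous Bf := by
    unfold Bf
    exact Real.smoothTransition.continuous.comp (by fun_prop)
  have he : Continuous e := by
    unfold e
    fun_prop
  have hrho : Continuous (fun p : ℝ × ℝ => rho p.1 p.2) := by
    unfold rho
    fun_prop
  rw [continuous_iff_continuousAt]
  intro p
  by_cases hp : rho p.1 p.2 < X
  · have hev : ∀ᶠ q in 𝓝 p, rho q.1 q.2 < X := hrho.continuousAt.eventually_lt_const hp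
    have h0 : Function.uncurry (HH ψ L X w (1 / (8 * X * L))) =ᶠ[𝓝 p] fun _ => (0 : ℂ) := by
      filter_upwards [hev] with q hq
      refine HH_zero ψ hψ X L w q.1 q.2 h ?_
      rintro ⟨_, h2, _, _⟩
      linarith
    exact (continuousAt_const).congr h0.symm
  · have hpos : rho p.1 p.2 ≠ 0 := by
      have := h.X4
      intro h0
      apply hp
      rw [h0]
      linarith
    have hr : ContinuousAt (fun q : ℝ × ℝ => rho q.1 q.2) p := hrho.continuousAt
    have hb : ContinuousAt (fun q : ℝ × ℝ => bb w q.1 q.2) p := by
      unfold bb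
      refine hBf.continuousAt.comp ?_
      exact (continuousAt_const.sub (continuousAt_fst.div hr hpos)).div_const _
    have h1 : ContinuousAt (fun q : ℝ × ℝ => e (-(L * (rho q.1 q.2 - q.1)))) p :=
      he.continuousAt.comp ((continuousAt_const.mul (hr.sub continuousAt_fst)).neg)
    have h2 : ContinuousAt
        (fun q : ℝ × ℝ => e (L * rho q.1 q.2 * (1 / (8 * X * L) * bb w q.1 q.2))) p :=
      he.continuousAt.comp ((continuousAt_const.mul hr).mul (continuousAt_const.mul hb))
    have h3 : ContinuousAt
        (fun q : ℝ × ℝ => Q ψ L (rho q.1 q.2 * (1 - 1 / (8 * X * L) * bb w q.1 q.2) - X)) p :=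
      hQ.continuousAt.comp
        ((hr.mul (continuousAt_const.sub (continuousAt_const.mul hb))).sub continuousAt_const)
    have h4 : ContinuousAt (fun q : ℝ × ℝ => Q ψ L (rho q.1 q.2 - X)) p :=
      hQ.continuousAt.comp (hr.sub continuousAt_const)
    exact h1.mul ((h2.mul h3).sub h4)

end Pool.Agent.Helper92.CS
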