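import Pool.Agent.Helper92.CS.Defs
import Pool.Agent.Helper92.CS.Comp

/-!
CS-RhoX (project CS, MP_fb29e9_nt; README: /team-store/h92_CS_README.md). About ~100 lines.

PROOF. Scaling by c = x (fixed point x0 > 0, |y| <= x0): rho x y = x0 * sqrt(xi^2 + eta^2), xi = x/x0, eta = y/x0, evaluate the derivatives at xi = 1: (1/x0)^i times the
i-th derivative in xi of sqrt(xi^2 + eta^2) at xi = 1, |eta| <= 1. Inner polynomial xi^2 + eta^2 (value in [1,2], derivatives 2, 2, 0: Inn N 2), outer sqrt smooth on (0,oo) with derivatives bounded on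
[1,2] by compactness: Cls.comp / Inn.comp. For x / rho: xi * (xi^2+eta^2)^(-1/2), or note x / rho x y = d/dx rho x y: its i-th derivative is the (i+1)-th derivative of rho (short!).
-/

open MeasureTheory Set Filter Topology

noncomputable section

namespace Pool.Agent.Helper92.CS

private lemma h15_scale (c : ℝ) (g : ℝ → ℝ) (i : ℕ) :
    iteratedDeriv i (fun x => g (c * x)) = fun x => c ^ i * iteratedDeriv i g (c * x) := by
  induction i with
  | zero => simp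
  | succ n ih =>
    rw [iteratedDeriv_succ, ih]
    funext x
    rw [deriv_const_mul_field, deriv_comp_mul_left c (iteratedDeriv n g) x, iteratedDeriv_succ,
      smul_eq_mul]
    ring

private lemma h15_sqrt_bound (N : ℕ) : ∃ M : ℝ, 1 ≤ M ∧ ∀ u ∈ Icc (1 : ℝ) 2, ∀ i ≤ N,
    |iteratedDeriv i Real.sqrt u| ≤ M := by
  have key : ∀ i : ℕ, ∃ M : ℝ, ∀ u ∈ Icc (1 : ℝ) 2, |iteratedDeriv i Real.sqrt u| ≤ M := by
    intro i
    have h1 : ContDiffOn ℝ i Real.sqrt (Ioi 0) := fun x hx =>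
      (Real.contDiffAt_sqrt (ne_of_gt hx)).contDiffWithinAt
    have h2 := h1.continuousOn_iteratedDerivWithin (le_refl _) (isOpen_Ioi.uniqueDiffOn)
    have h3 : ContinuousOn (iteratedDeriv i Real.sqrt) (Icc (1 : ℝ) 2) := by
      have : ContinuousOn (iteratedDeriv i Real.sqrt) (Ioi 0) :=
        h2.congr (fun x hx => (iteratedDerivWithin_of_isOpen isOpen_Ioi hx).symm)
      exact this.mono (fun x hx => lt_of_lt_of_le one_pos hx.1)
    obtain ⟨M, hM⟩ := isCompact_Icc.exists_bound_of_continuousOn h3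
    exact ⟨M, fun u hu => by simpa using hM u hu⟩
  choose M hM using key
  refine ⟨1 + ∑ i ∈ Finset.range (N + 1), |M i|, ?_, ?_⟩
  · have : 0 ≤ ∑ i ∈ Finset.range (N + 1), |M i| := Finset.sum_nonneg (fun _ _ => abs_nonneg _)
    linarith
  · intro u hu i hi
    have h4 : |M i| ≤ ∑ i ∈ Finset.range (N + 1), |M i| :=
      Finset.single_le_sum (f := fun i => |M i|) (fun _ _ => abs_nonneg _)
        (Finset.mem_range.mpr (by omega))
    have h5 := hM i u hu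
    have h6 := le_abs_self (M i)
    linarith

private lemma h15_inner (N : ℕ) (η : ℝ) : Inn N 2 (fun ξ : ℝ => ξ ^ 2 + η ^ 2) 1 := by
  refine ⟨?_, ?_⟩
  · exact (((contDiff_id.pow 2).add contDiff_const).contDiffAt)
  · have h1 : deriv (fun ξ : ℝ => ξ ^ 2 + η ^ 2) = fun ξ => 2 * ξ := by
      funext x; simp
    have h2 : deriv (fun ξ : ℝ => 2 * ξ) = fun _ => 2 := by
      funext x
      rw [deriv_const_mul_field]; simp
    intro i hi _
    obtain ⟨j, rfl⟩ : ∃ j, i = j + 1 := ⟨i - 1, by omega⟩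
    rw [iteratedDeriv_succ', h1]
    rcases j with _ | j
    · simp
    · rw [iteratedDeriv_succ', h2, iteratedDeriv_const]
      split_ifs with hj
      · subst hj; norm_num
      · simp

private lemma h15_g_bound (N : ℕ) : ∃ C : ℝ, 1 ≤ C ∧ ∀ η : ℝ, η ^ 2 ≤ 1 → ∀ i ≤ N,
    |iteratedDeriv i (fun ξ : ℝ => Real.sqrt (ξ ^ 2 + η ^ 2)) 1| ≤ C := by
  obtain ⟨M, hM1, hM⟩ := h15_sqrt_bound N
  set B : ℝ := (Nat.factorial N) * M * 2 with hB
  have hf1 : (1 : ℝ) ≤ (Nat.factorial N : ℝ) := by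
    exact_mod_cast Nat.one_le_iff_ne_zero.mpr (Nat.factorial_ne_zero N)
  have hB2 : 2 ≤ B := by
    rw [hB]; nlinarith
  have hBN : 0 ≤ B ^ N := pow_nonneg (by linarith) N
  refine ⟨B ^ N + 2, by linarith, ?_⟩
  intro η hη i hi
  have hu : (1 : ℝ) ^ 2 + η ^ 2 ∈ Icc (1 : ℝ) 2 := by
    constructor <;> nlinarith [sq_nonneg η]
  rcases Nat.eq_zero_or_pos i with rfl | hi0
  · rw [iteratedDeriv_zero, abs_of_nonneg (Real.sqrt_nonneg _)]
    have : Real.sqrt ((1 : ℝ) ^ 2 + η ^ 2) ≤ 2 := by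
      rw [Real.sqrt_le_left (by norm_num)]
      nlinarith [hu.2]
    linarith
  · have h := Inn.comp (N := N) (D := 2) (M := M) (G := Real.sqrt)
      (f := fun ξ : ℝ => ξ ^ 2 + η ^ 2) (t := 1) (by norm_num) hM1
      (Real.contDiffAt_sqrt (ne_of_gt (lt_of_lt_of_le one_pos hu.1)))
      (fun j hj => hM _ hu j hj) (h15_inner N η)
    have h2 := h.2 i hi0 hi
    have h3 : B ^ i ≤ B ^ N := pow_le_pow_right₀ (by linarith) hi
    calc |iteratedDeriv i (fun ξ : ℝ => Real.sqrt (ξ ^ 2 + η ^ 2)) 1| ≤ B ^ i := h2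
      _ ≤ B ^ N + 2 := by linarith

theorem rho_x_deriv (N : ℕ) : ∃ C : ℝ, 1 ≤ C ∧ ∀ x y : ℝ, 0 < x → |y| ≤ x → ∀ i ≤ N,
    |iteratedDeriv i (fun x => rho x y) x| ≤ C * x * (1 / x) ^ i := by
  obtain ⟨C, hC1, hC⟩ := h15_g_bound N
  refine ⟨C, hC1, ?_⟩
  intro x₀ y hx hy i hi
  have hη : (y / x₀) ^ 2 ≤ 1 := by
    rw [div_pow, div_le_one (by positivity)]
    exact sq_le_sq' (by linarith [(abs_le.mp hy).1]) (abs_le.mp hy).2
  have hfun : (fun x => rho x y) =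
      fun x => x₀ * (fun ξ : ℝ => Real.sqrt (ξ ^ 2 + (y / x₀) ^ 2)) (x₀⁻¹ * x) := by
    funext x
    have h1 : Real.sqrt (x₀ ^ 2) = x₀ := Real.sqrt_sq hx.le
    have h2 : x ^ 2 + y ^ 2 = x₀ ^ 2 * ((x₀⁻¹ * x) ^ 2 + (y / x₀) ^ 2) := by
      field_simp
    simp only [rho]
    rw [h2, Real.sqrt_mul (by positivity), h1]
  rw [hfun, iteratedDeriv_const_mul_field,
    h15_scale x₀⁻¹ (fun ξ : ℝ => Real.sqrt (ξ ^ 2 + (y / x₀) ^ 2)) i]
  simp only
  rw [inv_mul_cancel₀ (ne_of_gt hx), abs_mul, abs_mul, abs_of_pos hx,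
    abs_of_nonneg (by positivity : (0 : ℝ) ≤ x₀⁻¹ ^ i)]
  have h := hC _ hη i hi
  have h3 : x₀⁻¹ ^ i * |iteratedDeriv i (fun ξ : ℝ => Real.sqrt (ξ ^ 2 + (y / x₀) ^ 2)) 1| ≤
      x₀⁻¹ ^ i * C := mul_le_mul_of_nonneg_left h (by positivity)
  calc x₀ * (x₀⁻¹ ^ i * |iteratedDeriv i (fun ξ : ℝ => Real.sqrt (ξ ^ 2 + (y / x₀) ^ 2)) 1|)
      ≤ x₀ * (x₀⁻¹ ^ i * C) := mul_le_mul_of_nonneg_left h3 hx.le
    _ = C * x₀ * (1 / x₀) ^ i := by rw [one_div]; ring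

theorem quot_x_deriv (N : ℕ) : ∃ C : ℝ, 1 ≤ C ∧ ∀ x y : ℝ, 0 < x → |y| ≤ x → ∀ i ≤ N,
    |iteratedDeriv i (fun x => x / rho x y) x| ≤ C * (1 / x) ^ i := by
  obtain ⟨C, hC1, hC⟩ := rho_x_deriv (N + 1)
  refine ⟨C, hC1, ?_⟩
  intro x₀ y hx hy i hi
  have heq : (fun x => x / rho x y) =ᶠ[𝓝 x₀] deriv (fun x => rho x y) := by
    filter_upwards [isOpen_Ioi.mem_nhds (show x₀ ∈ Ioi (0 : ℝ) from hx)] with x hx0
    have hx0' : (0 : ℝ) < x := hx0
    have hpos : 0 < x ^ 2 + y ^ 2 := by positivity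
    have h1 : HasDerivAt (fun x : ℝ => x ^ 2 + y ^ 2) (2 * x) x := by
      have := ((hasDerivAt_id x).pow 2).add_const (y ^ 2)
      simpa using this
    have h2 := h1.sqrt (ne_of_gt hpos)
    have h3 : deriv (fun x => rho x y) x = 2 * x / (2 * Real.sqrt (x ^ 2 + y ^ 2)) := h2.deriv
    rw [h3]
    simp only [rho]
    rw [mul_div_mul_left _ _ (by norm_num : (2 : ℝ) ≠ 0)]
  rw [heq.iteratedDeriv_eq i, ← iteratedDeriv_succ']
  have h := hC x₀ y hx hy (i + 1) (by omega)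
  calc |iteratedDeriv (i + 1) (fun x => rho x y) x₀| ≤ C * x₀ * (1 / x₀) ^ (i + 1) := h
    _ = C * (1 / x₀) ^ i := by
      rw [pow_succ]; field_simp

end Pool.Agent.Helper92.CS
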