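import Pool.Agent.Helper92.CS.Defs
import Pool.Agent.Helper92.CS.RhoX

/-!
CS-InnX (project CS, MP_fb29e9_nt; README: /team-store/h92_CS_README.md). About ~100 lines.

PROOF. In Reg: x/rho >= 1 - w^2/2 >= 7/8, |y| <= x, x >= 7X/8 >= 1. d/dx rho = x/rho <= 1; L |x/rho - 1| <= L w^2 / 2 <= 1 (L^2 w <= 1). Order i >= 2: C x^(1-i) <= C and
L C x^(1-i) <= C L / x <= C' (L <= X). quotient: C x^(-i)/w^2 <= C'/(X w^2) <= C' for i >= 1.
-/

open MeasureTheory Set Filter Topology

noncomputable section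

namespace Pool.Agent.Helper92.CS

/-- Elementary facts in the region. -/
private lemma reg_facts {X L w x y : ℝ} (hP : Par X L w) (hR : Reg X w x y) :
    0 < rho x y ∧ x ≤ rho x y ∧ 7 / 8 * rho x y ≤ x ∧ 7 / 8 * X ≤ x ∧ |y| ≤ x ∧ 1 ≤ x := by
  have hX := hP.X4
  have hlo := hR.lo
  have hr : 0 < rho x y := by linarith
  have hw : w ^ 2 ≤ 1 / 4 := by nlinarith [hP.w0, hP.w1]
  have hang := hR.ang
  have h1 : 7 / 8 ≤ x / rho x y := by linarith
  have h2 : 7 / 8 * rho x y ≤ x := by
    rwa [le_div_iff₀ hr] at h1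
  have hsq : rho x y ^ 2 = x ^ 2 + y ^ 2 := by
    unfold rho
    rw [Real.sq_sqrt (by positivity)]
  have h3 : x ≤ rho x y := by
    apply Real.le_sqrt_of_sq_le
    nlinarith [sq_nonneg y]
  refine ⟨hr, h3, h2, by linarith, ?_, by linarith⟩
  apply abs_le_of_sq_le_sq _ hR.x0.le
  nlinarith [hR.x0]

private lemma rho_contDiffAt {x y : ℝ} (hx : 0 < x) (N : ℕ) :
    ContDiffAt ℝ N (fun x => rho x y) x := by
  unfold rho
  apply ContDiffAt.sqrt
  · fun_prop
  · positivity

private lemma one_div_pow_le {x : ℝ} (hx : 1 ≤ x) {i : ℕ} (hi : 1 ≤ i) :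
    (1 / x) ^ i ≤ 1 / x := by
  have h0 : 0 ≤ 1 / x := by positivity
  have h1 : 1 / x ≤ 1 := by
    rw [div_le_one (by linarith)]
    exact hx
  calc (1 / x) ^ i ≤ (1 / x) ^ 1 := pow_le_pow_of_le_one h0 h1 hi
    _ = 1 / x := pow_one _

private lemma one_div_pow_le2 {x : ℝ} (hx : 1 ≤ x) {i : ℕ} (hi : 2 ≤ i) :
    (1 / x) ^ i ≤ (1 / x) ^ 2 := by
  have h0 : 0 ≤ 1 / x := by positivity
  have h1 : 1 / x ≤ 1 := by
    rw [div_le_one (by linarith)]
    exact hx
  exact pow_le_pow_of_le_one h0 h1 hi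

theorem inn_x_rho (N : ℕ) : ∃ C : ℝ, 1 ≤ C ∧ ∀ X L w x y : ℝ, Par X L w → Reg X w x y →
    Inn N C (fun x => rho x y) x ∧ Inn N C (fun x => L * (rho x y - x)) x := by
  obtain ⟨C, hC1, hC⟩ := rho_x_deriv N
  refine ⟨2 * C, by linarith, fun X L w x y hP hR => ?_⟩
  obtain ⟨hr, hxr, h78, hxX, hyx, hx1⟩ := reg_facts hP hR
  have hx0 : 0 < x := hR.x0
  have hcd := rho_contDiffAt (y := y) hx0 N
  have hpow : ∀ i : ℕ, 1 ≤ i → 2 * C ≤ (2 * C) ^ i := fun i hi => by
    calc 2 * C = (2 * C) ^ 1 := (pow_one _).symm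
      _ ≤ (2 * C) ^ i := pow_le_pow_right₀ (by linarith) hi
  refine ⟨⟨hcd, fun i hi hiN => ?_⟩, ⟨?_, fun i hi hiN => ?_⟩⟩
  · have h := hC x y hx0 hyx i hiN
    have h2 : C * x * (1 / x) ^ i ≤ C := by
      calc C * x * (1 / x) ^ i ≤ C * x * (1 / x) := by
            apply mul_le_mul_of_nonneg_left (one_div_pow_le hx1 hi)
            positivity
        _ = C := by field_simp
    linarith [hpow i hi]
  · exact contDiffAt_const.mul (hcd.sub contDiffAt_id)
  · have hcdi : ContDiffAt ℝ i (fun x => rho x y) x := rho_contDiffAt hx0 i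
    have hidi : ContDiffAt ℝ i (fun x : ℝ => x) x := contDiffAt_id
    have heq : iteratedDeriv i (fun x => L * (rho x y - x)) x
        = L * (iteratedDeriv i (fun x => rho x y) x - iteratedDeriv i (fun x : ℝ => x) x) := by
      rw [iteratedDeriv_const_mul_field, iteratedDeriv_fun_sub hcdi hidi]
    rw [heq]
    have hL0 : 0 < L := by linarith [hP.L1]
    rcases Nat.lt_or_ge i 2 with h2 | h2
    · have hi1 : i = 1 := by omega
      subst hi1
      have hd : iteratedDeriv 1 (fun x => rho x y) x = x / rho x y := by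
        rw [iteratedDeriv_one]
        have hd1 : HasDerivAt (fun x : ℝ => x ^ 2 + y ^ 2) (2 * x) x := by
          have := ((hasDerivAt_pow 2 x).add_const (y ^ 2))
          simpa using this
        have hd2 := hd1.sqrt (by positivity)
        have : deriv (fun x => rho x y) x = 2 * x / (2 * Real.sqrt (x ^ 2 + y ^ 2)) := hd2.deriv
        rw [this]
        unfold rho
        rw [mul_div_mul_left _ _ (by norm_num : (2 : ℝ) ≠ 0)]
      rw [hd, iteratedDeriv_fun_id]
      simp only [one_ne_zero, if_false, if_true, pow_one]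
      have hang := hR.ang
      have hle1 : x / rho x y ≤ 1 := by
        rw [div_le_one hr]
        exact hxr
      have hLw : L * (w ^ 2 / 2) ≤ 1 := by
        have h1 := hP.L2w
        have h2 := hP.w1
        have h3 := hP.w0
        have h4 := hP.L1
        have : L * w ≤ 1 := by nlinarith
        nlinarith
      rw [abs_mul, abs_of_pos hL0, abs_of_nonpos (by linarith)]
      have : L * -(x / rho x y - 1) ≤ L * (w ^ 2 / 2) :=
        mul_le_mul_of_nonneg_left (by linarith) hL0.le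
      linarith
    · rw [iteratedDeriv_fun_id, if_neg (by omega), if_neg (by omega), sub_zero, abs_mul,
        abs_of_pos hL0]
      have h := hC x y hx0 hyx i hiN
      have h3 : C * x * (1 / x) ^ i ≤ C * (1 / x) := by
        calc C * x * (1 / x) ^ i ≤ C * x * (1 / x) ^ 2 := by
              apply mul_le_mul_of_nonneg_left (one_div_pow_le2 hx1 h2)
              positivity
          _ = C * (1 / x) := by field_simp
      have h4 : L * (C * (1 / x)) ≤ 2 * C := by
        have hLX := hP.LX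
        have : L / x ≤ 2 := by
          rw [div_le_iff₀ hx0]
          linarith
        calc L * (C * (1 / x)) = C * (L / x) := by ring
          _ ≤ C * 2 := mul_le_mul_of_nonneg_left this (by linarith)
          _ = 2 * C := by ring
      calc L * |iteratedDeriv i (fun x => rho x y) x| ≤ L * (C * (1 / x)) :=
            mul_le_mul_of_nonneg_left (h.trans h3) hL0.le
        _ ≤ 2 * C := h4
        _ ≤ (2 * C) ^ i := hpow i hi

theorem inn_x_quot (N : ℕ) : ∃ C : ℝ, 1 ≤ C ∧ ∀ X L w x y : ℝ, Par X L w → Reg X w x y →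
    Inn N C (fun x => (1 - x / rho x y) / w ^ 2) x := by
  obtain ⟨C, hC1, hC⟩ := quot_x_deriv N
  refine ⟨2 * C, by linarith, fun X L w x y hP hR => ?_⟩
  obtain ⟨hr, hxr, h78, hxX, hyx, hx1⟩ := reg_facts hP hR
  have hx0 : 0 < x := hR.x0
  have hw0 := hP.w0
  have hcq : ∀ n : ℕ, ContDiffAt ℝ n (fun x => x / rho x y) x := fun n =>
    ContDiffAt.div contDiffAt_id (rho_contDiffAt hx0 n) hr.ne'
  have hpow : ∀ i : ℕ, 1 ≤ i → 2 * C ≤ (2 * C) ^ i := fun i hi => by
    calc 2 * C = (2 * C) ^ 1 := (pow_one _).symm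
      _ ≤ (2 * C) ^ i := pow_le_pow_right₀ (by linarith) hi
  refine ⟨?_, fun i hi hiN => ?_⟩
  · exact (contDiffAt_const.sub (hcq N)).div_const _
  · have hc1 : ContDiffAt ℝ i (fun _ : ℝ => (1 : ℝ)) x := contDiffAt_const
    have heq : iteratedDeriv i (fun x => (1 - x / rho x y) / w ^ 2) x
        = -(iteratedDeriv i (fun x => x / rho x y) x) / w ^ 2 := by
      rw [iteratedDeriv_div_const, iteratedDeriv_fun_sub hc1 (hcq i), iteratedDeriv_const,
        if_neg (by omega), zero_sub]
    rw [heq, abs_div, abs_neg, abs_of_pos (by positivity : (0 : ℝ) < w ^ 2)]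
    have h := hC x y hx0 hyx i hiN
    have h3 : C * (1 / x) ^ i ≤ C * (1 / x) :=
      mul_le_mul_of_nonneg_left (one_div_pow_le hx1 hi) (by linarith)
    have h4 : C * (1 / x) / w ^ 2 ≤ 2 * C := by
      have h5 : 1 / x ≤ 2 * w ^ 2 := by
        rw [div_le_iff₀ hx0]
        have := hP.Xw2
        have hw2 : 0 < w ^ 2 := by positivity
        nlinarith
      rw [div_le_iff₀ (by positivity)]
      calc C * (1 / x) ≤ C * (2 * w ^ 2) := mul_le_mul_of_nonneg_left h5 (by linarith)
        _ = 2 * C * w ^ 2 := by ring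
    calc |iteratedDeriv i (fun x => x / rho x y) x| / w ^ 2 ≤ C * (1 / x) / w ^ 2 := by
          apply div_le_div_of_nonneg_right (h.trans h3) (by positivity)
      _ ≤ 2 * C := h4
      _ ≤ (2 * C) ^ i := hpow i hi

end Pool.Agent.Helper92.CS
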