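import Pool.Agent.Helper92.CS.Defs
import Pool.Agent.Helper92.CS.ClsHH
import Pool.Agent.Helper92.CS.InnX
import Pool.Agent.Helper92.CS.HHzero

/-!
CS-HHx (project CS, MP_fb29e9_nt; README: /team-store/h92_CS_README.md). About ~100 lines.

PROOF. As for HH_y with D = 1. Smoothness in x: at x > 0 rho > 0, fine; at x <= 0 the function is 0 in a neighbourhood (for y != 0: 1 - x/rho near 1; for y = 0: rho = |x| < X near 0). Easiest: the set
{x : not (0 < x and X <= rho and rho <= X+2 and 1 - x/rho <= w^2/2)} : show HH = 0 near each point where x <= 0, and near each x > 0 where Reg fails.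
-/

open MeasureTheory Set Filter Topology

noncomputable section

namespace Pool.Agent.Helper92.CS

theorem HH_x (ψ : ℝ → ℝ) (hψ : IsTest ψ) (N : ℕ) : ∃ C : ℝ, 0 ≤ C ∧
    ∀ X L w y : ℝ, Par X L w →
      ContDiff ℝ N (fun x => HH ψ L X w (1 / (8 * X * L)) x y) ∧
      ∀ x, ‖iteratedDeriv N (fun x => HH ψ L X w (1 / (8 * X * L)) x y) x‖ ≤ C := by
  obtain ⟨C1, hC1, h1⟩ := inn_x_rho N
  obtain ⟨C2, hC2, h2⟩ := inn_x_quot N
  obtain ⟨C, hC, h3⟩ := Cls_HH ψ hψ N (max C1 C2) (le_max_of_le_left hC1)
  refine ⟨C, hC, fun X L w y hp => ?_⟩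
  have hX4 := hp.X4
  have hw0 := hp.w0
  have hw1 := hp.w1
  have key : ∀ x, Cls N 1 C (fun x => HH ψ L X w (1 / (8 * X * L)) x y) x := by
    intro x
    by_cases h : ∃ᶠ x' in 𝓝 x, (0 < x' ∧ X < rho x' y ∧ rho x' y < X + 2 ∧
        1 - x' / rho x' y < w ^ 2 / 2)
    · have hrc : Continuous (fun x' => rho x' y) := by
        unfold rho; fun_prop
      have hlo : X ≤ rho x y := ge_of_tendsto_of_frequently (hrc.tendsto x) (h.mono fun x' h' => h'.2.1.le)
      have hhi : rho x y ≤ X + 2 :=
        le_of_tendsto_of_frequently (hrc.tendsto x) (h.mono fun x' h' => h'.2.2.1.le)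
      have hr0 : 0 < rho x y := by linarith
      have hqc : ContinuousAt (fun x' => 1 - x' / rho x' y) x :=
        continuousAt_const.sub (continuousAt_id.div hrc.continuousAt hr0.ne')
      have hang : 1 - x / rho x y ≤ w ^ 2 / 2 :=
        le_of_tendsto_of_frequently hqc.tendsto (h.mono fun x' h' => h'.2.2.2.le)
      have hx0 : 0 < x := by
        have h4 : w ^ 2 ≤ 1 := by nlinarith
        have h5 : 0 < x / rho x y := by linarith
        exact (div_pos_iff_of_pos_right hr0).1 h5
      have hR : Reg X w x y := ⟨hx0, hlo, hhi, hang⟩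
      obtain ⟨ha, hb⟩ := h1 X L w x y hp hR
      have hc := h2 X L w x y hp hR
      have hm1 : C1 ≤ max C1 C2 * 1 := by rw [mul_one]; exact le_max_left _ _
      have hm2 : C2 ≤ max C1 C2 * 1 := by rw [mul_one]; exact le_max_right _ _
      exact h3 X L w 1 x (fun x => rho x y) (fun x => L * (rho x y - x))
        (fun x => (1 - x / rho x y) / w ^ 2) hp zero_le_one
        (Inn.mono (by linarith) hm1 ha) (Inn.mono (by linarith) hm1 hb)
        (Inn.mono (by linarith) hm2 hc)
        (by rw [abs_of_pos hr0]; linarith)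
    · have h' : (fun x => HH ψ L X w (1 / (8 * X * L)) x y) =ᶠ[𝓝 x] fun _ => 0 := by
        rw [Filter.not_frequently] at h
        exact h.mono fun x' hx' => HH_zero ψ hψ X L w x' y hp hx'
      refine ⟨contDiffAt_const.congr_of_eventuallyEq h', fun i hi => ?_⟩
      rw [h'.iteratedDeriv_eq]
      have h0 : iteratedDeriv i (fun _ : ℝ => (0 : ℂ)) x = 0 := by
        simp
      rw [h0, norm_zero]
      positivity
  refine ⟨contDiff_iff_contDiffAt.2 fun x => (key x).1, fun x => ?_⟩
  have := (key x).2 N le_rfl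
  simpa using this

end Pool.Agent.Helper92.CS
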