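import Pool.Agent.Helper92.CS.Defs

/-!
CS-RhoY (project CS, MP_fb29e9_nt; README: /team-store/h92_CS_README.md). About ~80 lines.

PROOF. rho x y = x * q(y/x) with q(t) = sqrt(1+t^2), x / rho x y = p(y/x) with p(t) = 1/sqrt(1+t^2) (x > 0); q, p smooth on R; iteratedDeriv of t -> q(t/x): (1/x)^i q^(i)(y/x)
(iteratedDeriv_comp_const_mul or similar); q^(i), p^(i) continuous so bounded on [-1,1] for each i <= N (take the max over i <= N and 1).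
-/

open MeasureTheory Set Filter Topology

noncomputable section

namespace Pool.Agent.Helper92.CS

private theorem bd67 (f : ℝ → ℝ) (hf : ∀ n : ℕ, ContDiff ℝ n f) (N : ℕ) :
    ∃ C : ℝ, 1 ≤ C ∧ ∀ t : ℝ, |t| ≤ 1 → ∀ i ≤ N, |iteratedDeriv i f t| ≤ C := by
  have h1 : ∀ i : ℕ, ∃ C : ℝ, ∀ t ∈ Icc (-1 : ℝ) 1, ‖iteratedDeriv i f t‖ ≤ C := fun i =>
    isCompact_Icc.exists_bound_of_continuousOn
      ((hf i).continuous_iteratedDeriv i le_rfl).continuousOn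
  choose C hC using h1
  refine ⟨1 + ∑ i ∈ Finset.range (N + 1), |C i|, ?_, ?_⟩
  · have : 0 ≤ ∑ i ∈ Finset.range (N + 1), |C i| := Finset.sum_nonneg fun i _ => abs_nonneg _
    linarith
  · intro t ht i hi
    have h2 := hC i t (by rw [abs_le] at ht; exact ht)
    have h3 : |C i| ≤ ∑ i ∈ Finset.range (N + 1), |C i| :=
      Finset.single_le_sum (f := fun i => |C i|) (fun i _ => abs_nonneg _)
        (Finset.mem_range.2 (by omega))
    rw [Real.norm_eq_abs] at h2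
    linarith [le_abs_self (C i)]

private theorem pos67 (t : ℝ) : (0 : ℝ) < 1 + t ^ 2 := by positivity

private theorem q67 (n : ℕ) : ContDiff ℝ n (fun t : ℝ => Real.sqrt (1 + t ^ 2)) :=
  ContDiff.sqrt (by fun_prop) fun t => (pos67 t).ne'

private theorem p67 (n : ℕ) : ContDiff ℝ n (fun t : ℝ => 1 / Real.sqrt (1 + t ^ 2)) :=
  contDiff_const.div (q67 n) fun t => (Real.sqrt_pos.2 (pos67 t)).ne'

private theorem rho67 (x y : ℝ) (hx : 0 < x) : rho x y = x * Real.sqrt (1 + (x⁻¹ * y) ^ 2) := by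
  have h : x ^ 2 + y ^ 2 = x ^ 2 * (1 + (x⁻¹ * y) ^ 2) := by
    field_simp
  rw [rho, h, Real.sqrt_mul (by positivity), Real.sqrt_sq hx.le]

private theorem abs67 (x y : ℝ) (hx : 0 < x) (hy : |y| ≤ x) : |x⁻¹ * y| ≤ 1 := by
  rw [abs_mul, abs_of_pos (inv_pos.2 hx), inv_mul_le_iff₀ hx, mul_one]
  exact hy

theorem rho_y_deriv (N : ℕ) : ∃ C : ℝ, 1 ≤ C ∧ ∀ x y : ℝ, 0 < x → |y| ≤ x → ∀ i ≤ N,
    |iteratedDeriv i (fun y => rho x y) y| ≤ C * x * (1 / x) ^ i := by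
  obtain ⟨C, hC1, hC⟩ := bd67 (fun t : ℝ => Real.sqrt (1 + t ^ 2)) q67 N
  refine ⟨C, hC1, fun x y hx hy i hi => ?_⟩
  have h1 : (fun y => rho x y) = fun y => x * (fun y => (fun t : ℝ => Real.sqrt (1 + t ^ 2))
      (x⁻¹ * y)) y := by
    ext y; exact rho67 x y hx
  rw [h1, iteratedDeriv_const_mul_field, iteratedDeriv_comp_const_mul (q67 i)]
  have h2 := hC (x⁻¹ * y) (abs67 x y hx hy) i hi
  rw [abs_mul, abs_mul, abs_of_pos hx, abs_of_pos (by positivity : 0 < x⁻¹ ^ i), one_div]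
  calc x * (x⁻¹ ^ i * |iteratedDeriv i (fun t : ℝ => Real.sqrt (1 + t ^ 2)) (x⁻¹ * y)|)
      ≤ x * (x⁻¹ ^ i * C) := by gcongr
    _ = C * x * x⁻¹ ^ i := by ring

theorem quot_y_deriv (N : ℕ) : ∃ C : ℝ, 1 ≤ C ∧ ∀ x y : ℝ, 0 < x → |y| ≤ x → ∀ i ≤ N,
    |iteratedDeriv i (fun y => x / rho x y) y| ≤ C * (1 / x) ^ i := by
  obtain ⟨C, hC1, hC⟩ := bd67 (fun t : ℝ => 1 / Real.sqrt (1 + t ^ 2)) p67 N
  refine ⟨C, hC1, fun x y hx hy i hi => ?_⟩
  have h1 : (fun y => x / rho x y) = fun y => (fun t : ℝ => 1 / Real.sqrt (1 + t ^ 2))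
      (x⁻¹ * y) := by
    ext y
    rw [rho67 x y hx]
    field_simp
  rw [h1, iteratedDeriv_comp_const_mul (p67 i)]
  have h2 := hC (x⁻¹ * y) (abs67 x y hx hy) i hi
  rw [abs_mul, abs_of_pos (by positivity : 0 < x⁻¹ ^ i), one_div]
  calc x⁻¹ ^ i * |iteratedDeriv i (fun t : ℝ => 1 / Real.sqrt (1 + t ^ 2)) (x⁻¹ * y)|
      ≤ x⁻¹ ^ i * C := by gcongr
    _ = C * x⁻¹ ^ i := by ring

end Pool.Agent.Helper92.CS
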