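import Pool.Agent.Helper92.CS.Defs
import Pool.Agent.Helper92.CS.RhoY

/-!
CS-InnY (project CS, MP_fb29e9_nt; README: /team-store/h92_CS_README.md). About ~120 lines.

PROOF. In Reg: x/rho >= 1 - w^2/2 >= 7/8, y^2/rho^2 = 1 - (x/rho)^2 <= w^2, so |y| <= w rho and |y| <= x; x >= 7X/8; 1/X <= w^2. First derivatives: |y/rho| <= w;
d/dy (1 - x/rho)/w^2 = x y/(rho^3 w^2) <= 1/(rho w) <= w. Order i >= 2: C x^(1-i) <= C' X^(1-i) <= C' w^(2i-2) <= C' w^i (also times L <= L^i), and C x^(-i)/w^2 <= C' w^(2i-2) <= C' w^i.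
All are <= (C'' L w)^i (w <= L w). ContDiffAt: rho x y > 0.
-/

open MeasureTheory Set Filter Topology

noncomputable section

namespace Pool.Agent.Helper92.CS

/-- Elementary facts in the region `Reg`. -/
private lemma reg_facts74 {X L w x y : ℝ} (hP : Par X L w) (hR : Reg X w x y) :
    0 < rho x y ∧ rho x y ^ 2 = x ^ 2 + y ^ 2 ∧ x ≤ rho x y ∧ 7 / 8 * rho x y ≤ x ∧
      |y| ≤ w * rho x y ∧ |y| ≤ x ∧ 1 / x ≤ 2 * w ^ 2 := by
  have hX := hP.X4
  have hw0 := hP.w0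
  have hw1 := hP.w1
  have hXw := hP.Xw2
  have hx0 := hR.x0
  have hlo := hR.lo
  have hang := hR.ang
  have hrho : 0 < rho x y := by linarith
  have hsq : rho x y ^ 2 = x ^ 2 + y ^ 2 := Real.sq_sqrt (by positivity)
  have hw2 : w ^ 2 ≤ 1 / 4 := by nlinarith
  have hxr : x ≤ rho x y := by
    exact Real.le_sqrt_of_sq_le (by nlinarith [sq_nonneg y])
  have hdiv : 1 - w ^ 2 / 2 ≤ x / rho x y := by linarith
  have hmul : (1 - w ^ 2 / 2) * rho x y ≤ x := by
    rwa [le_div_iff₀ hrho] at hdiv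
  have h78 : 7 / 8 * rho x y ≤ x := by nlinarith
  have hy2 : |y| ≤ w * rho x y := by
    apply abs_le_of_sq_le_sq _ (by positivity)
    have h1 : ((1 - w ^ 2 / 2) * rho x y) ^ 2 ≤ x ^ 2 := by
      apply pow_le_pow_left₀ _ hmul
      apply mul_nonneg _ hrho.le
      linarith
    have h2 : (1 - w ^ 2) * rho x y ^ 2 ≤ ((1 - w ^ 2 / 2) * rho x y) ^ 2 := by
      have : ((1 - w ^ 2 / 2) * rho x y) ^ 2 = (1 - w ^ 2) * rho x y ^ 2 + w ^ 4 / 4 * rho x y ^ 2 := by
        ring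
      rw [this]
      have : 0 ≤ w ^ 4 / 4 * rho x y ^ 2 := by positivity
      linarith
    nlinarith
  have hyx : |y| ≤ x := by
    nlinarith
  refine ⟨hrho, hsq, hxr, h78, hy2, hyx, ?_⟩
  rw [div_le_iff₀ hx0]
  have : 7 / 8 * X ≤ x := by linarith
  nlinarith [sq_nonneg w]

private lemma hasDerivAt_rho_y74 {x y : ℝ} (h : 0 < rho x y) :
    HasDerivAt (fun y => rho x y) (y / rho x y) y := by
  have h0 : x ^ 2 + y ^ 2 ≠ 0 := by
    intro hc
    simp [rho, hc] at h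
  have h1 : HasDerivAt (fun y : ℝ => x ^ 2 + y ^ 2) (2 * y) y := by
    have := (hasDerivAt_pow 2 y).const_add (x ^ 2)
    simpa using this
  have h2 := h1.sqrt h0
  have h3 : 2 * y / (2 * Real.sqrt (x ^ 2 + y ^ 2)) = y / rho x y := by
    rw [mul_div_mul_left _ _ (two_ne_zero)]; rfl
  rw [h3] at h2
  exact h2

private lemma contDiffAt_rho_y74 {N : ℕ} {x y : ℝ} (h : 0 < rho x y) :
    ContDiffAt ℝ N (fun y => rho x y) y := by
  have h0 : x ^ 2 + y ^ 2 ≠ 0 := by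
    intro hc
    simp [rho, hc] at h
  exact ContDiffAt.sqrt (by fun_prop) h0

private lemma w_pow74 {w : ℝ} (hw0 : 0 ≤ w) (hw1 : w ≤ 1) {i : ℕ} (hi : 2 ≤ i) :
    w ^ (2 * i - 2) ≤ w ^ i := pow_le_pow_of_le_one hw0 hw1 (by omega)

/-- The common estimate for the higher derivatives. -/
private lemma high74 {C x L w : ℝ} (hC : 1 ≤ C) (hx : 0 < x) (hL : 1 ≤ L) (hw0 : 0 < w)
    (hw1 : w ≤ 1 / 2) (h : 1 / x ≤ 2 * w ^ 2) {i : ℕ} (hi : 2 ≤ i) :
    L * (C * x * (1 / x) ^ i) ≤ (4 * C * (L * w)) ^ i ∧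
      C * (1 / x) ^ i / w ^ 2 ≤ (4 * C * (L * w)) ^ i := by
  obtain ⟨j, rfl⟩ : ∃ j, i = j + 1 := ⟨i - 1, by omega⟩
  have h1x : 0 < 1 / x := by positivity
  have hpow : (1 / x) ^ j ≤ 2 ^ j * w ^ (j + 1) := by
    calc (1 / x) ^ j ≤ (2 * w ^ 2) ^ j := pow_le_pow_left₀ h1x.le h j
      _ = 2 ^ j * w ^ (2 * (j + 1) - 2) := by
        rw [mul_pow, ← pow_mul]; congr 2
      _ ≤ 2 ^ j * w ^ (j + 1) :=
        mul_le_mul_of_nonneg_left (w_pow74 hw0.le (by linarith) hi) (by positivity)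
  have hxx : x * (1 / x) ^ (j + 1) = (1 / x) ^ j := by
    rw [pow_succ]; field_simp
  have hCL : L * (C * 2 ^ j) ≤ (4 * C * L) ^ (j + 1) := by
    have e1 : C ≤ C ^ (j + 1) := le_self_pow₀ hC (by omega)
    have e2 : L ≤ L ^ (j + 1) := le_self_pow₀ hL (by omega)
    have e3 : (2 : ℝ) ^ j ≤ 4 ^ (j + 1) := by
      calc (2 : ℝ) ^ j ≤ 2 ^ (j + 1) := pow_le_pow_right₀ (by norm_num) (by omega)
        _ ≤ 4 ^ (j + 1) := pow_le_pow_left₀ (by norm_num) (by norm_num) _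
    calc L * (C * 2 ^ j) ≤ L ^ (j + 1) * (C ^ (j + 1) * 4 ^ (j + 1)) := by gcongr
      _ = (4 * C * L) ^ (j + 1) := by ring
  constructor
  · calc L * (C * x * (1 / x) ^ (j + 1)) = L * C * (1 / x) ^ j := by
          rw [← hxx]; ring
      _ ≤ L * C * (2 ^ j * w ^ (j + 1)) := by gcongr
      _ = L * (C * 2 ^ j) * w ^ (j + 1) := by ring
      _ ≤ (4 * C * L) ^ (j + 1) * w ^ (j + 1) := by gcongr
      _ = (4 * C * (L * w)) ^ (j + 1) := by ring
  · have hpow2 : (1 / x) ^ (j + 1) / w ^ 2 ≤ 2 ^ (j + 1) * w ^ (j + 1) := by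
      rw [div_le_iff₀ (by positivity)]
      calc (1 / x) ^ (j + 1) ≤ (2 * w ^ 2) ^ (j + 1) := pow_le_pow_left₀ h1x.le h _
        _ = 2 ^ (j + 1) * (w ^ (2 * (j + 1) - 2) * w ^ 2) := by
          rw [mul_pow, ← pow_mul, ← pow_add]; congr 2
        _ ≤ 2 ^ (j + 1) * (w ^ (j + 1) * w ^ 2) :=
          mul_le_mul_of_nonneg_left (mul_le_mul_of_nonneg_right
            (w_pow74 hw0.le (by linarith) hi) (by positivity)) (by positivity)
        _ = 2 ^ (j + 1) * w ^ (j + 1) * w ^ 2 := by ring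
    have e1 : C ≤ C ^ (j + 1) := le_self_pow₀ hC (by omega)
    have e2 : (1 : ℝ) ≤ L ^ (j + 1) := one_le_pow₀ hL
    have e3 : (2 : ℝ) ^ (j + 1) ≤ 4 ^ (j + 1) := pow_le_pow_left₀ (by norm_num) (by norm_num) _
    calc C * (1 / x) ^ (j + 1) / w ^ 2 = C * ((1 / x) ^ (j + 1) / w ^ 2) := by ring
      _ ≤ C * (2 ^ (j + 1) * w ^ (j + 1)) := by gcongr
      _ ≤ C ^ (j + 1) * (4 ^ (j + 1) * w ^ (j + 1)) := by gcongr
      _ = 1 * (C ^ (j + 1) * (4 ^ (j + 1) * w ^ (j + 1))) := by ring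
      _ ≤ L ^ (j + 1) * (C ^ (j + 1) * (4 ^ (j + 1) * w ^ (j + 1))) := by gcongr
      _ = (4 * C * (L * w)) ^ (j + 1) := by ring

theorem inn_y_rho (N : ℕ) : ∃ C : ℝ, 1 ≤ C ∧ ∀ X L w x y : ℝ, Par X L w → Reg X w x y →
    Inn N (C * (L * w)) (fun y => rho x y) y ∧
    Inn N (C * (L * w)) (fun y => L * (rho x y - x)) y := by
  obtain ⟨C, hC, h⟩ := rho_y_deriv N
  refine ⟨4 * C, by linarith, ?_⟩
  intro X L w x y hP hR
  obtain ⟨hrho, hsq, hxr, h78, hyw, hyx, hinv⟩ := reg_facts74 hP hR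
  have hw0 := hP.w0
  have hw1 := hP.w1
  have hL := hP.L1
  have hx := hR.x0
  have hone : |deriv (fun y => rho x y) y| ≤ w := by
    rw [(hasDerivAt_rho_y74 hrho).deriv, abs_div, abs_of_pos hrho, div_le_iff₀ hrho]
    exact hyw
  have hLw : 0 < L * w := by positivity
  have key : ∀ i, 1 ≤ i → i ≤ N →
      L * |iteratedDeriv i (fun y => rho x y) y| ≤ (4 * C * (L * w)) ^ i := by
    intro i hi1 hiN
    rcases Nat.lt_or_ge 1 i with h2 | h2
    · exact (mul_le_mul_of_nonneg_left (h x y hx hyx i hiN) (by linarith)).trans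
        (high74 hC hx hL hw0 hw1 hinv h2).1
    · obtain rfl : i = 1 := by omega
      rw [iteratedDeriv_one, pow_one]
      calc L * |deriv (fun y => rho x y) y| ≤ L * w := by gcongr
        _ = 1 * (L * w) := by ring
        _ ≤ 4 * C * (L * w) := by gcongr; linarith
  refine ⟨⟨contDiffAt_rho_y74 hrho, ?_⟩, ⟨?_, ?_⟩⟩
  · intro i hi1 hiN
    refine le_trans ?_ (key i hi1 hiN)
    calc |iteratedDeriv i (fun y => rho x y) y| = 1 * |iteratedDeriv i (fun y => rho x y) y| := by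
          ring
      _ ≤ L * |iteratedDeriv i (fun y => rho x y) y| := by gcongr
  · exact contDiffAt_const.mul ((contDiffAt_rho_y74 hrho).sub contDiffAt_const)
  · intro i hi1 hiN
    obtain ⟨j, rfl⟩ : ∃ j, i = j + 1 := ⟨i - 1, by omega⟩
    have e1 : iteratedDeriv (j + 1) (fun y => L * (rho x y - x)) y =
        L * iteratedDeriv (j + 1) (fun y => rho x y) y := by
      rw [iteratedDeriv_const_mul_field]
      congr 1
      rw [iteratedDeriv_succ', iteratedDeriv_succ']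
      congr 1
      funext z
      exact deriv_sub_const _
    rw [e1, abs_mul, abs_of_pos (by linarith : (0 : ℝ) < L)]
    exact key _ hi1 hiN

theorem inn_y_quot (N : ℕ) : ∃ C : ℝ, 1 ≤ C ∧ ∀ X L w x y : ℝ, Par X L w → Reg X w x y →
    Inn N (C * (L * w)) (fun y => (1 - x / rho x y) / w ^ 2) y := by
  obtain ⟨C, hC, h⟩ := quot_y_deriv N
  refine ⟨4 * C, by linarith, ?_⟩
  intro X L w x y hP hR
  obtain ⟨hrho, hsq, hxr, h78, hyw, hyx, hinv⟩ := reg_facts74 hP hR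
  have hw0 := hP.w0
  have hw1 := hP.w1
  have hL := hP.L1
  have hx := hR.x0
  have hXw := hP.Xw2
  have hlo := hR.lo
  refine ⟨?_, ?_⟩
  · exact (contDiffAt_const.sub (contDiffAt_const.div (contDiffAt_rho_y74 hrho) hrho.ne')).div_const _
  · intro i hi1 hiN
    obtain ⟨j, rfl⟩ : ∃ j, i = j + 1 := ⟨i - 1, by omega⟩
    have e1 : |iteratedDeriv (j + 1) (fun y => (1 - x / rho x y) / w ^ 2) y| =
        |iteratedDeriv (j + 1) (fun y => x / rho x y) y| / w ^ 2 := by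
      rw [iteratedDeriv_div_const, abs_div, abs_of_pos (by positivity : (0 : ℝ) < w ^ 2)]
      congr 1
      have e2 : iteratedDeriv (j + 1) (fun y => 1 - x / rho x y) y =
          - iteratedDeriv (j + 1) (fun y => x / rho x y) y := by
        rw [iteratedDeriv_const_sub (by omega), iteratedDeriv_neg]
      rw [e2, abs_neg]
    rw [e1]
    rcases Nat.eq_zero_or_pos j with rfl | hj
    · rw [zero_add, iteratedDeriv_one, pow_one]
      have hd : HasDerivAt (fun y => x / rho x y) (-(x * (y / rho x y)) / rho x y ^ 2) y := by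
        have := (hasDerivAt_const y x).fun_div (hasDerivAt_rho_y74 hrho) hrho.ne'
        simpa using this
      rw [hd.deriv, div_le_iff₀ (by positivity), abs_div, abs_neg, abs_mul, abs_div,
        abs_of_pos hx, abs_of_pos hrho, abs_of_pos (by positivity : (0 : ℝ) < rho x y ^ 2)]
      rw [div_le_iff₀ (by positivity)]
      have hq : |y| / rho x y ≤ w := by rwa [div_le_iff₀ hrho]
      have h1 : 1 ≤ rho x y * w ^ 2 := le_trans hXw (by gcongr)
      calc x * (|y| / rho x y) ≤ rho x y * w := by gcongr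
        _ = (1 * w) * (1 * rho x y) := by ring
        _ ≤ (L * w) * (rho x y * w ^ 2 * rho x y) := by gcongr
        _ = 1 * (L * w) * w ^ 2 * rho x y ^ 2 := by ring
        _ ≤ 4 * C * (L * w) * w ^ 2 * rho x y ^ 2 := by gcongr; linarith
    · refine le_trans ?_ (high74 hC hx hL hw0 hw1 hinv (by omega : 2 ≤ j + 1)).2
      gcongr
      exact h x y hx hyx _ hiN

end Pool.Agent.Helper92.CS
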