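import Pool.Agent.Helper92.CS.Defs
import Pool.Agent.Helper92.CS.ClsHH
import Pool.Agent.Helper92.CS.InnY
import Pool.Agent.Helper92.CS.HHzero

/-!
CS-HHy (project CS, MP_fb29e9_nt; README: /team-store/h92_CS_README.md). Proof by helper29.

PROOF. Fix X, L, w, x. If x <= 0 the function of y is 0 (HH_zero). If x > 0 it is smooth (rho x y > 0; Q_deriv with this N). At y with Reg X w x y: Cls_HH with D = L w, r = rho x ., ph = L (rho x . - x),
qu = (1 - x/rho x .)/w^2, |rho| <= X + 2 <= 2X. At y without Reg: Reg fails on a neighbourhood of y (closed conditions, x fixed), there HH = 0 by HH_zero, so the derivative is 0.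
-/

open MeasureTheory Set Filter Topology

noncomputable section

namespace Pool.Agent.Helper92.CS

/-- If Reg fails at a point with positive `x`, then `HH` vanishes in a neighbourhood (in `y`). -/
private theorem HH_ev_zero_y29 (ψ : ℝ → ℝ) (hψ : IsTest ψ) (X L w x y : ℝ) (h : Par X L w)
    (hx : 0 < x) (hn : ¬ Reg X w x y) :
    (fun y => HH ψ L X w (1 / (8 * X * L)) x y) =ᶠ[𝓝 y] fun _ => (0 : ℂ) := by
  have hr : Continuous (fun y => rho x y) := by
    unfold rho
    fun_prop
  have hpos : ∀ y, rho x y ≠ 0 := by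
    intro y
    unfold rho
    have : 0 < x ^ 2 + y ^ 2 := by positivity
    exact (Real.sqrt_pos.mpr this).ne'
  have hq : Continuous (fun y => 1 - x / rho x y) :=
    continuous_const.sub (continuous_const.div hr hpos)
  by_cases h1 : X ≤ rho x y
  · by_cases h2 : rho x y ≤ X + 2
    · by_cases h3 : 1 - x / rho x y ≤ w ^ 2 / 2
      · exact absurd ⟨hx, h1, h2, h3⟩ hn
      · have hev : ∀ᶠ z in 𝓝 y, w ^ 2 / 2 < 1 - x / rho x z :=
          hq.continuousAt.eventually_const_lt (not_le.mp h3)
        filter_upwards [hev] with z hz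
        refine HH_zero ψ hψ X L w x z h ?_
        rintro ⟨_, _, _, h4⟩
        linarith
    · have hev : ∀ᶠ z in 𝓝 y, X + 2 < rho x z :=
        hr.continuousAt.eventually_const_lt (not_le.mp h2)
      filter_upwards [hev] with z hz
      refine HH_zero ψ hψ X L w x z h ?_
      rintro ⟨_, _, h4, _⟩
      linarith
  · have hev : ∀ᶠ z in 𝓝 y, rho x z < X :=
      hr.continuousAt.eventually_lt_const (not_le.mp h1)
    filter_upwards [hev] with z hz
    refine HH_zero ψ hψ X L w x z h ?_
    rintro ⟨_, h4, _, _⟩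
    linarith

private theorem iteratedDeriv_zero_fun29 (N : ℕ) (y : ℝ) :
    iteratedDeriv N (fun _ : ℝ => (0 : ℂ)) y = 0 := by
  rw [iteratedDeriv_const]
  split_ifs <;> rfl

theorem HH_y (ψ : ℝ → ℝ) (hψ : IsTest ψ) (N : ℕ) : ∃ C : ℝ, 0 ≤ C ∧
    ∀ X L w x : ℝ, Par X L w →
      ContDiff ℝ N (fun y => HH ψ L X w (1 / (8 * X * L)) x y) ∧
      ∀ y, ‖iteratedDeriv N (fun y => HH ψ L X w (1 / (8 * X * L)) x y) y‖ ≤ C * (L * w) ^ N := by
  obtain ⟨C1, hC1, H1⟩ := inn_y_rho N
  obtain ⟨C2, hC2, H2⟩ := inn_y_quot N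
  have hC₀ : 1 ≤ C1 + C2 := by linarith
  obtain ⟨C, hC, H⟩ := Cls_HH ψ hψ N (C1 + C2) hC₀
  refine ⟨C, hC, ?_⟩
  intro X L w x h
  have hL := h.L1
  have hX := h.X4
  have hw := h.w0
  have hLw : 0 ≤ L * w := by positivity
  by_cases hx : 0 < x
  · -- main case
    have key : ∀ y, Cls N (L * w) C (fun y => HH ψ L X w (1 / (8 * X * L)) x y) y := by
      intro y
      by_cases hreg : Reg X w x y
      · obtain ⟨a1, a2⟩ := H1 X L w x y h hreg
        have a3 := H2 X L w x y h hreg
        have hm1 : C1 * (L * w) ≤ (C1 + C2) * (L * w) :=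
          mul_le_mul_of_nonneg_right (by linarith) hLw
        have hm2 : C2 * (L * w) ≤ (C1 + C2) * (L * w) :=
          mul_le_mul_of_nonneg_right (by linarith) hLw
        have hp1 : 0 ≤ C1 * (L * w) := by positivity
        have hp2 : 0 ≤ C2 * (L * w) := by positivity
        have hb : |rho x y| ≤ 2 * X := by
          have h0 : 0 ≤ rho x y := Real.sqrt_nonneg _
          rw [abs_of_nonneg h0]
          linarith [hreg.hi]
        exact H X L w (L * w) y (fun y => rho x y) (fun y => L * (rho x y - x))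
          (fun y => (1 - x / rho x y) / w ^ 2) h hLw (Inn.mono hp1 hm1 a1) (Inn.mono hp1 hm1 a2)
          (Inn.mono hp2 hm2 a3) hb
      · have hz := HH_ev_zero_y29 ψ hψ X L w x y h hx hreg
        refine ⟨(contDiffAt_const).congr_of_eventuallyEq hz, fun i hi => ?_⟩
        rw [Filter.EventuallyEq.iteratedDeriv_eq i hz, iteratedDeriv_zero_fun29, norm_zero]
        positivity
    refine ⟨contDiff_iff_contDiffAt.mpr fun y => (key y).1, fun y => (key y).2 N le_rfl⟩
  · have hz : (fun y => HH ψ L X w (1 / (8 * X * L)) x y) = fun _ => (0 : ℂ) := by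
      funext y
      refine HH_zero ψ hψ X L w x y h ?_
      rintro ⟨h4, _⟩
      exact hx h4
    rw [hz]
    refine ⟨contDiff_const, fun y => ?_⟩
    rw [iteratedDeriv_zero_fun29, norm_zero]
    positivity

end Pool.Agent.Helper92.CS
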