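import Pool.Agent.Helper92.CS.Defs
import Pool.Agent.Helper92.CS.RingTest
import Pool.Agent.Helper92.CS.HHzero
import Pool.Agent.Helper92.CS.GkBasic

/-!
CS-IntTest (project CS, MP_fb29e9_nt; README: /team-store/h92_CS_README.md). About ~120 lines.

PROOF. ring_test with phi0 = 0 pointwise: HH(z.re, z.im) = int_r psi(r) e(-(L(X+r))) 1[z in Ring (X+r)] dr * e(L z.re); integrate over z (ℂ ≃ ℝ×ℝ: Complex.volume_preserving_equiv_real_prod) and swap
(integral_integral_swap; the integrand is bounded and supported in |z| <= 2X+4, r in [1/4,3/4]; joint measurability of {(r,z) : X + r < |z| and |z| <= (X+r)(1 + gk (arg z))}). The inner integral over z is the set integral over Ring.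
-/

open MeasureTheory Set Filter Topology

noncomputable section

namespace Pool.Agent.Helper92.CS

private lemma int43_pt (ψ : ℝ → ℝ) (hψ : IsTest ψ) (X L w : ℝ) (h : Par X L w) (z : ℂ) :
    HH ψ L X w (1 / (8 * X * L)) z.re z.im =
      ∫ r : ℝ, (ψ r : ℂ) * e (-(L * (X + r))) *
        ((Ring (gk (1 / (8 * X * L)) w 0) (X + r)).indicator (fun z : ℂ => e (L * z.re)) z) := by
  have hX := h.X4
  have hL := h.L1
  have hXL : 0 < 8 * X * L := by positivity
  have hXL2 : 32 ≤ 8 * X * L := by nlinarith
  have hα1 : 1 / (8 * X * L) ≤ 1 / 2 := by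
    rw [div_le_div_iff₀ hXL (by norm_num)]
    linarith
  have h1 := ring_test ψ hψ L X w (1 / (8 * X * L)) 0 (by linarith) h.w0 (by linarith [h.w1])
    (by positivity) hα1 z
  have h2 : z * Complex.exp (-(((0 : ℝ) : ℂ) * Complex.I)) = z := by simp
  rw [h2] at h1
  rw [← h1, ← integral_mul_const]
  congr 1
  funext r
  by_cases hz : z ∈ Ring (gk (1 / (8 * X * L)) w 0) (X + r)
  · rw [indicator_of_mem hz, indicator_of_mem hz]
    ring
  · rw [indicator_of_notMem hz, indicator_of_notMem hz]
    ring

private lemma int43_cont_e : Continuous e := by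
  unfold e
  fun_prop

private lemma int43_norm_e (t : ℝ) : ‖e t‖ = 1 := by
  unfold e
  exact Complex.norm_exp_ofReal_mul_I _

theorem integral_test (ψ : ℝ → ℝ) (hψ : IsTest ψ) (X L w : ℝ) (h : Par X L w) :
    ∫ z : ℝ × ℝ, HH ψ L X w (1 / (8 * X * L)) z.1 z.2
      = ∫ r : ℝ, (ψ r : ℂ) * e (-(L * (X + r))) *
          ∫ z : ℂ in Ring (gk (1 / (8 * X * L)) w 0) (X + r), e (L * z.re) := by
  have hX := h.X4
  have hL := h.L1
  have hXL : 0 < 8 * X * L := by positivity
  have hXL2 : 32 ≤ 8 * X * L := by nlinarith
  set α : ℝ := 1 / (8 * X * L) with hα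
  have hα0 : 0 ≤ α := by rw [hα]; positivity
  have hα1 : α ≤ 1 / 32 := by
    rw [hα, div_le_div_iff₀ hXL (by norm_num)]
    linarith
  obtain ⟨gc, -, gb, -⟩ := gk_basic α w 0 hα0 (by linarith) h.w0
  have gcont : Continuous (gk α w 0) := gc.continuous
  have hec := int43_cont_e
  have hψc : Continuous ψ := hψ.smooth.continuous
  have hψi : Integrable ψ := by
    apply hψc.integrable_of_hasCompactSupport
    exact HasCompactSupport.intro isCompact_Icc hψ.supp
  -- change of variables
  have h1 : ∫ z : ℝ × ℝ, HH ψ L X w α z.1 z.2 = ∫ z : ℂ, HH ψ L X w α z.re z.im := by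
    have h2 := (Complex.volume_preserving_equiv_real_prod).integral_comp
      (MeasurableEquiv.measurableEmbedding _) (fun z : ℝ × ℝ => HH ψ L X w α z.1 z.2)
    rw [← h2]
    rfl
  rw [h1]
  have h3 : ∀ z : ℂ, HH ψ L X w α z.re z.im = ∫ r : ℝ, (ψ r : ℂ) * e (-(L * (X + r))) *
        ((Ring (gk α w 0) (X + r)).indicator (fun z : ℂ => e (L * z.re)) z) := fun z =>
    int43_pt ψ hψ X L w h z
  simp_rw [h3]
  -- measurability of the ring
  set S : Set (ℂ × ℝ) := {p | X + p.2 < ‖p.1‖ ∧ ‖p.1‖ ≤ (X + p.2) * (1 + gk α w 0 p.1.arg)} with hS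
  have hSm : MeasurableSet S := by
    have m1 : Measurable fun p : ℂ × ℝ => X + p.2 := by fun_prop
    have m2 : Measurable fun p : ℂ × ℝ => ‖p.1‖ := by fun_prop
    have m3 : Measurable fun p : ℂ × ℝ => gk α w 0 p.1.arg :=
      gcont.measurable.comp (Complex.measurable_arg.comp measurable_fst)
    exact (measurableSet_lt m1 m2).inter (measurableSet_le m2 (m1.mul (m3.const_add 1)))
  have hRm : ∀ R : ℝ, MeasurableSet (Ring (gk α w 0) R) := by
    intro R
    have m2 : Measurable fun z : ℂ => ‖z‖ := by fun_prop
    have m3 : Measurable fun z : ℂ => gk α w 0 z.arg := gcont.measurable.comp Complex.measurable_arg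
    exact (measurableSet_lt measurable_const m2).inter
      (measurableSet_le m2 ((m3.const_add 1).const_mul R))
  have hint : Integrable (Function.uncurry fun (z : ℂ) (r : ℝ) => (ψ r : ℂ) * e (-(L * (X + r))) *
      ((Ring (gk α w 0) (X + r)).indicator (fun z : ℂ => e (L * z.re)) z)) (volume.prod volume) := by
    have hb : Integrable (fun z : ℂ × ℝ =>
        ((Metric.closedBall (0 : ℂ) (2 * X + 4)).indicator (fun _ => (1 : ℝ)) z.1) * ψ z.2)
        (volume.prod volume) := by
      refine Integrable.mul_prod ?_ hψi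
      refine (integrable_indicator_iff measurableSet_closedBall).2 ?_
      exact integrableOn_const (by exact measure_closedBall_lt_top.ne)
    refine hb.mono ?_ ?_
    · have e1 : (Function.uncurry fun (z : ℂ) (r : ℝ) => (ψ r : ℂ) * e (-(L * (X + r))) *
          ((Ring (gk α w 0) (X + r)).indicator (fun z : ℂ => e (L * z.re)) z)) =
          S.indicator (fun p : ℂ × ℝ => (ψ p.2 : ℂ) * e (-(L * (X + p.2))) * e (L * p.1.re)) := by
        funext p
        obtain ⟨z, r⟩ := p
        by_cases hz : z ∈ Ring (gk α w 0) (X + r)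
        · have hz' : (z, r) ∈ S := hz
          rw [indicator_of_mem hz']
          simp only [Function.uncurry]
          rw [indicator_of_mem hz]
        · have hz' : (z, r) ∉ S := hz
          rw [indicator_of_notMem hz']
          simp only [Function.uncurry]
          rw [indicator_of_notMem hz, mul_zero]
      rw [e1]
      refine AEStronglyMeasurable.indicator ?_ hSm
      apply Continuous.aestronglyMeasurable
      have c1 : Continuous fun p : ℂ × ℝ => (ψ p.2 : ℂ) :=
        Complex.continuous_ofReal.comp (hψc.comp continuous_snd)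
      have c2 : Continuous fun p : ℂ × ℝ => e (-(L * (X + p.2))) := hec.comp (by fun_prop)
      have c3 : Continuous fun p : ℂ × ℝ => e (L * p.1.re) := hec.comp (by fun_prop)
      exact (c1.mul c2).mul c3
    · refine Filter.Eventually.of_forall fun p => ?_
      obtain ⟨z, r⟩ := p
      simp only [Function.uncurry]
      by_cases hr : r ∈ Icc (1 / 4 : ℝ) (3 / 4)
      · by_cases hz : z ∈ Ring (gk α w 0) (X + r)
        · have hz1 : ‖z‖ ≤ (X + r) * (1 + gk α w 0 z.arg) := hz.2
          have hg := gb z.arg
          have hzb : z ∈ Metric.closedBall (0 : ℂ) (2 * X + 4) := by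
            rw [mem_closedBall_zero_iff]
            refine hz1.trans ?_
            have h5 : (X + r) * (1 + gk α w 0 z.arg) ≤ (X + r) * (1 + 1) :=
              mul_le_mul_of_nonneg_left (by linarith [hg.2]) (by linarith [hr.1])
            linarith [hr.2]
          rw [indicator_of_mem hz, indicator_of_mem hzb, norm_mul, norm_mul, int43_norm_e, int43_norm_e,
            mul_one, mul_one, one_mul, Complex.norm_real]
        · rw [indicator_of_notMem hz, mul_zero, norm_zero]
          exact norm_nonneg _
      · rw [hψ.supp r hr]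
        simp
  rw [integral_integral_swap hint]
  congr 1
  funext r
  rw [integral_const_mul, integral_indicator (hRm _)]

end Pool.Agent.Helper92.CS
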