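import Pool.Agent.Helper92.CS.Defs

/-!
CS-SubstSin (project CS, MP_fb29e9_nt; README: /team-store/h92_CS_README.md). About ~60 lines.

PROOF. For pi/3 <= |phi| <= pi: cos phi <= 1/2 and the integrand is 0: restrict to [-pi/3, pi/3]. Substitute phi = 2 arcsin(z/2), z in [-1,1] (derivative 1/sqrt(1 - z^2/4), cos phi = 1 - 2 sin^2(phi/2) = 1 - z^2/2,
2 arcsin(1/2) = pi/3): intervalIntegral.integral_comp_mul_deriv or integral_comp_smul_deriv.
-/

open MeasureTheory Set Filter Topology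

noncomputable section

namespace Pool.Agent.Helper92.CS

private lemma h60_cos_le {φ : ℝ} (h1 : Real.pi / 3 ≤ φ) (h2 : φ ≤ Real.pi) :
    Real.cos φ ≤ 1 / 2 := by
  rw [← Real.cos_pi_div_three]
  exact Real.cos_le_cos_of_nonneg_of_le_pi (by positivity) h2 h1

theorem subst_sin (f : ℝ → ℂ) (hf : Continuous f) (h : ∀ u, u ≤ 1 / 2 → f u = 0) :
    ∫ φ in (-Real.pi)..Real.pi, f (Real.cos φ)
      = ∫ z in (-1 : ℝ)..1, f (1 - z ^ 2 / 2) * ((1 / Real.sqrt (1 - z ^ 2 / 4) : ℝ) : ℂ) := by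
  have hpi := Real.pi_pos
  have hg : Continuous (fun φ : ℝ => f (Real.cos φ)) := hf.comp Real.continuous_cos
  have hint : ∀ a b : ℝ, IntervalIntegrable (fun φ : ℝ => f (Real.cos φ)) volume a b :=
    fun a b => hg.intervalIntegrable a b
  -- the outer parts vanish
  have hR : ∫ φ in (Real.pi / 3)..Real.pi, f (Real.cos φ) = 0 := by
    rw [intervalIntegral.integral_congr (g := fun _ => (0 : ℂ))]
    · simp
    · intro φ hφ
      rw [uIcc_of_le (by linarith)] at hφ
      exact h _ (h60_cos_le hφ.1 hφ.2)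
  have hL : ∫ φ in (-Real.pi)..(-(Real.pi / 3)), f (Real.cos φ) = 0 := by
    rw [intervalIntegral.integral_congr (g := fun _ => (0 : ℂ))]
    · simp
    · intro φ hφ
      rw [uIcc_of_le (by linarith)] at hφ
      refine h _ ?_
      rw [← Real.cos_neg]
      exact h60_cos_le (by linarith [hφ.2]) (by linarith [hφ.1])
  have hsplit : ∫ φ in (-Real.pi)..Real.pi, f (Real.cos φ)
      = ∫ φ in (-(Real.pi / 3))..(Real.pi / 3), f (Real.cos φ) := by
    rw [← intervalIntegral.integral_add_adjacent_intervals (hint (-Real.pi) (-(Real.pi / 3)))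
      (hint (-(Real.pi / 3)) Real.pi), hL,
      ← intervalIntegral.integral_add_adjacent_intervals (hint (-(Real.pi / 3)) (Real.pi / 3))
      (hint (Real.pi / 3) Real.pi), hR]
    ring
  rw [hsplit]
  -- the substitution
  have hsq : ∀ z ∈ uIcc (-1 : ℝ) 1, 0 < 1 - z ^ 2 / 4 := by
    intro z hz
    rw [uIcc_of_le (by norm_num)] at hz
    nlinarith [hz.1, hz.2]
  have hderiv : ∀ z ∈ uIcc (-1 : ℝ) 1, HasDerivAt (fun z : ℝ => 2 * Real.arcsin (z / 2))
      (1 / Real.sqrt (1 - z ^ 2 / 4)) z := by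
    intro z hz
    have hz' := hz
    rw [uIcc_of_le (by norm_num)] at hz'
    have h1 : HasDerivAt Real.arcsin (1 / Real.sqrt (1 - (z / 2) ^ 2)) (z / 2) :=
      Real.hasDerivAt_arcsin (by linarith [hz'.1]) (by linarith [hz'.2])
    have h2 : HasDerivAt (fun z : ℝ => z / 2) (1 / 2) z := (hasDerivAt_id z).div_const 2
    have h3 := (h1.comp z h2).const_mul 2
    have h4 : (z / 2) ^ 2 = z ^ 2 / 4 := by ring
    have h5 : 2 * (1 / Real.sqrt (1 - (z / 2) ^ 2) * (1 / 2)) = 1 / Real.sqrt (1 - z ^ 2 / 4) := by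
      rw [h4]; ring
    rw [h5] at h3
    exact h3
  have hcont : ContinuousOn (fun z : ℝ => 1 / Real.sqrt (1 - z ^ 2 / 4)) (uIcc (-1 : ℝ) 1) := by
    apply ContinuousOn.div continuousOn_const
    · exact (Real.continuous_sqrt.comp (by fun_prop)).continuousOn
    · intro z hz
      exact (Real.sqrt_pos.2 (hsq z hz)).ne'
  have hsub := intervalIntegral.integral_comp_smul_deriv (a := (-1 : ℝ)) (b := 1)
    (f := fun z : ℝ => 2 * Real.arcsin (z / 2)) (f' := fun z => 1 / Real.sqrt (1 - z ^ 2 / 4))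
    (g := fun φ : ℝ => f (Real.cos φ)) hderiv hcont hg
  have harc : Real.arcsin (1 / 2) = Real.pi / 6 := by
    rw [← Real.sin_pi_div_six]
    exact Real.arcsin_sin (by linarith) (by linarith)
  have e1 : 2 * Real.arcsin ((1 : ℝ) / 2) = Real.pi / 3 := by rw [harc]; ring
  have e2 : 2 * Real.arcsin ((-1 : ℝ) / 2) = -(Real.pi / 3) := by
    have : (-1 : ℝ) / 2 = -(1 / 2) := by ring
    rw [this, Real.arcsin_neg, harc]; ring
  simp only [e1, e2] at hsub
  rw [← hsub]
  apply intervalIntegral.integral_congr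
  intro z hz
  have hz' := hz
  rw [uIcc_of_le (by norm_num)] at hz'
  have hcos : Real.cos (2 * Real.arcsin (z / 2)) = 1 - z ^ 2 / 2 := by
    rw [Real.cos_two_mul, Real.cos_sq', Real.sin_arcsin (by linarith [hz'.1]) (by linarith [hz'.2])]
    ring
  simp only [Function.comp, hcos, Complex.real_smul]
  ring

end Pool.Agent.Helper92.CS
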