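import Pool.Agent.Helper92.CS.Defs
import Pool.Agent.Helper92.CS.SubstSin
import Pool.Agent.Helper92.CS.GkBasic

/-!
CS-PolarAmp (project CS, MP_fb29e9_nt; README: /team-store/h92_CS_README.md).  (helper65)

PROOF. Swap the phi and t integrals (continuous integrand on a compact rectangle), take e(-(L R)) inside: e(-(LR)) e(LR(1+tg) cos phi) = e(-(L R (1 - cos phi))) e(L R t g cos phi). For fixed t apply subst_sin with
f(u) = R^2 g~(u) (1 + t g~(u)) e(-(L R (1-u))) e(L R t g~(u) u), g~(u) = alpha Bf((1-u)/w^2)/(1 - alpha Bf((1-u)/w^2)) (continuous; 0 for u <= 1/2 because (1-u)/w^2 >= 1/2/w^2 >= 1/2): gk alpha w 0 phi = g~(cos phi), and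
g~(1 - z^2/2) = gz alpha w z. Result: int_{-1}^1 e(-(L R z^2/2)) amp dz; amp = 0 for |z| > w (Bf = 0), w <= 1/2, so restrict to [-w, w].
-/

open MeasureTheory Set Filter Topology

noncomputable section

namespace Pool.Agent.Helper92.CS

private def gt65 (α w u : ℝ) : ℝ := α * Bf ((1 - u) / w ^ 2) / (1 - α * Bf ((1 - u) / w ^ 2))

private theorem Bf_cont65 : Continuous Bf := by
  unfold Bf
  exact Real.smoothTransition.continuous.comp (by fun_prop)

private theorem Bf_zero65 {t : ℝ} (h : 1 / 2 ≤ t) : Bf t = 0 :=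
  Real.smoothTransition.zero_of_nonpos (by linarith)

private theorem Bf_le65 (t : ℝ) : Bf t ≤ 1 := Real.smoothTransition.le_one _

private theorem Bf_nonneg65 (t : ℝ) : 0 ≤ Bf t := Real.smoothTransition.nonneg _

private theorem gt_cont65 {α w : ℝ} (hα1 : α ≤ 1 / 2) :
    Continuous (gt65 α w) := by
  unfold gt65
  have h1 : Continuous (fun u : ℝ => α * Bf ((1 - u) / w ^ 2)) :=
    continuous_const.mul (Bf_cont65.comp (by fun_prop))
  refine h1.div (continuous_const.sub h1) ?_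
  intro u
  have := Bf_le65 ((1 - u) / w ^ 2)
  have := Bf_nonneg65 ((1 - u) / w ^ 2)
  have : α * Bf ((1 - u) / w ^ 2) ≤ 1 / 2 * 1 := by gcongr
  linarith

private theorem gt_zero65 {α w u : ℝ} (hw : 0 < w) (hw1 : w ≤ 1 / 2) (hu : u ≤ 1 / 2) :
    gt65 α w u = 0 := by
  unfold gt65
  have : Bf ((1 - u) / w ^ 2) = 0 := by
    apply Bf_zero65
    rw [le_div_iff₀ (by positivity)]
    nlinarith
  simp [this]

private theorem gt_cos65 (α w φ : ℝ) : gk α w 0 φ = gt65 α w (Real.cos φ) := by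
  simp [gk, gt65, bump]

private theorem gt_gz65 {α w z : ℝ} (hw : 0 < w) : gt65 α w (1 - z ^ 2 / 2) = gz α w z := by
  unfold gt65 gz
  have : (1 - (1 - z ^ 2 / 2)) / w ^ 2 = z ^ 2 / (2 * w ^ 2) := by
    field_simp
    ring
  rw [this]

private theorem e_add65 (a b : ℝ) : e (a + b) = e a * e b := by
  unfold e
  rw [← Complex.exp_add]
  congr 1
  push_cast
  ring

private theorem e_cont65 : Continuous e := by
  unfold e
  fun_prop

private theorem amp_zero65 {α w L R t z : ℝ} (hw : 0 < w) (hz : w ≤ |z|) : amp α w L R t z = 0 := by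
  unfold amp gz
  have : Bf (z ^ 2 / (2 * w ^ 2)) = 0 := by
    apply Bf_zero65
    rw [le_div_iff₀ (by positivity)]
    have : w ^ 2 ≤ z ^ 2 := by
      rw [← sq_abs z]
      gcongr
    linarith
  simp [this]

private theorem swap65 (f : ℝ → ℝ → ℂ) (hf : Continuous (Function.uncurry f)) (a b c d : ℝ) :
    (∫ φ in a..b, ∫ t in c..d, f t (Real.cos φ)) = ∫ t in c..d, ∫ φ in a..b, f t (Real.cos φ) := by
  apply intervalIntegral_intervalIntegral_swap
  have hc : Continuous (fun p : ℝ × ℝ => Function.uncurry f (p.2, Real.cos p.1)) :=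
    hf.comp (continuous_snd.prodMk (Real.continuous_cos.comp continuous_fst))
  have hi : IntegrableOn (fun p : ℝ × ℝ => Function.uncurry f (p.2, Real.cos p.1))
      (uIcc a b ×ˢ uIcc c d) :=
    hc.continuousOn.integrableOn_compact (isCompact_uIcc.prod isCompact_uIcc)
  exact hi.mono_set (prod_mono uIoc_subset_uIcc uIoc_subset_uIcc)

/-- the integrand as a function of `t` and `u = cos φ` -/
private def F65 (α w L R : ℝ) (t u : ℝ) : ℂ :=
  ((R ^ 2 * gt65 α w u * (1 + t * gt65 α w u) : ℝ) : ℂ) *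
    (e (-(L * R * (1 - u))) * e (L * R * t * gt65 α w u * u))

private theorem F_cont65 {α w : ℝ} (L R : ℝ) (hα1 : α ≤ 1 / 2) :
    Continuous (Function.uncurry (F65 α w L R)) := by
  have hgc := gt_cont65 (w := w) hα1
  have hg2 : Continuous (fun p : ℝ × ℝ => gt65 α w p.2) := hgc.comp continuous_snd
  have ha : Continuous (fun p : ℝ × ℝ =>
      ((R ^ 2 * gt65 α w p.2 * (1 + p.1 * gt65 α w p.2) : ℝ) : ℂ)) :=
    Complex.continuous_ofReal.comp
      ((continuous_const.mul hg2).mul (continuous_const.add (continuous_fst.mul hg2)))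
  have hb : Continuous (fun p : ℝ × ℝ => e (-(L * R * (1 - p.2)))) :=
    e_cont65.comp (by fun_prop)
  have hc : Continuous (fun p : ℝ × ℝ => e (L * R * p.1 * gt65 α w p.2 * p.2)) :=
    e_cont65.comp (((continuous_const.mul continuous_fst).mul hg2).mul continuous_snd)
  exact ha.mul (hb.mul hc)

private theorem F_cont1_65 {α w : ℝ} (L R : ℝ) (hα1 : α ≤ 1 / 2) (t : ℝ) :
    Continuous (F65 α w L R t) := by
  have hgc := gt_cont65 (w := w) hα1
  have ha : Continuous (fun u : ℝ =>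
      ((R ^ 2 * gt65 α w u * (1 + t * gt65 α w u) : ℝ) : ℂ)) :=
    Complex.continuous_ofReal.comp
      ((continuous_const.mul hgc).mul (continuous_const.add (continuous_const.mul hgc)))
  have hb : Continuous (fun u : ℝ => e (-(L * R * (1 - u)))) :=
    e_cont65.comp (by fun_prop)
  have hc : Continuous (fun u : ℝ => e (L * R * t * gt65 α w u * u)) :=
    e_cont65.comp ((continuous_const.mul hgc).mul continuous_id)
  exact ha.mul (hb.mul hc)

private theorem F_cos65 (α w L R φ t : ℝ) : e (-(L * R)) *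
      (((R ^ 2 * gk α w 0 φ * (1 + t * gk α w 0 φ) : ℝ) : ℂ) *
            e (L * R * (1 + t * gk α w 0 φ) * Real.cos φ)) = F65 α w L R t (Real.cos φ) := by
  rw [gt_cos65, F65, ← e_add65, mul_left_comm, ← e_add65]
  congr 2
  ring

private theorem F_zero65 {α w L R t u : ℝ} (hw : 0 < w) (hw1 : w ≤ 1 / 2) (hu : u ≤ 1 / 2) :
    F65 α w L R t u = 0 := by
  rw [F65, gt_zero65 hw hw1 hu]
  simp only [mul_zero, zero_mul, Complex.ofReal_zero]

private theorem F_z65 {α w : ℝ} (L R t z : ℝ) (hw : 0 < w) :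
    F65 α w L R t (1 - z ^ 2 / 2) * ((1 / Real.sqrt (1 - z ^ 2 / 4) : ℝ) : ℂ)
      = e (-(L * R * z ^ 2 / 2)) * amp α w L R t z := by
  have e1 : -(L * R * (1 - (1 - z ^ 2 / 2))) = -(L * R * z ^ 2 / 2) := by ring
  rw [F65, amp, gt_gz65 hw, e1]
  have e2 : ((R ^ 2 * gz α w z * (1 + t * gz α w z) / Real.sqrt (1 - z ^ 2 / 4) : ℝ) : ℂ)
      = ((R ^ 2 * gz α w z * (1 + t * gz α w z) : ℝ) : ℂ) *
        ((1 / Real.sqrt (1 - z ^ 2 / 4) : ℝ) : ℂ) := by
    rw [← Complex.ofReal_mul]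
    congr 1
    ring
  rw [e2]
  generalize ((R ^ 2 * gz α w z * (1 + t * gz α w z) : ℝ) : ℂ) = A
  generalize ((1 / Real.sqrt (1 - z ^ 2 / 4) : ℝ) : ℂ) = B
  ring

private theorem restrict65 {α w L R t : ℝ} (hw : 0 < w) (a : ℝ) (hwa : w ≤ a) :
    (∫ z in (-a)..a, e (-(L * R * z ^ 2 / 2)) * amp α w L R t z)
      = ∫ z in Ioc (-w) w, e (-(L * R * z ^ 2 / 2)) * amp α w L R t z := by
  rw [intervalIntegral.integral_of_le (by linarith)]
  apply setIntegral_eq_of_subset_of_forall_sdiff_eq_zero measurableSet_Ioc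
  · exact Ioc_subset_Ioc (by linarith) hwa
  · intro z hz
    have : w ≤ |z| := by
      rcases hz with ⟨_, h2⟩
      by_contra hlt
      push Not at hlt
      rw [abs_lt] at hlt
      exact h2 ⟨hlt.1, hlt.2.le⟩
    rw [amp_zero65 hw this, mul_zero]

private theorem polar65 {α : ℝ} (L w R : ℝ) (hα1 : α ≤ 1 / 2) (hw : 0 < w) (hw1 : w ≤ 1 / 2) :
    e (-(L * R)) * (∫ φ in (-Real.pi)..Real.pi, ∫ t in (0 : ℝ)..1,
          ((R ^ 2 * gk α w 0 φ * (1 + t * gk α w 0 φ) : ℝ) : ℂ) *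
            e (L * R * (1 + t * gk α w 0 φ) * Real.cos φ))
      = ∫ t in (0 : ℝ)..1, ∫ z in (-w)..w, e (-(L * R * z ^ 2 / 2)) * amp α w L R t z := by
  rw [← intervalIntegral.integral_const_mul]
  simp_rw [← intervalIntegral.integral_const_mul, F_cos65]
  rw [swap65 _ (F_cont65 L R hα1)]
  congr 1
  funext t
  rw [subst_sin _ (F_cont1_65 L R hα1 t) (fun u hu => F_zero65 hw hw1 hu)]
  simp_rw [F_z65 L R t _ hw]
  rw [restrict65 hw 1 (by linarith), restrict65 hw w le_rfl]

theorem polar_amp (X L w R : ℝ) (h : Par X L w) (h1 : X ≤ R) (h2 : R ≤ X + 1) :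
    e (-(L * R)) * (∫ φ in (-Real.pi)..Real.pi, ∫ t in (0 : ℝ)..1,
          ((R ^ 2 * gk (1 / (8 * X * L)) w 0 φ * (1 + t * gk (1 / (8 * X * L)) w 0 φ) : ℝ) : ℂ) *
            e (L * R * (1 + t * gk (1 / (8 * X * L)) w 0 φ) * Real.cos φ))
      = ∫ t in (0 : ℝ)..1, ∫ z in (-w)..w,
          e (-(L * R * z ^ 2 / 2)) * amp (1 / (8 * X * L)) w L R t z := by
  have hX := h.X4
  have hL := h.L1
  have hXL : 32 ≤ 8 * X * L := by nlinarith
  have hα1 : 1 / (8 * X * L) ≤ 1 / 2 := by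
    rw [div_le_div_iff₀ (by linarith) (by norm_num)]
    linarith
  exact polar65 L w R hα1 h.w0 h.w1

end Pool.Agent.Helper92.CS
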