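import Pool.Agent.Helper92.CS.Defs
import Pool.Agent.Helper92.CS.GkBasic

/-!
CS-RingPolar (project CS, MP_fb29e9_nt; README: /team-store/h92_CS_README.md). About ~130 lines.

PROOF. Complex.integral_comp_polarCoord_symm (Analysis/SpecialFunctions/PolarCoord.lean): integral of the indicator = int over r > 0, phi in (-pi,pi) of r * indicator(R < r <= R (1+gk phi)) * e(L r cos phi).
Fubini (bounded, bounded support, measurable); for fixed phi the radial integral over (R, R(1+g)] is, with r = R (1 + t g), dr = R g dt, int_0^1 R g * R (1+t g) e(L R (1+t g) cos phi) dt (also when g = 0).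
-/

open MeasureTheory Set Filter Topology

noncomputable section

namespace Pool.Agent.Helper92.CS

namespace RingPolarP

lemma e_cont' : Continuous e := by
  unfold e
  fun_prop

/-- the integrand in polar coordinates -/
def fpol (L : ℝ) (p : ℝ × ℝ) : ℂ := (p.1 : ℂ) * e (L * p.1 * Real.cos p.2)

lemma fpol_cont (L : ℝ) : Continuous (fpol L) := by
  unfold fpol
  have h1 : Continuous fun p : ℝ × ℝ => L * p.1 * Real.cos p.2 := by fun_prop
  exact (Complex.continuous_ofReal.comp continuous_fst).mul (e_cont'.comp h1)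

/-- the ring in polar coordinates -/
def S (g : ℝ → ℝ) (R : ℝ) : Set (ℝ × ℝ) := {p | R < p.1 ∧ p.1 ≤ R * (1 + g p.2)}

lemma S_meas {g : ℝ → ℝ} (hg : Continuous g) (R : ℝ) : MeasurableSet (S g R) := by
  unfold S
  refine MeasurableSet.inter ?_ ?_
  · exact (isOpen_lt continuous_const continuous_fst).measurableSet
  · exact (isClosed_le continuous_fst (by fun_prop)).measurableSet

lemma Ring_meas {g : ℝ → ℝ} (hg : Continuous g) (R : ℝ) : MeasurableSet (Ring g R) := by
  unfold Ring
  refine MeasurableSet.inter ?_ ?_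
  · exact (isOpen_lt continuous_const continuous_norm).measurableSet
  · refine measurableSet_le continuous_norm.measurable ?_
    exact measurable_const.mul (measurable_const.add (hg.measurable.comp Complex.measurable_arg))

lemma integ {g : ℝ → ℝ} (hg : Continuous g) (h1 : ∀ φ, g φ ≤ 1) (L R : ℝ) (hR : 0 < R) :
    IntegrableOn ((S g R).indicator (fpol L)) (Ioi (0:ℝ) ×ˢ Ioo (-Real.pi) Real.pi)
      (volume.prod volume) := by
  unfold IntegrableOn
  rw [integrable_indicator_iff (S_meas hg R)]
  unfold IntegrableOn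
  rw [Measure.restrict_restrict (S_meas hg R)]
  have h2 : IntegrableOn (fpol L) (Icc R (2 * R) ×ˢ Icc (-Real.pi) Real.pi) (volume.prod volume) :=
    (fpol_cont L).continuousOn.integrableOn_compact (isCompact_Icc.prod isCompact_Icc)
  refine h2.mono_set ?_
  rintro ⟨r, φ⟩ ⟨⟨hr1, hr2⟩, ⟨_, hφ⟩⟩
  refine ⟨⟨hr1.le, hr2.trans ?_⟩, ⟨hφ.1.le, hφ.2.le⟩⟩
  have := h1 φ
  show R * (1 + g φ) ≤ 2 * R
  nlinarith

lemma inner {g : ℝ → ℝ} (h0 : ∀ φ, 0 ≤ g φ) (L R : ℝ) (hR : 0 < R) (φ : ℝ) :
    ∫ r in Ioi (0:ℝ), (S g R).indicator (fpol L) (r, φ)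
      = ∫ t in (0 : ℝ)..1, ((R ^ 2 * g φ * (1 + t * g φ) : ℝ) : ℂ) *
            e (L * R * (1 + t * g φ) * Real.cos φ) := by
  have h1 : ∀ r : ℝ, (S g R).indicator (fpol L) (r, φ)
      = (Ioc R (R * (1 + g φ))).indicator (fun r => fpol L (r, φ)) r := by
    intro r
    by_cases hr : r ∈ Ioc R (R * (1 + g φ))
    · rw [indicator_of_mem hr, indicator_of_mem]
      exact hr
    · rw [indicator_of_notMem hr, indicator_of_notMem]
      exact hr
  simp_rw [h1]
  rw [setIntegral_indicator measurableSet_Ioc]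
  have h2 : Ioi (0:ℝ) ∩ Ioc R (R * (1 + g φ)) = Ioc R (R * (1 + g φ)) := by
    apply inter_eq_right.mpr
    intro r hr
    exact hR.trans hr.1
  have h3 : R ≤ R * (1 + g φ) := by nlinarith [h0 φ]
  rw [h2, ← intervalIntegral.integral_of_le h3]
  have h4 := intervalIntegral.smul_integral_comp_mul_add (a := 0) (b := 1)
    (fun r => fpol L (r, φ)) (R * g φ) R
  have h5 : R * g φ * 0 + R = R := by ring
  have h6 : R * g φ * 1 + R = R * (1 + g φ) := by ring
  rw [h5, h6] at h4
  rw [← h4, ← intervalIntegral.integral_smul]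
  apply intervalIntegral.integral_congr
  intro t _
  simp only [fpol]
  rw [Complex.real_smul, ← mul_assoc, ← Complex.ofReal_mul]
  congr 2
  · ring
  · ring

end RingPolarP

open RingPolarP

theorem ring_polar (α w L R : ℝ) (hα : 0 ≤ α) (hα1 : α ≤ 1 / 2) (hw : 0 < w) (hR : 0 < R) :
    ∫ z : ℂ in Ring (gk α w 0) R, e (L * z.re)
      = ∫ φ in (-Real.pi)..Real.pi, ∫ t in (0 : ℝ)..1,
          ((R ^ 2 * gk α w 0 φ * (1 + t * gk α w 0 φ) : ℝ) : ℂ) *
            e (L * R * (1 + t * gk α w 0 φ) * Real.cos φ) := by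
  obtain ⟨hsm, -, hb, -⟩ := gk_basic α w 0 hα hα1 hw
  have hg : Continuous (gk α w 0) := hsm.continuous
  have h0 : ∀ φ, 0 ≤ gk α w 0 φ := fun φ => (hb φ).1
  have h1 : ∀ φ, gk α w 0 φ ≤ 1 := fun φ => (hb φ).2.trans (by linarith)
  set g := gk α w 0 with hgdef
  have hpi : (-Real.pi) ≤ Real.pi := by linarith [Real.pi_pos]
  rw [← integral_indicator (Ring_meas hg R), ← Complex.integral_comp_polarCoord_symm]
  have h2 : ∀ p ∈ polarCoord.target,
      p.1 • (Ring g R).indicator (fun z : ℂ => e (L * z.re)) (Complex.polarCoord.symm p)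
        = (S g R).indicator (fpol L) p := by
    rintro ⟨r, φ⟩ hp
    rw [polarCoord_target] at hp
    have hr : 0 < r := hp.1
    have hφ : φ ∈ Ioo (-Real.pi) Real.pi := hp.2
    have hz : Complex.polarCoord.symm (r, φ) = (r : ℂ) * (Real.cos φ + Real.sin φ * Complex.I) :=
      Complex.polarCoord_symm_apply _
    have hn : ‖Complex.polarCoord.symm (r, φ)‖ = r := by
      rw [Complex.norm_polarCoord_symm, abs_of_pos hr]
    have ha : (Complex.polarCoord.symm (r, φ)).arg = φ := by
      rw [hz]
      push_cast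
      exact Complex.arg_mul_cos_add_sin_mul_I hr ⟨hφ.1, hφ.2.le⟩
    have hre : (Complex.polarCoord.symm (r, φ)).re = r * Real.cos φ := by
      rw [hz]
      simp [← Complex.ofReal_cos, ← Complex.ofReal_sin]
    by_cases hm : (r, φ) ∈ S g R
    · rw [indicator_of_mem hm, indicator_of_mem]
      · rw [hre]
        simp only [fpol]
        rw [Complex.real_smul, mul_assoc L r]
      · refine ⟨?_, ?_⟩
        · rw [hn]; exact hm.1
        · rw [hn, ha]; exact hm.2
    · rw [indicator_of_notMem hm, indicator_of_notMem, smul_zero]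
      rintro ⟨h3, h4⟩
      rw [hn] at h3
      rw [hn, ha] at h4
      exact hm ⟨h3, h4⟩
  rw [setIntegral_congr_fun polarCoord.open_target.measurableSet h2, polarCoord_target,
    Measure.volume_eq_prod, ← Measure.prod_restrict, integral_prod_symm _ (by
      rw [Measure.prod_restrict]; exact integ hg h1 L R hR),
    intervalIntegral.integral_of_le hpi, integral_Ioc_eq_integral_Ioo]
  apply integral_congr_ae
  filter_upwards with φ
  exact inner h0 L R hR φ

end Pool.Agent.Helper92.CS
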