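import Pool.Agent.Helper92.CS.Defs
import Pool.Agent.Helper92.CS.RingPolar
import Pool.Agent.Helper92.CS.PolarAmp
import Pool.Agent.Helper92.CS.FresAmp
import Pool.Agent.Helper92.CS.AmpDeriv
import Pool.Agent.Helper92.CS.AmpZero

/-!
CS-MainLower (project CS, MP_fb29e9_nt; README: /team-store/h92_CS_README.md). About ~200 lines.

PROOF. e(-(L(X+r))) * int_Ring = int_0^1 I(r,t) dt with I = int_{-w}^w e(-(Lam z^2/2)) amp dz, Lam = L R, R = X + r, r in [1/4,3/4] (ring_polar, polar_amp). fresnel_amp with c = w, M = C (X/L)/w^2: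
|I - e(-1/8) Lam^(-1/2) amp(0)| <= (C/(L R)) (|amp(0)|/w + C (X/L)/w) <= C' (1/(L X)) (X/L)/w. Multiply the whole integral by e(1/8) (norm 1) and take real parts: psi >= 0, int psi = 1,
Re amp(0) >= X/(16 L), Lam^(-1/2) >= (2 L X)^(-1/2) (R <= 2X): total >= (X/(16L)) / sqrt(2XL) - C' (X/L)/(X L w), and 1/(X L w) = (1/sqrt(XL)) * 1/sqrt(X L w^2) <= small/sqrt(XL) if X L w^2 >= B.
(Measurability/continuity in r, t: integrability from continuity of the integrand, or use integral_mono on real parts with the total expression; psi continuous, compact support. If you need continuity in r or t of the inner integrals, they are continuous functions of parameters on compacts.)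
-/

open MeasureTheory Set Filter Topology

noncomputable section

namespace Pool.Agent.Helper92.CS

private lemma e_cont90 : Continuous e := by
  unfold e; fun_prop

private lemma norm_e90 (t : ℝ) : ‖e t‖ = 1 := by
  unfold e
  exact Complex.norm_exp_ofReal_mul_I _

private lemma e_add90 (s t : ℝ) : e s * e t = e (s + t) := by
  unfold e
  rw [← Complex.exp_add]; congr 1; push_cast; ring

private lemma e_zero90 : e 0 = 1 := by simp [e]

private lemma Bf_cont90 : Continuous Bf := by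
  unfold Bf
  exact Real.smoothTransition.continuous.comp (by fun_prop)

private lemma gz_cont90 (α w : ℝ) (hα : 0 ≤ α) (hα1 : α ≤ 1 / 2) : Continuous (gz α w) := by
  unfold gz
  have h1 : Continuous fun z : ℝ => Bf (z ^ 2 / (2 * w ^ 2)) :=
    Bf_cont90.comp (by fun_prop)
  refine Continuous.div (continuous_const.mul h1)
    (continuous_const.sub (continuous_const.mul h1)) (fun z => ?_)
  have h2 : Bf (z ^ 2 / (2 * w ^ 2)) ≤ 1 := Real.smoothTransition.le_one _
  have h3 : 0 ≤ Bf (z ^ 2 / (2 * w ^ 2)) := Real.smoothTransition.nonneg _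
  have h4 : α * Bf (z ^ 2 / (2 * w ^ 2)) ≤ 1 / 2 := by nlinarith
  linarith

/-- The amplitude with a cut off square root (everywhere continuous). -/
private def ampc (α w L R t z : ℝ) : ℂ :=
  ((R ^ 2 * gz α w z * (1 + t * gz α w z) / Real.sqrt (max (1 - z ^ 2 / 4) (1 / 2)) : ℝ) : ℂ) *
    e (L * R * t * gz α w z * (1 - z ^ 2 / 2))

private lemma ampc_eq (α w L R t z : ℝ) (hz : |z| ≤ 1) : ampc α w L R t z = amp α w L R t z := by
  unfold ampc amp
  have : z ^ 2 ≤ 1 := by
    rw [← sq_abs]; nlinarith [abs_nonneg z]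
  rw [max_eq_left (by linarith)]

private def Jc (X L w α r t : ℝ) : ℂ :=
  ∫ z in (-w)..w, e (-(L * (X + r) * z ^ 2 / 2)) * ampc α w L (X + r) t z

private lemma Jc_cont (X L w α : ℝ) (hα : 0 ≤ α) (hα1 : α ≤ 1 / 2) :
    Continuous (fun p : ℝ × ℝ => Jc X L w α p.1 p.2) := by
  unfold Jc
  have hg := gz_cont90 α w hα hα1
  apply intervalIntegral.continuous_parametric_intervalIntegral_of_continuous'
  have h1 : Continuous fun q : (ℝ × ℝ) × ℝ => gz α w q.2 := hg.comp continuous_snd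
  have h2 : Continuous fun q : (ℝ × ℝ) × ℝ => Real.sqrt (max (1 - q.2 ^ 2 / 4) (1 / 2)) := by
    fun_prop
  have h3 : ∀ q : (ℝ × ℝ) × ℝ, Real.sqrt (max (1 - q.2 ^ 2 / 4) (1 / 2)) ≠ 0 := by
    intro q
    apply ne_of_gt
    apply Real.sqrt_pos.2
    exact lt_of_lt_of_le (by norm_num) (le_max_right _ _)
  unfold ampc Function.uncurry
  refine Continuous.mul (e_cont90.comp (by fun_prop)) (Continuous.mul ?_ (e_cont90.comp ?_))
  · refine Complex.continuous_ofReal.comp (Continuous.div ?_ h2 h3)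
    fun_prop
  · fun_prop

private lemma integral_eq (ψ : ℝ → ℝ) (hψ : IsTest ψ) (X L w : ℝ) (h : Par X L w) (r : ℝ) :
    (ψ r : ℂ) * e (-(L * (X + r))) *
          ∫ z : ℂ in Ring (gk (1 / (8 * X * L)) w 0) (X + r), e (L * z.re)
      = (ψ r : ℂ) * ∫ t in (0 : ℝ)..1, Jc X L w (1 / (8 * X * L)) r t := by
  by_cases hr : r ∈ Icc (1 / 4 : ℝ) (3 / 4)
  · have hX := h.X4
    have hL := h.L1
    have hw := h.w0
    have hw1 := h.w1
    have hXL : 4 ≤ X * L := by nlinarith
    have hα : 0 ≤ 1 / (8 * X * L) := by positivity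
    have hα1 : 1 / (8 * X * L) ≤ 1 / 2 := by
      rw [div_le_div_iff₀ (by nlinarith) (by norm_num)]
      nlinarith
    rw [ring_polar _ w L (X + r) hα hα1 hw (by linarith [hr.1]), mul_assoc]
    congr 1
    rw [polar_amp X L w (X + r) h (by linarith [hr.1]) (by linarith [hr.2])]
    apply intervalIntegral.integral_congr
    intro t _
    unfold Jc
    apply intervalIntegral.integral_congr
    intro z hz
    rw [uIcc_of_le (by linarith)] at hz
    simp only
    rw [ampc_eq]
    rw [abs_le]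
    constructor <;> linarith [hz.1, hz.2]
  · rw [hψ.supp r hr]
    simp

private lemma main_point (C1 C2 : ℝ) (hC1 : 0 ≤ C1) (hC2 : 0 ≤ C2)
    (hF : ∀ (a : ℝ → ℂ) (Λ c M : ℝ), 0 < Λ → 0 < c →
      ContDiff ℝ 2 a → (∀ z, z ∉ Icc (-c) c → a z = 0) → (∀ z, ‖iteratedDeriv 2 a z‖ ≤ M) →
      ‖(∫ z in (-c)..c, e (-(Λ * z ^ 2 / 2)) * a z)
          - e (-(1 / 8)) * ((1 / Real.sqrt Λ : ℝ) : ℂ) * a 0‖
        ≤ C1 / Λ * (‖a 0‖ / c + c * M))
    (hA : ∀ X L w R t : ℝ, Par X L w → X ≤ R → R ≤ X + 1 →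
      0 ≤ t → t ≤ 1 →
      ContDiff ℝ 2 (amp (1 / (8 * X * L)) w L R t) ∧
      (∀ z, z ∉ Icc (-w) w → amp (1 / (8 * X * L)) w L R t z = 0) ∧
      (∀ z, ‖iteratedDeriv 2 (amp (1 / (8 * X * L)) w L R t) z‖ ≤ C2 * (X / L) / w ^ 2))
    (X L w : ℝ) (h : Par X L w) (r t : ℝ) (hr : r ∈ Icc (1 / 4 : ℝ) (3 / 4))
    (ht : t ∈ Icc (0 : ℝ) 1) :
    (X / L) / (24 * Real.sqrt (X * L)) - C1 * (1 + C2) * (X / L) / (X * L * w)
      ≤ (e (1 / 8) * Jc X L w (1 / (8 * X * L)) r t).re := by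
  have hX := h.X4
  have hL := h.L1
  have hw := h.w0
  have hw1 := h.w1
  set R := X + r with hR
  have hXR : X ≤ R := by linarith [hr.1]
  have hRX : R ≤ X + 1 := by linarith [hr.2]
  set a : ℝ → ℂ := amp (1 / (8 * X * L)) w L R t with ha
  obtain ⟨a1, a2, a3⟩ := hA X L w R t h hXR hRX ht.1 ht.2
  obtain ⟨z1, z2⟩ := amp_zero X L w R t h hXR hRX ht.1 ht.2
  have hLR : 0 < L * R := by nlinarith
  have key := hF a (L * R) w (C2 * (X / L) / w ^ 2) hLR hw a1 a2 a3
  have hJ : Jc X L w (1 / (8 * X * L)) r t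
      = ∫ z in (-w)..w, e (-(L * R * z ^ 2 / 2)) * a z := by
    unfold Jc
    apply intervalIntegral.integral_congr
    intro z hz
    rw [uIcc_of_le (by linarith)] at hz
    simp only
    rw [ampc_eq]
    rw [abs_le]
    constructor <;> linarith [hz.1, hz.2]
  rw [hJ]
  set I := ∫ z in (-w)..w, e (-(L * R * z ^ 2 / 2)) * a z with hI
  -- error
  have herr : ‖I - e (-(1 / 8)) * ((1 / Real.sqrt (L * R) : ℝ) : ℂ) * a 0‖
      ≤ C1 * (1 + C2) * (X / L) / (X * L * w) := by
    refine key.trans ?_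
    have e1 : ‖a 0‖ / w + w * (C2 * (X / L) / w ^ 2) ≤ (1 + C2) * (X / L) / w := by
      have : w * (C2 * (X / L) / w ^ 2) = C2 * (X / L) / w := by
        field_simp
      rw [this, ← add_div]
      apply div_le_div_of_nonneg_right _ hw.le
      linarith
    have e2 : C1 / (L * R) ≤ C1 / (L * X) := by
      apply div_le_div_of_nonneg_left hC1 (by nlinarith)
      nlinarith
    calc C1 / (L * R) * (‖a 0‖ / w + w * (C2 * (X / L) / w ^ 2))
        ≤ C1 / (L * X) * ((1 + C2) * (X / L) / w) := by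
          apply mul_le_mul e2 e1 (by positivity) (by positivity)
      _ = C1 * (1 + C2) * (X / L) / (X * L * w) := by
          field_simp
  -- main term
  have hmul : e (1 / 8) * I = ((1 / Real.sqrt (L * R) : ℝ) : ℂ) * a 0
      + e (1 / 8) * (I - e (-(1 / 8)) * ((1 / Real.sqrt (L * R) : ℝ) : ℂ) * a 0) := by
    have : e (1 / 8) * e (-(1 / 8)) = 1 := by
      rw [e_add90]; simp [e_zero90]
    linear_combination (((1 / Real.sqrt (L * R) : ℝ) : ℂ) * a 0) * this
  have hre : (e (1 / 8) * I).re ≥ (((1 / Real.sqrt (L * R) : ℝ) : ℂ) * a 0).re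
      - C1 * (1 + C2) * (X / L) / (X * L * w) := by
    rw [hmul, Complex.add_re]
    have h1 : |(e (1 / 8) * (I - e (-(1 / 8)) * ((1 / Real.sqrt (L * R) : ℝ) : ℂ) * a 0)).re|
        ≤ C1 * (1 + C2) * (X / L) / (X * L * w) := by
      refine (Complex.abs_re_le_norm _).trans ?_
      rw [norm_mul, norm_e90, one_mul]
      exact herr
    have := (abs_le.1 h1).1
    linarith
  have hmain : (X / L) / (24 * Real.sqrt (X * L))
      ≤ (((1 / Real.sqrt (L * R) : ℝ) : ℂ) * a 0).re := by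
    rw [Complex.re_ofReal_mul]
    have hs : Real.sqrt (L * R) ≤ 3 / 2 * Real.sqrt (X * L) := by
      rw [show (3 / 2 : ℝ) = Real.sqrt ((3 / 2) ^ 2) from
        (Real.sqrt_sq (by norm_num)).symm, ← Real.sqrt_mul (by norm_num)]
      apply Real.sqrt_le_sqrt
      nlinarith
    have hs0 : 0 < Real.sqrt (L * R) := Real.sqrt_pos.2 hLR
    have hs1 : 0 < Real.sqrt (X * L) := Real.sqrt_pos.2 (by nlinarith)
    calc (X / L) / (24 * Real.sqrt (X * L))
        = 1 / (3 / 2 * Real.sqrt (X * L)) * (X / (16 * L)) := by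
          field_simp
          norm_num
      _ ≤ 1 / Real.sqrt (L * R) * (a 0).re := by
          apply mul_le_mul _ z1 (by positivity) (by positivity)
          exact one_div_le_one_div_of_le hs0 hs
  linarith

private lemma int_lower (ψ : ℝ → ℝ) (hψ : IsTest ψ) (J : ℝ → ℝ → ℂ)
    (hJ : Continuous (fun p : ℝ × ℝ => J p.1 p.2)) (m : ℝ)
    (hm : ∀ r ∈ Icc (1 / 4 : ℝ) (3 / 4), ∀ t ∈ Icc (0 : ℝ) 1, m ≤ (e (1 / 8) * J r t).re) :
    m ≤ ‖∫ r : ℝ, (ψ r : ℂ) * ∫ t in (0 : ℝ)..1, J r t‖ := by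
  have hJ1 : Continuous fun r : ℝ => ∫ t in (0 : ℝ)..1, J r t := by
    apply intervalIntegral.continuous_parametric_intervalIntegral_of_continuous'
    exact hJ
  have hcont : Continuous fun r : ℝ => (ψ r : ℂ) * ∫ t in (0 : ℝ)..1, J r t :=
    (Complex.continuous_ofReal.comp hψ.smooth.continuous).mul hJ1
  have hsuppψ : HasCompactSupport ψ := by
    apply HasCompactSupport.intro (isCompact_Icc (a := (1 / 4 : ℝ)) (b := 3 / 4))
    intro r hr
    exact hψ.supp r hr
  have hint : Integrable fun r : ℝ => (ψ r : ℂ) * ∫ t in (0 : ℝ)..1, J r t := by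
    apply hcont.integrable_of_hasCompactSupport
    apply HasCompactSupport.intro (isCompact_Icc (a := (1 / 4 : ℝ)) (b := 3 / 4))
    intro r hr
    rw [hψ.supp r hr]; simp
  have hψint : Integrable ψ := hψ.smooth.continuous.integrable_of_hasCompactSupport hsuppψ
  have hpoint : ∀ r, ψ r * m ≤ (e (1 / 8) * ((ψ r : ℂ) * ∫ t in (0 : ℝ)..1, J r t)).re := by
    intro r
    by_cases hr : r ∈ Icc (1 / 4 : ℝ) (3 / 4)
    · have hpt : m ≤ (e (1 / 8) * ∫ t in (0 : ℝ)..1, J r t).re := by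
        have hJr : Continuous fun t : ℝ => J r t :=
          hJ.comp (by fun_prop : Continuous fun t : ℝ => (r, t))
        have h1 : (e (1 / 8) * ∫ t in (0 : ℝ)..1, J r t)
            = ∫ t in (0 : ℝ)..1, e (1 / 8) * J r t :=
          (intervalIntegral.integral_const_mul _ _).symm
        have hre : (∫ t in (0 : ℝ)..1, e (1 / 8) * J r t).re
            = ∫ t in (0 : ℝ)..1, (e (1 / 8) * J r t).re := by
          have := Complex.reCLM.intervalIntegral_comp_comm (μ := volume) (a := (0 : ℝ)) (b := 1)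
            (f := fun t => e (1 / 8) * J r t)
            ((continuous_const.mul hJr).intervalIntegrable _ _)
          exact this.symm
        rw [h1, hre]
        have h2 : ∫ t in (0 : ℝ)..1, m = m := by simp
        calc m = ∫ t in (0 : ℝ)..1, m := h2.symm
          _ ≤ _ := by
            apply intervalIntegral.integral_mono_on (by norm_num)
            · exact intervalIntegrable_const
            · exact (Complex.continuous_re.comp
                (continuous_const.mul hJr)).intervalIntegrable _ _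
            · intro t ht
              exact hm r hr t ht
      have h3 : (e (1 / 8) * ((ψ r : ℂ) * ∫ t in (0 : ℝ)..1, J r t)).re
          = ψ r * (e (1 / 8) * ∫ t in (0 : ℝ)..1, J r t).re := by
        rw [← Complex.re_ofReal_mul]
        congr 1
        ring
      rw [h3]
      exact mul_le_mul_of_nonneg_left hpt (hψ.nonneg r)
    · rw [hψ.supp r hr]; simp
  have hint2 := hint.const_mul (e (1 / 8))
  have s1 : m = ∫ r : ℝ, ψ r * m := by
    rw [integral_mul_const, hψ.int_one, one_mul]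
  have s2 : ∫ r : ℝ, ψ r * m
      ≤ ∫ r : ℝ, (e (1 / 8) * ((ψ r : ℂ) * ∫ t in (0 : ℝ)..1, J r t)).re :=
    integral_mono (hψint.mul_const m) hint2.re hpoint
  have s3 : ∫ r : ℝ, (e (1 / 8) * ((ψ r : ℂ) * ∫ t in (0 : ℝ)..1, J r t)).re
      = (∫ r : ℝ, e (1 / 8) * ((ψ r : ℂ) * ∫ t in (0 : ℝ)..1, J r t)).re :=
    integral_re hint2
  have s4 : ∫ r : ℝ, e (1 / 8) * ((ψ r : ℂ) * ∫ t in (0 : ℝ)..1, J r t)
      = e (1 / 8) * ∫ r : ℝ, (ψ r : ℂ) * ∫ t in (0 : ℝ)..1, J r t :=
    integral_const_mul _ _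
  have s5 := Complex.re_le_norm (e (1 / 8) * ∫ r : ℝ, (ψ r : ℂ) * ∫ t in (0 : ℝ)..1, J r t)
  rw [norm_mul, norm_e90, one_mul] at s5
  rw [s4] at s3
  linarith

private lemma num_lower (C' X L w : ℝ) (hC : 0 ≤ C') (hX : 4 ≤ X) (hL : 1 ≤ L) (hw : 0 < w)
    (hB : (192 * C' + 1) ^ 2 ≤ X * L * w ^ 2) :
    1 / 64 * (X / L) / Real.sqrt (X * L)
      ≤ (X / L) / (24 * Real.sqrt (X * L)) - C' * (X / L) / (X * L * w) := by
  have hXL : 4 ≤ X * L := by nlinarith
  set s := Real.sqrt (X * L) with hs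
  have hs0 : 0 < s := Real.sqrt_pos.2 (by linarith)
  have hs2 : s ^ 2 = X * L := Real.sq_sqrt (by linarith)
  have hsw : 192 * C' + 1 ≤ s * w := by
    have h1 : (192 * C' + 1) ^ 2 ≤ (s * w) ^ 2 := by
      rw [mul_pow, hs2]; exact hB
    exact (pow_le_pow_iff_left₀ (by positivity) (by positivity) two_ne_zero).1 h1
  have hq : 0 < X / L := by positivity
  have e1 : C' * (X / L) / (X * L * w) = (X / L) / s * (C' / (s * w)) := by
    rw [← hs2]; field_simp
  have e2 : C' / (s * w) ≤ 1 / 192 := by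
    rw [div_le_div_iff₀ (by positivity) (by norm_num)]
    linarith
  have e3 : (X / L) / (24 * s) = (X / L) / s * (1 / 24) := by
    field_simp
  have e4 : 1 / 64 * (X / L) / s = (X / L) / s * (1 / 64) := by ring
  rw [e1, e3, e4]
  have h5 : 0 < (X / L) / s := by positivity
  nlinarith

theorem main_lower (ψ : ℝ → ℝ) (hψ : IsTest ψ) : ∃ c > 0, ∃ B : ℝ, ∀ X L w : ℝ, Par X L w →
    B ≤ X * L * w ^ 2 →
    c * (X / L) / Real.sqrt (X * L) ≤
      ‖∫ r : ℝ, (ψ r : ℂ) * e (-(L * (X + r))) *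
          ∫ z : ℂ in Ring (gk (1 / (8 * X * L)) w 0) (X + r), e (L * z.re)‖ := by
  obtain ⟨C1, hC1, hF⟩ := fresnel_amp
  obtain ⟨C2, hC2, hA⟩ := amp_deriv
  refine ⟨1 / 64, by norm_num, (192 * (C1 * (1 + C2)) + 1) ^ 2, fun X L w h hB => ?_⟩
  have hX := h.X4
  have hL := h.L1
  have hw := h.w0
  have hw1 := h.w1
  have hXL : 4 ≤ X * L := by nlinarith
  have hα : 0 ≤ 1 / (8 * X * L) := by positivity
  have hα1 : 1 / (8 * X * L) ≤ 1 / 2 := by
    rw [div_le_div_iff₀ (by nlinarith) (by norm_num)]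
    nlinarith
  refine (num_lower (C1 * (1 + C2)) X L w (by positivity) hX hL hw hB).trans ?_
  have hfun : ∫ r : ℝ, (ψ r : ℂ) * e (-(L * (X + r))) *
          ∫ z : ℂ in Ring (gk (1 / (8 * X * L)) w 0) (X + r), e (L * z.re)
      = ∫ r : ℝ, (ψ r : ℂ) * ∫ t in (0 : ℝ)..1, Jc X L w (1 / (8 * X * L)) r t := by
    apply integral_congr_ae
    apply Filter.Eventually.of_forall
    intro r
    exact integral_eq ψ hψ X L w h r
  rw [hfun]
  exact int_lower ψ hψ (Jc X L w (1 / (8 * X * L))) (Jc_cont X L w _ hα hα1) _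
    (fun r hr t ht => main_point C1 C2 hC1 hC2 hF hA X L w h r t hr ht)

end Pool.Agent.Helper92.CS
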