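import Pool.Agent.Helper92.CS.Defs

/-!
CS-Osc (project CS, MP_fb29e9_nt; README: /team-store/h92_CS_README.md). Proved by helper93.

PROOF. |int psi(r) (X+r)^2 e(-(L r)) dr| : (X+r)^2 psi = X^2 psi + 2X r psi + r^2 psi; each of the fixed functions chi = psi, r psi, r^2 psi is smooth with compact support, N integrations by parts give
|int chi(r) e(-(L r)) dr| <= (2 pi L)^(-N) int |chi^(N)|. X >= 1.
-/

open MeasureTheory Set Filter Topology

noncomputable section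

namespace Pool.Agent.Helper92.CS

namespace OscP

lemma e_norm (t : ℝ) : ‖e t‖ = 1 := by
  unfold e
  exact Complex.norm_exp_ofReal_mul_I _

lemma e_add (s t : ℝ) : e (s + t) = e s * e t := by
  unfold e
  rw [← Complex.exp_add]
  congr 1
  push_cast
  ring

lemma e_cont (L : ℝ) : Continuous (fun r : ℝ => e (-(L * r))) := by
  unfold e
  fun_prop

lemma e_deriv (L r : ℝ) : HasDerivAt (fun r : ℝ => e (-(L * r)))
    (-(2 * Real.pi * L : ℝ) * Complex.I * e (-(L * r))) r := by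
  unfold e
  have h1 : HasDerivAt (fun r : ℝ => 2 * Real.pi * (-(L * r))) (2 * Real.pi * (-(L * 1))) r :=
    (((hasDerivAt_id r).const_mul L).neg).const_mul (2 * Real.pi)
  have h2 : HasDerivAt (fun r : ℝ => ((2 * Real.pi * (-(L * r)) : ℝ) : ℂ))
      ((2 * Real.pi * (-(L * 1)) : ℝ) : ℂ) r := h1.ofReal_comp
  have h3 := (h2.mul_const Complex.I).cexp
  convert h3 using 1
  push_cast
  ring

lemma decay (N : ℕ) : ∀ χ : ℝ → ℝ, ContDiff ℝ (⊤ : ℕ∞) χ → HasCompactSupport χ →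
    ∃ C : ℝ, 0 ≤ C ∧ ∀ L : ℝ, 1 ≤ L → ‖∫ r : ℝ, (χ r : ℂ) * e (-(L * r))‖ ≤ C / L ^ N := by
  induction N with
  | zero =>
    intro χ hχ hc
    refine ⟨∫ r, |χ r|, integral_nonneg fun _ => abs_nonneg _, fun L _ => ?_⟩
    rw [pow_zero, div_one]
    refine (norm_integral_le_integral_norm _).trans (le_of_eq ?_)
    congr 1
    funext r
    rw [norm_mul, e_norm, mul_one, Complex.norm_real, Real.norm_eq_abs]
  | succ N ih =>
    intro χ hχ hc
    have hχ' : ContDiff ℝ (⊤ : ℕ∞) (deriv χ) := (contDiff_infty_iff_deriv.mp hχ).2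
    obtain ⟨C, hC, h⟩ := ih (deriv χ) hχ' hc.deriv
    refine ⟨C, hC, fun L hL => ?_⟩
    have hL0 : 0 < L := by linarith
    have hu : ∀ x : ℝ, HasDerivAt (fun r : ℝ => (χ r : ℂ)) ((deriv χ x : ℝ) : ℂ) x := fun x =>
      ((hχ.differentiable (by simp)) x).hasDerivAt.ofReal_comp
    have hcu : HasCompactSupport (fun r : ℝ => (χ r : ℂ)) :=
      hc.comp_left (g := fun t : ℝ => (t : ℂ)) Complex.ofReal_zero
    have hcu' : HasCompactSupport (fun r : ℝ => ((deriv χ r : ℝ) : ℂ)) :=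
      hc.deriv.comp_left (g := fun t : ℝ => (t : ℂ)) Complex.ofReal_zero
    have hcont : Continuous (fun r : ℝ => (χ r : ℂ)) := Complex.continuous_ofReal.comp hχ.continuous
    have hcont' : Continuous (fun r : ℝ => ((deriv χ r : ℝ) : ℂ)) :=
      Complex.continuous_ofReal.comp hχ'.continuous
    have he := e_cont L
    have key := integral_mul_deriv_eq_deriv_mul_of_integrable (u := fun r : ℝ => (χ r : ℂ))
      (v := fun r : ℝ => e (-(L * r))) (fun x _ => hu x) (fun x _ => e_deriv L x)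
      ((hcont.mul (continuous_const.mul he)).integrable_of_hasCompactSupport hcu.mul_right)
      ((hcont'.mul he).integrable_of_hasCompactSupport hcu'.mul_right)
      ((hcont.mul he).integrable_of_hasCompactSupport hcu.mul_right)
    have h1 : ∫ r : ℝ, (χ r : ℂ) * (-(2 * Real.pi * L : ℝ) * Complex.I * e (-(L * r))) =
        (-(2 * Real.pi * L : ℝ) * Complex.I) * ∫ r : ℝ, (χ r : ℂ) * e (-(L * r)) := by
      rw [← integral_const_mul]
      congr 1
      funext r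
      ring
    rw [h1] at key
    have h2 := congrArg (fun z : ℂ => ‖z‖) key
    simp only [norm_mul, norm_neg, Complex.norm_I, mul_one] at h2
    rw [Complex.norm_real, Real.norm_of_nonneg (by positivity)] at h2
    have h3 := h L hL
    have h5 : L ^ (N + 1) = L ^ N * L := pow_succ L N
    rw [le_div_iff₀ (by positivity), h5]
    rw [le_div_iff₀ (by positivity)] at h3
    have h6 : (1:ℝ) ≤ 2 * Real.pi := by linarith [Real.pi_gt_three]
    have h7 : L * ‖∫ r : ℝ, (χ r : ℂ) * e (-(L * r))‖ ≤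
        ‖∫ r : ℝ, ((deriv χ r : ℝ) : ℂ) * e (-(L * r))‖ := by
      rw [← h2]
      have h8 : 0 ≤ L * ‖∫ r : ℝ, (χ r : ℂ) * e (-(L * r))‖ := by positivity
      nlinarith
    calc ‖∫ r : ℝ, (χ r : ℂ) * e (-(L * r))‖ * (L ^ N * L)
        = (L * ‖∫ r : ℝ, (χ r : ℂ) * e (-(L * r))‖) * L ^ N := by ring
      _ ≤ ‖∫ r : ℝ, ((deriv χ r : ℝ) : ℂ) * e (-(L * r))‖ * L ^ N :=
          mul_le_mul_of_nonneg_right h7 (by positivity)
      _ ≤ C := h3

lemma test_comp (ψ : ℝ → ℝ) (hψ : IsTest ψ) : HasCompactSupport ψ :=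
  HasCompactSupport.intro isCompact_Icc hψ.supp

end OscP

open OscP in
theorem osc_decay (ψ : ℝ → ℝ) (hψ : IsTest ψ) (N : ℕ) : ∃ C : ℝ, 0 ≤ C ∧ ∀ X L : ℝ, 1 ≤ X →
    1 ≤ L → ‖∫ r : ℝ, (ψ r : ℂ) * e (-(L * (X + r))) * (((X + r) ^ 2 : ℝ) : ℂ)‖
      ≤ C * X ^ 2 / L ^ N := by
  have hc := test_comp ψ hψ
  have hs0 := hψ.smooth
  have hs1 : ContDiff ℝ (⊤ : ℕ∞) (fun r : ℝ => ψ r * r) := hs0.mul contDiff_id
  have hs2 : ContDiff ℝ (⊤ : ℕ∞) (fun r : ℝ => ψ r * r ^ 2) := hs0.mul (contDiff_id.pow 2)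
  have hc1 : HasCompactSupport (fun r : ℝ => ψ r * r) := hc.mul_right
  have hc2 : HasCompactSupport (fun r : ℝ => ψ r * r ^ 2) := hc.mul_right
  obtain ⟨C0, hC0, h0⟩ := decay N ψ hs0 hc
  obtain ⟨C1, hC1, h1⟩ := decay N _ hs1 hc1
  obtain ⟨C2, hC2, h2⟩ := decay N _ hs2 hc2
  refine ⟨C0 + 2 * C1 + C2, by positivity, fun X L hX hL => ?_⟩
  have hint : ∀ χ : ℝ → ℝ, ContDiff ℝ (⊤ : ℕ∞) χ → HasCompactSupport χ →
      Integrable (fun r : ℝ => (χ r : ℂ) * e (-(L * r))) := by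
    intro χ hχ hcχ
    have hcu : HasCompactSupport (fun r : ℝ => (χ r : ℂ)) :=
      hcχ.comp_left (g := fun t : ℝ => (t : ℂ)) Complex.ofReal_zero
    exact ((Complex.continuous_ofReal.comp hχ.continuous).mul (e_cont L)).integrable_of_hasCompactSupport
      hcu.mul_right
  have heq : ∫ r : ℝ, (ψ r : ℂ) * e (-(L * (X + r))) * (((X + r) ^ 2 : ℝ) : ℂ) =
      e (-(L * X)) * ((X : ℂ) ^ 2 * (∫ r : ℝ, (ψ r : ℂ) * e (-(L * r))) +
        (2 * X : ℂ) * (∫ r : ℝ, ((ψ r * r : ℝ) : ℂ) * e (-(L * r))) +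
        ∫ r : ℝ, ((ψ r * r ^ 2 : ℝ) : ℂ) * e (-(L * r))) := by
    have hA : Integrable (fun r : ℝ => (X : ℂ) ^ 2 * ((ψ r : ℂ) * e (-(L * r)))) :=
      (hint _ hs0 hc).const_mul _
    have hB : Integrable (fun r : ℝ => (2 * X : ℂ) * (((ψ r * r : ℝ) : ℂ) * e (-(L * r)))) :=
      (hint _ hs1 hc1).const_mul _
    have hAB : Integrable (fun r : ℝ => (X : ℂ) ^ 2 * ((ψ r : ℂ) * e (-(L * r))) +
        (2 * X : ℂ) * (((ψ r * r : ℝ) : ℂ) * e (-(L * r)))) := hA.add hB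
    rw [← integral_const_mul ((X : ℂ) ^ 2), ← integral_const_mul (2 * X : ℂ),
      ← integral_add hA hB, ← integral_add hAB (hint _ hs2 hc2), ← integral_const_mul]
    congr 1
    funext r
    have h3 : e (-(L * (X + r))) = e (-(L * X)) * e (-(L * r)) := by
      rw [← e_add]
      congr 1
      ring
    rw [h3]
    push_cast
    ring
  rw [heq, norm_mul, e_norm, one_mul]
  have hLN : 0 < L ^ N := by positivity
  have hX2 : X ≤ X ^ 2 := by nlinarith
  have hX3 : 1 ≤ X ^ 2 := by nlinarith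
  calc ‖(X : ℂ) ^ 2 * (∫ r : ℝ, (ψ r : ℂ) * e (-(L * r))) +
        (2 * X : ℂ) * (∫ r : ℝ, ((ψ r * r : ℝ) : ℂ) * e (-(L * r))) +
        ∫ r : ℝ, ((ψ r * r ^ 2 : ℝ) : ℂ) * e (-(L * r))‖
      ≤ ‖(X : ℂ) ^ 2 * (∫ r : ℝ, (ψ r : ℂ) * e (-(L * r)))‖ +
        ‖(2 * X : ℂ) * (∫ r : ℝ, ((ψ r * r : ℝ) : ℂ) * e (-(L * r)))‖ +
        ‖∫ r : ℝ, ((ψ r * r ^ 2 : ℝ) : ℂ) * e (-(L * r))‖ := norm_add₃_le
    _ ≤ X ^ 2 * (C0 / L ^ N) + 2 * X * (C1 / L ^ N) + C2 / L ^ N := by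
        have e1 : ‖(X : ℂ) ^ 2‖ = X ^ 2 := by
          rw [norm_pow, Complex.norm_real, Real.norm_of_nonneg (by linarith)]
        have e2 : ‖(2 * X : ℂ)‖ = 2 * X := by
          rw [norm_mul, Complex.norm_real, Real.norm_of_nonneg (by linarith)]
          simp
        rw [norm_mul, norm_mul, e1, e2]
        gcongr
        · exact h0 L hL
        · exact h1 L hL
        · exact h2 L hL
    _ ≤ X ^ 2 * (C0 / L ^ N) + 2 * X ^ 2 * (C1 / L ^ N) + X ^ 2 * (C2 / L ^ N) := by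
        have d1 : 0 ≤ C1 / L ^ N := by positivity
        have d2 : 0 ≤ C2 / L ^ N := by positivity
        nlinarith
    _ = (C0 + 2 * C1 + C2) * X ^ 2 / L ^ N := by ring

end Pool.Agent.Helper92.CS
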