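import Pool.Agent.Helper92.CS.Defs

/-!
CS-LatSum (project CS, MP_fb29e9_nt; README: /team-store/h92_CS_README.md). About ~80 lines.

Change of basis of Z^2. PROOF. a p + b q = 1 (IsCoprime). The map (n, l) -> v = (n a - l q, n b + l p) is a bijection Z^2 -> Z^2 (determinant a p + b q = 1; inverse
n = p v1 + q v2, l = a v2 - b v1) with p v1 + q v2 = n and p v2 - q v1 = n (p b - q a) + l (p^2+q^2). With y1 = (p b - q a)/len and (p^2+q^2)/len = len (len > 0):
f(..)(..) at v = f (n/len) (n y1 + l len). Equiv.tsum_eq, then the double sum: Summable of finite support on Z x Z (Summable.tsum_prod' or tsum_prod, or finite sums).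
-/

open MeasureTheory Set Filter Topology

noncomputable section

namespace Pool.Agent.Helper92.CS

theorem lattice_tsum (p q : ℤ) (hpq : IsCoprime p q) : ∃ y₁ : ℝ, ∀ f : ℝ → ℝ → ℂ,
    {v : ℤ × ℤ | f ((p * v.1 + q * v.2) / len p q) ((p * v.2 - q * v.1) / len p q) ≠ 0}.Finite →
    ∑' v : ℤ × ℤ, f ((p * v.1 + q * v.2) / len p q) ((p * v.2 - q * v.1) / len p q)
      = ∑' n : ℤ, ∑' l : ℤ, f (n / len p q) (n * y₁ + l * len p q) := by
  obtain ⟨a, b, hab⟩ := hpq
  have hsq : (0 : ℝ) < (p : ℝ) ^ 2 + (q : ℝ) ^ 2 := by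
    rcases eq_or_ne p 0 with hp | hp
    · have hq : q ≠ 0 := by
        rintro rfl
        rw [hp] at hab
        simp at hab
      have : (q : ℝ) ≠ 0 := by exact_mod_cast hq
      positivity
    · have : (p : ℝ) ≠ 0 := by exact_mod_cast hp
      positivity
  have hlen : 0 < len p q := Real.sqrt_pos.mpr hsq
  have hlen2 : len p q * len p q = (p : ℝ) ^ 2 + (q : ℝ) ^ 2 := Real.mul_self_sqrt hsq.le
  have habr : (a : ℝ) * p + b * q = 1 := by exact_mod_cast hab
  refine ⟨((p : ℝ) * b - q * a) / len p q, fun f hf => ?_⟩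
  let E : ℤ × ℤ ≃ ℤ × ℤ :=
    { toFun := fun n => (n.1 * a - n.2 * q, n.1 * b + n.2 * p)
      invFun := fun v => (p * v.1 + q * v.2, a * v.2 - b * v.1)
      left_inv := by
        rintro ⟨n, l⟩
        simp only [Prod.mk.injEq]
        constructor
        · linear_combination n * hab
        · linear_combination l * hab
      right_inv := by
        rintro ⟨n, l⟩
        simp only [Prod.mk.injEq]
        constructor
        · linear_combination n * hab
        · linear_combination l * hab }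
  set F : ℤ × ℤ → ℂ := fun v =>
    f ((p * v.1 + q * v.2) / len p q) ((p * v.2 - q * v.1) / len p q) with hF
  have hFE : ∀ n : ℤ × ℤ, F (E n) =
      f (n.1 / len p q) (n.1 * (((p : ℝ) * b - q * a) / len p q) + n.2 * len p q) := by
    rintro ⟨n, l⟩
    have h1 : ((p : ℝ) * ((n * a - l * q : ℤ) : ℝ) + q * ((n * b + l * p : ℤ) : ℝ)) = n := by
      push_cast
      linear_combination (n : ℝ) * habr
    have h2 : ((p : ℝ) * ((n * b + l * p : ℤ) : ℝ) - q * ((n * a - l * q : ℤ) : ℝ)) / len p q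
        = (n : ℝ) * (((p : ℝ) * b - q * a) / len p q) + l * len p q := by
      rw [div_eq_iff hlen.ne']
      push_cast
      have h3 : (n : ℝ) * (((p : ℝ) * b - q * a) / len p q) * len p q
          = (n : ℝ) * ((p : ℝ) * b - q * a) := by
        rw [mul_assoc, div_mul_cancel₀ _ hlen.ne']
      rw [add_mul, h3]
      linear_combination (-(l : ℝ)) * hlen2
    change f (((p : ℝ) * ((n * a - l * q : ℤ) : ℝ) + q * ((n * b + l * p : ℤ) : ℝ)) / len p q)
      (((p : ℝ) * ((n * b + l * p : ℤ) : ℝ) - q * ((n * a - l * q : ℤ) : ℝ)) / len p q) = _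
    rw [h1, h2]
  have hsum : Summable (fun n : ℤ × ℤ => F (E n)) := by
    apply summable_of_hasFiniteSupport
    exact (hf.preimage E.injective.injOn : (E ⁻¹' {v | F v ≠ 0}).Finite)
  calc ∑' v : ℤ × ℤ, F v = ∑' n : ℤ × ℤ, F (E n) := (E.tsum_eq F).symm
    _ = ∑' n : ℤ, ∑' l : ℤ, F (E (n, l)) := hsum.tsum_prod
    _ = _ := tsum_congr fun n => tsum_congr fun l => hFE (n, l)

end Pool.Agent.Helper92.CS
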