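import Pool.Agent.Helper92.CS.Defs

/-!
CS-SumInt (project CS, MP_fb29e9_nt; README: /team-store/h92_CS_README.md). About ~200 lines.

Elementary Euler-Maclaurin without Fourier: for smooth compactly supported f the Riemann sum with step d over all of y0 + d Z is the integral up to d^N.
PROOF. For g of class C^1, compactly supported, put E_g(y) = d * sum_l g(y + l d) - integral g. E_g is d-periodic, C^1, with mean zero over a period
(integral over [y, y+d] of d * sum_l g(. + l d) = d * integral g), and (E_g)' (y) = d * sum_l g'(y + l d) = E_{g'}(y) because integral g' = 0. A d-periodic C^1 function with mean zero satisfies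
sup |E_g| <= d * sup |E_g'| (|E(y)| = |(1/d) int_y^{y+d} (E(y) - E(z)) dz| <= d sup |E'|). Iterate N times: sup |E_f| <= d^N sup |E_{f^(N)}|, and
E_{f^(N)}(y) = d * sum_l f^(N)(y + l d) (N >= 1) has at most (B-A)/d + 1 nonzero terms: <= (B - A + d) M. The sums are locally finite (finite over l with y + l d in [A,B]);
to differentiate write the tsum as a finite sum over a fixed Finset for y in a bounded neighbourhood. It may be easier to do the induction on N for all f at once.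
(Proof by helper32; the step is normalised to d = 1 by scaling.)
-/

open MeasureTheory Set Filter Topology

noncomputable section

namespace Pool.Agent.Helper92.CS

private lemma deriv_supp {f : ℝ → ℂ} {A B : ℝ} (hsupp : ∀ t, t ∉ Icc A B → f t = 0) :
    ∀ t, t ∉ Icc A B → deriv f t = 0 := by
  intro t ht
  have h1 : f =ᶠ[𝓝 t] fun _ => (0 : ℂ) := by
    have h2 : (Icc A B)ᶜ ∈ 𝓝 t := isClosed_Icc.isOpen_compl.mem_nhds ht
    filter_upwards [h2] with u hu
    exact hsupp u hu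
  rw [h1.deriv_eq]
  simp

private lemma integrable_of_supp {f : ℝ → ℂ} (hc : Continuous f) {A B : ℝ}
    (hsupp : ∀ t, t ∉ Icc A B → f t = 0) : Integrable f := by
  refine hc.integrable_of_hasCompactSupport ?_
  refine HasCompactSupport.of_support_subset_isCompact (isCompact_Icc (a := A) (b := B)) ?_
  intro t ht
  by_contra h
  exact ht (hsupp t h)

/-- One step, `d = 1`. -/
private lemma step (f : ℝ → ℂ) (hf : ContDiff ℝ 1 f) (A B C : ℝ)
    (hsupp : ∀ t, t ∉ Icc A B → f t = 0)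
    (hC : ∀ z : ℝ, ‖∑' l : ℤ, deriv f (z + l)‖ ≤ C) :
    ‖(∑' l : ℤ, f (l : ℝ)) - ∫ t, f t‖ ≤ C := by
  have hdiff : Differentiable ℝ f := hf.differentiable one_ne_zero
  have hint : Integrable f := integrable_of_supp hf.continuous hsupp
  set s : Finset ℤ := Finset.Icc ⌈A - 1⌉ ⌊B⌋ with hs
  have hout : ∀ u : ℝ, u ∈ Icc (0 : ℝ) 1 → ∀ l : ℤ, l ∉ s → (u + l) ∉ Icc A B := by
    intro u hu l hl hmem
    apply hl
    rw [hs, Finset.mem_Icc, Int.ceil_le, Int.le_floor]
    exact ⟨by linarith [hmem.1, hu.2], by linarith [hmem.2, hu.1]⟩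
  have h0 : (∑' l : ℤ, f (l : ℝ)) = ∑ l ∈ s, f (0 + (l : ℝ)) := by
    rw [tsum_eq_sum (s := s)]
    · simp
    · intro l hl
      have := hout 0 (by simp) l hl
      rw [zero_add] at this
      exact hsupp _ this
  have hder : ∀ u : ℝ, HasDerivAt (fun u : ℝ => ∑ l ∈ s, f (u + (l : ℝ)))
      (∑ l ∈ s, deriv f (u + (l : ℝ))) u := by
    intro u
    have := HasDerivAt.fun_sum (u := s) (A := fun (l : ℤ) (u : ℝ) => f (u + (l : ℝ)))
      (A' := fun l : ℤ => deriv f (u + (l : ℝ))) (x := u) (fun l _ => by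
        have h1 : HasDerivAt f (deriv f (u + (l : ℝ))) (u + (l : ℝ)) :=
          (hdiff _).hasDerivAt
        exact h1.comp_add_const u (l : ℝ))
    exact this
  have hlip : ∀ z ∈ Icc (0 : ℝ) 1,
      ‖(∑ l ∈ s, f (z + (l : ℝ))) - ∑ l ∈ s, f (0 + (l : ℝ))‖ ≤ C * (z - 0) := by
    refine norm_image_sub_le_of_norm_deriv_le_segment'
      (f := fun u : ℝ => ∑ l ∈ s, f (u + (l : ℝ)))
      (f' := fun u : ℝ => ∑ l ∈ s, deriv f (u + (l : ℝ))) ?_ ?_
    · intro x _
      exact (hder x).hasDerivWithinAt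
    · intro x hx
      have h1 := hC x
      rwa [tsum_eq_sum (s := s)] at h1
      intro l hl
      exact deriv_supp hsupp _ (hout x ⟨hx.1, hx.2.le⟩ l hl)
  have hC0 : 0 ≤ C := le_trans (norm_nonneg _) (hC 0)
  have hcont : Continuous fun u : ℝ => ∑ l ∈ s, f (u + (l : ℝ)) :=
    continuous_finsetSum _ fun l _ => hf.continuous.comp (by fun_prop)
  have hmean : ∫ u in (0 : ℝ)..1, ∑ l ∈ s, f (u + (l : ℝ)) = ∫ t, f t := by
    rw [intervalIntegral.integral_finsetSum]
    · have h1 := hint.hasSum_intervalIntegral_comp_add_int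
      rw [← h1.tsum_eq, tsum_eq_sum (s := s)]
      intro l hl
      rw [intervalIntegral.integral_congr (g := fun _ => (0 : ℂ))]
      · simp
      · intro u hu
        rw [uIcc_of_le zero_le_one] at hu
        exact hsupp _ (hout u hu l hl)
    · intro l _
      exact (hf.continuous.comp (by fun_prop)).intervalIntegrable _ _
  rw [h0, ← hmean]
  have h2 : (∑ l ∈ s, f (0 + (l : ℝ))) - ∫ u in (0 : ℝ)..1, ∑ l ∈ s, f (u + (l : ℝ)) =
      ∫ u in (0 : ℝ)..1, ((∑ l ∈ s, f (0 + (l : ℝ))) - ∑ l ∈ s, f (u + (l : ℝ))) := by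
    rw [intervalIntegral.integral_sub intervalIntegrable_const (hcont.intervalIntegrable _ _)]
    simp
  rw [h2]
  have h3 := intervalIntegral.norm_integral_le_of_norm_le_const (a := (0 : ℝ)) (b := 1) (C := C)
    (f := fun u : ℝ => (∑ l ∈ s, f (0 + (l : ℝ))) - ∑ l ∈ s, f (u + (l : ℝ))) (by
      intro u hu
      rw [uIoc_of_le zero_le_one] at hu
      rw [norm_sub_rev]
      refine (hlip u ⟨hu.1.le, hu.2⟩).trans ?_
      rw [sub_zero]
      exact mul_le_of_le_one_right hC0 hu.2)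
  simpa using h3

/-- Counting, `d = 1`. -/
private lemma count_bound (f : ℝ → ℂ) (A B M : ℝ) (hAB : A ≤ B)
    (hsupp : ∀ t, t ∉ Icc A B → f t = 0) (hM : ∀ t, ‖f t‖ ≤ M) (z : ℝ) :
    ‖∑' l : ℤ, f (z + l)‖ ≤ M * (B - A + 1) := by
  set s : Finset ℤ := Finset.Icc ⌈A - z⌉ ⌊B - z⌋ with hs
  have hM0 : 0 ≤ M := le_trans (norm_nonneg _) (hM 0)
  rw [tsum_eq_sum (s := s)]
  · refine (norm_sum_le _ _).trans ?_
    refine (Finset.sum_le_sum fun l _ => hM _).trans ?_
    rw [Finset.sum_const, nsmul_eq_mul, mul_comm]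
    refine mul_le_mul_of_nonneg_left ?_ hM0
    rw [hs, Int.card_Icc]
    have h3 : ((⌊B - z⌋ + 1 - ⌈A - z⌉ : ℤ) : ℝ) ≤ B - A + 1 := by
      push_cast
      have := Int.floor_le (B - z)
      have := Int.le_ceil (A - z)
      linarith
    rcases le_total 0 (⌊B - z⌋ + 1 - ⌈A - z⌉) with h5 | h5
    · have h6 : (((⌊B - z⌋ + 1 - ⌈A - z⌉).toNat : ℤ) : ℝ) =
          ((⌊B - z⌋ + 1 - ⌈A - z⌉ : ℤ) : ℝ) := by rw [Int.toNat_of_nonneg h5]
      have h7 : (((⌊B - z⌋ + 1 - ⌈A - z⌉).toNat : ℕ) : ℝ) =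
          (((⌊B - z⌋ + 1 - ⌈A - z⌉).toNat : ℤ) : ℝ) := by norm_cast
      rw [h7, h6]
      exact h3
    · rw [Int.toNat_of_nonpos h5]
      simp only [Nat.cast_zero]
      linarith
  · intro l hl
    apply hsupp
    intro hmem
    apply hl
    rw [hs, Finset.mem_Icc, Int.ceil_le, Int.le_floor]
    exact ⟨by linarith [hmem.1], by linarith [hmem.2]⟩

private lemma shift_contDiff {n : ℕ} {f : ℝ → ℂ} (hf : ContDiff ℝ n f) (z : ℝ) :
    ContDiff ℝ n fun u => f (z + u) :=
  hf.comp (by fun_prop)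

private lemma shift_supp {f : ℝ → ℂ} {A B : ℝ} (hsupp : ∀ t, t ∉ Icc A B → f t = 0) (z : ℝ) :
    ∀ t, t ∉ Icc (A - z) (B - z) → f (z + t) = 0 := by
  intro t ht
  apply hsupp
  intro hmem
  exact ht ⟨by linarith [hmem.1], by linarith [hmem.2]⟩

/-- The case `d = 1`, `y₀ = 0`. -/
private lemma unit_case (N : ℕ) (hN : 1 ≤ N) : ∀ (f : ℝ → ℂ), ContDiff ℝ N f →
    ∀ (A B M : ℝ), A ≤ B → (∀ t, t ∉ Icc A B → f t = 0) →
    (∀ t, ‖iteratedDeriv N f t‖ ≤ M) →
    ‖(∑' l : ℤ, f (l : ℝ)) - ∫ t, f t‖ ≤ M * (B - A + 1) := by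
  induction N, hN using Nat.le_induction with
  | base =>
    intro f hf A B M hAB hsupp hM
    rw [iteratedDeriv_one] at hM
    exact step f (by exact_mod_cast hf) A B _ hsupp fun z =>
      count_bound (deriv f) A B M hAB (deriv_supp hsupp) hM z
  | succ N hN ih =>
    intro f hf A B M hAB hsupp hM
    have hf1 : ContDiff ℝ 1 f := hf.of_le (by exact_mod_cast Nat.le_add_left 1 N)
    have hd : ContDiff ℝ N (deriv f) := by
      have : ContDiff ℝ ((N : WithTop ℕ∞) + 1) f := by exact_mod_cast hf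
      exact (contDiff_succ_iff_deriv.mp this).2.2
    refine step f hf1 A B _ hsupp fun z => ?_
    have h1 := ih (fun u => deriv f (z + u)) (shift_contDiff hd z) (A - z) (B - z) M
      (by linarith) (shift_supp (deriv_supp hsupp) z) (fun t => by
        rw [iteratedDeriv_comp_const_add]
        have := hM (z + t)
        rwa [iteratedDeriv_succ'] at this)
    have h2 : ∫ t, deriv f (z + t) = 0 := by
      rw [integral_add_left_eq_self (fun t => deriv f t) z]
      refine integral_eq_zero_of_hasDerivAt_of_integrable (f := f)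
        (fun x => (hf1.differentiable one_ne_zero x).hasDerivAt) ?_ ?_
      · exact integrable_of_supp (hf1.continuous_deriv le_rfl) (deriv_supp hsupp)
      · exact integrable_of_supp hf1.continuous hsupp
    rw [h2, sub_zero] at h1
    refine h1.trans (le_of_eq ?_)
    ring

theorem sum_sub_integral (N : ℕ) (hN : 1 ≤ N) (f : ℝ → ℂ) (hf : ContDiff ℝ N f)
    (A B M d y₀ : ℝ) (hAB : A ≤ B) (hd : 0 < d) (hsupp : ∀ t, t ∉ Icc A B → f t = 0)
    (hM : ∀ t, ‖iteratedDeriv N f t‖ ≤ M) :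
    ‖(d : ℂ) * ∑' l : ℤ, f (y₀ + l * d) - ∫ t, f t‖ ≤ d ^ N * M * (B - A + 2 * d) := by
  have hM0 : 0 ≤ M := le_trans (norm_nonneg _) (hM 0)
  have hshift : ContDiff ℝ N fun u => f (y₀ + u) := shift_contDiff hf y₀
  have h1 := unit_case N hN (fun u => f (y₀ + d * u)) (hf.comp (by fun_prop))
    ((A - y₀) / d) ((B - y₀) / d) (d ^ N * M) (by gcongr)
    (fun t ht => by
      apply hsupp
      intro hmem
      apply ht
      refine ⟨?_, ?_⟩
      · rw [div_le_iff₀ hd]
        linarith [hmem.1, mul_comm d t]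
      · rw [le_div_iff₀ hd]
        linarith [hmem.2, mul_comm d t])
    (fun t => by
      have h2 := congrFun (iteratedDeriv_comp_const_smul (n := N) hshift d) t
      rw [h2, iteratedDeriv_comp_const_add, norm_smul, norm_pow, Real.norm_of_nonneg hd.le]
      exact mul_le_mul_of_nonneg_left (hM _) (by positivity))
  have hint : ∫ t, f (y₀ + d * t) = ((d⁻¹ : ℝ) : ℂ) * ∫ t, f t := by
    have h2 := Measure.integral_comp_mul_left (fun u => f (y₀ + u)) d
    rw [h2, integral_add_left_eq_self (fun t => f t) y₀, abs_of_pos (inv_pos.mpr hd)]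
    exact Complex.real_smul
  have hsum : (∑' l : ℤ, f (y₀ + d * (l : ℝ))) = ∑' l : ℤ, f (y₀ + l * d) :=
    tsum_congr fun l => by rw [mul_comm d]
  rw [hint, hsum] at h1
  have hd1 : (d : ℂ) * ((d⁻¹ : ℝ) : ℂ) = 1 := by
    rw [← Complex.ofReal_mul, mul_inv_cancel₀ hd.ne', Complex.ofReal_one]
  have h3 : (d : ℂ) * ∑' l : ℤ, f (y₀ + l * d) - ∫ t, f t =
      (d : ℂ) * ((∑' l : ℤ, f (y₀ + l * d)) - ((d⁻¹ : ℝ) : ℂ) * ∫ t, f t) := by
    rw [mul_sub, ← mul_assoc (d : ℂ) ((d⁻¹ : ℝ) : ℂ), hd1, one_mul]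
  rw [h3, norm_mul, Complex.norm_real, Real.norm_of_nonneg hd.le]
  calc d * ‖(∑' l : ℤ, f (y₀ + l * d)) - ((d⁻¹ : ℝ) : ℂ) * ∫ t, f t‖
      ≤ d * (d ^ N * M * ((B - y₀) / d - (A - y₀) / d + 1)) :=
        mul_le_mul_of_nonneg_left h1 hd.le
    _ = d ^ N * M * (B - A + d) := by
        field_simp
        ring
    _ ≤ d ^ N * M * (B - A + 2 * d) := by
        refine mul_le_mul_of_nonneg_left ?_ (by positivity)
        linarith

end Pool.Agent.Helper92.CS
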