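import Pool.Agent.Helper92.CS.Defs
import Pool.Agent.Helper92.CS.SumInt
import Pool.Agent.Helper92.CS.LatSum

/-!
CS-SumInt2 (project CS, MP_fb29e9_nt; README: /team-store/h92_CS_README.md). About ~180 lines.

PROOF. L = len p q >= 1 (coprime so (p,q) != 0). By lattice_tsum the sum is sum_n sum_l f(n/L)(n y1 + l L) (finite support from hsupp). For each n, SumInt with d = L, [-Y, Y]:
L * sum_l f(n/L)(n y1 + l L) = int f(n/L)(y) dy + O(L^N M1 (2Y + 2L)); it is 0 unless n/L in [A, A'] : at most L (A'-A) + 1 values n. Divide by L (>= 1). Then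
(1/L) sum_n int f(n/L)(y) dy = int_y [ (1/L) sum_n f(n/L)(y) ] dy (finite sum), and SumInt with d = 1/L in x for each fixed y:
(1/L) sum_n f (n/L) y = int f x y dx + O((1/L)^N M2 (A'-A+2/L)), zero for |y| > Y; integrate over |y| <= Y. Fubini for the continuous compactly supported f.
-/

open MeasureTheory Set Filter Topology

noncomputable section

namespace Pool.Agent.Helper92.CS

private lemma len_sq (p q : ℤ) : len p q ^ 2 = (p : ℝ) ^ 2 + (q : ℝ) ^ 2 := by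
  unfold len
  exact Real.sq_sqrt (by positivity)

private lemma one_le_len {p q : ℤ} (hpq : IsCoprime p q) : 1 ≤ len p q := by
  unfold len
  rw [Real.one_le_sqrt]
  have h : (1 : ℤ) ≤ p ^ 2 + q ^ 2 := by
    by_contra hcon
    have h1 : p ^ 2 + q ^ 2 ≤ 0 := by omega
    have h2 : p = 0 := by nlinarith [sq_nonneg p, sq_nonneg q]
    have h3 : q = 0 := by nlinarith [sq_nonneg p, sq_nonneg q]
    rw [h2, h3] at hpq
    exact not_isCoprime_zero_zero hpq
  exact_mod_cast h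

private lemma finite_supp (p q : ℤ) (hpq : IsCoprime p q) (f : ℝ → ℝ → ℂ) (A A' Y : ℝ)
    (hsupp : ∀ x y, f x y ≠ 0 → A ≤ x ∧ x ≤ A' ∧ |y| ≤ Y) :
    {v : ℤ × ℤ | f ((p * v.1 + q * v.2) / len p q) ((p * v.2 - q * v.1) / len p q) ≠ 0}.Finite := by
  have hL := one_le_len hpq
  have hL0 : 0 < len p q := by linarith
  obtain ⟨K, hK⟩ := exists_nat_ge (A ^ 2 + A' ^ 2 + Y ^ 2)
  refine (Set.finite_Icc ((-(K : ℤ), -(K : ℤ)) : ℤ × ℤ) ((K : ℤ), (K : ℤ))).subset ?_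
  rintro ⟨a, b⟩ hv
  have h0 := hsupp _ _ hv
  simp only at h0
  obtain ⟨h1, h2, h3⟩ := h0
  set x : ℝ := (p * a + q * b) / len p q with hx
  set y : ℝ := (p * b - q * a) / len p q with hy
  have e : x ^ 2 + y ^ 2 = (a : ℝ) ^ 2 + (b : ℝ) ^ 2 := by
    rw [hx, hy, div_pow, div_pow, ← add_div, div_eq_iff (by positivity), len_sq]
    ring
  have hxx : x ^ 2 ≤ A ^ 2 + A' ^ 2 := by
    rcases le_total 0 x with h | h
    · nlinarith [sq_nonneg A]
    · nlinarith [sq_nonneg A']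
  have hyy : y ^ 2 ≤ Y ^ 2 := by
    have := abs_nonneg y
    rw [← sq_abs y]
    exact pow_le_pow_left₀ this h3 2
  have hab : (a : ℝ) ^ 2 + (b : ℝ) ^ 2 ≤ K := by linarith
  have hab' : a ^ 2 + b ^ 2 ≤ (K : ℤ) := by exact_mod_cast hab
  have ha : |a| ≤ (K : ℤ) := by
    have h5 : |a| ≤ a ^ 2 := by
      rw [← sq_abs a]
      rcases (abs_nonneg a).eq_or_lt with h | h
      · rw [← h]; simp
      · nlinarith
    nlinarith [sq_nonneg b]
  have hb : |b| ≤ (K : ℤ) := by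
    have h5 : |b| ≤ b ^ 2 := by
      rw [← sq_abs b]
      rcases (abs_nonneg b).eq_or_lt with h | h
      · rw [← h]; simp
      · nlinarith
    nlinarith [sq_nonneg a]
  rw [abs_le] at ha hb
  exact ⟨⟨ha.1, hb.1⟩, ⟨ha.2, hb.2⟩⟩

theorem sum_sub_integral_two (N : ℕ) (hN : 1 ≤ N) (p q : ℤ) (hpq : IsCoprime p q)
    (f : ℝ → ℝ → ℂ) (hcont : Continuous (Function.uncurry f))
    (hy : ∀ x, ContDiff ℝ N (f x)) (hx : ∀ y, ContDiff ℝ N (fun x => f x y))
    (A A' Y M₁ M₂ : ℝ) (hA : A ≤ A') (hY : 0 ≤ Y)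
    (hsupp : ∀ x y, f x y ≠ 0 → A ≤ x ∧ x ≤ A' ∧ |y| ≤ Y)
    (h1 : ∀ x y, ‖iteratedDeriv N (f x) y‖ ≤ M₁)
    (h2 : ∀ x y, ‖iteratedDeriv N (fun x => f x y) x‖ ≤ M₂) :
    ‖∑' v : ℤ × ℤ, f ((p * v.1 + q * v.2) / len p q) ((p * v.2 - q * v.1) / len p q)
        - ∫ z : ℝ × ℝ, f z.1 z.2‖
      ≤ (len p q * (A' - A) + 1) * (len p q ^ N * M₁ * (2 * Y + 2 * len p q))
        + 2 * Y * ((1 / len p q) ^ N * M₂ * (A' - A + 2)) := by
  classical
  have hL := one_le_len hpq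
  set L := len p q with hLdef
  have hL0 : 0 < L := by linarith
  have hM1 : 0 ≤ M₁ := le_trans (norm_nonneg _) (h1 0 0)
  have hM2 : 0 ≤ M₂ := le_trans (norm_nonneg _) (h2 0 0)
  have z1 : ∀ x y, ¬ (A ≤ x ∧ x ≤ A') → f x y = 0 := by
    intro x y h
    by_contra hne
    have := hsupp x y hne
    exact h ⟨this.1, this.2.1⟩
  have z2 : ∀ x y, ¬ |y| ≤ Y → f x y = 0 := by
    intro x y h
    by_contra hne
    exact h (hsupp x y hne).2.2
  obtain ⟨y₁, hy₁⟩ := lattice_tsum p q hpq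
  rw [hy₁ f (finite_supp p q hpq f A A' Y hsupp)]
  -- the finite set of n
  set S : Finset ℤ := Finset.Icc ⌈A * L⌉ ⌊A' * L⌋ with hS
  have hSmem : ∀ n : ℤ, n ∈ S ↔ A ≤ n / L ∧ n / L ≤ A' := by
    intro n
    rw [hS, Finset.mem_Icc, Int.ceil_le, Int.le_floor, le_div_iff₀ hL0, div_le_iff₀ hL0]
  have hScard : (S.card : ℝ) ≤ L * (A' - A) + 1 := by
    rw [hS, Int.card_Icc]
    have h3 : ((⌊A' * L⌋ + 1 - ⌈A * L⌉ : ℤ) : ℝ) ≤ L * (A' - A) + 1 := by
      push_cast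
      have := Int.floor_le (A' * L)
      have := Int.le_ceil (A * L)
      linarith
    have h4 : (0 : ℝ) ≤ L * (A' - A) + 1 := by
      have : 0 ≤ L * (A' - A) := mul_nonneg hL0.le (by linarith)
      linarith
    rcases le_total 0 (⌊A' * L⌋ + 1 - ⌈A * L⌉) with h5 | h5
    · have h6 : (((⌊A' * L⌋ + 1 - ⌈A * L⌉).toNat : ℤ) : ℝ) =
          ((⌊A' * L⌋ + 1 - ⌈A * L⌉ : ℤ) : ℝ) := by rw [Int.toNat_of_nonneg h5]
      have h7 : (((⌊A' * L⌋ + 1 - ⌈A * L⌉).toNat : ℕ) : ℝ) =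
          (((⌊A' * L⌋ + 1 - ⌈A * L⌉).toNat : ℤ) : ℝ) := by norm_cast
      rw [h7, h6]
      exact h3
    · rw [Int.toNat_of_nonpos h5]
      simpa using h4
  have hout : ∀ n : ℤ, n ∉ S → ∀ y, f (n / L) y = 0 := fun n hn y =>
    z1 _ _ (fun h => hn ((hSmem n).mpr h))
  have hsum : ∑' n : ℤ, ∑' l : ℤ, f (n / L) (n * y₁ + l * L) =
      ∑ n ∈ S, ∑' l : ℤ, f (n / L) (n * y₁ + l * L) := by
    refine tsum_eq_sum fun n hn => ?_
    simp [hout n hn]
  -- inner sums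
  have hin : ∀ n ∈ S, ‖(∑' l : ℤ, f (n / L) (n * y₁ + l * L)) -
      (1 / L : ℝ) * ∫ y, f (n / L) y‖ ≤ L ^ N * M₁ * (2 * Y + 2 * L) := by
    intro n _
    have h3 := sum_sub_integral N hN (f (n / L)) (hy _) (-Y) Y M₁ L (n * y₁) (by linarith) hL0
      (fun t ht => z2 _ _ (fun h => ht (abs_le.mp h))) (h1 _)
    have h4 : (∑' l : ℤ, f (n / L) (n * y₁ + l * L)) - (1 / L : ℝ) * ∫ y, f (n / L) y =
        ((1 / L : ℝ) : ℂ) * ((L : ℂ) * (∑' l : ℤ, f (n / L) (n * y₁ + l * L)) -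
          ∫ y, f (n / L) y) := by
      have : ((1 / L : ℝ) : ℂ) * (L : ℂ) = 1 := by
        rw [← Complex.ofReal_mul, one_div, inv_mul_cancel₀ hL0.ne', Complex.ofReal_one]
      rw [mul_sub, ← mul_assoc, this, one_mul]
    rw [h4, norm_mul, Complex.norm_real, Real.norm_of_nonneg (by positivity)]
    have h5 : (1 / L : ℝ) ≤ 1 := by
      rw [div_le_one hL0]; exact hL
    calc (1 / L : ℝ) * ‖(L : ℂ) * (∑' l : ℤ, f (n / L) (n * y₁ + l * L)) - ∫ y, f (n / L) y‖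
        ≤ 1 * ‖(L : ℂ) * (∑' l : ℤ, f (n / L) (n * y₁ + l * L)) - ∫ y, f (n / L) y‖ :=
          mul_le_mul_of_nonneg_right h5 (norm_nonneg _)
      _ ≤ L ^ N * M₁ * (Y - -Y + 2 * L) := by rw [one_mul]; exact h3
      _ = L ^ N * M₁ * (2 * Y + 2 * L) := by ring
  -- integrability
  have hintf : Integrable (Function.uncurry f) (volume : Measure (ℝ × ℝ)) := by
    refine hcont.integrable_of_hasCompactSupport ?_
    refine HasCompactSupport.of_support_subset_isCompact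
      ((isCompact_Icc (a := A) (b := A')).prod (isCompact_Icc (a := -Y) (b := Y))) ?_
    rintro ⟨x, y⟩ hxy
    have := hsupp x y hxy
    exact ⟨⟨this.1, this.2.1⟩, abs_le.mp this.2.2⟩
  have hintx : ∀ x, Integrable (f x) := by
    intro x
    refine (hy x).continuous.integrable_of_hasCompactSupport ?_
    refine HasCompactSupport.of_support_subset_isCompact (isCompact_Icc (a := -Y) (b := Y)) ?_
    intro y hy'
    exact abs_le.mp (hsupp x y hy').2.2
  have hfub : ∫ z : ℝ × ℝ, f z.1 z.2 = ∫ y, ∫ x, f x y := by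
    rw [Measure.volume_eq_prod] at hintf ⊢
    exact integral_prod_symm _ hintf
  have hintI : Integrable (fun y => ∫ x, f x y) := by
    rw [Measure.volume_eq_prod] at hintf
    exact hintf.integral_prod_right
  -- outer sum
  have hswap : ∑ n ∈ S, ((1 / L : ℝ) : ℂ) * ∫ y, f (n / L) y =
      ∫ y, ∑ n ∈ S, ((1 / L : ℝ) : ℂ) * f (n / L) y := by
    rw [integral_finsetSum]
    · refine Finset.sum_congr rfl fun n _ => ?_
      rw [integral_const_mul]
    · intro n _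
      exact (hintx _).const_mul _
  have hintS : Integrable (fun y => ∑ n ∈ S, ((1 / L : ℝ) : ℂ) * f (n / L) y) :=
    integrable_finsetSum _ fun n _ => (hintx _).const_mul _
  have hpt : ∀ y, ‖(∑ n ∈ S, ((1 / L : ℝ) : ℂ) * f (n / L) y) - ∫ x, f x y‖ ≤
      (1 / L) ^ N * M₂ * (A' - A + 2) := by
    intro y
    have h3 := sum_sub_integral N hN (fun x => f x y) (hx y) A A' M₂ (1 / L) 0 hA (by positivity)
      (fun t ht => z1 _ _ (fun h => ht h)) (fun t => h2 t y)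
    have h4 : ∑' l : ℤ, f (0 + (l : ℝ) * (1 / L)) y = ∑ n ∈ S, f (n / L) y := by
      rw [tsum_eq_sum (s := S)]
      · refine Finset.sum_congr rfl fun n _ => ?_
        rw [zero_add, mul_one_div]
      · intro n hn
        rw [zero_add, mul_one_div]
        exact hout n hn y
    simp only [h4] at h3
    rw [Finset.mul_sum] at h3
    refine h3.trans ?_
    have h5 : A' - A + 2 * (1 / L) ≤ A' - A + 2 := by
      have : (1 / L : ℝ) ≤ 1 := by
        rw [div_le_one hL0]; exact hL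
      linarith
    exact mul_le_mul_of_nonneg_left h5 (by positivity)
  have houter : ‖(∑ n ∈ S, ((1 / L : ℝ) : ℂ) * ∫ y, f (n / L) y) - ∫ z : ℝ × ℝ, f z.1 z.2‖ ≤
      2 * Y * ((1 / L) ^ N * M₂ * (A' - A + 2)) := by
    rw [hswap, hfub, ← integral_sub hintS hintI]
    have h3 : ∫ y, ((∑ n ∈ S, ((1 / L : ℝ) : ℂ) * f (n / L) y) - ∫ x, f x y) =
        ∫ y in Icc (-Y) Y, ((∑ n ∈ S, ((1 / L : ℝ) : ℂ) * f (n / L) y) - ∫ x, f x y) := by
      symm
      refine setIntegral_eq_integral_of_forall_compl_eq_zero fun y hy' => ?_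
      have h4 : ∀ x, f x y = 0 := fun x => z2 _ _ (fun h => hy' (abs_le.mp h))
      simp [h4]
    rw [h3]
    have h5 := norm_setIntegral_le_of_norm_le_const (μ := (volume : Measure ℝ))
      (s := Icc (-Y) Y) (f := fun y => (∑ n ∈ S, ((1 / L : ℝ) : ℂ) * f (n / L) y) - ∫ x, f x y)
      (C := (1 / L) ^ N * M₂ * (A' - A + 2)) (by simp) (fun y _ => hpt y)
    refine h5.trans (le_of_eq ?_)
    rw [Real.volume_real_Icc_of_le (by linarith)]
    ring
  rw [hsum]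
  have hsplit : (∑ n ∈ S, ∑' l : ℤ, f (n / L) (n * y₁ + l * L)) - ∫ z : ℝ × ℝ, f z.1 z.2 =
      (∑ n ∈ S, ((∑' l : ℤ, f (n / L) (n * y₁ + l * L)) -
        ((1 / L : ℝ) : ℂ) * ∫ y, f (n / L) y)) +
      ((∑ n ∈ S, ((1 / L : ℝ) : ℂ) * ∫ y, f (n / L) y) - ∫ z : ℝ × ℝ, f z.1 z.2) := by
    rw [Finset.sum_sub_distrib]
    ring
  rw [hsplit]
  refine (norm_add_le _ _).trans (add_le_add ?_ houter)
  refine (norm_sum_le _ _).trans ?_
  refine (Finset.sum_le_sum hin).trans ?_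
  rw [Finset.sum_const, nsmul_eq_mul]
  exact mul_le_mul_of_nonneg_right hScard (by positivity)

end Pool.Agent.Helper92.CS
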