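import Pool.Agent.Helper92.CS.Defs
import Pool.Agent.Helper92.CS.ErrRing
import Pool.Agent.Helper92.CS.AreaB
import Pool.Agent.Helper92.CS.GkBasic
import Pool.Agent.Helper92.CS.CountTest
import Pool.Agent.Helper92.CS.IntTest
import Pool.Agent.Helper92.CS.MainLower
import Pool.Agent.Helper92.CS.SumInt2
import Pool.Agent.Helper92.CS.HHcont
import Pool.Agent.Helper92.CS.HHy
import Pool.Agent.Helper92.CS.HHx
import Pool.Agent.Helper92.CS.Osc
import Pool.Agent.Helper92.CS.TestFn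
import Pool.Agent.Helper92.CS.CountMono

/-!
CS-Key (project CS, MP_fb29e9_nt; README: /team-store/h92_CS_README.md). Statement and proof plan by helper92,
Lean proof by helper48.

ASSEMBLY of the key estimate. PROOF. psi from exists_test. L = len p q in [X^kappa/8, X^kappa], w = X^(-omega), alpha = 1/(8XL). For X large Par X L w: L >= 1, L <= X (kappa < 1), w <= 1/2, L^2 w <= X^(2 kappa - omega) <= 1,
X w^2 = X^(1-2 omega) >= 1; X L w^2 >= X^(1-2omega) -> oo. err_ring: err gk - err 0 = ncard - (area - area) R^2 for R = X + r > 0 (r in the support of psi; write the integrals over the support). So the integral is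
[sum over v of HH] (count_test) - (area gk - area 0) * osc. Choose N with N (omega - 2 kappa) >= 4 and N kappa >= 4, N >= 1. sum_sub_integral_two with f = HH, A = 0, A' = X + 2, Y = X + 2, M1 = C (L w)^N, M2 = C:
error <= (L (X+2) + 1) L^N C (L w)^N (2(X+2) + 2L) + 2 (X+2) L^(-N) C (X+4) <= C' X^3 X^(-N(omega - 2kappa)) + C' X^2 (8 X^(-kappa))^N <= 1 for X large. integral_test + main_lower: |int HH| >= c (X/L)/sqrt(XL).
Area part: <= 10 * C X^2/L^N <= 1 (area_bound with gk <= 2 alpha <= 1). Finally (X/L)/sqrt(XL) = X^(1/2) L^(-3/2) >= X^(1/2 - 3 kappa/2) -> oo since kappa < omega/2 < 1/4, so the errors are <= half of the main term.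
-/

open MeasureTheory Set Filter Topology

noncomputable section

namespace Pool.Agent.Helper92.CS

section KeyAux

private theorem key_norm_e (t : ℝ) : ‖e t‖ = 1 := by
  unfold e
  exact Complex.norm_exp_ofReal_mul_I _

private theorem key_cont_e : Continuous e := by
  unfold e
  fun_prop

private theorem key_meas_err (g : ℝ → ℝ) (hg : Continuous g) (hg0 : ∀ φ, 0 ≤ g φ) :
    Measurable (err g) := by
  unfold err
  have h1 : Measurable (fun R => (latticeCount g R : ℝ)) := (latticeCount_mono g hg hg0).measurable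
  exact h1.sub (by fun_prop)

/-- the integral as count minus area -/
private theorem key_split (ψ : ℝ → ℝ) (hψ : IsTest ψ) (g : ℝ → ℝ) (hg : Continuous g)
    (hg0 : ∀ φ, 0 ≤ g φ) (X L : ℝ) (hX : 0 < X) :
    ∫ r : ℝ, (ψ r : ℂ) * e (-(L * (X + r))) * ((err g (X + r) - err 0 (X + r) : ℝ) : ℂ)
      = (∫ r : ℝ, (ψ r : ℂ) * e (-(L * (X + r))) *
          (Set.ncard {v : ℤ × ℤ | pt v ∈ Ring g (X + r)} : ℂ))
        - ((area g - area 0 : ℝ) : ℂ) *
          ∫ r : ℝ, (ψ r : ℂ) * e (-(L * (X + r))) * (((X + r) ^ 2 : ℝ) : ℂ) := by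
  have hψc : Continuous ψ := hψ.smooth.continuous
  have hψcs : HasCompactSupport ψ := by
    apply HasCompactSupport.intro (isCompact_Icc (a := (1 / 4 : ℝ)) (b := 3 / 4))
    intro x hx
    exact hψ.supp x hx
  have hint2 : Integrable (fun r : ℝ => (ψ r : ℂ) * e (-(L * (X + r))) *
      (((X + r) ^ 2 : ℝ) : ℂ)) := by
    apply Continuous.integrable_of_hasCompactSupport
    · have := key_cont_e
      have h1 : Continuous (fun r : ℝ => (ψ r : ℂ)) := Complex.continuous_ofReal.comp hψc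
      have h2 : Continuous (fun r : ℝ => e (-(L * (X + r)))) := this.comp (by fun_prop)
      have h3 : Continuous (fun r : ℝ => (((X + r) ^ 2 : ℝ) : ℂ)) :=
        Complex.continuous_ofReal.comp (by fun_prop)
      exact (h1.mul h2).mul h3
    · apply HasCompactSupport.intro (isCompact_Icc (a := (1 / 4 : ℝ)) (b := 3 / 4))
      intro x hx
      rw [hψ.supp x hx]
      simp
  have hint1 : Integrable (fun r : ℝ => (ψ r : ℂ) * e (-(L * (X + r))) *
      ((err g (X + r) - err 0 (X + r) : ℝ) : ℂ)) := by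
    refine Integrable.mono (err_integrable ψ hψ g hg hg0 X) ?_ ?_
    · apply Measurable.aestronglyMeasurable
      have h1 : Measurable (fun r : ℝ => (ψ r : ℂ)) :=
        (Complex.continuous_ofReal.comp hψc).measurable
      have h2 : Measurable (fun r : ℝ => e (-(L * (X + r)))) :=
        (key_cont_e.comp (by fun_prop : Continuous (fun r : ℝ => -(L * (X + r))))).measurable
      have h3 : Measurable (fun r : ℝ => ((err g (X + r) - err 0 (X + r) : ℝ) : ℂ)) := by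
        apply Complex.measurable_ofReal.comp
        have h4 : Measurable (fun r : ℝ => err g (X + r)) :=
          (key_meas_err g hg hg0).comp (by fun_prop)
        have h5 : Measurable (fun r : ℝ => err 0 (X + r)) :=
          (key_meas_err 0 continuous_zero (fun _ => le_rfl)).comp (by fun_prop)
        exact h4.sub h5
      exact (h1.mul h2).mul h3
    · refine Eventually.of_forall (fun r => ?_)
      rw [norm_mul, norm_mul, key_norm_e, mul_one, norm_mul, Complex.norm_real, Complex.norm_real,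
        Real.norm_eq_abs |err g (X + r) - err 0 (X + r)|, abs_abs, Real.norm_eq_abs (err g (X + r) - err 0 (X + r))]
  have hpt : ∀ r : ℝ, (ψ r : ℂ) * e (-(L * (X + r))) *
          (Set.ncard {v : ℤ × ℤ | pt v ∈ Ring g (X + r)} : ℂ)
      = (ψ r : ℂ) * e (-(L * (X + r))) * ((err g (X + r) - err 0 (X + r) : ℝ) : ℂ)
        + ((area g - area 0 : ℝ) : ℂ) *
          ((ψ r : ℂ) * e (-(L * (X + r))) * (((X + r) ^ 2 : ℝ) : ℂ)) := by
    intro r
    by_cases hr : r ∈ Icc (1 / 4 : ℝ) (3 / 4)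
    · have hR : 0 < X + r := by have := hr.1; linarith
      rw [err_ring g hg hg0 (X + r) hR]
      push_cast
      ring
    · rw [hψ.supp r hr]
      simp
  have hsum : ∫ r : ℝ, (ψ r : ℂ) * e (-(L * (X + r))) *
          (Set.ncard {v : ℤ × ℤ | pt v ∈ Ring g (X + r)} : ℂ)
      = (∫ r : ℝ, (ψ r : ℂ) * e (-(L * (X + r))) * ((err g (X + r) - err 0 (X + r) : ℝ) : ℂ))
        + ((area g - area 0 : ℝ) : ℂ) *
          ∫ r : ℝ, (ψ r : ℂ) * e (-(L * (X + r))) * (((X + r) ^ 2 : ℝ) : ℂ) := by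
    rw [← integral_const_mul, ← integral_add hint1 (hint2.const_mul _)]
    exact integral_congr_ae (Eventually.of_forall hpt)
  rw [hsum]
  ring

/-- one instance of the key estimate, errors explicit -/
private theorem key_one (ψ : ℝ → ℝ) (hψ : IsTest ψ) (N : ℕ) (hN : 1 ≤ N) (c C₁ C₂ C₃ : ℝ)
    (p q : ℤ) (hp : 0 < p) (hpq : IsCoprime p q) (X w : ℝ) (h : Par X (len p q) w)
    (hmain : c * (X / len p q) / Real.sqrt (X * len p q) ≤
      ‖∫ r : ℝ, (ψ r : ℂ) * e (-(len p q * (X + r))) *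
          ∫ z : ℂ in Ring (gk (1 / (8 * X * len p q)) w 0) (X + r), e (len p q * z.re)‖)
    (hHy : ∀ x : ℝ, ContDiff ℝ N (fun y => HH ψ (len p q) X w (1 / (8 * X * len p q)) x y) ∧
      ∀ y, ‖iteratedDeriv N (fun y => HH ψ (len p q) X w (1 / (8 * X * len p q)) x y) y‖
        ≤ C₁ * (len p q * w) ^ N)
    (hHx : ∀ y : ℝ, ContDiff ℝ N (fun x => HH ψ (len p q) X w (1 / (8 * X * len p q)) x y) ∧
      ∀ x, ‖iteratedDeriv N (fun x => HH ψ (len p q) X w (1 / (8 * X * len p q)) x y) x‖ ≤ C₂)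
    (hosc : ‖∫ r : ℝ, (ψ r : ℂ) * e (-(len p q * (X + r))) * (((X + r) ^ 2 : ℝ) : ℂ)‖
      ≤ C₃ * X ^ 2 / len p q ^ N) :
    c * (X / len p q) / Real.sqrt (X * len p q)
      - ((len p q * (X + 2 - 0) + 1) *
          (len p q ^ N * (C₁ * (len p q * w) ^ N) * (2 * (X + 2) + 2 * len p q))
        + 2 * (X + 2) * ((1 / len p q) ^ N * C₂ * (X + 2 - 0 + 2)))
      - 10 * (C₃ * X ^ 2 / len p q ^ N) ≤
    ‖∫ r : ℝ, (ψ r : ℂ) * e (-(len p q * (X + r))) *
      ((err (gk (1 / (8 * X * len p q)) w (ang p q)) (X + r) - err 0 (X + r) : ℝ) : ℂ)‖ := by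
  have hX4 := h.X4
  have hX0 : 0 < X := by linarith
  have hL1 := h.L1
  have hL0 : 0 < len p q := by linarith
  have hα0 : 0 ≤ 1 / (8 * X * len p q) := by positivity
  have hα1 : 1 / (8 * X * len p q) ≤ 1 / 2 := by
    rw [div_le_div_iff₀ (by positivity) (by norm_num)]
    nlinarith
  obtain ⟨hgs, -, hg01, -⟩ := gk_basic (1 / (8 * X * len p q)) w (ang p q) hα0 hα1 h.w0
  have hgc : Continuous (gk (1 / (8 * X * len p q)) w (ang p q)) := hgs.continuous
  rw [key_split ψ hψ _ hgc (fun φ => (hg01 φ).1) X (len p q) hX0]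
  obtain ⟨hfin, hcount⟩ := count_test ψ hψ p q hp X w h
  rw [hcount]
  have hsum := sum_sub_integral_two N hN p q hpq (HH ψ (len p q) X w (1 / (8 * X * len p q)))
    (HH_cont ψ hψ X (len p q) w h) (fun x => (hHy x).1) (fun y => (hHx y).1)
    0 (X + 2) (X + 2) (C₁ * (len p q * w) ^ N) C₂ (by linarith) (by linarith)
    (by
      intro x y hne
      have hreg : 0 < x ∧ X < rho x y ∧ rho x y < X + 2 ∧ 1 - x / rho x y < w ^ 2 / 2 := by
        by_contra hn
        exact hne (HH_zero ψ hψ X (len p q) w x y h hn)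
      have hx : |x| ≤ rho x y := by
        unfold rho
        apply Real.abs_le_sqrt
        nlinarith [sq_nonneg y]
      have hy : |y| ≤ rho x y := by
        unfold rho
        apply Real.abs_le_sqrt
        nlinarith [sq_nonneg x]
      refine ⟨hreg.1.le, ?_, ?_⟩
      · have := le_abs_self x
        linarith [hreg.2.2.1]
      · linarith [hreg.2.2.1])
    (fun x y => (hHy x).2 y) (fun x y => (hHx y).2 x)
  rw [← integral_test ψ hψ X (len p q) w h] at hmain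
  have harea := area_bound (gk (1 / (8 * X * len p q)) w (ang p q)) hgc (fun φ => (hg01 φ).1)
    (fun φ => (hg01 φ).2.trans (by linarith))
  have hA : ‖((area (gk (1 / (8 * X * len p q)) w (ang p q)) - area 0 : ℝ) : ℂ) *
      ∫ r : ℝ, (ψ r : ℂ) * e (-(len p q * (X + r))) * (((X + r) ^ 2 : ℝ) : ℂ)‖
      ≤ 10 * (C₃ * X ^ 2 / len p q ^ N) := by
    rw [norm_mul, Complex.norm_real, Real.norm_eq_abs, abs_of_nonneg harea.1]
    exact mul_le_mul harea.2 hosc (norm_nonneg _) (by norm_num)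
  set S : ℂ := ∑' v : ℤ × ℤ, HH ψ (len p q) X w (1 / (8 * X * len p q))
          ((p * v.1 + q * v.2) / len p q) ((p * v.2 - q * v.1) / len p q) with hS
  set I : ℂ := ∫ z : ℝ × ℝ, HH ψ (len p q) X w (1 / (8 * X * len p q)) z.1 z.2 with hI
  set Z : ℂ := ((area (gk (1 / (8 * X * len p q)) w (ang p q)) - area 0 : ℝ) : ℂ) *
      ∫ r : ℝ, (ψ r : ℂ) * e (-(len p q * (X + r))) * (((X + r) ^ 2 : ℝ) : ℂ) with hZ
  have h1 : ‖I‖ ≤ ‖S - Z‖ + ‖S - I‖ + ‖Z‖ := by
    have : I = (S - Z) - (S - I) + Z := by ring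
    calc ‖I‖ = ‖(S - Z) - (S - I) + Z‖ := by rw [← this]
      _ ≤ ‖(S - Z) - (S - I)‖ + ‖Z‖ := norm_add_le _ _
      _ ≤ ‖S - Z‖ + ‖S - I‖ + ‖Z‖ := by linarith [norm_sub_le (S - Z) (S - I)]
  linarith

end KeyAux

theorem key (κ ω : ℝ) (hκ : 0 < κ) (h1 : 2 * κ < ω) (h2 : ω < 1 / 2) (h3 : κ < 1) :
    ∃ ψ : ℝ → ℝ, IsTest ψ ∧ ∃ c > 0, ∀ᶠ X : ℝ in atTop, ∀ p q : ℤ, 0 < p → 0 < q →
      IsCoprime p q → X ^ κ / 8 ≤ len p q → len p q ≤ X ^ κ →
      c * (X / len p q) / Real.sqrt (X * len p q) ≤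
        ‖∫ r : ℝ, (ψ r : ℂ) * e (-(len p q * (X + r))) *
          ((err (gk (1 / (8 * X * len p q)) (X ^ (-ω)) (ang p q)) (X + r)
            - err 0 (X + r) : ℝ) : ℂ)‖ := by
  obtain ⟨ψ, hψ⟩ := exists_test
  obtain ⟨c, hc, B, hmain⟩ := main_lower ψ hψ
  obtain ⟨N, hN⟩ := exists_nat_ge (max (4 / (ω - 2 * κ)) (4 / κ))
  have hd : 0 < ω - 2 * κ := by linarith
  have hω : 0 < ω := by linarith
  have hNa : 4 ≤ (N : ℝ) * (ω - 2 * κ) := by
    have := (le_max_left _ _).trans hN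
    rwa [div_le_iff₀ hd] at this
  have hNb : 4 ≤ (N : ℝ) * κ := by
    have := (le_max_right _ _).trans hN
    rwa [div_le_iff₀ hκ] at this
  have hN1 : 1 ≤ N := by
    by_contra hn
    have : N = 0 := by omega
    rw [this] at hNb
    norm_num at hNb
  obtain ⟨C₁, hC₁, hHy⟩ := HH_y ψ hψ N
  obtain ⟨C₂, hC₂, hHx⟩ := HH_x ψ hψ N
  obtain ⟨C₃, hC₃, hosc⟩ := osc_decay ψ hψ N
  refine ⟨ψ, hψ, c / 2, by positivity, ?_⟩
  have e2 : ∀ᶠ X : ℝ in atTop, 8 ≤ X ^ κ := (tendsto_rpow_atTop hκ).eventually_ge_atTop 8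
  have e3 : ∀ᶠ X : ℝ in atTop, 2 ≤ X ^ ω := (tendsto_rpow_atTop hω).eventually_ge_atTop 2
  have e4 : ∀ᶠ X : ℝ in atTop, B ≤ X ^ (1 - 2 * ω) :=
    (tendsto_rpow_atTop (by linarith)).eventually_ge_atTop B
  have e8 : ∀ᶠ X : ℝ in atTop, 6 / c ≤ X ^ ((1 - 3 * κ) / 2) :=
    (tendsto_rpow_atTop (by linarith)).eventually_ge_atTop (6 / c)
  filter_upwards [eventually_ge_atTop (4 : ℝ), e2, e3, e4, eventually_ge_atTop (32 * C₁),
    eventually_ge_atTop (8 ^ (N + 1) * C₂), eventually_ge_atTop (10 * C₃ * 8 ^ N), e8]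
    with X hX4 hX2 hX3 hXB hX5 hX6 hX7 hX8
  intro p q hp hq hpq hLlo hLhi
  set L := len p q with hL
  have hX0 : 0 < X := by linarith
  have hX1 : 1 ≤ X := by linarith
  have hL1 : 1 ≤ L := by linarith
  have hL0 : 0 < L := by linarith
  have hLX : L ≤ X := hLhi.trans (by
    calc X ^ κ ≤ X ^ (1 : ℝ) := Real.rpow_le_rpow_of_exponent_le hX1 h3.le
      _ = X := Real.rpow_one X)
  have hw0 : 0 < X ^ (-ω) := Real.rpow_pos_of_pos hX0 _
  have hw1 : X ^ (-ω) ≤ 1 / 2 := by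
    rw [Real.rpow_neg hX0.le, ← one_div]
    exact one_div_le_one_div_of_le (by norm_num) hX3
  have hLw : L ^ 2 * X ^ (-ω) ≤ X ^ (2 * κ - ω) := by
    have h5 : L ^ 2 ≤ (X ^ κ) ^ 2 := pow_le_pow_left₀ hL0.le hLhi 2
    have h6 : (X ^ κ) ^ 2 = X ^ (2 * κ) := by
      rw [← Real.rpow_natCast, ← Real.rpow_mul hX0.le]
      congr 1
      push_cast
      ring
    calc L ^ 2 * X ^ (-ω) ≤ X ^ (2 * κ) * X ^ (-ω) := by
          rw [← h6]; exact mul_le_mul_of_nonneg_right h5 hw0.le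
      _ = X ^ (2 * κ - ω) := by rw [← Real.rpow_add hX0]; congr 1
  have hLw1 : L ^ 2 * X ^ (-ω) ≤ 1 :=
    hLw.trans (Real.rpow_le_one_of_one_le_of_nonpos hX1 (by linarith))
  have hXw : X * (X ^ (-ω)) ^ 2 = X ^ (1 - 2 * ω) := by
    rw [← Real.rpow_natCast, ← Real.rpow_mul hX0.le]
    nth_rewrite 1 [← Real.rpow_one X]
    rw [← Real.rpow_add hX0]
    congr 1
    push_cast
    ring
  have hXw1 : 1 ≤ X * (X ^ (-ω)) ^ 2 := by
    rw [hXw]
    exact Real.one_le_rpow hX1 (by linarith)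
  have hPar : Par X L (X ^ (-ω)) := ⟨hX4, hL1, hLX, hw0, hw1, hLw1, hXw1⟩
  have hXLw : B ≤ X * L * (X ^ (-ω)) ^ 2 := by
    calc B ≤ X ^ (1 - 2 * ω) := hXB
      _ = X * (X ^ (-ω)) ^ 2 := hXw.symm
      _ = X * 1 * (X ^ (-ω)) ^ 2 := by ring
      _ ≤ X * L * (X ^ (-ω)) ^ 2 := by
          apply mul_le_mul_of_nonneg_right _ (sq_nonneg _)
          exact mul_le_mul_of_nonneg_left hL1 hX0.le
  have hone := key_one ψ hψ N hN1 c C₁ C₂ C₃ p q hp hpq X (X ^ (-ω)) hPar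
    (hmain X L (X ^ (-ω)) hPar hXLw)
    (fun x => hHy X L (X ^ (-ω)) x hPar) (fun y => hHx X L (X ^ (-ω)) y hPar)
    (hosc X L hX1 hL1)
  rw [← hL] at hone
  refine le_trans ?_ hone
  -- powers
  have hX4' : X ^ (-(4 : ℝ)) = (X ^ 4)⁻¹ := by
    rw [Real.rpow_neg hX0.le]
    congr 1
    norm_cast
  have hpw1 : (L ^ 2 * X ^ (-ω)) ^ N ≤ (X ^ 4)⁻¹ := by
    calc (L ^ 2 * X ^ (-ω)) ^ N ≤ (X ^ (2 * κ - ω)) ^ N :=
          pow_le_pow_left₀ (by positivity) hLw N
      _ = X ^ ((2 * κ - ω) * N) := by rw [← Real.rpow_natCast, ← Real.rpow_mul hX0.le]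
      _ ≤ X ^ (-(4 : ℝ)) := Real.rpow_le_rpow_of_exponent_le hX1 (by nlinarith)
      _ = (X ^ 4)⁻¹ := hX4'
  have hpw2 : (1 / L) ^ N ≤ 8 ^ N * (X ^ 4)⁻¹ := by
    have h5 : 1 / L ≤ 8 * X ^ (-κ) := by
      rw [Real.rpow_neg hX0.le, div_le_iff₀ hL0]
      have : 0 < X ^ κ := Real.rpow_pos_of_pos hX0 _
      have h6 : 1 = 8 * (X ^ κ)⁻¹ * (X ^ κ / 8) := by field_simp
      calc (1 : ℝ) = 8 * (X ^ κ)⁻¹ * (X ^ κ / 8) := h6
        _ ≤ 8 * (X ^ κ)⁻¹ * L := by
            apply mul_le_mul_of_nonneg_left hLlo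
            positivity
    calc (1 / L) ^ N ≤ (8 * X ^ (-κ)) ^ N := pow_le_pow_left₀ (by positivity) h5 N
      _ = 8 ^ N * X ^ ((-κ) * N) := by
          rw [mul_pow, ← Real.rpow_natCast (X ^ (-κ)), ← Real.rpow_mul hX0.le]
      _ ≤ 8 ^ N * X ^ (-(4 : ℝ)) := by
          apply mul_le_mul_of_nonneg_left _ (by positivity)
          exact Real.rpow_le_rpow_of_exponent_le hX1 (by nlinarith)
      _ = 8 ^ N * (X ^ 4)⁻¹ := by rw [hX4']
  -- error 1
  have her1 : (L * (X + 2 - 0) + 1) *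
      (L ^ N * (C₁ * (L * X ^ (-ω)) ^ N) * (2 * (X + 2) + 2 * L)) ≤ 1 := by
    have h5 : L ^ N * (C₁ * (L * X ^ (-ω)) ^ N) = C₁ * (L ^ 2 * X ^ (-ω)) ^ N := by
      have : L ^ 2 * X ^ (-ω) = L * (L * X ^ (-ω)) := by ring
      rw [this, mul_pow L]
      ring
    rw [h5]
    have h6 : L * (X + 2 - 0) + 1 ≤ 4 * X ^ 2 := by nlinarith
    have h7 : 2 * (X + 2) + 2 * L ≤ 8 * X := by linarith
    have h8 : C₁ * (L ^ 2 * X ^ (-ω)) ^ N ≤ C₁ * (X ^ 4)⁻¹ := mul_le_mul_of_nonneg_left hpw1 hC₁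
    calc (L * (X + 2 - 0) + 1) * (C₁ * (L ^ 2 * X ^ (-ω)) ^ N * (2 * (X + 2) + 2 * L))
        ≤ (4 * X ^ 2) * (C₁ * (X ^ 4)⁻¹ * (8 * X)) := by
          apply mul_le_mul h6 _ (by positivity) (by positivity)
          exact mul_le_mul h8 h7 (by positivity) (by positivity)
      _ = 32 * C₁ / X := by field_simp; ring
      _ ≤ 1 := by rw [div_le_one hX0]; exact hX5
  -- error 2
  have her2 : 2 * (X + 2) * ((1 / L) ^ N * C₂ * (X + 2 - 0 + 2)) ≤ 1 := by
    have h6 : 2 * (X + 2) ≤ 4 * X := by linarith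
    have h7 : X + 2 - 0 + 2 ≤ 2 * X := by linarith
    calc 2 * (X + 2) * ((1 / L) ^ N * C₂ * (X + 2 - 0 + 2))
        ≤ (4 * X) * ((8 ^ N * (X ^ 4)⁻¹) * C₂ * (2 * X)) := by
          apply mul_le_mul h6 _ (mul_nonneg (mul_nonneg (by positivity) hC₂) (by linarith))
            (by positivity)
          apply mul_le_mul _ h7 (by linarith) (by positivity)
          exact mul_le_mul_of_nonneg_right hpw2 hC₂
      _ = 8 ^ (N + 1) * C₂ / X ^ 2 := by field_simp; ring
      _ ≤ 1 := by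
          rw [div_le_one (by positivity)]
          nlinarith
  -- error 3
  have her3 : 10 * (C₃ * X ^ 2 / L ^ N) ≤ 1 := by
    have h5 : C₃ * X ^ 2 / L ^ N = C₃ * X ^ 2 * (1 / L) ^ N := by
      rw [one_div, inv_pow]; rfl
    rw [h5]
    calc 10 * (C₃ * X ^ 2 * (1 / L) ^ N) ≤ 10 * (C₃ * X ^ 2 * (8 ^ N * (X ^ 4)⁻¹)) := by
          apply mul_le_mul_of_nonneg_left _ (by norm_num)
          exact mul_le_mul_of_nonneg_left hpw2 (by positivity)
      _ = 10 * C₃ * 8 ^ N / X ^ 2 := by field_simp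
      _ ≤ 1 := by
          rw [div_le_one (by positivity)]
          nlinarith
  -- main term
  have hM : X ^ ((1 - 3 * κ) / 2) ≤ (X / L) / Real.sqrt (X * L) := by
    have h5 : X ^ (1 - κ) ≤ X / L := by
      rw [Real.rpow_sub hX0, Real.rpow_one]
      exact div_le_div_of_nonneg_left hX0.le hL0 hLhi
    have h6 : Real.sqrt (X * L) ≤ X ^ ((1 + κ) / 2) := by
      have h7 : X * L ≤ X ^ (1 + κ) := by
        rw [Real.rpow_add hX0, Real.rpow_one]
        exact mul_le_mul_of_nonneg_left hLhi hX0.le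
      have h8 : X ^ ((1 + κ) / 2) = Real.sqrt (X ^ (1 + κ)) := by
        rw [Real.sqrt_eq_rpow, ← Real.rpow_mul hX0.le]
        congr 1
        ring
      rw [h8]
      exact Real.sqrt_le_sqrt h7
    have h9 : 0 < Real.sqrt (X * L) := Real.sqrt_pos.mpr (by positivity)
    rw [le_div_iff₀ h9]
    calc X ^ ((1 - 3 * κ) / 2) * Real.sqrt (X * L)
        ≤ X ^ ((1 - 3 * κ) / 2) * X ^ ((1 + κ) / 2) := by
          apply mul_le_mul_of_nonneg_left h6 (Real.rpow_nonneg hX0.le _)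
      _ = X ^ (1 - κ) := by rw [← Real.rpow_add hX0]; congr 1; ring
      _ ≤ X / L := h5
  have hM6 : 6 ≤ c * ((X / L) / Real.sqrt (X * L)) := by
    have := hX8.trans hM
    rw [div_le_iff₀ hc] at this
    linarith
  have h10 : c * (X / L) / Real.sqrt (X * L) = c * ((X / L) / Real.sqrt (X * L)) := by ring
  have h11 : c / 2 * (X / L) / Real.sqrt (X * L) = (c * ((X / L) / Real.sqrt (X * L))) / 2 := by
    ring
  rw [h10, h11]
  linarith

end Pool.Agent.Helper92.CS
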