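import Pool.Agent.Helper92.CS.Defs

/-!
CS-ManyDirs (project CS, MP_fb29e9_nt; README: /team-store/h92_CS_README.md). About ~200 lines.

PROOF. c = tan b - tan a > 0, tan b <= tan (1/2) < 1. For every prime p in (K/8, K/2] and every integer q with p tan a < q < p tan b: 0 < q < p, so IsCoprime p q (p prime does not divide q), p <= len <= p sqrt 2 <= K, len >= p >= K/8,
ang in (a,b). Different (p,q) are different pairs. For each p at least p c - 1 >= c K/8 - 1 values of q (>= c K/16 for K large). Number of primes in (K/8, K/2]: theta(K/2) - theta(K/8) >= (K/2) log 2 - o(K) - log 4 * K/8 = (K/4) log 2 - o(K)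
(Mathlib/NumberTheory/Chebyshev.lean: theta_ge', theta_le_log4_mul_x), each prime contributes log p <= log K: at least c' K / log K primes. So card >= c'' K^2/log K >= K^(2-eta) for K large.
-/

open MeasureTheory Set Filter Topology

noncomputable section

namespace Pool.Agent.Helper92.CS

private lemma theta_lower : ∀ᶠ x : ℝ in atTop, (6 / 10) * x ≤ Chebyshev.theta x := by
  have h1 := (isLittleO_log_rpow_atTop (r := 1 / 2) (by norm_num)).bound
    (c := 1 / 100) (by norm_num)
  have h2 := Real.isLittleO_log_id_atTop.bound (c := 1 / 100) (by norm_num)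
  have h3 : ∀ᶠ x : ℝ in atTop, ‖Real.log (x + 2)‖ ≤ 1 / 100 * ‖id (x + 2)‖ :=
    (tendsto_atTop_add_const_right atTop 2 tendsto_id).eventually h2
  filter_upwards [h1, h3, eventually_ge_atTop (100 : ℝ)] with x hx1 hx2 hx3
  have hx0 : 0 ≤ x := by linarith
  have hth := Chebyshev.theta_ge' (x := x) (by linarith)
  rw [Real.norm_eq_abs, Real.norm_eq_abs, ← Real.sqrt_eq_rpow,
    abs_of_nonneg (Real.sqrt_nonneg x)] at hx1
  have hl1 : Real.log x ≤ 1 / 100 * Real.sqrt x := (le_abs_self _).trans hx1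
  rw [Real.norm_eq_abs, Real.norm_eq_abs] at hx2
  have hl2 : Real.log (x + 2) ≤ 1 / 100 * (x + 2) := by
    refine (le_abs_self _).trans (hx2.trans_eq ?_)
    simp only [id]
    rw [abs_of_nonneg (by linarith)]
  have h5 : 2 * Real.sqrt x * Real.log x ≤ 1 / 50 * x := by
    have hs := Real.mul_self_sqrt hx0
    nlinarith [Real.sqrt_nonneg x]
  have hlog2 : (0.69 : ℝ) < Real.log 2 := by
    have := Real.log_two_gt_d9
    linarith
  have h6 : (x - 1) * 0.69 ≤ (x - 1) * Real.log 2 := by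
    apply mul_le_mul_of_nonneg_left hlog2.le (by linarith)
  linarith

/-- The primes in `(K/8, K/2]`. -/
private def Pr (K : ℝ) : Finset ℕ := {p ∈ Finset.Ioc ⌊K / 8⌋₊ ⌊K / 2⌋₊ | p.Prime}

private lemma card_Pr : ∀ᶠ K : ℝ in atTop, K / 10 ≤ ((Pr K).card : ℝ) * Real.log K := by
  have h1 : ∀ᶠ K : ℝ in atTop, (6 / 10) * (K / 2) ≤ Chebyshev.theta (K / 2) := by
    have ht : Tendsto (fun K : ℝ => K / 2) atTop atTop :=
      tendsto_id.atTop_div_const (by norm_num)
    exact ht.eventually theta_lower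
  filter_upwards [h1, eventually_ge_atTop (100 : ℝ)] with K hK hK1
  have h2 := Chebyshev.theta_le_log4_mul_x (x := K / 8) (by linarith)
  have hlog4 : Real.log 4 ≤ 1.4 := by
    have h : Real.log 4 = 2 * Real.log 2 := by
      rw [show (4 : ℝ) = 2 ^ 2 by norm_num, Real.log_pow]; norm_num
    rw [h]
    have := Real.log_two_lt_d9
    linarith
  have h3 : Chebyshev.theta (K / 8) ≤ 1.4 * (K / 8) := by
    refine h2.trans ?_
    apply mul_le_mul_of_nonneg_right hlog4 (by linarith)
  have hfl : ⌊K / 8⌋₊ ≤ ⌊K / 2⌋₊ := Nat.floor_le_floor (by linarith)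
  have h4 : Chebyshev.theta (K / 2) - Chebyshev.theta (K / 8)
      = ∑ p ∈ Pr K, Real.log p := by
    unfold Chebyshev.theta Pr
    have hd : Disjoint (Finset.filter Nat.Prime (Finset.Ioc 0 ⌊K / 8⌋₊))
        (Finset.filter Nat.Prime (Finset.Ioc ⌊K / 8⌋₊ ⌊K / 2⌋₊)) := by
      rw [Finset.disjoint_left]
      intro p hp hp'
      simp only [Finset.mem_filter, Finset.mem_Ioc] at hp hp'
      omega
    have hu : Finset.filter Nat.Prime (Finset.Ioc 0 ⌊K / 2⌋₊)
        = (Finset.filter Nat.Prime (Finset.Ioc 0 ⌊K / 8⌋₊)) ∪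
        (Finset.filter Nat.Prime (Finset.Ioc ⌊K / 8⌋₊ ⌊K / 2⌋₊)) := by
      ext p
      simp only [Finset.mem_filter, Finset.mem_Ioc, Finset.mem_union]
      constructor
      · rintro ⟨⟨h1, h2⟩, h3⟩
        rcases le_or_gt p ⌊K / 8⌋₊ with h | h
        · exact Or.inl ⟨⟨h1, h⟩, h3⟩
        · exact Or.inr ⟨⟨h, h2⟩, h3⟩
      · rintro (⟨⟨h1, h2⟩, h3⟩ | ⟨⟨h1, h2⟩, h3⟩)
        · exact ⟨⟨h1, h2.trans hfl⟩, h3⟩
        · exact ⟨⟨by omega, h2⟩, h3⟩
    rw [hu, Finset.sum_union hd]
    ring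
  have h5 : ∑ p ∈ Pr K, Real.log p ≤ ((Pr K).card : ℝ) * Real.log K := by
    have : ∑ p ∈ Pr K, Real.log p ≤ (Pr K).card • Real.log K := by
      apply Finset.sum_le_card_nsmul
      intro p hp
      simp only [Pr, Finset.mem_filter, Finset.mem_Ioc] at hp
      have hp0 : 0 < p := hp.2.pos
      have hpK : (p : ℝ) ≤ K / 2 := (Nat.le_floor_iff (by linarith)).mp hp.1.2
      exact Real.log_le_log (by exact_mod_cast hp0) (by linarith)
    simpa using this
  linarith

/-- The admissible `q` for a given `p`. -/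
private def Qs (a b : ℝ) (p : ℕ) : Finset ℤ :=
  Finset.Ioo ⌊(p : ℝ) * Real.tan a⌋ ⌈(p : ℝ) * Real.tan b⌉

private lemma card_Qs (a b : ℝ) (p : ℕ) :
    (p : ℝ) * (Real.tan b - Real.tan a) - 1 ≤ ((Qs a b p).card : ℝ) := by
  unfold Qs
  rw [Int.card_Ioo]
  have h1 := Int.le_ceil ((p : ℝ) * Real.tan b)
  have h2 := Int.floor_le ((p : ℝ) * Real.tan a)
  have h3 : ((⌈(p : ℝ) * Real.tan b⌉ - ⌊(p : ℝ) * Real.tan a⌋ - 1 : ℤ) : ℝ)
      ≤ (((⌈(p : ℝ) * Real.tan b⌉ - ⌊(p : ℝ) * Real.tan a⌋ - 1).toNat : ℤ) : ℝ) := by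
    exact_mod_cast Int.self_le_toNat _
  push_cast at h3
  have h4 : (p : ℝ) * (Real.tan b - Real.tan a) - 1
      ≤ (⌈(p : ℝ) * Real.tan b⌉ : ℝ) - (⌊(p : ℝ) * Real.tan a⌋ : ℝ) - 1 := by
    have : (p : ℝ) * (Real.tan b - Real.tan a) = p * Real.tan b - p * Real.tan a := by ring
    rw [this]
    linarith
  exact h4.trans h3

/-- The set of directions. -/
private def Dirs (a b K : ℝ) : Finset (ℤ × ℤ) :=
  ((Pr K).sigma (Qs a b)).map
    ⟨fun x => ((x.1 : ℤ), x.2), by
      rintro ⟨p, q⟩ ⟨p', q'⟩ h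
      simp only [Prod.mk.injEq, Nat.cast_inj] at h
      obtain ⟨h1, h2⟩ := h
      subst h1
      subst h2
      rfl⟩

private lemma tan_half_lt_one : Real.tan (1 / 2) < 1 := by
  have h : Real.tan (1 / 2) < Real.tan (Real.pi / 4) := by
    apply Real.tan_lt_tan_of_lt_of_lt_pi_div_two
    · have := Real.pi_pos; linarith
    · have := Real.pi_pos; linarith
    · have := Real.pi_gt_three; linarith
  rwa [Real.tan_pi_div_four] at h

theorem many_dirs (a b : ℝ) (ha : 0 < a) (hab : a < b) (hb : b ≤ 1 / 2) (η : ℝ) (hη : 0 < η) :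
    ∀ᶠ K : ℝ in atTop, ∃ S : Finset (ℤ × ℤ),
      (∀ k ∈ S, 0 < k.1 ∧ 0 < k.2 ∧ IsCoprime k.1 k.2 ∧ K / 8 ≤ len k.1 k.2 ∧
        len k.1 k.2 ≤ K ∧ a < ang k.1 k.2 ∧ ang k.1 k.2 < b) ∧
      K ^ (2 - η) ≤ (S.card : ℝ) := by
  have hpi3 := Real.pi_gt_three
  have hc : 0 < Real.tan b - Real.tan a := by
    have := Real.tan_lt_tan_of_lt_of_lt_pi_div_two (x := a) (y := b) (by linarith)
      (by linarith) hab
    linarith
  have hta : 0 < Real.tan a := Real.tan_pos_of_pos_of_lt_pi_div_two ha (by linarith)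
  have htb : Real.tan b < 1 := by
    rcases hb.lt_or_eq with h | h
    · have := Real.tan_lt_tan_of_lt_of_lt_pi_div_two (x := b) (y := 1 / 2) (by linarith)
        (by linarith) h
      exact this.trans tan_half_lt_one
    · rw [h]; exact tan_half_lt_one
  set c := Real.tan b - Real.tan a with hcdef
  have hlog := (isLittleO_log_rpow_atTop hη).bound (c := c / 160) (by positivity)
  filter_upwards [card_Pr, hlog, eventually_ge_atTop (100 : ℝ),
    eventually_ge_atTop (16 / c)] with K hPr hlogK hK1 hKc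
  have hK0 : 0 < K := by linarith
  refine ⟨Dirs a b K, ?_, ?_⟩
  · rintro ⟨k1, k2⟩ hk
    simp only [Dirs, Finset.mem_map, Finset.mem_sigma] at hk
    obtain ⟨⟨p, q⟩, ⟨hp, hq⟩, h12⟩ := hk
    have h1 : (p : ℤ) = k1 := congrArg Prod.fst h12
    have h2 : q = k2 := congrArg Prod.snd h12
    simp only at hp hq
    subst h1
    subst h2
    simp only [Pr, Finset.mem_filter, Finset.mem_Ioc] at hp
    obtain ⟨⟨hp1, hp2⟩, hpp⟩ := hp
    have hp0 : 0 < p := hpp.pos
    have hpR : (0 : ℝ) < p := by exact_mod_cast hp0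
    have hpK : (p : ℝ) ≤ K / 2 := (Nat.le_floor_iff (by linarith)).mp hp2
    have hpK' : K / 8 < (p : ℝ) := (Nat.floor_lt (by linarith)).mp hp1
    simp only [Qs, Finset.mem_Ioo, Int.floor_lt, Int.lt_ceil] at hq
    obtain ⟨hq1, hq2⟩ := hq
    have hqR : (0 : ℝ) < q := lt_trans (by positivity) hq1
    have hq0 : 0 < q := by exact_mod_cast hqR
    have hqp : (q : ℝ) < p := by nlinarith
    have hqpZ : q < (p : ℤ) := by exact_mod_cast hqp
    have hcop : IsCoprime (p : ℤ) q := by
      rw [Int.isCoprime_iff_gcd_eq_one]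
      have hnd : ¬ (p ∣ q.natAbs) := by
        intro hdvd
        have := Nat.le_of_dvd (by omega) hdvd
        omega
      have := (Nat.Prime.coprime_iff_not_dvd hpp).mpr hnd
      unfold Int.gcd
      simpa using this
    have hpZ : (0 : ℤ) < (p : ℤ) := by exact_mod_cast hp0
    refine ⟨hpZ, hq0, hcop, ?_, ?_, ?_, ?_⟩
    · simp only [len]
      refine hpK'.le.trans ?_
      apply Real.le_sqrt_of_sq_le
      push_cast
      nlinarith [sq_nonneg (q : ℝ)]
    · simp only [len]
      rw [Real.sqrt_le_left hK0.le]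
      push_cast
      nlinarith [hqp, hqR, hpR]
    · simp only [ang]
      rw [← Real.arctan_tan (x := a) (by linarith) (by linarith)]
      apply Real.arctan_strictMono
      rw [lt_div_iff₀ (by push_cast; exact hpR)]
      push_cast
      linarith
    · simp only [ang]
      rw [← Real.arctan_tan (x := b) (by linarith) (by linarith)]
      apply Real.arctan_strictMono
      rw [div_lt_iff₀ (by push_cast; exact hpR)]
      push_cast
      linarith
  · have hcard : ((Dirs a b K).card : ℝ) = ∑ p ∈ Pr K, ((Qs a b p).card : ℝ) := by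
      unfold Dirs
      rw [Finset.card_map, Finset.card_sigma]
      push_cast
      rfl
    have hlow : ((Pr K).card : ℝ) * (c * K / 16) ≤ ((Dirs a b K).card : ℝ) := by
      rw [hcard]
      have : (Pr K).card • (c * K / 16) ≤ ∑ p ∈ Pr K, ((Qs a b p).card : ℝ) := by
        apply Finset.card_nsmul_le_sum
        intro p hp
        simp only [Pr, Finset.mem_filter, Finset.mem_Ioc] at hp
        obtain ⟨⟨hp1, hp2⟩, hpp⟩ := hp
        have hpK' : K / 8 < (p : ℝ) := (Nat.floor_lt (by linarith)).mp hp1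
        have h1 := card_Qs a b p
        have h2 : K / 8 * c ≤ (p : ℝ) * c := mul_le_mul_of_nonneg_right hpK'.le hc.le
        have h3 : 1 ≤ c * K / 16 := by
          rw [div_le_iff₀ hc] at hKc
          linarith
        rw [← hcdef] at h1
        linarith
      simpa using this
    have hlogpos : 0 < Real.log K := Real.log_pos (by linarith)
    have hKη : 0 < K ^ η := Real.rpow_pos_of_pos hK0 η
    rw [Real.norm_eq_abs, Real.norm_eq_abs, abs_of_pos hlogpos, abs_of_pos hKη] at hlogK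
    have hPr0 : K / 10 ≤ ((Pr K).card : ℝ) * (c / 160 * K ^ η) :=
      hPr.trans (mul_le_mul_of_nonneg_left hlogK (Nat.cast_nonneg _))
    have h7 : K ^ 2 ≤ (((Pr K).card : ℝ) * (c * K / 16)) * K ^ η := by
      have := mul_le_mul_of_nonneg_right hPr0 (by linarith : (0 : ℝ) ≤ 10 * K)
      nlinarith
    have h8 : K ^ (2 - η) * K ^ η = K ^ 2 := by
      rw [← Real.rpow_add hK0]
      norm_num
    have h9 : K ^ (2 - η) ≤ ((Pr K).card : ℝ) * (c * K / 16) := by
      rw [← h8] at h7
      exact le_of_mul_le_mul_right h7 hKη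
    exact h9.trans hlow

end Pool.Agent.Helper92.CS
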