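import Pool.Agent.Helper92.CS.Defs
import Pool.Agent.Helper92.CS.ErrSum
import Pool.Agent.Helper92.CS.CountMono
import Pool.Agent.Helper92.CS.GkBasic
import Pool.Agent.Helper92.CS.GkDeriv
import Pool.Agent.Helper92.CS.AngleClose
import Pool.Agent.Helper92.CS.AngSep
import Pool.Agent.Helper92.CS.ManyDirs
import Pool.Agent.Helper92.CS.Key

/-!
CS-Stage (project CS, MP_fb29e9_nt): one stage of the construction.
-/

open MeasureTheory Set Filter Topology

noncomputable section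

namespace Pool.Agent.Helper92.CS

/-- Closed version of `angle_close`. -/
theorem angle_close' (w φ₀ φ : ℝ) (hw : 0 < w) (hw1 : w ≤ 1 / 2) (h0 : 0 < φ₀) (h1 : φ₀ < 1)
    (hφ : φ ∈ Ioc (-Real.pi) Real.pi) (h : 1 - Real.cos (φ - φ₀) ≤ w ^ 2 / 2) :
    |φ - φ₀| < 4 * w := by
  have := angle_close (2 * w) φ₀ φ (by linarith) (by linarith) h0 h1 hφ (by nlinarith)
  linarith

theorem gk_loc_zero (α w φ₀ φ : ℝ) (hα : 0 ≤ α) (hα1 : α ≤ 1 / 2) (hw : 0 < w)
    (h : w ^ 2 / 2 < 1 - Real.cos (φ - φ₀)) (j : ℕ) : iteratedDeriv j (gk α w φ₀) φ = 0 := by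
  have hev : gk α w φ₀ =ᶠ[𝓝 φ] fun _ => 0 := by
    have hc : ContinuousAt (fun φ => 1 - Real.cos (φ - φ₀)) φ := by fun_prop
    have := hc.eventually (lt_mem_nhds h)
    filter_upwards [this] with x hx
    exact (gk_basic α w φ₀ hα hα1 hw).2.2.2 x hx.le
  rw [Filter.EventuallyEq.iteratedDeriv_eq j hev]
  rcases j with _ | j
  · simp
  · rw [iteratedDeriv_const]
    simp

/-- Data of one stage: the directions and the bumps. -/
theorem stage_bumps (s : ℕ) (a b δ κ ω : ℝ) (ha : 0 < a) (hab : a < b) (hb : b ≤ 1 / 2)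
    (hδ : 0 < δ) (hκ : 0 < κ) (h1 : 2 * κ < ω) (h2 : ω * s < 1 + κ) :
    ∀ᶠ X : ℝ in atTop, ∀ S : Finset (ℤ × ℤ),
      (∀ k ∈ S, 0 < k.1 ∧ 0 < k.2 ∧ IsCoprime k.1 k.2 ∧ X ^ κ / 8 ≤ len k.1 k.2 ∧
        len k.1 k.2 ≤ X ^ κ ∧ a + (b - a) / 4 < ang k.1 k.2 ∧ ang k.1 k.2 < b - (b - a) / 4) →
      (∀ k ∈ S, ∀ k' ∈ S, k ≠ k' → ∀ φ ∈ Ioc (-Real.pi) Real.pi,
        gk (1 / (8 * X * len k.1 k.2)) (X ^ (-ω)) (ang k.1 k.2) φ = 0 ∨
        gk (1 / (8 * X * len k'.1 k'.2)) (X ^ (-ω)) (ang k'.1 k'.2) φ = 0) ∧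
      (∀ k ∈ S, Continuous (gk (1 / (8 * X * len k.1 k.2)) (X ^ (-ω)) (ang k.1 k.2)) ∧
        ∀ φ, 0 ≤ gk (1 / (8 * X * len k.1 k.2)) (X ^ (-ω)) (ang k.1 k.2) φ) ∧
      ∀ T ⊆ S, Adm s δ a b
        (fun φ => ∑ k ∈ T, gk (1 / (8 * X * len k.1 k.2)) (X ^ (-ω)) (ang k.1 k.2) φ) := by
  obtain ⟨C, hC0, hC⟩ := gk_deriv s
  have hω : 0 < ω := by linarith
  -- eventual conditions
  have e1 : ∀ᶠ X : ℝ in atTop, X ^ (-ω) ≤ 1 / 2 :=
    (tendsto_rpow_neg_atTop hω).eventually (Iic_mem_nhds (by norm_num))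
  have e2 : ∀ᶠ X : ℝ in atTop, 4 * X ^ (-ω) ≤ (b - a) / 4 := by
    have := (tendsto_rpow_neg_atTop hω).const_mul 4
    rw [mul_zero] at this
    exact this.eventually (Iic_mem_nhds (by linarith))
  have e3 : ∀ᶠ X : ℝ in atTop, 8 * X ^ (2 * κ - ω) ≤ 1 / 2 := by
    have := (tendsto_rpow_neg_atTop (y := ω - 2 * κ) (by linarith)).const_mul 8
    rw [mul_zero] at this
    have h := this.eventually (Iic_mem_nhds (show (0:ℝ) < 1/2 by norm_num))
    filter_upwards [h] with X hX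
    have : -(ω - 2 * κ) = 2 * κ - ω := by ring
    rw [← this]; exact hX
  have e4 : ∀ᶠ X : ℝ in atTop, C * X ^ (ω * s - (1 + κ)) ≤ δ := by
    have := (tendsto_rpow_neg_atTop (y := (1 + κ) - ω * s) (by linarith)).const_mul C
    rw [mul_zero] at this
    have h := this.eventually (Iic_mem_nhds hδ)
    filter_upwards [h] with X hX
    have : -((1 + κ) - ω * s) = ω * s - (1 + κ) := by ring
    rw [← this]; exact hX
  have e5 : ∀ᶠ X : ℝ in atTop, (8:ℝ) ≤ X ^ κ :=
    (tendsto_rpow_atTop hκ).eventually (eventually_ge_atTop 8)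
  filter_upwards [e1, e2, e3, e4, e5, eventually_ge_atTop 4] with X e1 e2 e3 e4 e5 e6
  intro S hS
  have hX0 : 0 < X := by linarith
  set w : ℝ := X ^ (-ω) with hw
  have hw0 : 0 < w := Real.rpow_pos_of_pos hX0 _
  have hlen1 : ∀ k ∈ S, 1 ≤ len k.1 k.2 := by
    intro k hk
    have := (hS k hk).2.2.2.1
    linarith
  have hα0 : ∀ k ∈ S, 0 ≤ 1 / (8 * X * len k.1 k.2) := by
    intro k hk
    have := hlen1 k hk
    positivity
  have hα1 : ∀ k ∈ S, 1 / (8 * X * len k.1 k.2) ≤ 1 / 2 := by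
    intro k hk
    have h := hlen1 k hk
    apply one_div_le_one_div_of_le (by norm_num)
    nlinarith
  have hang : ∀ k ∈ S, 0 < ang k.1 k.2 ∧ ang k.1 k.2 < 1 := by
    intro k hk
    obtain ⟨_, _, _, _, _, h6, h7⟩ := hS k hk
    constructor <;> linarith
  -- separation
  have hsep : ∀ k ∈ S, ∀ k' ∈ S, k ≠ k' → 8 * w < |ang k.1 k.2 - ang k'.1 k'.2| := by
    intro k hk k' hk' hne
    obtain ⟨p1, p2, p3, p4, p5, p6, p7⟩ := hS k hk
    obtain ⟨q1, q2, q3, q4, q5, q6, q7⟩ := hS k' hk'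
    have h := ang_sep k.1 k.2 k'.1 k'.2 p1 p2 q1 q2 p3 q3 (by simpa using hne)
    refine lt_of_lt_of_le ?_ h
    have hl := hlen1 k hk
    have hl' := hlen1 k' hk'
    have hprod : len k.1 k.2 * len k'.1 k'.2 ≤ X ^ κ * X ^ κ :=
      mul_le_mul p5 q5 (by linarith) (by positivity)
    rw [lt_div_iff₀ (by positivity)]
    calc 8 * w * (len k.1 k.2 * len k'.1 k'.2) ≤ 8 * w * (X ^ κ * X ^ κ) := by gcongr
      _ = 8 * X ^ (2 * κ - ω) := by
        rw [hw, ← Real.rpow_add hX0, mul_assoc, ← Real.rpow_add hX0]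
        congr 2; ring
      _ < 1 := by linarith
  have hdisj : ∀ k ∈ S, ∀ k' ∈ S, k ≠ k' → ∀ φ ∈ Ioc (-Real.pi) Real.pi,
      ¬ (1 - Real.cos (φ - ang k.1 k.2) ≤ w ^ 2 / 2 ∧
        1 - Real.cos (φ - ang k'.1 k'.2) ≤ w ^ 2 / 2) := by
    rintro k hk k' hk' hne φ hφ ⟨h, h'⟩
    have c1 := angle_close' w _ φ hw0 e1 (hang k hk).1 (hang k hk).2 hφ h
    have c2 := angle_close' w _ φ hw0 e1 (hang k' hk').1 (hang k' hk').2 hφ h'
    have c3 := hsep k hk k' hk' hne
    have : |ang k.1 k.2 - ang k'.1 k'.2| ≤ |φ - ang k.1 k.2| + |φ - ang k'.1 k'.2| := by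
      have := abs_sub (φ - ang k'.1 k'.2) (φ - ang k.1 k.2)
      have h2 : (φ - ang k'.1 k'.2) - (φ - ang k.1 k.2) = ang k.1 k.2 - ang k'.1 k'.2 := by ring
      rw [h2] at this
      linarith
    linarith
  refine ⟨?_, ?_, ?_⟩
  · intro k hk k' hk' hne φ hφ
    by_contra hcon
    push Not at hcon
    apply hdisj k hk k' hk' hne φ hφ
    constructor
    · by_contra hc
      push Not at hc
      exact hcon.1 ((gk_basic _ w _ (hα0 k hk) (hα1 k hk) hw0).2.2.2 φ hc.le)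
    · by_contra hc
      push Not at hc
      exact hcon.2 ((gk_basic _ w _ (hα0 k' hk') (hα1 k' hk') hw0).2.2.2 φ hc.le)
  · intro k hk
    obtain ⟨b1, b2, b3, b4⟩ := gk_basic _ w (ang k.1 k.2) (hα0 k hk) (hα1 k hk) hw0
    exact ⟨b1.continuous, fun φ => (b3 φ).1⟩
  · intro T hT
    refine ⟨?_, ?_, ?_, ?_, ?_⟩
    · intro φ
      refine Finset.sum_congr rfl fun k hk => ?_
      exact (gk_basic _ w (ang k.1 k.2) (hα0 k (hT hk)) (hα1 k (hT hk)) hw0).2.1 φ
    · exact ContDiff.sum fun k hk =>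
        (gk_basic _ w (ang k.1 k.2) (hα0 k (hT hk)) (hα1 k (hT hk)) hw0).1
    · intro φ
      exact Finset.sum_nonneg fun k hk =>
        ((gk_basic _ w (ang k.1 k.2) (hα0 k (hT hk)) (hα1 k (hT hk)) hw0).2.2.1 φ).1
    · intro φ hφ hn
      refine Finset.sum_eq_zero fun k hk => ?_
      obtain ⟨_, _, _, _, _, h6, h7⟩ := hS k (hT hk)
      apply (gk_basic _ w (ang k.1 k.2) (hα0 k (hT hk)) (hα1 k (hT hk)) hw0).2.2.2 φ
      by_contra hc
      push Not at hc
      have c1 := angle_close' w _ φ hw0 e1 (hang k (hT hk)).1 (hang k (hT hk)).2 hφ hc.le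
      rw [abs_lt] at c1
      apply hn
      constructor <;> linarith [c1.1, c1.2]
    · intro j hj φ
      have hsm : ∀ k ∈ T, ContDiff ℝ (⊤ : ℕ∞)
          (gk (1 / (8 * X * len k.1 k.2)) w (ang k.1 k.2)) := fun k hk =>
        (gk_basic _ w (ang k.1 k.2) (hα0 k (hT hk)) (hα1 k (hT hk)) hw0).1
      have hbd : ∀ k ∈ T, ∀ φ,
          |iteratedDeriv j (gk (1 / (8 * X * len k.1 k.2)) w (ang k.1 k.2)) φ| ≤ δ := by
        intro k hk φ
        refine (hC _ w (ang k.1 k.2) (hα0 k (hT hk)) (hα1 k (hT hk)) hw0 (by linarith) j hj φ).trans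
          ?_
        refine le_trans ?_ e4
        rw [mul_assoc]
        refine mul_le_mul_of_nonneg_left ?_ hC0
        have hl := (hS k (hT hk)).2.2.2.1
        have hK : 0 < X ^ κ := Real.rpow_pos_of_pos hX0 _
        have h8 : 1 / (8 * X * len k.1 k.2) ≤ X ^ (-(1 + κ)) := by
          rw [Real.rpow_neg hX0.le, ← one_div]
          apply one_div_le_one_div_of_le (by positivity)
          rw [Real.rpow_add hX0, Real.rpow_one]
          nlinarith
        have h9 : (1 / w) ^ s = X ^ (ω * s) := by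
          rw [hw, Real.rpow_neg hX0.le, one_div, inv_inv, ← Real.rpow_natCast, ← Real.rpow_mul hX0.le]
        rw [h9]
        calc 1 / (8 * X * len k.1 k.2) * X ^ (ω * s) ≤ X ^ (-(1 + κ)) * X ^ (ω * s) := by gcongr
          _ = X ^ (ω * s - (1 + κ)) := by rw [← Real.rpow_add hX0]; congr 1; ring
      -- reduce to the fundamental interval
      have hper : ∀ k ∈ T, Function.Periodic
          (iteratedDeriv j (gk (1 / (8 * X * len k.1 k.2)) w (ang k.1 k.2))) (2 * Real.pi) := by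
        intro k hk
        have hp := (gk_basic _ w (ang k.1 k.2) (hα0 k (hT hk)) (hα1 k (hT hk)) hw0).2.1
        intro x
        have : (fun x => gk (1 / (8 * X * len k.1 k.2)) w (ang k.1 k.2) (x + 2 * Real.pi))
            = gk (1 / (8 * X * len k.1 k.2)) w (ang k.1 k.2) := funext hp
        have h2 := congrFun (iteratedDeriv_comp_add_const j
          (gk (1 / (8 * X * len k.1 k.2)) w (ang k.1 k.2)) (2 * Real.pi)) x
        rw [this] at h2
        exact h2.symm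
      have hsum : iteratedDeriv j (fun φ => ∑ k ∈ T,
          gk (1 / (8 * X * len k.1 k.2)) w (ang k.1 k.2) φ) φ
          = ∑ k ∈ T, iteratedDeriv j (gk (1 / (8 * X * len k.1 k.2)) w (ang k.1 k.2)) φ := by
        rw [iteratedDeriv_fun_sum]
        intro k hk
        exact ((hsm k hk).of_le (by exact_mod_cast le_top)).contDiffAt
      rw [hsum]
      have hred : ∃ φ' ∈ Ioc (-Real.pi) Real.pi, ∀ k ∈ T,
          iteratedDeriv j (gk (1 / (8 * X * len k.1 k.2)) w (ang k.1 k.2)) φ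
            = iteratedDeriv j (gk (1 / (8 * X * len k.1 k.2)) w (ang k.1 k.2)) φ' := by
        refine ⟨toIocMod Real.two_pi_pos (-Real.pi) φ, ?_, ?_⟩
        · have := toIocMod_mem_Ioc Real.two_pi_pos (-Real.pi) φ
          have h2 : -Real.pi + 2 * Real.pi = Real.pi := by ring
          rwa [h2] at this
        · intro k hk
          rw [toIocMod, zsmul_eq_mul]
          exact ((hper k hk).sub_int_mul_eq _).symm
      obtain ⟨φ', hφ', he⟩ := hred
      rw [Finset.sum_congr rfl he]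
      by_cases hex : ∃ k ∈ T, 1 - Real.cos (φ' - ang k.1 k.2) ≤ w ^ 2 / 2
      · obtain ⟨k, hk, hk2⟩ := hex
        rw [Finset.sum_eq_single_of_mem k hk]
        · exact hbd k hk φ'
        · intro k' hk' hne
          apply gk_loc_zero _ w _ _ (hα0 k' (hT hk')) (hα1 k' (hT hk')) hw0
          by_contra hc
          push Not at hc
          exact hdisj k' (hT hk') k (hT hk) hne φ' hφ' ⟨hc, hk2⟩
      · push Not at hex
        rw [Finset.sum_eq_zero]
        · simpa using hδ.le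
        · intro k hk
          exact gk_loc_zero _ w _ _ (hα0 k (hT hk)) (hα1 k (hT hk)) hw0 (hex k hk) j

theorem stage (s : ℕ) (hs : 3 ≤ s) (κ : ℝ) (hκ : 0 < κ) (hκ1 : κ * (2 * s - 1) < 1)
    (a b : ℝ) (ha : 0 < a) (hab : a < b) (hb : b ≤ 1 / 2) (δ η : ℝ) (hδ : 0 < δ) (hη : 0 < η) :
    ∀ᶠ X : ℝ in atTop, ∃ R ∈ Icc X (X + 1), ∃ g₁ g₂ : ℝ → ℝ, Adm s δ a b g₁ ∧ Adm s δ a b g₂ ∧
      X ^ (1 / 2 + κ / 2 - η) ≤ err g₁ R - err g₂ R := by
  have hs' : (3:ℝ) ≤ s := by exact_mod_cast hs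
  have hs0 : (0:ℝ) < s := by linarith
  -- choice of ω
  obtain ⟨ω, hω1, hω2⟩ : ∃ ω, 2 * κ < ω ∧ ω < (1 + κ) / s := by
    apply exists_between
    rw [lt_div_iff₀ hs0]
    nlinarith
  have hω3 : ω * s < 1 + κ := by rwa [lt_div_iff₀ hs0] at hω2
  have hκ5 : κ < 1 / 5 := by nlinarith
  have hω4 : ω < 1 / 2 := by nlinarith
  obtain ⟨ψ, hψ, c, hc, hkey⟩ := key κ ω hκ hω1 hω4 (by linarith)
  have hb1 := stage_bumps s a b δ κ ω ha hab hb hδ hκ hω1 hω3
  have hη1 : 0 < η / (2 * κ) := by positivity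
  have hdir := many_dirs (a + (b - a) / 4) (b - (b - a) / 4) (by linarith) (by linarith)
    (by linarith) (η / (2 * κ)) hη1
  have hdir' := (tendsto_rpow_atTop hκ).eventually hdir
  have e1 : ∀ᶠ X : ℝ in atTop, 2 / c ≤ X ^ (η / 2) :=
    (tendsto_rpow_atTop (by positivity)).eventually (eventually_ge_atTop _)
  filter_upwards [hkey, hb1, hdir', e1, eventually_ge_atTop 4] with X hk1 hk2 hk3 hk4 hX4
  have hX0 : 0 < X := by linarith
  obtain ⟨S, hS, hcard⟩ := hk3
  obtain ⟨hdisj, hcont, hadm⟩ := hk2 S hS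
  have hK : 0 < X ^ κ := Real.rpow_pos_of_pos hX0 _
  -- the sum of the lower bounds
  set g : ℤ × ℤ → ℝ → ℝ := fun k => gk (1 / (8 * X * len k.1 k.2)) (X ^ (-ω)) (ang k.1 k.2) with hg
  set V : ℝ := ∑ k ∈ S, c * (X / len k.1 k.2) / Real.sqrt (X * len k.1 k.2) with hV
  have hVlow : 2 * X ^ (1 / 2 + κ / 2 - η) ≤ V := by
    have hterm : ∀ k ∈ S, c * X ^ (1 / 2 - 3 / 2 * κ)
        ≤ c * (X / len k.1 k.2) / Real.sqrt (X * len k.1 k.2) := by
      intro k hk
      obtain ⟨_, _, _, h4, h5, _, _⟩ := hS k hk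
      have hl0 : 0 < len k.1 k.2 := by
        have : 0 < X ^ κ / 8 := by positivity
        linarith
      rw [mul_div_assoc]
      refine mul_le_mul_of_nonneg_left ?_ hc.le
      have h6 : X / len k.1 k.2 / Real.sqrt (X * len k.1 k.2)
          = X ^ (1/2 : ℝ) * (len k.1 k.2) ^ (-(3/2) : ℝ) := by
        rw [Real.sqrt_eq_rpow, Real.mul_rpow hX0.le hl0.le]
        have a1 : X ^ (1/2:ℝ) * X ^ (1/2:ℝ) = X := by
          rw [← Real.rpow_add hX0]; norm_num
        have a2 : len k.1 k.2 ^ (-(3/2):ℝ) = (len k.1 k.2)⁻¹ * (len k.1 k.2 ^ (1/2:ℝ))⁻¹ := by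
          rw [← Real.rpow_neg_one, ← Real.rpow_neg hl0.le, ← Real.rpow_add hl0]; norm_num
        rw [a2]
        have a3 : X ^ (1/2:ℝ) ≠ 0 := (Real.rpow_pos_of_pos hX0 _).ne'
        have a4 : len k.1 k.2 ^ (1/2:ℝ) ≠ 0 := (Real.rpow_pos_of_pos hl0 _).ne'
        rw [div_div, div_eq_iff (by positivity)]
        generalize X ^ (1/2:ℝ) = u at *
        generalize len k.1 k.2 ^ (1/2:ℝ) = v at *
        field_simp
        nlinarith [a1]
      rw [h6]
      have h7 : X ^ (1 / 2 - 3 / 2 * κ) = X ^ (1/2:ℝ) * (X ^ κ) ^ (-(3/2) : ℝ) := by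
        rw [← Real.rpow_mul hX0.le, ← Real.rpow_add hX0]; congr 1; ring
      rw [h7]
      refine mul_le_mul_of_nonneg_left ?_ (Real.rpow_nonneg hX0.le _)
      exact Real.rpow_le_rpow_of_nonpos hl0 h5 (by norm_num)
    have h1 : (S.card : ℝ) * (c * X ^ (1 / 2 - 3 / 2 * κ)) ≤ V := by
      rw [← nsmul_eq_mul]
      exact Finset.card_nsmul_le_sum _ _ _ hterm
    refine le_trans ?_ h1
    have h2 : (X ^ κ) ^ (2 - η / (2 * κ)) = X ^ (2 * κ - η / 2) := by
      rw [← Real.rpow_mul hX0.le]; congr 1; field_simp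
    rw [h2] at hcard
    have hcp : 0 ≤ c * X ^ (1 / 2 - 3 / 2 * κ) := by positivity
    refine le_trans ?_ (mul_le_mul_of_nonneg_right hcard hcp)
    have h3 : X ^ (2 * κ - η / 2) * (c * X ^ (1 / 2 - 3 / 2 * κ))
        = (c * X ^ (η / 2)) * X ^ (1 / 2 + κ / 2 - η) := by
      have : X ^ (2 * κ - η / 2) * X ^ (1 / 2 - 3 / 2 * κ) = X ^ (η / 2) * X ^ (1 / 2 + κ / 2 - η) := by
        rw [← Real.rpow_add hX0, ← Real.rpow_add hX0]; congr 1; ring
      calc _ = c * (X ^ (2 * κ - η / 2) * X ^ (1 / 2 - 3 / 2 * κ)) := by ring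
        _ = _ := by rw [this]; ring
    rw [h3]
    refine mul_le_mul_of_nonneg_right ?_ (Real.rpow_nonneg hX0.le _)
    rw [div_le_iff₀ hc] at hk4
    linarith
  have hVpos : 0 < V := lt_of_lt_of_le (by positivity) hVlow
  -- the test
  have htest : ∀ k ∈ S, c * (X / len k.1 k.2) / Real.sqrt (X * len k.1 k.2)
      ≤ ∫ r, ψ r * |err (g k) (X + r) - err 0 (X + r)| := by
    intro k hk
    obtain ⟨p1, p2, p3, p4, p5, p6, p7⟩ := hS k hk
    refine (hk1 k.1 k.2 p1 p2 p3 p4 p5).trans ?_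
    refine (norm_integral_le_integral_norm _).trans (le_of_eq ?_)
    congr 1
    ext r
    rw [norm_mul, norm_mul, Complex.norm_real, Complex.norm_real, Real.norm_eq_abs,
      Real.norm_eq_abs, abs_of_nonneg (hψ.nonneg r)]
    have : ‖e (-(len k.1 k.2 * (X + r)))‖ = 1 := by
      unfold e
      exact Complex.norm_exp_ofReal_mul_I _
    rw [this, mul_one]
  have hVint : V ≤ ∫ r, ψ r * ∑ k ∈ S, |err (g k) (X + r) - err 0 (X + r)| := by
    have h1 : V ≤ ∑ k ∈ S, ∫ r, ψ r * |err (g k) (X + r) - err 0 (X + r)| :=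
      Finset.sum_le_sum htest
    rw [← integral_finset_sum] at h1
    · simpa only [Finset.mul_sum] using h1
    · intro k hk
      exact err_integrable ψ hψ (g k) (hcont k hk).1 (hcont k hk).2 X
  -- a good radius
  obtain ⟨r, hr, hrV⟩ : ∃ r ∈ Icc (1 / 4 : ℝ) (3 / 4),
      V / 2 ≤ ∑ k ∈ S, |err (g k) (X + r) - err 0 (X + r)| := by
    by_contra hcon
    push Not at hcon
    have hle : ∫ r, ψ r * ∑ k ∈ S, |err (g k) (X + r) - err 0 (X + r)| ≤ ∫ r, ψ r * (V / 2) := by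
      apply integral_mono
      · simp only [Finset.mul_sum]
        exact integrable_finset_sum _ fun k hk =>
          err_integrable ψ hψ (g k) (hcont k hk).1 (hcont k hk).2 X
      · apply Integrable.mul_const
        by_contra hni
        have := hψ.int_one
        rw [integral_undef hni] at this
        norm_num at this
      · intro r
        by_cases hr : r ∈ Icc (1 / 4 : ℝ) (3 / 4)
        · exact mul_le_mul_of_nonneg_left (hcon r hr).le (hψ.nonneg r)
        · simp [hψ.supp r hr]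
    rw [integral_mul_const, hψ.int_one, one_mul] at hle
    linarith
  refine ⟨X + r, ⟨by linarith [hr.1], by linarith [hr.2]⟩, ?_⟩
  classical
  have hR : 0 ≤ X + r := by linarith [hr.1]
  refine ⟨fun φ => ∑ k ∈ S.filter (fun k => 0 ≤ err (g k) (X + r) - err 0 (X + r)), g k φ,
    fun φ => ∑ k ∈ S.filter (fun k => ¬ 0 ≤ err (g k) (X + r) - err 0 (X + r)), g k φ,
    hadm _ (Finset.filter_subset _ _), hadm _ (Finset.filter_subset _ _), ?_⟩
  have hs1 : ∀ T ⊆ S, err (fun φ => ∑ k ∈ T, g k φ) (X + r) - err 0 (X + r)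
      = ∑ k ∈ T, (err (g k) (X + r) - err 0 (X + r)) := by
    intro T hT
    apply err_sum T g
    · exact fun k hk => (hcont k (hT hk)).1
    · exact fun k hk => (hcont k (hT hk)).2
    · exact fun k hk k' hk' hne => hdisj k (hT hk) k' (hT hk') hne
    · exact hR
  have h1 := hs1 _ (Finset.filter_subset (fun k => 0 ≤ err (g k) (X + r) - err 0 (X + r)) S)
  have h2 := hs1 _ (Finset.filter_subset (fun k => ¬ 0 ≤ err (g k) (X + r) - err 0 (X + r)) S)
  have h3 : ∑ k ∈ S, |err (g k) (X + r) - err 0 (X + r)|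
      = ∑ k ∈ S.filter (fun k => 0 ≤ err (g k) (X + r) - err 0 (X + r)),
          (err (g k) (X + r) - err 0 (X + r))
        - ∑ k ∈ S.filter (fun k => ¬ 0 ≤ err (g k) (X + r) - err 0 (X + r)),
          (err (g k) (X + r) - err 0 (X + r)) := by
    rw [← Finset.sum_filter_add_sum_filter_not S
      (fun k => 0 ≤ err (g k) (X + r) - err 0 (X + r)), sub_eq_add_neg, ← Finset.sum_neg_distrib]
    congr 1
    · refine Finset.sum_congr rfl fun k hk => ?_
      exact abs_of_nonneg (Finset.mem_filter.1 hk).2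
    · refine Finset.sum_congr rfl fun k hk => ?_
      exact abs_of_neg (not_le.1 (Finset.mem_filter.1 hk).2)
  linarith

end Pool.Agent.Helper92.CS
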