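import Pool.Agent.Helper92.CS.Defs

/-!
CS-TestFn (project CS, MP_fb29e9_nt; README: /team-store/h92_CS_README.md). About ~20 lines.

PROOF. ContDiffBump centred at 1/2 with rIn = 1/8, rOut = 1/4, .normed volume: smooth, nonneg, integral 1, support = ball(1/2, 1/4) subset Icc (1/4) (3/4).
-/

open MeasureTheory Set Filter Topology

noncomputable section

namespace Pool.Agent.Helper92.CS

theorem exists_test : ∃ ψ : ℝ → ℝ, IsTest ψ := by
  let f : ContDiffBump (1 / 2 : ℝ) := ⟨1 / 8, 1 / 4, by norm_num, by norm_num⟩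
  refine ⟨f.normed volume, ?_, f.nonneg_normed, ?_, f.integral_normed⟩
  · exact f.contDiff_normed
  · intro r hr
    have hs : Function.support (f.normed volume) = Metric.ball (1 / 2 : ℝ) (1 / 4) :=
      f.support_normed_eq
    by_contra hne
    have h1 : r ∈ Metric.ball (1 / 2 : ℝ) (1 / 4) := by
      rw [← hs]
      exact hne
    rw [Metric.mem_ball, Real.dist_eq, abs_lt] at h1
    exact hr ⟨by linarith [h1.1], by linarith [h1.2]⟩

end Pool.Agent.Helper92.CS
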